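import Mathlib

/-!
# Counting the zeros of a family of maps near a nondegenerate limit
-/

set_option autoImplicit false

namespace Pool.Agent.Helper58.EF

open Filter Topology

variable {n : ℕ}

/-- `u` is a nondegenerate zero of `F (0, ·)`. -/
structure Nondeg (F : ℝ × (Fin n → ℝ) → Fin n → ℝ) (u : Fin n → ℝ) : Prop where
  smooth : ContDiffAt ℝ 1 F (0, u)
  zero : F (0, u) = 0
  inj : ∀ d : Fin n → ℝ, (∀ i, HasDerivAt (fun t : ℝ => F (0, u + t • d) i) 0 0) → d = 0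

/-- The zero near a nondegenerate zero. -/
theorem Nondeg.exists_local {F : ℝ × (Fin n → ℝ) → Fin n → ℝ} {u : Fin n → ℝ}
    (h : Nondeg F u) : ∃ g : ℝ → (Fin n → ℝ), Tendsto g (𝓝 0) (𝓝 u) ∧
      (∀ᶠ ε in 𝓝 (0 : ℝ), F (ε, g ε) = 0) ∧
      ∀ᶠ q in 𝓝 (0 : ℝ) ×ˢ 𝓝 u, F q = 0 → q.2 = g q.1 := by
  have hs : HasStrictFDerivAt F (fderiv ℝ F (0, u)) (0, u) :=
    h.smooth.hasStrictFDerivAt (by norm_num)
  set F' := fderiv ℝ F (0, u) with hF'
  let Φ : ℝ × (Fin n → ℝ) → ℝ × (Fin n → ℝ) := fun q => (q.1, F q)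
  let Φ' : ℝ × (Fin n → ℝ) →L[ℝ] ℝ × (Fin n → ℝ) :=
    (ContinuousLinearMap.fst ℝ ℝ (Fin n → ℝ)).prod F'
  have hΦ : HasStrictFDerivAt Φ Φ' (0, u) := hasStrictFDerivAt_fst.prodMk hs
  have hinj : Function.Injective Φ' := by
    rw [injective_iff_map_eq_zero]
    rintro ⟨a, d⟩ hq
    have h1 : a = 0 := congrArg Prod.fst hq
    have h2 : F' (a, d) = 0 := congrArg Prod.snd hq
    subst h1
    have h3 : d = 0 := by
      apply h.inj
      intro i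
      have h4 : HasDerivAt (fun t : ℝ => ((0 : ℝ), u + t • d)) ((0 : ℝ), d) 0 := by
        have e1 : HasDerivAt (fun t : ℝ => u + t • d) d 0 := by
          have := ((hasDerivAt_id (0 : ℝ)).smul_const d).const_add u
          simpa using this
        exact (hasDerivAt_const (0 : ℝ) (0 : ℝ)).prodMk e1
      have h5 : HasFDerivAt F F' ((0 : ℝ), u + (0 : ℝ) • d) := by
        rw [zero_smul, add_zero]
        exact hs.hasFDerivAt
      have h6 := h5.comp_hasDerivAt (0 : ℝ) h4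
      have h7 := (hasDerivAt_pi.1 h6) i
      rw [h2] at h7
      exact h7
    rw [h3]
    rfl
  have hker : (Φ' : ℝ × (Fin n → ℝ) →ₗ[ℝ] ℝ × (Fin n → ℝ)).ker = ⊥ :=
    LinearMap.ker_eq_bot.2 hinj
  let e : (ℝ × (Fin n → ℝ)) ≃ₗ[ℝ] (ℝ × (Fin n → ℝ)) :=
    LinearEquiv.ofInjectiveEndo (Φ' : ℝ × (Fin n → ℝ) →ₗ[ℝ] ℝ × (Fin n → ℝ)) hinj
  let eL : (ℝ × (Fin n → ℝ)) ≃L[ℝ] (ℝ × (Fin n → ℝ)) := e.toContinuousLinearEquiv
  have heL : (eL : ℝ × (Fin n → ℝ) →L[ℝ] ℝ × (Fin n → ℝ)) = Φ' := by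
    ext x <;> rfl
  have hΦ2 : HasStrictFDerivAt Φ (eL : ℝ × (Fin n → ℝ) →L[ℝ] ℝ × (Fin n → ℝ)) (0, u) := by
    rw [heL]; exact hΦ
  have hΦ0 : Φ (0, u) = (0, 0) := by
    show ((0 : ℝ), F (0, u)) = (0, 0)
    rw [h.zero]
  have l1 := hΦ2.eventually_left_inverse
  have l2 := hΦ2.eventually_right_inverse
  have l3 := hΦ2.localInverse_continuousAt
  have l4 := hΦ2.localInverse_apply_image
  rw [hΦ0] at l2 l3 l4
  set G := hΦ2.localInverse Φ eL (0, u) with hG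
  have hc : Tendsto (fun ε : ℝ => ((ε, 0) : ℝ × (Fin n → ℝ))) (𝓝 0) (𝓝 (0, 0)) :=
    (Continuous.prodMk_left (0 : Fin n → ℝ)).tendsto 0
  refine ⟨fun ε => (G (ε, 0)).2, ?_, ?_, ?_⟩
  · have t1 : Tendsto G (𝓝 (0, 0)) (𝓝 (0, u)) := by
      have := l3.tendsto
      rwa [l4] at this
    exact (continuous_snd.tendsto (0, u)).comp (t1.comp hc)
  · filter_upwards [hc.eventually l2] with ε hε
    have g1 : (G (ε, 0)).1 = ε := congrArg Prod.fst hε
    have g2 : F (G (ε, 0)) = 0 := congrArg Prod.snd hε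
    have g3 : G (ε, 0) = (ε, (G (ε, 0)).2) := Prod.ext g1 rfl
    rw [g3] at g2
    exact g2
  · rw [nhds_prod_eq] at l1
    filter_upwards [l1] with q hq hF
    have g1 : Φ q = (q.1, 0) := by
      show (q.1, F q) = (q.1, 0)
      rw [hF]
    rw [g1] at hq
    exact (congrArg Prod.snd hq).symm

/-- The number of zeros. -/
theorem count_zeros (F : ℝ × (Fin n → ℝ) → Fin n → ℝ) (K : Set (Fin n → ℝ)) (hK : IsCompact K)
    (Z : Finset (Fin n → ℝ)) (S : ℝ → Set (Fin n → ℝ))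
    (hcont : ∀ u ∈ K, ContinuousAt F (0, u)) (hzero : ∀ u ∈ K, F (0, u) = 0 → u ∈ Z)
    (hnd : ∀ u ∈ Z, Nondeg F u)
    (h1 : ∀ᶠ ε in 𝓝[>] (0 : ℝ), ∀ u ∈ S ε, u ∈ K ∧ F (ε, u) = 0)
    (h2 : ∀ z ∈ Z, ∀ᶠ q in 𝓝[>] (0 : ℝ) ×ˢ 𝓝 z, F q = 0 → q.2 ∈ S q.1) :
    ∀ᶠ ε in 𝓝[>] (0 : ℝ), (S ε).Finite ∧ (S ε).ncard = Z.card := by
  classical
  have hex : ∀ z : Fin n → ℝ, ∃ g : ℝ → (Fin n → ℝ), z ∈ Z → Tendsto g (𝓝 0) (𝓝 z) ∧
      (∀ᶠ ε in 𝓝 (0 : ℝ), F (ε, g ε) = 0) ∧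
      ∀ᶠ q in 𝓝 (0 : ℝ) ×ˢ 𝓝 z, F q = 0 → q.2 = g q.1 := by
    intro z
    by_cases hz : z ∈ Z
    · obtain ⟨g, hg⟩ := (hnd z hz).exists_local
      exact ⟨g, fun _ => hg⟩
    · exact ⟨fun _ => z, fun h => absurd h hz⟩
  choose g hg using hex
  -- every zero in `K` is one of the `g z ε`
  have hA : ∀ᶠ ε in 𝓝[>] (0 : ℝ), ∀ u ∈ K, F (ε, u) = 0 → ∃ z ∈ Z, u = g z ε := by
    have hloc : ∀ u ∈ K, ∀ᶠ q : (Fin n → ℝ) × ℝ in 𝓝 (u, (0 : ℝ)),
        F (q.2, q.1) = 0 → ∃ z ∈ Z, q.1 = g z q.2 := by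
      intro u hu
      rw [nhds_prod_eq]
      by_cases hz : u ∈ Z
      · have := (hg u hz).2.2
        have h3 : ∀ᶠ q : (Fin n → ℝ) × ℝ in 𝓝 u ×ˢ 𝓝 (0 : ℝ), F (q.2, q.1) = 0 →
            q.1 = g u q.2 := by
          rw [Filter.prod_comm, Filter.eventually_map]
          exact this
        filter_upwards [h3] with q hq hF
        exact ⟨u, hz, hq hF⟩
      · have hne : F (0, u) ≠ 0 := fun h => hz (hzero u hu h)
        have h3 : ∀ᶠ q in 𝓝 ((0 : ℝ), u), F q ≠ 0 := (hcont u hu).eventually_ne hne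
        rw [nhds_prod_eq] at h3
        have h4 : ∀ᶠ q : (Fin n → ℝ) × ℝ in 𝓝 u ×ˢ 𝓝 (0 : ℝ), F (q.2, q.1) ≠ 0 := by
          rw [Filter.prod_comm, Filter.eventually_map]
          exact h3
        filter_upwards [h4] with q hq hF
        exact absurd hF hq
    have h3 : ∀ᶠ ε in 𝓝 (0 : ℝ), ∀ u ∈ K, F (ε, u) = 0 → ∃ z ∈ Z, u = g z ε := by
      have := hK.eventually_forall_of_forall_eventually (x₀ := (0 : ℝ))
        (P := fun ε u => F (ε, u) = 0 → ∃ z ∈ Z, u = g z ε) (fun u hu => by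
          have h4 := hloc u hu
          rw [nhds_prod_eq, Filter.prod_comm, Filter.eventually_map] at h4
          rw [nhds_prod_eq]
          exact h4)
      exact this
    exact h3.filter_mono nhdsWithin_le_nhds
  have hB : ∀ᶠ ε in 𝓝[>] (0 : ℝ), ∀ z ∈ Z, g z ε ∈ S ε := by
    rw [Filter.eventually_all_finset]
    intro z hz
    have t : Tendsto (fun ε : ℝ => (ε, g z ε)) (𝓝[>] 0) (𝓝[>] 0 ×ˢ 𝓝 z) :=
      Filter.Tendsto.prodMk tendsto_id ((hg z hz).1.mono_left nhdsWithin_le_nhds)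
    filter_upwards [t.eventually (h2 z hz), (hg z hz).2.1.filter_mono nhdsWithin_le_nhds]
      with ε e1 e2
    exact e1 e2
  have hC : ∀ᶠ ε in 𝓝[>] (0 : ℝ), ∀ z ∈ Z, ∀ z' ∈ Z, g z ε = g z' ε → z = z' := by
    rw [Filter.eventually_all_finset]
    intro z hz
    rw [Filter.eventually_all_finset]
    intro z' hz'
    by_cases hne : z = z'
    · exact Filter.Eventually.of_forall fun _ _ => hne
    · have t1 := (hg z hz).1.mono_left (nhdsWithin_le_nhds (s := Set.Ioi (0 : ℝ)))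
      have t2 := (hg z' hz').1.mono_left (nhdsWithin_le_nhds (s := Set.Ioi (0 : ℝ)))
      have t3 := (t1.prodMk_nhds t2).eventually
        ((isOpen_ne_fun continuous_fst continuous_snd).mem_nhds hne)
      filter_upwards [t3] with ε hε h3
      exact absurd h3 hε
  filter_upwards [hA, hB, hC, h1] with ε eA eB eC e1
  have hS : S ε = (Z.image fun z => g z ε : Finset (Fin n → ℝ)) := by
    ext u
    rw [Finset.mem_coe, Finset.mem_image]
    constructor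
    · intro hu
      obtain ⟨z, hz, h3⟩ := eA u (e1 u hu).1 (e1 u hu).2
      exact ⟨z, hz, h3.symm⟩
    · rintro ⟨z, hz, rfl⟩
      exact eB z hz
  rw [hS]
  refine ⟨Finset.finite_toSet _, ?_⟩
  rw [Set.ncard_coe_finset, Finset.card_image_of_injOn]
  intro z hz z' hz' h3
  exact eC z hz z' hz' h3

end Pool.Agent.Helper58.EF
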