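import Pool.Agent.Helper58.EF.Row
import Pool.Agent.Helper58.EF.Count

/-!
# Four blocks, three of them small: the chart of a pair

The blocks `1`, `2`, `3` have the sizes `ε q1`, `ε q2`, `ε q3`, and the block `4` has the size `1 - ε`.
In this chart `x12 = ε y`, `x14 - x24 = ε y z`, `x13 - x23 = ε y ζ`.
-/

set_option autoImplicit false

namespace Pool.Agent.Helper58.EF

/-- The six equations. -/
def Eqs (p1 p2 p3 p4 x12 x13 w1 x23 w2 w3 : ℝ) : Prop :=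
  x12 = p1 + p2 + p3 * bt x12 x13 x23 + p4 * bt x12 w1 w2 ∧
  x13 = p1 + p3 + p2 * bt x13 x12 x23 + p4 * bt x13 w1 w3 ∧
  x23 = p2 + p3 + p1 * bt x23 x12 x13 + p4 * bt x23 w2 w3 ∧
  w1 = p1 + p4 + p2 * bt w1 x12 w2 + p3 * bt w1 x13 w3 ∧
  w2 = p2 + p4 + p1 * bt w2 x12 w1 + p3 * bt w2 x23 w3 ∧
  w3 = p3 + p4 + p1 * bt w3 x13 w1 + p2 * bt w3 x23 w2

/-- `(x12 - q1 - q2) / ε`. -/
noncomputable def y1 (q3 ε z ζ y w1 w2 x13 X : ℝ) : ℝ :=
  (1 - ε) * y ^ 2 * (1 - z ^ 2) / (2 * w1 * w2) + ε * q3 * y ^ 2 * (1 - ζ ^ 2) / (2 * x13 * X)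

noncomputable def dl (z ζ y w1 w2 w3 x13 X : ℝ) : ℝ :=
  y * (z * (w1 + w2) * X - ζ * (w2 ^ 2 - w3 ^ 2) - ζ * x13 * X) / (2 * x13 * X * w3)

noncomputable def kp (z ζ w1 w2 w3 x13 X : ℝ) : ℝ :=
  (w2 * ζ * (x13 + X) - z * (X ^ 2 + w1 * w2 - w3 ^ 2)) / (2 * w1 * w2 * w3)

/-- The equations of the chart. -/
noncomputable def fB (q1 q2 q3 ε z ζ y w2 w3 X w1 x13 : ℝ) : Fin 6 → ℝ :=
  ![y - (q1 + q2) - ε * y1 q3 ε z ζ y w1 w2 x13 X,
    y1 q3 ε z ζ y w1 w2 x13 X * z + y * (1 - z ^ 2) * (q2 / (2 * w2) - q1 / (2 * w1)) -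
      q3 * dl z ζ y w1 w2 w3 x13 X,
    (q1 - q2) + (1 - ε) * y * kp z ζ w1 w2 w3 x13 X +
      q2 * ((x13 + X - ε * y) * (1 + ζ) / (2 * X)) -
      q1 * ((x13 + X - ε * y) * (1 - ζ) / (2 * x13)) - y * ζ,
    w2 - (ε * q2 + (1 - ε) + ε * q1 * ((1 - z) - ε * y * (1 - z ^ 2) / (2 * w1)) +
      ε * q3 * bt w2 X w3),
    w3 - (ε * q3 + (1 - ε) + ε * q1 * bt w3 x13 w1 + ε * q2 * bt w3 X w2),
    X - (ε * q2 + ε * q3 + ε * q1 * ((x13 + X - ε * y) * (1 - ζ) / (2 * x13)) +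
      (1 - ε) * bt X w2 w3)]

theorem chartB {q1 q2 q3 ε z ζ y w2 w3 X w1 x13 x12 : ℝ} (hε : 0 < ε) (h12 : x12 = ε * y)
    (hw1 : w1 = w2 + ε * y * z) (h13 : x13 = X + ε * y * ζ) (hy : 0 < y) (p1 : 0 < w1)
    (p2 : 0 < w2) (p3 : 0 < w3) (pX : 0 < X) (p13 : 0 < x13) :
    fB q1 q2 q3 ε z ζ y w2 w3 X w1 x13 = 0 ↔
      Eqs (ε * q1) (ε * q2) (ε * q3) (1 - ε) x12 x13 w1 X w2 w3 := by
  have n1 : w1 ≠ 0 := p1.ne'
  have n2 : w2 ≠ 0 := p2.ne'
  have n3 : w3 ≠ 0 := p3.ne'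
  have nX : X ≠ 0 := pX.ne'
  have n13 : x13 ≠ 0 := p13.ne'
  have nε : ε ≠ 0 := hε.ne'
  have ny : y ≠ 0 := hy.ne'
  have a1 : bt x12 w1 w2 = ε * (ε * (y ^ 2 * (1 - z ^ 2) / (2 * w1 * w2))) := by
    unfold bt
    rw [h12, show w1 - w2 = ε * y * z by rw [hw1]; ring]
    field_simp
  have a2 : bt x12 x13 X = ε * (ε * (y ^ 2 * (1 - ζ ^ 2) / (2 * x13 * X))) := by
    unfold bt
    rw [h12, show x13 - X = ε * y * ζ by rw [h13]; ring]
    field_simp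
  have a3 : bt w1 x12 w2 = (1 + z) - ε * y * (1 - z ^ 2) / (2 * w2) := by
    unfold bt
    rw [h12, div_eq_iff (by positivity), hw1]
    field_simp
    ring
  have a4 : bt w2 x12 w1 = (1 - z) - ε * y * (1 - z ^ 2) / (2 * w1) := by
    unfold bt
    rw [h12, div_eq_iff (by positivity)]
    have e : w2 = w1 - ε * y * z := by rw [hw1]; ring
    rw [e]
    field_simp
    ring
  have a5 : bt x13 x12 X = (x13 + X - ε * y) * (1 + ζ) / (2 * X) := by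
    unfold bt
    rw [h12, div_eq_div_iff (by positivity) (by positivity), h13]
    ring
  have a6 : bt X x12 x13 = (x13 + X - ε * y) * (1 - ζ) / (2 * x13) := by
    unfold bt
    rw [h12, div_eq_div_iff (by positivity) (by positivity)]
    have e : X = x13 - ε * y * ζ := by rw [h13]; ring
    rw [e]
    ring
  have a7 : bt w1 x13 w3 - bt w2 X w3 = ε * dl z ζ y w1 w2 w3 x13 X := by
    unfold bt dl
    rw [div_sub_div _ _ (by positivity) (by positivity), ← mul_div_assoc,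
      div_eq_div_iff (by positivity) (by positivity), hw1, h13]
    ring
  have a8 : bt x13 w1 w3 - bt X w2 w3 = ε * (y * kp z ζ w1 w2 w3 x13 X) := by
    unfold bt kp
    rw [div_sub_div _ _ (by positivity) (by positivity), ← mul_div_assoc, ← mul_div_assoc,
      div_eq_div_iff (by positivity) (by positivity), hw1, h13]
    ring
  have a7' : bt w1 x13 w3 = bt w2 X w3 + ε * dl z ζ y w1 w2 w3 x13 X := by rw [← a7]; ring
  have a8' : bt x13 w1 w3 = bt X w2 w3 + ε * (y * kp z ζ w1 w2 w3 x13 X) := by rw [← a8]; ring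
  unfold Eqs
  rw [a1, a2, a3, a4, a5, a6, a7', a8', h12]
  set b3 := bt w2 X w3
  set c3 := bt X w2 w3
  have hY : y1 q3 ε z ζ y w1 w2 x13 X = (1 - ε) * (y ^ 2 * (1 - z ^ 2) / (2 * w1 * w2)) +
      ε * q3 * (y ^ 2 * (1 - ζ ^ 2) / (2 * x13 * X)) := by
    unfold y1
    ring
  set D1 := y ^ 2 * (1 - z ^ 2) / (2 * w1 * w2)
  set D2 := y ^ 2 * (1 - ζ ^ 2) / (2 * x13 * X)
  set Y1 := y1 q3 ε z ζ y w1 w2 x13 X
  set Dl := dl z ζ y w1 w2 w3 x13 X with hDl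
  set Kp := kp z ζ w1 w2 w3 x13 X with hKp
  have hf : fB q1 q2 q3 ε z ζ y w2 w3 X w1 x13 = 0 ↔
      (y - (q1 + q2) - ε * Y1 = 0 ∧
      Y1 * z + y * (1 - z ^ 2) * (q2 / (2 * w2) - q1 / (2 * w1)) - q3 * Dl = 0 ∧
      (q1 - q2) + (1 - ε) * y * Kp + q2 * ((x13 + X - ε * y) * (1 + ζ) / (2 * X)) -
        q1 * ((x13 + X - ε * y) * (1 - ζ) / (2 * x13)) - y * ζ = 0 ∧
      w2 - (ε * q2 + (1 - ε) + ε * q1 * ((1 - z) - ε * y * (1 - z ^ 2) / (2 * w1)) +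
        ε * q3 * b3) = 0 ∧
      w3 - (ε * q3 + (1 - ε) + ε * q1 * bt w3 x13 w1 + ε * q2 * bt w3 X w2) = 0 ∧
      X - (ε * q2 + ε * q3 + ε * q1 * ((x13 + X - ε * y) * (1 - ζ) / (2 * x13)) +
        (1 - ε) * c3) = 0) := by
    rw [funext_iff]
    simp only [Fin.forall_fin_succ, fB]
    simp
    exact Iff.rfl
  rw [hf]
  constructor
  · rintro ⟨g0, g1, g2, g3, g4, g5⟩
    refine ⟨?_, ?_, ?_, ?_, ?_, ?_⟩
    · linear_combination ε * g0 + ε ^ 2 * hY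
    · linear_combination g5 - ε * g2 + h13
    · linear_combination g5
    · linear_combination g3 + ε * z * g0 + ε ^ 2 * g1 + hw1
    · linear_combination g3
    · linear_combination g4
  · rintro ⟨e12, e13, e23, e14, e24, e34⟩
    have g0 : y - (q1 + q2) - ε * Y1 = 0 := by
      have : ε * (y - (q1 + q2) - ε * Y1) = 0 := by linear_combination e12 - ε ^ 2 * hY
      exact (mul_eq_zero.1 this).resolve_left nε
    refine ⟨g0, ?_, ?_, ?_, ?_, ?_⟩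
    · have : ε ^ 2 * (Y1 * z + y * (1 - z ^ 2) * (q2 / (2 * w2) - q1 / (2 * w1)) - q3 * Dl) =
          0 := by
        linear_combination e14 - e24 - ε * z * g0 - hw1
      exact (mul_eq_zero.1 this).resolve_left (pow_ne_zero 2 nε)
    · have : ε * ((q1 - q2) + (1 - ε) * y * Kp + q2 * ((x13 + X - ε * y) * (1 + ζ) / (2 * X)) -
        q1 * ((x13 + X - ε * y) * (1 - ζ) / (2 * x13)) - y * ζ) = 0 := by
        linear_combination e23 - e13 + h13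
      exact (mul_eq_zero.1 this).resolve_left nε
    · linear_combination e24
    · linear_combination e34
    · linear_combination e23

end Pool.Agent.Helper58.EF
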