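import Pool.Agent.Helper58.EF.TI
import Pool.Agent.Helper58.EF.ChartB

/-!
# Invariant Einstein metrics with four blocks: bounds, matrices
-/

set_option autoImplicit false

namespace Pool.Agent.Helper58.EF

theorem bt_comm (a b c : ℝ) : bt a b c = bt a c b := by
  unfold bt
  rw [show (b - c) ^ 2 = (c - b) ^ 2 by ring, mul_right_comm]

theorem bt_nonneg {a b c : ℝ} (hb : 0 < b) (hc : 0 < c) (h1 : b ≤ a + c) (h2 : c ≤ a + b) :
    0 ≤ bt a b c := by
  unfold bt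
  apply div_nonneg _ (by positivity)
  have h : a ^ 2 - (b - c) ^ 2 = (a + c - b) * (a + b - c) := by ring
  rw [h]
  exact mul_nonneg (by linarith) (by linarith)

theorem bt_le_two {a b c : ℝ} (hb : 0 < b) (hc : 0 < c) (ha : 0 < a) (h1 : a ≤ b + c) :
    bt a b c ≤ 2 := by
  unfold bt
  rw [div_le_iff₀ (by positivity)]
  nlinarith

variable {p : Fin 4 → ℝ} {x : Fin 4 → Fin 4 → ℝ} {a b c e : Fin 4}

theorem Sol.bt_nonneg (h : Sol p x) (hd : Dist a b c e) : 0 ≤ bt (x a b) (x a c) (x b c) := by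
  obtain ⟨d1, d2, d3, d4, d5, d6⟩ := hd
  have hd : Dist a b c e := ⟨d1, d2, d3, d4, d5, d6⟩
  have t1 := h.tri hd.cb
  have t2 := h.tri hd.ba.cb
  rw [h.symm c b] at t1
  rw [h.symm b a, h.symm c a] at t2
  exact EF.bt_nonneg (h.pos _ _ d2) (h.pos _ _ d4) (by linarith) (by linarith)

theorem Sol.bt_le_two (h : Sol p x) (hd : Dist a b c e) : bt (x a b) (x a c) (x b c) ≤ 2 := by
  obtain ⟨d1, d2, d3, d4, d5, d6⟩ := hd
  exact EF.bt_le_two (h.pos _ _ d2) (h.pos _ _ d4) (h.pos _ _ d1)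
    (h.tri ⟨d1, d2, d3, d4, d5, d6⟩)

/-- Lower bound. -/
theorem Sol.lower (h : Sol p x) (hd : Dist a b c e) : p a + p b ≤ x a b := by
  have e1 := h.eq a b c e hd
  have h1 := mul_nonneg (h.hp c).le (h.bt_nonneg hd)
  have h2 := mul_nonneg (h.hp e).le (h.bt_nonneg hd.ec)
  linarith

/-- Upper bound. -/
theorem Sol.upper (h : Sol p x) (hd : Dist a b c e) : x a b ≤ p a + p b + 2 * p c + 2 * p e := by
  have e1 := h.eq a b c e hd
  have h1 := mul_le_mul_of_nonneg_left (h.bt_le_two hd) (h.hp c).le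
  have h2 := mul_le_mul_of_nonneg_left (h.bt_le_two hd.ec) (h.hp e).le
  linarith

/-- The symmetric matrix with zero diagonal. -/
def mat (x12 x13 w1 x23 w2 w3 : ℝ) : Fin 4 → Fin 4 → ℝ :=
  ![![0, x12, x13, w1], ![x12, 0, x23, w2], ![x13, x23, 0, w3], ![w1, w2, w3, 0]]

theorem Sol.eqs (h : Sol p x) : Eqs (p 0) (p 1) (p 2) (p 3) (x 0 1) (x 0 2) (x 0 3) (x 1 2)
    (x 1 3) (x 2 3) := by
  refine ⟨?_, ?_, ?_, ?_, ?_, ?_⟩
  · exact h.eq 0 1 2 3 (by unfold Dist; decide)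
  · have e := h.eq 0 2 1 3 (by unfold Dist; decide)
    rw [h.symm 2 1] at e
    exact e
  · have e := h.eq 1 2 0 3 (by unfold Dist; decide)
    rw [h.symm 2 0, h.symm 1 0] at e
    exact e
  · have e := h.eq 0 3 1 2 (by unfold Dist; decide)
    rw [h.symm 3 1, h.symm 3 2] at e
    exact e
  · have e := h.eq 1 3 0 2 (by unfold Dist; decide)
    rw [h.symm 3 0, h.symm 3 2, h.symm 1 0] at e
    exact e
  · have e := h.eq 2 3 0 1 (by unfold Dist; decide)
    rw [h.symm 3 0, h.symm 3 1, h.symm 2 0, h.symm 2 1] at e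
    exact e

theorem sol_of_eqs (hp : ∀ i, 0 < p i) (hs : ∀ i j, x i j = x j i)
    (hpos : ∀ i j, i ≠ j → 0 < x i j)
    (h : Eqs (p 0) (p 1) (p 2) (p 3) (x 0 1) (x 0 2) (x 0 3) (x 1 2) (x 1 3) (x 2 3)) :
    Sol p x := by
  refine ⟨hp, hs, hpos, ?_⟩
  obtain ⟨e01, e02, e12, e03, e13, e23⟩ := h
  have s10 := hs 1 0
  have s20 := hs 2 0
  have s30 := hs 3 0
  have s21 := hs 2 1
  have s31 := hs 3 1
  have s32 := hs 3 2
  have c1 := bt_comm
  intro a b c e hd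
  fin_cases a <;> fin_cases b <;> fin_cases c <;> fin_cases e <;>
    first
    | (exfalso; revert hd; unfold Dist; decide)
    | (simp only [Fin.zero_eta, Fin.mk_one, Fin.reduceFinMk, s10, s20, s30, s21, s31, s32]
       clear hd
       first
       | linarith
       | (rw [c1 (x 0 1) (x 1 2) (x 0 2), c1 (x 0 1) (x 1 3) (x 0 3)]; linarith)
       | (rw [c1 (x 0 2) (x 1 2) (x 0 1), c1 (x 0 2) (x 2 3) (x 0 3)]; linarith)
       | (rw [c1 (x 1 2) (x 0 2) (x 0 1), c1 (x 1 2) (x 2 3) (x 1 3)]; linarith)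
       | (rw [c1 (x 0 3) (x 1 3) (x 0 1), c1 (x 0 3) (x 2 3) (x 0 2)]; linarith)
       | (rw [c1 (x 1 3) (x 0 3) (x 0 1), c1 (x 1 3) (x 2 3) (x 1 2)]; linarith)
       | (rw [c1 (x 2 3) (x 0 3) (x 0 2), c1 (x 2 3) (x 1 3) (x 1 2)]; linarith))

end Pool.Agent.Helper58.EF
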