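import Pool.Agent.Helper58.EF.Basic

/-!
# Bounds for the solutions
-/

set_option autoImplicit false

namespace Pool.Agent.Helper58.EF

open Filter Topology

/-- The sizes of the blocks: three small ones, and a large one. -/
def pq (q1 q2 q3 ε : ℝ) : Fin 4 → ℝ := ![ε * q1, ε * q2, ε * q3, 1 - ε]

/-- The solutions. -/
def XX (p : Fin 4 → ℝ) : Set (Fin 4 → Fin 4 → ℝ) := {x | Sol p x ∧ ∀ i, x i i = 0}

theorem mat_eta {p : Fin 4 → ℝ} {x : Fin 4 → Fin 4 → ℝ} (h : x ∈ XX p) :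
    mat (x 0 1) (x 0 2) (x 0 3) (x 1 2) (x 1 3) (x 2 3) = x := by
  obtain ⟨h, h0⟩ := h
  funext i j
  fin_cases i <;> fin_cases j
  · exact (h0 0).symm
  · rfl
  · rfl
  · rfl
  · exact h.symm 0 1
  · exact (h0 1).symm
  · rfl
  · rfl
  · exact h.symm 0 2
  · exact h.symm 1 2
  · exact (h0 2).symm
  · rfl
  · exact h.symm 0 3
  · exact h.symm 1 3
  · exact h.symm 2 3
  · exact (h0 3).symm

theorem mat_mem {p : Fin 4 → ℝ} (hp : ∀ i, 0 < p i) {x12 x13 w1 x23 w2 w3 : ℝ} (h12 : 0 < x12)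
    (h13 : 0 < x13) (h1 : 0 < w1) (h23 : 0 < x23) (h2 : 0 < w2) (h3 : 0 < w3)
    (h : Eqs (p 0) (p 1) (p 2) (p 3) x12 x13 w1 x23 w2 w3) :
    mat x12 x13 w1 x23 w2 w3 ∈ XX p := by
  refine ⟨sol_of_eqs hp ?_ ?_ h, ?_⟩
  · intro i j
    fin_cases i <;> fin_cases j <;> rfl
  · intro i j hij
    fin_cases i <;> fin_cases j <;> first | exact absurd rfl hij | assumption
  · intro i
    fin_cases i <;> rfl

/-- Bounds for all solutions. -/
structure Bds (q1 q2 q3 ε x12 x13 w1 x23 w2 w3 : ℝ) : Prop where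
  a1 : 1 - ε ≤ w1
  a1' : w1 ≤ 1 + ε
  a2 : 1 - ε ≤ w2
  a2' : w2 ≤ 1 + ε
  a3 : 1 - ε ≤ w3
  a3' : w3 ≤ 1 + ε
  b12 : ε * q1 + ε * q2 ≤ x12
  b12' : x12 ≤ 2
  b13 : ε * q1 + ε * q3 ≤ x13
  b13' : x13 ≤ 2
  b23 : ε * q2 + ε * q3 ≤ x23
  b23' : x23 ≤ 2
  c12 : |w1 - w2| ≤ x12
  c13 : |w1 - w3| ≤ x13
  c23 : |w2 - w3| ≤ x23
  d12 : |x13 - x23| ≤ x12
  d13 : |x12 - x23| ≤ x13
  d23 : |x12 - x13| ≤ x23
  e12 : x12 < 1 → x12 ≤ ε * 8
  e13 : x13 < 1 → x13 ≤ ε * 8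
  e23 : x23 < 1 → x23 ≤ ε * 8

theorem small_aux {ε A x w w' b b' : ℝ} (hε : 0 < ε) (hε3 : ε ≤ 1 / 3) (hA : A ≤ 2)
    (h1 : 1 - ε ≤ w) (h2 : 1 - ε ≤ w') (hx0 : 0 < x) (hx : x < 1) (hb : b ≤ A * ε)
    (hb' : b' = bt x w w') (he : x = b + (1 - ε) * b') : x ≤ ε * 8 := by
  have hw : 0 < w := by linarith
  have hw' : 0 < w' := by linarith
  have h3 : (1 - ε) * b' ≤ 3 / 4 * x := by
    rw [hb']
    unfold bt
    rw [← mul_div_assoc, div_le_iff₀ (by positivity)]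
    have h4 : (1 - ε) * (1 - ε) ≤ w * w' := mul_le_mul h1 h2 (by linarith) hw.le
    have h5 : (1 - ε) * (x ^ 2 - (w - w') ^ 2) ≤ (1 - ε) * x := by
      apply mul_le_mul_of_nonneg_left _ (by linarith)
      nlinarith [sq_nonneg (w - w')]
    have h6 : (1 - ε) * x ≤ 3 / 4 * x * (2 * ((1 - ε) * (1 - ε))) := by
      have : 0 ≤ (1 - ε) * x * (3 / 2 * (1 - ε) - 1) :=
        mul_nonneg (mul_nonneg (by linarith) hx0.le) (by linarith)
      linarith
    have h7 : 3 / 4 * x * (2 * ((1 - ε) * (1 - ε))) ≤ 3 / 4 * x * (2 * w * w') := by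
      have := mul_le_mul_of_nonneg_left h4 (by positivity : 0 ≤ 3 / 4 * x * 2)
      linarith
    linarith
  have h8 : A * ε ≤ 2 * ε := mul_le_mul_of_nonneg_right hA hε.le
  linarith

theorem bounds {q1 q2 q3 ε : ℝ} (hq1 : 0 < q1) (hq2 : 0 < q2) (hq3 : 0 < q3)
    (hq : q1 + q2 + q3 = 1) (hε : 0 < ε) (hε3 : ε ≤ 1 / 3) {x : Fin 4 → Fin 4 → ℝ}
    (h : Sol (pq q1 q2 q3 ε) x) :
    Bds q1 q2 q3 ε (x 0 1) (x 0 2) (x 0 3) (x 1 2) (x 1 3) (x 2 3) := by
  have e0 : pq q1 q2 q3 ε 0 = ε * q1 := rfl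
  have e1 : pq q1 q2 q3 ε 1 = ε * q2 := rfl
  have e2 : pq q1 q2 q3 ε 2 = ε * q3 := rfl
  have e3 : pq q1 q2 q3 ε 3 = 1 - ε := rfl
  have D0123 : Dist (0 : Fin 4) 1 2 3 := by unfold Dist; decide
  have D0213 : Dist (0 : Fin 4) 2 1 3 := by unfold Dist; decide
  have D0312 : Dist (0 : Fin 4) 3 1 2 := by unfold Dist; decide
  have D1203 : Dist (1 : Fin 4) 2 0 3 := by unfold Dist; decide
  have D1302 : Dist (1 : Fin 4) 3 0 2 := by unfold Dist; decide
  have D2301 : Dist (2 : Fin 4) 3 0 1 := by unfold Dist; decide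
  have s10 := h.symm 1 0
  have s20 := h.symm 2 0
  have s30 := h.symm 3 0
  have s21 := h.symm 2 1
  have s31 := h.symm 3 1
  have s32 := h.symm 3 2
  have q1' : ε * q1 + ε * q2 + ε * q3 = ε := by rw [← mul_add, ← mul_add, hq, mul_one]
  have m1 : 0 < ε * q1 := by positivity
  have m2 : 0 < ε * q2 := by positivity
  have m3 : 0 < ε * q3 := by positivity
  have l01 := h.lower D0123
  have l02 := h.lower D0213
  have l03 := h.lower D0312
  have l12 := h.lower D1203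
  have l13 := h.lower D1302
  have l23 := h.lower D2301
  have u01 := h.upper D0123
  have u02 := h.upper D0213
  have u03 := h.upper D0312
  have u12 := h.upper D1203
  have u13 := h.upper D1302
  have u23 := h.upper D2301
  rw [e0, e1] at l01
  rw [e0, e2] at l02
  rw [e0, e3] at l03
  rw [e1, e2] at l12
  rw [e1, e3] at l13
  rw [e2, e3] at l23
  rw [e0, e1, e2, e3] at u01 u02 u03 u12 u13 u23
  have t1 := h.tri (a := 0) (b := 3) (c := 1) (e := 2) (by unfold Dist; decide)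
  have t2 := h.tri (a := 1) (b := 3) (c := 0) (e := 2) (by unfold Dist; decide)
  have t3 := h.tri (a := 0) (b := 3) (c := 2) (e := 1) (by unfold Dist; decide)
  have t4 := h.tri (a := 2) (b := 3) (c := 0) (e := 1) (by unfold Dist; decide)
  have t5 := h.tri (a := 1) (b := 3) (c := 2) (e := 0) (by unfold Dist; decide)
  have t6 := h.tri (a := 2) (b := 3) (c := 1) (e := 0) (by unfold Dist; decide)
  have t7 := h.tri (a := 0) (b := 1) (c := 2) (e := 3) (by unfold Dist; decide)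
  have t8 := h.tri (a := 0) (b := 2) (c := 1) (e := 3) (by unfold Dist; decide)
  have t9 := h.tri (a := 1) (b := 2) (c := 0) (e := 3) (by unfold Dist; decide)
  have bt1 := h.bt_le_two D0123
  have bt2 := h.bt_le_two D0213
  have bt3 := h.bt_le_two D1203
  have hE := h.eqs
  obtain ⟨E1, E2, E3, -, -, -⟩ := hE
  rw [e0, e1, e2, e3] at E1 E2 E3
  have hp1 := h.pos 0 1 (by decide)
  have hp2 := h.pos 0 2 (by decide)
  have hp3 := h.pos 1 2 (by decide)
  rw [s21] at bt2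
  rw [s20, s10] at bt3
  refine ⟨by linarith, by linarith, by linarith, by linarith, by linarith, by linarith, l01,
    by linarith, l02, by linarith, l12, by linarith, ?_, ?_, ?_, ?_, ?_, ?_, ?_, ?_, ?_⟩
  · rw [abs_le]; constructor <;> linarith
  · rw [abs_le]; constructor <;> linarith
  · rw [abs_le]; constructor <;> linarith
  · rw [abs_le]; constructor <;> linarith
  · rw [abs_le]; constructor <;> linarith
  · rw [abs_le]; constructor <;> linarith
  · intro hx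
    refine small_aux (A := 2) (b := ε * q1 + ε * q2 + ε * q3 * bt (x 0 1) (x 0 2) (x 1 2)) hε hε3
      le_rfl (w := x 0 3) (w' := x 1 3) (by linarith) (by linarith) hp1 hx ?_ rfl E1
    have := mul_le_mul_of_nonneg_left bt1 m3.le
    linarith
  · intro hx
    refine small_aux (A := 2) (b := ε * q1 + ε * q3 + ε * q2 * bt (x 0 2) (x 0 1) (x 1 2)) hε hε3
      le_rfl (w := x 0 3) (w' := x 2 3) (by linarith) (by linarith) hp2 hx ?_ rfl E2
    have := mul_le_mul_of_nonneg_left bt2 m2.le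
    linarith
  · intro hx
    refine small_aux (A := 2) (b := ε * q2 + ε * q3 + ε * q1 * bt (x 1 2) (x 0 1) (x 0 2)) hε hε3
      le_rfl (w := x 1 3) (w' := x 2 3) (by linarith) (by linarith) hp3 hx ?_ rfl E3
    have := mul_le_mul_of_nonneg_left bt3 m1.le
    linarith

end Pool.Agent.Helper58.EF
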