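import Pool.Agent.Helper58.EF.ChartB

/-!
# The chart of a pair: the limit
-/

set_option autoImplicit false

namespace Pool.Agent.Helper58.EF

open Filter Topology

/-- The equations of the chart of a pair. -/
noncomputable def FB (q1 q2 q3 : ℝ) (v : ℝ × (Fin 6 → ℝ)) : Fin 6 → ℝ :=
  fB q1 q2 q3 v.1 (v.2 0) (v.2 1) (v.2 2) (v.2 3) (v.2 4) (v.2 5)
    (v.2 3 + v.1 * v.2 2 * v.2 0) (v.2 5 + v.1 * v.2 2 * v.2 1)

theorem smoothB {q1 q2 q3 : ℝ} {u : Fin 6 → ℝ} (h3 : u 3 ≠ 0) (h4 : u 4 ≠ 0) (h5 : u 5 ≠ 0) :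
    ContDiffAt ℝ 1 (FB q1 q2 q3) (0, u) := by
  rw [contDiffAt_pi]
  intro i
  have g1 : ContDiffAt ℝ 1 (fun v : ℝ × (Fin 6 → ℝ) => v.1) (0, u) := contDiffAt_fst
  have g2 : ∀ j, ContDiffAt ℝ 1 (fun v : ℝ × (Fin 6 → ℝ) => v.2 j) (0, u) := fun j =>
    (contDiffAt_pi.1 contDiffAt_snd) j
  fin_cases i <;>
  · simp only [FB, fB, y1, dl, kp, bt]
    simp
    fun_prop (disch := simp [h3, h4, h5])

/-- The linear coefficient of a cubic polynomial with vanishing derivative at `0`. -/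
theorem lin_coeff {f : ℝ → ℝ} {c0 c1 c2 c3 : ℝ} (h : HasDerivAt f 0 0)
    (hf : ∀ t, f t = c0 + c1 * t + c2 * t ^ 2 + c3 * t ^ 3) : c1 = 0 := by
  have h1 : f = fun t => c0 + c1 * t + c2 * t ^ 2 + c3 * t ^ 3 := funext hf
  rw [h1] at h
  have h2 : HasDerivAt (fun t : ℝ => c0 + c1 * t + c2 * t ^ 2 + c3 * t ^ 3) c1 0 := by
    have e1 := (hasDerivAt_id (0 : ℝ)).const_mul c1
    have e2 := ((hasDerivAt_id (0 : ℝ)).pow 2).const_mul c2
    have e3 := ((hasDerivAt_id (0 : ℝ)).pow 3).const_mul c3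
    exact ((((hasDerivAt_const (0 : ℝ) c0).add e1).add e2).add e3).congr_deriv (by simp)
  exact h2.unique h

theorem nondB {q1 q2 q3 z : ℝ} (hq1 : 0 < q1) (hq2 : 0 < q2)
    (hz : (1 - z ^ 2) * ((q1 + q2) * z + q2 - q1) = 0)
    (hz' : -2 * z * ((q1 + q2) * z + q2 - q1) + (1 - z ^ 2) * (q1 + q2) ≠ 0) :
    Nondeg (FB q1 q2 q3) ![z, z, q1 + q2, 1, 1, 2] := by
  refine ⟨smoothB (by simp) (by simp) (by simp), ?_, ?_⟩
  · ext i
    fin_cases i
    · simp [FB, fB]
    · simp [FB, fB, y1, dl]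
      ring_nf
      linear_combination (q1 + q2) / 2 * hz
    · simp [FB, fB, kp]
      ring
    · simp [FB, fB]
    · simp [FB, fB]
    · simp [FB, fB, bt]
      norm_num
  · intro d hd
    have d2 : d 2 = 0 := by
      refine lin_coeff (c0 := 0) (c2 := 0) (c3 := 0) (hd 0) fun t => ?_
      simp [FB, fB]
      ring
    have d3 : d 3 = 0 := by
      refine lin_coeff (c0 := 0) (c2 := 0) (c3 := 0) (hd 3) fun t => ?_
      simp [FB, fB]
      ring
    have d4 : d 4 = 0 := by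
      refine lin_coeff (c0 := 0) (c2 := 0) (c3 := 0) (hd 4) fun t => ?_
      simp [FB, fB]
      ring
    have d5 : -d 5 = 0 := by
      refine lin_coeff (c0 := 0) (c2 := -(d 5) ^ 2 / 2) (c3 := 0) (hd 5) fun t => ?_
      simp [FB, fB, bt, d3, d4]
      ring
    have d5' : d 5 = 0 := neg_eq_zero.1 d5
    have d1 : 2 * (q1 + q2) * (d 1 - d 0) = 0 := by
      refine lin_coeff (c0 := 0) (c2 := 0) (c3 := 0) (hd 2) fun t => ?_
      simp [FB, fB, kp, d2, d3, d4, d5']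
      ring
    have d1' : d 1 = d 0 := by
      have : d 1 - d 0 = 0 := by
        rcases mul_eq_zero.1 d1 with h | h
        · linarith
        · exact h
      linarith
    have d0 : (q1 + q2) / 2 * d 0 * (-2 * z * ((q1 + q2) * z + q2 - q1) +
        (1 - z ^ 2) * (q1 + q2)) = 0 := by
      refine lin_coeff (c0 := (q1 + q2) / 2 * ((1 - z ^ 2) * ((q1 + q2) * z + q2 - q1)))
        (c2 := (q1 + q2) / 2 * (-(d 0) ^ 2 * ((q1 + q2) * z + q2 - q1) -
          2 * z * (d 0) ^ 2 * (q1 + q2)))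
        (c3 := -(q1 + q2) ^ 2 / 2 * (d 0) ^ 3) (hd 1) fun t => ?_
      simp [FB, fB, y1, dl, d1', d2, d3, d4, d5']
      ring
    have d0' : d 0 = 0 := by
      rcases mul_eq_zero.1 d0 with h | h
      · rcases mul_eq_zero.1 h with h2 | h2
        · linarith
        · exact h2
      · exact absurd h hz'
    ext i
    fin_cases i
    · exact d0'
    · exact d1'.trans d0'
    · exact d2
    · exact d3
    · exact d4
    · exact d5'

end Pool.Agent.Helper58.EF
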