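import Pool.Agent.Helper58.EF.Bounds
import Pool.Agent.Helper58.EF.NondB

/-!
# Four blocks, three of them small and at distances of the order of their size: the chart

In this chart `x12 = ε y12`, `x13 = ε y13`, `x23 = ε y23` and `xi4 = 1 + ε vi`.
-/

set_option autoImplicit false

namespace Pool.Agent.Helper58.EF

open Filter Topology

/-- The equations of the chart. -/
noncomputable def f0 (q1 q2 q3 ε y12 y13 y23 v1 v2 v3 w1 w2 w3 : ℝ) : Fin 6 → ℝ :=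
  ![y12 - (q1 + q2) - q3 * bt y12 y13 y23 -
      ε * ((1 - ε) * ((y12 ^ 2 - (v1 - v2) ^ 2) / (2 * w1 * w2))),
    y13 - (q1 + q3) - q2 * bt y13 y12 y23 -
      ε * ((1 - ε) * ((y13 ^ 2 - (v1 - v3) ^ 2) / (2 * w1 * w3))),
    y23 - (q2 + q3) - q1 * bt y23 y12 y13 -
      ε * ((1 - ε) * ((y23 ^ 2 - (v2 - v3) ^ 2) / (2 * w2 * w3))),
    v1 - (q1 - 1) - q2 * ((y12 + v1 - v2) * (w1 + w2 - ε * y12) / (2 * y12 * w2)) -
      q3 * ((y13 + v1 - v3) * (w1 + w3 - ε * y13) / (2 * y13 * w3)),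
    v2 - (q2 - 1) - q1 * ((y12 + v2 - v1) * (w1 + w2 - ε * y12) / (2 * y12 * w1)) -
      q3 * ((y23 + v2 - v3) * (w2 + w3 - ε * y23) / (2 * y23 * w3)),
    v3 - (q3 - 1) - q1 * ((y13 + v3 - v1) * (w1 + w3 - ε * y13) / (2 * y13 * w1)) -
      q2 * ((y23 + v3 - v2) * (w2 + w3 - ε * y23) / (2 * y23 * w2))]

theorem bt_scale {ε : ℝ} (hε : ε ≠ 0) (a b c : ℝ) : bt (ε * a) (ε * b) (ε * c) = bt a b c := by
  unfold bt
  rw [show (ε * a) ^ 2 - (ε * b - ε * c) ^ 2 = ε ^ 2 * (a ^ 2 - (b - c) ^ 2) by ring,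
    show 2 * (ε * b) * (ε * c) = ε ^ 2 * (2 * b * c) by ring]
  exact mul_div_mul_left _ _ (pow_ne_zero 2 hε)

theorem bt_v {ε y v v' w w' : ℝ} (h : w = 1 + ε * v) (h' : w' = 1 + ε * v') :
    bt (ε * y) w w' = ε * (ε * ((y ^ 2 - (v - v') ^ 2) / (2 * w * w'))) := by
  unfold bt
  rw [show w - w' = ε * (v - v') by rw [h, h']; ring]
  ring

theorem bt_v' {ε y v v' w w' : ℝ} (hε : ε ≠ 0) (h : w = 1 + ε * v) (h' : w' = 1 + ε * v') :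
    bt w (ε * y) w' = (y + v - v') * (w + w' - ε * y) / (2 * y * w') := by
  unfold bt
  have e : w - w' = ε * (v - v') := by rw [h, h']; ring
  have e1 : w ^ 2 - (ε * y - w') ^ 2 = (ε * y + (w - w')) * (w + w' - ε * y) := by ring
  rw [e1, e, show (ε * y + ε * (v - v')) * (w + w' - ε * y) =
    ε * ((y + v - v') * (w + w' - ε * y)) by ring,
    show 2 * (ε * y) * w' = ε * (2 * y * w') by ring]
  exact mul_div_mul_left _ _ hε

theorem chart0 {q1 q2 q3 ε y12 y13 y23 v1 v2 v3 w1 w2 w3 : ℝ} (hε : 0 < ε)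
    (hw1 : w1 = 1 + ε * v1) (hw2 : w2 = 1 + ε * v2) (hw3 : w3 = 1 + ε * v3) :
    f0 q1 q2 q3 ε y12 y13 y23 v1 v2 v3 w1 w2 w3 = 0 ↔
      Eqs (ε * q1) (ε * q2) (ε * q3) (1 - ε) (ε * y12) (ε * y13) w1 (ε * y23) w2 w3 := by
  have nε : ε ≠ 0 := hε.ne'
  unfold Eqs
  rw [bt_scale nε, bt_scale nε, bt_scale nε, bt_v hw1 hw2, bt_v hw1 hw3, bt_v hw2 hw3,
    bt_v' nε hw1 hw2, bt_v' nε hw1 hw3, bt_v' nε hw2 hw1, bt_v' nε hw2 hw3, bt_v' nε hw3 hw1,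
    bt_v' nε hw3 hw2]
  have s1 : w2 + w1 = w1 + w2 := add_comm _ _
  have s2 : w3 + w1 = w1 + w3 := add_comm _ _
  have s3 : w3 + w2 = w2 + w3 := add_comm _ _
  rw [s1, s2, s3]
  have hf : f0 q1 q2 q3 ε y12 y13 y23 v1 v2 v3 w1 w2 w3 = 0 ↔
    (y12 - (q1 + q2) - q3 * bt y12 y13 y23 -
      ε * ((1 - ε) * ((y12 ^ 2 - (v1 - v2) ^ 2) / (2 * w1 * w2))) = 0 ∧
    y13 - (q1 + q3) - q2 * bt y13 y12 y23 -
      ε * ((1 - ε) * ((y13 ^ 2 - (v1 - v3) ^ 2) / (2 * w1 * w3))) = 0 ∧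
    y23 - (q2 + q3) - q1 * bt y23 y12 y13 -
      ε * ((1 - ε) * ((y23 ^ 2 - (v2 - v3) ^ 2) / (2 * w2 * w3))) = 0 ∧
    v1 - (q1 - 1) - q2 * ((y12 + v1 - v2) * (w1 + w2 - ε * y12) / (2 * y12 * w2)) -
      q3 * ((y13 + v1 - v3) * (w1 + w3 - ε * y13) / (2 * y13 * w3)) = 0 ∧
    v2 - (q2 - 1) - q1 * ((y12 + v2 - v1) * (w1 + w2 - ε * y12) / (2 * y12 * w1)) -
      q3 * ((y23 + v2 - v3) * (w2 + w3 - ε * y23) / (2 * y23 * w3)) = 0 ∧
    v3 - (q3 - 1) - q1 * ((y13 + v3 - v1) * (w1 + w3 - ε * y13) / (2 * y13 * w1)) -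
      q2 * ((y23 + v3 - v2) * (w2 + w3 - ε * y23) / (2 * y23 * w2)) = 0) := by
    rw [funext_iff]
    simp only [Fin.forall_fin_succ, f0]
    simp
  rw [hf]
  generalize (y12 + v1 - v2) * (w1 + w2 - ε * y12) / (2 * y12 * w2) = k12
  generalize (y12 + v2 - v1) * (w1 + w2 - ε * y12) / (2 * y12 * w1) = k21
  generalize (y13 + v1 - v3) * (w1 + w3 - ε * y13) / (2 * y13 * w3) = k13
  generalize (y13 + v3 - v1) * (w1 + w3 - ε * y13) / (2 * y13 * w1) = k31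
  generalize (y23 + v2 - v3) * (w2 + w3 - ε * y23) / (2 * y23 * w3) = k23
  generalize (y23 + v3 - v2) * (w2 + w3 - ε * y23) / (2 * y23 * w2) = k32
  generalize (y12 ^ 2 - (v1 - v2) ^ 2) / (2 * w1 * w2) = l12
  generalize (y13 ^ 2 - (v1 - v3) ^ 2) / (2 * w1 * w3) = l13
  generalize (y23 ^ 2 - (v2 - v3) ^ 2) / (2 * w2 * w3) = l23
  generalize bt y12 y13 y23 = b12
  generalize bt y13 y12 y23 = b13
  generalize bt y23 y12 y13 = b23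
  have key : ∀ a b : ℝ, (a = 0 ↔ b = 0) ↔ (a = 0 ↔ b = 0) := fun _ _ => Iff.rfl
  have sc : ∀ {a b c : ℝ}, ε * a = b - c → (a = 0 ↔ b = c) := by
    intro a b c h
    constructor
    · intro h0
      rw [h0, mul_zero] at h
      linarith
    · intro h0
      rw [h0, sub_self] at h
      exact (mul_eq_zero.1 h).resolve_left nε
  refine and_congr (sc ?_) (and_congr (sc ?_) (and_congr (sc ?_) (and_congr (sc ?_)
    (and_congr (sc ?_) (sc ?_)))))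
  · ring
  · ring
  · ring
  · rw [hw1]; ring
  · rw [hw2]; ring
  · rw [hw3]; ring

/-- The equations of the chart as a map. -/
noncomputable def F0 (q1 q2 q3 : ℝ) (v : ℝ × (Fin 6 → ℝ)) : Fin 6 → ℝ :=
  f0 q1 q2 q3 v.1 (v.2 0) (v.2 1) (v.2 2) (v.2 3) (v.2 4) (v.2 5) (1 + v.1 * v.2 3)
    (1 + v.1 * v.2 4) (1 + v.1 * v.2 5)

theorem smooth0 {q1 q2 q3 : ℝ} {u : Fin 6 → ℝ} (h0 : u 0 ≠ 0) (h1 : u 1 ≠ 0) (h2 : u 2 ≠ 0) :
    ContDiffAt ℝ 1 (F0 q1 q2 q3) (0, u) := by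
  rw [contDiffAt_pi]
  intro i
  fin_cases i <;>
  · simp only [F0, f0, bt]
    simp
    fun_prop (disch := simp [h0, h1, h2])

end Pool.Agent.Helper58.EF
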