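import Pool.Agent.Helper58.EF.ChartB

/-!
# Four blocks, three of them small and close to a line: the chart

In this chart `x12 = ε A`, `x23 = ε B`, `x13 = ε C`, `C = A + B + ε ψ`, `x14 - x24 = ε A z`,
`x24 - x34 = ε B z23`, `x14 - x34 = ε C z13`, `z23 = z + ε ω`.
-/

set_option autoImplicit false

namespace Pool.Agent.Helper58.EF

theorem bt_w {t z w w' : ℝ} (ht : 0 < t) (hw : 0 < w) (hw' : 0 < w') (h : w = w' + t * z) :
    bt w t w' = (1 + z) - t * (1 - z ^ 2) / (2 * w') ∧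
      bt w' t w = (1 - z) - t * (1 - z ^ 2) / (2 * w) := by
  constructor
  · unfold bt
    rw [div_eq_iff (by positivity), h]
    field_simp
    ring
  · unfold bt
    rw [div_eq_iff (by positivity)]
    have e : w' = w - t * z := by rw [h]; ring
    rw [e]
    field_simp
    ring

theorem bt_x {t z w w' : ℝ} (h : w = w' + t * z) :
    bt t w w' = t ^ 2 * (1 - z ^ 2) / (2 * w * w') := by
  unfold bt
  rw [show w - w' = t * z by rw [h]; ring]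
  ring

noncomputable def cA (q3 ε z ψ A B C w1 w2 : ℝ) : ℝ :=
  (1 - ε) * (A ^ 2 * (1 - z ^ 2) / (2 * w1 * w2)) - q3 * (ψ * (2 * A + ε * ψ) / (2 * C * B))

/-- The equations of the chart. -/
noncomputable def fC (q1 q2 q3 ε z ω ψ A B w1 C z23 z13 w2 w3 : ℝ) : Fin 6 → ℝ :=
  ![A - (q1 + q2) - ε * cA q3 ε z ψ A B C w1 w2,
    B - (q2 + q3) - ε * cA q1 ε z23 ψ B A C w2 w3,
    ψ - ((1 - ε) * (C ^ 2 * (1 - z13 ^ 2) / (2 * w1 * w3) - A ^ 2 * (1 - z ^ 2) / (2 * w1 * w2) -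
      B ^ 2 * (1 - z23 ^ 2) / (2 * w2 * w3)) + q2 * (ψ * (A + B + C) / (2 * A * B)) +
      q3 * (ψ * (2 * A + ε * ψ) / (2 * C * B)) + q1 * (ψ * (2 * B + ε * ψ) / (2 * C * A))),
    cA q3 ε z ψ A B C w1 w2 * z + q3 * ((ω * (A + ε * ψ) + z * ψ) / C) +
      A * (1 - z ^ 2) * (q2 / (2 * w2) - q1 / (2 * w1)) +
      q3 * ((C * (1 - z13 ^ 2) - B * (1 - z23 ^ 2)) / (2 * w3)),
    cA q1 ε z23 ψ B A C w2 w3 * z23 - q1 * ((ω * B - z * ψ) / C) +
      B * (1 - z23 ^ 2) * (q3 / (2 * w3) - q2 / (2 * w2)) +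
      q1 * ((A * (1 - z ^ 2) - C * (1 - z13 ^ 2)) / (2 * w1)),
    w1 - (ε * q1 + (1 - ε) + ε * q2 * ((1 + z) - ε * A * (1 - z ^ 2) / (2 * w2)) +
      ε * q3 * ((1 + z13) - ε * C * (1 - z13 ^ 2) / (2 * w3)))]

theorem chartC {q1 q2 q3 ε z ω ψ A B w1 C z23 z13 w2 w3 x12 x13 x23 : ℝ} (hε : 0 < ε)
    (h12 : x12 = ε * A) (h13 : x13 = ε * C) (h23 : x23 = ε * B) (hC : C = A + B + ε * ψ)
    (hz23 : z23 = z + ε * ω) (hz13 : z13 = z + ε * ((ω * B - z * ψ) / C))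
    (hw2 : w2 = w1 - ε * A * z) (hw3 : w3 = w2 - ε * B * z23) (pA : 0 < A) (pB : 0 < B)
    (pC : 0 < C) (p1 : 0 < w1) (p2 : 0 < w2) (p3 : 0 < w3) :
    fC q1 q2 q3 ε z ω ψ A B w1 C z23 z13 w2 w3 = 0 ↔
      Eqs (ε * q1) (ε * q2) (ε * q3) (1 - ε) x12 x13 w1 x23 w2 w3 := by
  have nC : C ≠ 0 := pC.ne'
  have nε : ε ≠ 0 := hε.ne'
  have r13 : w1 = w3 + ε * C * z13 := by
    rw [hz13, hw3, hw2, hz23]
    field_simp
    rw [hC]
    ring
  have r12 : w1 = w2 + ε * A * z := by rw [hw2]; ring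
  have r23 : w2 = w3 + ε * B * z23 := by rw [hw3]; ring
  have d1 : z13 - z23 = -(ε * ((ω * (A + ε * ψ) + z * ψ) / C)) := by
    rw [hz13, hz23]
    field_simp
    rw [hC]
    ring
  have d2 : z13 - z = ε * ((ω * B - z * ψ) / C) := by rw [hz13]; ring
  obtain ⟨a7, a8⟩ := bt_w (t := ε * A) (by positivity) p1 p2 r12
  obtain ⟨a9, a10⟩ := bt_w (t := ε * C) (by positivity) p1 p3 r13
  obtain ⟨a11, a12⟩ := bt_w (t := ε * B) (by positivity) p2 p3 r23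
  have a1 := bt_x (t := ε * A) r12
  have a2 := bt_x (t := ε * B) r23
  have a3 := bt_x (t := ε * C) r13
  have a4 : bt (ε * A) (ε * C) (ε * B) = -(ε * (ψ * (2 * A + ε * ψ) / (2 * C * B))) := by
    unfold bt
    rw [div_eq_iff (by positivity)]
    field_simp
    rw [hC]
    ring
  have a5 : bt (ε * B) (ε * A) (ε * C) = -(ε * (ψ * (2 * B + ε * ψ) / (2 * C * A))) := by
    unfold bt
    rw [div_eq_iff (by positivity)]
    field_simp
    rw [hC]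
    ring
  have a6 : bt (ε * C) (ε * A) (ε * B) = 2 + ε * (ψ * (A + B + C) / (2 * A * B)) := by
    unfold bt
    rw [div_eq_iff (by positivity)]
    field_simp
    rw [hC]
    ring
  unfold Eqs
  rw [h12, h13, h23, a1, a2, a3, a4, a5, a6, a7, a8, a9, a10, a11, a12]
  have hf : fC q1 q2 q3 ε z ω ψ A B w1 C z23 z13 w2 w3 = 0 ↔
    (A - (q1 + q2) - ε * cA q3 ε z ψ A B C w1 w2 = 0 ∧
    B - (q2 + q3) - ε * cA q1 ε z23 ψ B A C w2 w3 = 0 ∧
    ψ - ((1 - ε) * (C ^ 2 * (1 - z13 ^ 2) / (2 * w1 * w3) - A ^ 2 * (1 - z ^ 2) / (2 * w1 * w2) -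
      B ^ 2 * (1 - z23 ^ 2) / (2 * w2 * w3)) + q2 * (ψ * (A + B + C) / (2 * A * B)) +
      q3 * (ψ * (2 * A + ε * ψ) / (2 * C * B)) + q1 * (ψ * (2 * B + ε * ψ) / (2 * C * A))) = 0 ∧
    cA q3 ε z ψ A B C w1 w2 * z + q3 * ((ω * (A + ε * ψ) + z * ψ) / C) +
      A * (1 - z ^ 2) * (q2 / (2 * w2) - q1 / (2 * w1)) +
      q3 * ((C * (1 - z13 ^ 2) - B * (1 - z23 ^ 2)) / (2 * w3)) = 0 ∧
    cA q1 ε z23 ψ B A C w2 w3 * z23 - q1 * ((ω * B - z * ψ) / C) +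
      B * (1 - z23 ^ 2) * (q3 / (2 * w3) - q2 / (2 * w2)) +
      q1 * ((A * (1 - z ^ 2) - C * (1 - z13 ^ 2)) / (2 * w1)) = 0 ∧
    w1 - (ε * q1 + (1 - ε) + ε * q2 * ((1 + z) - ε * A * (1 - z ^ 2) / (2 * w2)) +
      ε * q3 * ((1 + z13) - ε * C * (1 - z13 ^ 2) / (2 * w3))) = 0) := by
    rw [funext_iff]
    simp only [Fin.forall_fin_succ, fC]
    simp
  rw [hf]
  have s1 : (ε * A) ^ 2 * (1 - z ^ 2) / (2 * w1 * w2) =
      ε ^ 2 * (A ^ 2 * (1 - z ^ 2) / (2 * w1 * w2)) := by ring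
  have s2 : (ε * B) ^ 2 * (1 - z23 ^ 2) / (2 * w2 * w3) =
      ε ^ 2 * (B ^ 2 * (1 - z23 ^ 2) / (2 * w2 * w3)) := by ring
  have s3 : (ε * C) ^ 2 * (1 - z13 ^ 2) / (2 * w1 * w3) =
      ε ^ 2 * (C ^ 2 * (1 - z13 ^ 2) / (2 * w1 * w3)) := by ring
  rw [s1, s2, s3]
  unfold cA
  have s4 : B ^ 2 * (1 - z23 ^ 2) / (2 * w2 * w3) = B ^ 2 * (1 - z23 ^ 2) / (2 * w2 * w3) := rfl
  have s5 : ψ * (2 * A + ε * ψ) / (2 * C * B) = ψ * (2 * A + ε * ψ) / (2 * C * B) := rfl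
  set U12 := A ^ 2 * (1 - z ^ 2) / (2 * w1 * w2)
  set U23 := B ^ 2 * (1 - z23 ^ 2) / (2 * w2 * w3)
  set U13 := C ^ 2 * (1 - z13 ^ 2) / (2 * w1 * w3)
  set P12 := ψ * (2 * A + ε * ψ) / (2 * C * B)
  set P23 := ψ * (2 * B + ε * ψ) / (2 * C * A)
  set P13 := ψ * (A + B + C) / (2 * A * B)
  set O1 := (ω * (A + ε * ψ) + z * ψ) / C
  set O2 := (ω * B - z * ψ) / C
  constructor
  · rintro ⟨g0, g1, g2, g3, g4, g5⟩
    have E14 : w1 = ε * q1 + (1 - ε) + ε * q2 * ((1 + z) - ε * A * (1 - z ^ 2) / (2 * w2)) +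
      ε * q3 * ((1 + z13) - ε * C * (1 - z13 ^ 2) / (2 * w3)) := by linear_combination g5
    have E24 : w2 = ε * q2 + (1 - ε) + ε * q1 * (1 - z - ε * A * (1 - z ^ 2) / (2 * w1)) +
      ε * q3 * (1 + z23 - ε * B * (1 - z23 ^ 2) / (2 * w3)) := by
      linear_combination E14 - r12 - ε * z * g0 - ε ^ 2 * g3 + ε * q3 * d1
    refine ⟨?_, ?_, ?_, E14, E24, ?_⟩
    · linear_combination ε * g0
    · linear_combination ε * g0 + ε * g1 + ε ^ 2 * g2 + ε * hC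
    · linear_combination ε * g1
    · linear_combination E24 - r23 - ε * z23 * g1 - ε ^ 2 * g4 + ε * q1 * d2
  · rintro ⟨e12, e13, e23, e14, e24, e34⟩
    have g0 : A - (q1 + q2) - ε * ((1 - ε) * U12 - q3 * P12) = 0 := by
      have : ε * (A - (q1 + q2) - ε * ((1 - ε) * U12 - q3 * P12)) = 0 := by
        linear_combination e12
      exact (mul_eq_zero.1 this).resolve_left nε
    have g1 : B - (q2 + q3) - ε * ((1 - ε) * U23 - q1 * P23) = 0 := by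
      have : ε * (B - (q2 + q3) - ε * ((1 - ε) * U23 - q1 * P23)) = 0 := by
        linear_combination e23
      exact (mul_eq_zero.1 this).resolve_left nε
    refine ⟨g0, g1, ?_, ?_, ?_, by linear_combination e14⟩
    · have : ε ^ 2 * (ψ - ((1 - ε) * (U13 - U12 - U23) + q2 * P13 + q3 * P12 + q1 * P23)) = 0 := by
        linear_combination e13 - e12 - e23 - ε * hC
      exact (mul_eq_zero.1 this).resolve_left (pow_ne_zero 2 nε)
    · have : ε ^ 2 * (((1 - ε) * U12 - q3 * P12) * z + q3 * O1 +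
          A * (1 - z ^ 2) * (q2 / (2 * w2) - q1 / (2 * w1)) +
          q3 * ((C * (1 - z13 ^ 2) - B * (1 - z23 ^ 2)) / (2 * w3))) = 0 := by
        linear_combination e14 - e24 - r12 - ε * z * g0 + ε * q3 * d1
      exact (mul_eq_zero.1 this).resolve_left (pow_ne_zero 2 nε)
    · have : ε ^ 2 * (((1 - ε) * U23 - q1 * P23) * z23 - q1 * O2 +
          B * (1 - z23 ^ 2) * (q3 / (2 * w3) - q2 / (2 * w2)) +
          q1 * ((A * (1 - z ^ 2) - C * (1 - z13 ^ 2)) / (2 * w1))) = 0 := by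
        linear_combination e24 - e34 - r23 - ε * z23 * g1 + ε * q1 * d2
      exact (mul_eq_zero.1 this).resolve_left (pow_ne_zero 2 nε)

end Pool.Agent.Helper58.EF
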