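import Pool.Agent.Helper58.EF.Chart0

/-!
# Three small blocks at distances of the order of their size: the limit
-/

set_option autoImplicit false

namespace Pool.Agent.Helper58.EF

open Filter Topology

/-- The row identity of three blocks. -/
theorem row3 (pa pb pc w u v : ℝ) (hw : 0 < w) (hu : 0 < u) (hv : 0 < v) :
    -2 * w ^ 2 * (2 * u * v) * (w - (pa + pb) - pc * bt w u v) +
      (u ^ 2 + w ^ 2 - v ^ 2) * (2 * w * v) * (u - (pa + pc) - pb * bt u w v) +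
      (v ^ 2 + w ^ 2 - u ^ 2) * (2 * w * u) * (v - (pb + pc) - pa * bt v w u) =
    (w - u - v) * (w - u + v) * (w - v + u) * ((pa + pb) * (w - u - v) + 2 * w * pc) := by
  have f1 := bt_mul (a := w) hu hv
  have f2 := bt_mul (a := u) hw hv
  have f3 := bt_mul (a := v) hw hu
  linear_combination (2 * w ^ 2 * pc) * f1 - ((u ^ 2 + w ^ 2 - v ^ 2) * pb) * f2 -
    ((v ^ 2 + w ^ 2 - u ^ 2) * pa) * f3

/-- The scale of the metric of three blocks which is not Kähler. -/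
noncomputable def rr (q1 q2 q3 : ℝ) : ℝ :=
  1 + 2 * q1 * q2 * q3 / ((q1 + q2) * (q1 + q3) * (q2 + q3))

theorem one_lt_rr {q1 q2 q3 : ℝ} (hq1 : 0 < q1) (hq2 : 0 < q2) (hq3 : 0 < q3) :
    1 < rr q1 q2 q3 := by
  have : 0 < 2 * q1 * q2 * q3 / ((q1 + q2) * (q1 + q3) * (q2 + q3)) := by positivity
  unfold rr
  linarith

/-- The linear system of the distances to the large block. -/
theorem lin3 {q1 q2 q3 a1 a2 a3 : ℝ} (hq1 : 0 < q1) (hq2 : 0 < q2) (hq3 : 0 < q3)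
    (h1 : a1 - q2 * ((a1 - a2) / (rr q1 q2 q3 * (q1 + q2))) -
      q3 * ((a1 - a3) / (rr q1 q2 q3 * (q1 + q3))) = 0)
    (h2 : a2 - q1 * ((a2 - a1) / (rr q1 q2 q3 * (q1 + q2))) -
      q3 * ((a2 - a3) / (rr q1 q2 q3 * (q2 + q3))) = 0)
    (h3 : a3 - q1 * ((a3 - a1) / (rr q1 q2 q3 * (q1 + q3))) -
      q2 * ((a3 - a2) / (rr q1 q2 q3 * (q2 + q3))) = 0) : a1 = 0 ∧ a2 = 0 ∧ a3 = 0 := by
  have hr := one_lt_rr hq1 hq2 hq3
  have hr0 : 0 < rr q1 q2 q3 := by linarith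
  have hre : rr q1 q2 q3 * ((q1 + q2) * (q1 + q3) * (q2 + q3)) =
      (q1 + q2) * (q1 + q3) * (q2 + q3) + 2 * q1 * q2 * q3 := by
    unfold rr
    field_simp
  set r := rr q1 q2 q3
  have g1 : ((q1 + q2) * (q1 + q3) * (q2 + q3) + 2 * q1 * q2 * q3) * a1 =
      q2 * (q1 + q3) * (q2 + q3) * (a1 - a2) + q3 * (q1 + q2) * (q2 + q3) * (a1 - a3) := by
    rw [← hre]
    field_simp at h1
    linear_combination (q2 + q3) * h1
  have g2 : ((q1 + q2) * (q1 + q3) * (q2 + q3) + 2 * q1 * q2 * q3) * a2 =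
      q1 * (q1 + q3) * (q2 + q3) * (a2 - a1) + q3 * (q1 + q2) * (q1 + q3) * (a2 - a3) := by
    rw [← hre]
    field_simp at h2
    linear_combination (q1 + q3) * h2
  have g3 : ((q1 + q2) * (q1 + q3) * (q2 + q3) + 2 * q1 * q2 * q3) * a3 =
      q1 * (q1 + q2) * (q2 + q3) * (a3 - a1) + q2 * (q1 + q2) * (q1 + q3) * (a3 - a2) := by
    rw [← hre]
    field_simp at h3
    linear_combination (q1 + q2) * h3
  have k1 : ((q1 + q2) * (q2 + q3) - 2 * q1 * q2) * (a1 - a2) +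
      (q1 + q2) * (q2 - q1) * (a2 - a3) = 0 := by
    have : q3 * (((q1 + q2) * (q2 + q3) - 2 * q1 * q2) * (a1 - a2) +
      (q1 + q2) * (q2 - q1) * (a2 - a3)) = 0 := by linear_combination g2 - g1
    exact (mul_eq_zero.1 this).resolve_left hq3.ne'
  have k2 : (q2 + q3) * (q2 - q3) * (a1 - a2) +
      ((q1 + q2) * (q2 + q3) - 2 * q2 * q3) * (a2 - a3) = 0 := by
    have : q1 * ((q2 + q3) * (q2 - q3) * (a1 - a2) +
      ((q1 + q2) * (q2 + q3) - 2 * q2 * q3) * (a2 - a3)) = 0 := by linear_combination g3 - g2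
    exact (mul_eq_zero.1 this).resolve_left hq1.ne'
  have hdet : 4 * q1 * q2 ^ 2 * q3 ≠ 0 := by positivity
  have m1 : a1 - a2 = 0 := by
    have : 4 * q1 * q2 ^ 2 * q3 * (a1 - a2) = 0 := by
      linear_combination ((q1 + q2) * (q2 + q3) - 2 * q2 * q3) * k1 -
        ((q1 + q2) * (q2 - q1)) * k2
    exact (mul_eq_zero.1 this).resolve_left hdet
  have m2 : a2 - a3 = 0 := by
    have : 4 * q1 * q2 ^ 2 * q3 * (a2 - a3) = 0 := by
      linear_combination ((q1 + q2) * (q2 + q3) - 2 * q1 * q2) * k2 -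
        ((q2 + q3) * (q2 - q3)) * k1
    exact (mul_eq_zero.1 this).resolve_left hdet
  have m3 : a1 = 0 := by
    have e1 : a1 - a3 = 0 := by linarith
    rw [m1, e1, mul_zero, mul_zero, add_zero] at g1
    have : (q1 + q2) * (q1 + q3) * (q2 + q3) + 2 * q1 * q2 * q3 ≠ 0 := by positivity
    exact (mul_eq_zero.1 g1).resolve_left this
  exact ⟨m3, by linarith, by linarith⟩

/-- A factor of a function with vanishing derivative. -/
theorem factor {f N : ℝ → ℝ} (h : HasDerivAt f 0 0) (hN : ContinuousAt N 0)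
    (hf : ∀ᶠ t in 𝓝 (0 : ℝ), f t = t * N t) : N 0 = 0 := by
  have h1 := hasDerivAt_iff_tendsto_slope.1 h
  have f0 : f 0 = 0 := by
    have := hf.self_of_nhds
    simpa using this
  have h2 : Tendsto (slope f 0) (𝓝[≠] 0) (𝓝 (N 0)) := by
    refine (hN.tendsto.mono_left nhdsWithin_le_nhds).congr' ?_
    filter_upwards [hf.filter_mono nhdsWithin_le_nhds, self_mem_nhdsWithin] with t h1 h2
    have h3 : t ≠ 0 := h2
    rw [slope_def_field, f0, h1, sub_zero, sub_zero]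
    field_simp
  exact tendsto_nhds_unique h2 h1

theorem mul_deriv_zero {g c : ℝ → ℝ} (h : HasDerivAt g 0 0) (h0 : g 0 = 0)
    (hc : DifferentiableAt ℝ c 0) : HasDerivAt (fun t => c t * g t) 0 0 := by
  have := hc.hasDerivAt.mul h
  rw [h0, mul_zero, mul_zero, add_zero] at this
  exact this

/-- The zero. -/
noncomputable def pt0 (q1 q2 q3 : ℝ) : Fin 6 → ℝ :=
  ![rr q1 q2 q3 * (q1 + q2), rr q1 q2 q3 * (q1 + q3), rr q1 q2 q3 * (q2 + q3), 0, 0, 0]

/-- The bracket. -/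
theorem bracket {pa pb pc w u v dw du dv : ℝ} {g1 g2 g3 : ℝ → ℝ} (hw : 0 < w) (hu : 0 < u)
    (hv : 0 < v) (h1 : HasDerivAt g1 0 0) (h2 : HasDerivAt g2 0 0) (h3 : HasDerivAt g3 0 0)
    (z1 : g1 0 = 0) (z2 : g2 0 = 0) (z3 : g3 0 = 0)
    (e1 : ∀ t, g1 t = (w + t * dw) - (pa + pb) - pc * bt (w + t * dw) (u + t * du) (v + t * dv))
    (e2 : ∀ t, g2 t = (u + t * du) - (pa + pc) - pb * bt (u + t * du) (w + t * dw) (v + t * dv))
    (e3 : ∀ t, g3 t = (v + t * dv) - (pb + pc) - pa * bt (v + t * dv) (w + t * dw) (u + t * du))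
    (hb : (pa + pb) * (w - u - v) + 2 * w * pc = 0) (n1 : w - u - v ≠ 0) (n2 : w - u + v ≠ 0)
    (n3 : w - v + u ≠ 0) : (pa + pb) * (dw - du - dv) + 2 * dw * pc = 0 := by
  have m1 := mul_deriv_zero (c := fun t => -2 * (w + t * dw) ^ 2 *
    (2 * (u + t * du) * (v + t * dv))) h1 z1 (by fun_prop)
  have m2 := mul_deriv_zero (c := fun t => ((u + t * du) ^ 2 + (w + t * dw) ^ 2 -
    (v + t * dv) ^ 2) * (2 * (w + t * dw) * (v + t * dv))) h2 z2 (by fun_prop)
  have m3 := mul_deriv_zero (c := fun t => ((v + t * dv) ^ 2 + (w + t * dw) ^ 2 -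
    (u + t * du) ^ 2) * (2 * (w + t * dw) * (u + t * du))) h3 z3 (by fun_prop)
  have m := (m1.add m2).add m3
  rw [add_zero, add_zero] at m
  have hpos : ∀ a d : ℝ, 0 < a → ∀ᶠ t in 𝓝 (0 : ℝ), 0 < a + t * d := by
    intro a d ha
    have hc : ContinuousAt (fun t : ℝ => a + t * d) 0 := by fun_prop
    exact hc.eventually (lt_mem_nhds (by simpa using ha))
  have hN := factor (N := fun t => ((w + t * dw) - (u + t * du) - (v + t * dv)) *
    ((w + t * dw) - (u + t * du) + (v + t * dv)) * ((w + t * dw) - (v + t * dv) + (u + t * du)) *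
    ((pa + pb) * (dw - du - dv) + 2 * dw * pc)) m (by fun_prop) (by
      filter_upwards [hpos w dw hw, hpos u du hu, hpos v dv hv] with t k1 k2 k3
      have hrow := row3 pa pb pc _ _ _ k1 k2 k3
      rw [← e1, ← e2, ← e3] at hrow
      simp only [Pi.add_apply]
      rw [hrow]
      linear_combination ((w + t * dw) - (u + t * du) - (v + t * dv)) *
        ((w + t * dw) - (u + t * du) + (v + t * dv)) *
        ((w + t * dw) - (v + t * dv) + (u + t * du)) * hb)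
  simp only [zero_mul, add_zero] at hN
  exact (mul_eq_zero.1 hN).resolve_left (mul_ne_zero (mul_ne_zero n1 n2) n3)

theorem bt_s {q1 q2 q3 : ℝ} (hq1 : 0 < q1) (hq2 : 0 < q2) (hq3 : 0 < q3) {r : ℝ} (hr : r ≠ 0) :
    q3 * bt (r * (q1 + q2)) (r * (q1 + q3)) (r * (q2 + q3)) =
      (rr q1 q2 q3 - 1) * (q1 + q2) := by
  rw [bt_scale hr]
  unfold bt rr
  field_simp
  ring

theorem rr_perm (q1 q2 q3 : ℝ) : rr q1 q3 q2 = rr q1 q2 q3 ∧ rr q2 q3 q1 = rr q1 q2 q3 := by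
  unfold rr
  constructor
  · rw [show 2 * q1 * q3 * q2 = 2 * q1 * q2 * q3 by ring,
      show (q1 + q3) * (q1 + q2) * (q3 + q2) = (q1 + q2) * (q1 + q3) * (q2 + q3) by ring]
  · rw [show 2 * q2 * q3 * q1 = 2 * q1 * q2 * q3 by ring,
      show (q2 + q3) * (q2 + q1) * (q3 + q1) = (q1 + q2) * (q1 + q3) * (q2 + q3) by ring]

theorem nond0 {q1 q2 q3 : ℝ} (hq1 : 0 < q1) (hq2 : 0 < q2) (hq3 : 0 < q3)
    (hq : q1 + q2 + q3 = 1) : Nondeg (F0 q1 q2 q3) (pt0 q1 q2 q3) := by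
  have hr1 := one_lt_rr hq1 hq2 hq3
  have hr0 : 0 < rr q1 q2 q3 := by linarith
  have hrn : rr q1 q2 q3 ≠ 0 := hr0.ne'
  have b12 := bt_s hq1 hq2 hq3 hrn
  have b13 := bt_s hq1 hq3 hq2 hrn
  have b23 := bt_s hq2 hq3 hq1 hrn
  rw [(rr_perm q1 q2 q3).1, add_comm q3 q2] at b13
  rw [(rr_perm q1 q2 q3).2, add_comm q2 q1, add_comm q3 q1] at b23
  set r := rr q1 q2 q3 with hrd
  have e0 : pt0 q1 q2 q3 0 = r * (q1 + q2) := rfl
  have e1 : pt0 q1 q2 q3 1 = r * (q1 + q3) := rfl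
  have e2 : pt0 q1 q2 q3 2 = r * (q2 + q3) := rfl
  have e3 : pt0 q1 q2 q3 3 = 0 := rfl
  have e4 : pt0 q1 q2 q3 4 = 0 := rfl
  have e5 : pt0 q1 q2 q3 5 = 0 := rfl
  have p0 : 0 < r * (q1 + q2) := by positivity
  have p1 : 0 < r * (q1 + q3) := by positivity
  have p2 : 0 < r * (q2 + q3) := by positivity
  have hz : F0 q1 q2 q3 (0, pt0 q1 q2 q3) = 0 := by
    ext i
    fin_cases i
    · simp [F0, f0, e0, e1, e2, e3, e4, e5]
      rw [b12]; ring
    · simp [F0, f0, e0, e1, e2, e3, e4, e5]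
      rw [b13]; ring
    · simp [F0, f0, e0, e1, e2, e3, e4, e5]
      rw [b23]; ring
    · simp [F0, f0, e0, e1, e2, e3, e4, e5]
      field_simp
      linarith
    · simp [F0, f0, e0, e1, e2, e3, e4, e5]
      field_simp
      linarith
    · simp [F0, f0, e0, e1, e2, e3, e4, e5]
      field_simp
      linarith
  refine ⟨smooth0 (by rw [e0]; exact p0.ne') (by rw [e1]; exact p1.ne')
    (by rw [e2]; exact p2.ne'), hz, ?_⟩
  intro d hd
  have a0 : ∀ t : ℝ, (pt0 q1 q2 q3 + t • d) 0 = r * (q1 + q2) + t * d 0 := fun t => rfl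
  have a1 : ∀ t : ℝ, (pt0 q1 q2 q3 + t • d) 1 = r * (q1 + q3) + t * d 1 := fun t => rfl
  have a2 : ∀ t : ℝ, (pt0 q1 q2 q3 + t • d) 2 = r * (q2 + q3) + t * d 2 := fun t => rfl
  have a3 : ∀ t : ℝ, (pt0 q1 q2 q3 + t • d) 3 = t * d 3 := fun t => zero_add _
  have a4 : ∀ t : ℝ, (pt0 q1 q2 q3 + t • d) 4 = t * d 4 := fun t => zero_add _
  have a5 : ∀ t : ℝ, (pt0 q1 q2 q3 + t • d) 5 = t * d 5 := fun t => zero_add _
  have z : ∀ i, F0 q1 q2 q3 (0, pt0 q1 q2 q3 + (0 : ℝ) • d) i = 0 := by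
    intro i
    rw [zero_smul, add_zero, hz]
    rfl
  have G0 : ∀ t : ℝ, F0 q1 q2 q3 (0, pt0 q1 q2 q3 + t • d) 0 = (r * (q1 + q2) + t * d 0) -
      (q1 + q2) - q3 * bt (r * (q1 + q2) + t * d 0) (r * (q1 + q3) + t * d 1)
        (r * (q2 + q3) + t * d 2) := by
    intro t
    simp only [F0, f0, a0, a1, a2]
    simp
  have G1 : ∀ t : ℝ, F0 q1 q2 q3 (0, pt0 q1 q2 q3 + t • d) 1 = (r * (q1 + q3) + t * d 1) -
      (q1 + q3) - q2 * bt (r * (q1 + q3) + t * d 1) (r * (q1 + q2) + t * d 0)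
        (r * (q2 + q3) + t * d 2) := by
    intro t
    simp only [F0, f0, a0, a1, a2]
    simp
  have G2 : ∀ t : ℝ, F0 q1 q2 q3 (0, pt0 q1 q2 q3 + t • d) 2 = (r * (q2 + q3) + t * d 2) -
      (q2 + q3) - q1 * bt (r * (q2 + q3) + t * d 2) (r * (q1 + q2) + t * d 0)
        (r * (q1 + q3) + t * d 1) := by
    intro t
    simp only [F0, f0, a0, a1, a2]
    simp
  have B12 := bracket (pa := q1) (pb := q2) (pc := q3) p0 p1 p2 (hd 0) (hd 1) (hd 2) (z 0) (z 1)
    (z 2) G0 G1 G2 (by ring) (by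
      rw [show r * (q1 + q2) - r * (q1 + q3) - r * (q2 + q3) = -(2 * (r * q3)) by ring]
      exact neg_ne_zero.2 (by positivity)) (by
      rw [show r * (q1 + q2) - r * (q1 + q3) + r * (q2 + q3) = 2 * (r * q2) by ring]
      positivity) (by
      rw [show r * (q1 + q2) - r * (q2 + q3) + r * (q1 + q3) = 2 * (r * q1) by ring]
      positivity)
  have B13 := bracket (pa := q1) (pb := q3) (pc := q2) p1 p0 p2 (hd 1) (hd 0) (hd 2) (z 1) (z 0)
    (z 2) G1 G0 (fun t => by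
      rw [G2, add_comm q3 q2, bt_comm _ (r * (q1 + q2) + t * d 0)]) (by ring) (by
      rw [show r * (q1 + q3) - r * (q1 + q2) - r * (q2 + q3) = -(2 * (r * q2)) by ring]
      exact neg_ne_zero.2 (by positivity)) (by
      rw [show r * (q1 + q3) - r * (q1 + q2) + r * (q2 + q3) = 2 * (r * q3) by ring]
      positivity) (by
      rw [show r * (q1 + q3) - r * (q2 + q3) + r * (q1 + q2) = 2 * (r * q1) by ring]
      positivity)
  have B23 := bracket (pa := q2) (pb := q3) (pc := q1) p2 p0 p1 (hd 2) (hd 0) (hd 1) (z 2) (z 0)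
    (z 1) G2 (fun t => by
      rw [G0, add_comm q2 q1, bt_comm _ (r * (q2 + q3) + t * d 2)]) (fun t => by
      rw [G1, add_comm q3 q1, bt_comm _ (r * (q2 + q3) + t * d 2)]) (by ring) (by
      rw [show r * (q2 + q3) - r * (q1 + q2) - r * (q1 + q3) = -(2 * (r * q1)) by ring]
      exact neg_ne_zero.2 (by positivity)) (by
      rw [show r * (q2 + q3) - r * (q1 + q2) + r * (q1 + q3) = 2 * (r * q3) by ring]
      positivity) (by
      rw [show r * (q2 + q3) - r * (q1 + q3) + r * (q1 + q2) = 2 * (r * q2) by ring]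
      positivity)
  set S := (d 0 + d 1 + d 2) / 2 with hS
  have q3' : q3 = 1 - q1 - q2 := by linarith
  have D0 : d 0 = S * (q1 + q2) := by
    rw [hS]
    linear_combination B12 / 2 - d 0 * hq
  have D1 : d 1 = S * (q1 + q3) := by
    rw [hS]
    linear_combination B13 / 2 - d 1 * hq
  have D2 : d 2 = S * (q2 + q3) := by
    rw [hS]
    linear_combination B23 / 2 - d 2 * hq
  have S0 : S = 0 := by
    have hN := factor (N := fun _ => S * (q1 + q2)) (hd 0) (by fun_prop) (by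
      have hc : ContinuousAt (fun t : ℝ => r + t * S) 0 := by fun_prop
      filter_upwards [hc.eventually (lt_mem_nhds (show 0 < r + 0 * S by linarith))] with t ht
      have h1 := bt_s hq1 hq2 hq3 ht.ne'
      rw [G0, D0, D1, D2, show r * (q1 + q2) + t * (S * (q1 + q2)) = (r + t * S) * (q1 + q2) by
        ring, show r * (q1 + q3) + t * (S * (q1 + q3)) = (r + t * S) * (q1 + q3) by ring,
        show r * (q2 + q3) + t * (S * (q2 + q3)) = (r + t * S) * (q2 + q3) by ring, h1]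
      ring)
    exact (mul_eq_zero.1 hN).resolve_right (by positivity)
  rw [S0, zero_mul] at D0 D1 D2
  have L1 : d 3 - q2 * ((d 3 - d 4) / (r * (q1 + q2))) - q3 * ((d 3 - d 5) / (r * (q1 + q3))) =
      0 := by
    refine lin_coeff (c0 := 0) (c2 := 0) (c3 := 0) (hd 3) fun t => ?_
    simp only [F0, f0, a0, a1, a2, a3, a4, a5, D0, D1, D2]
    simp
    field_simp
    rw [q3']
    ring
  have L2 : d 4 - q1 * ((d 4 - d 3) / (r * (q1 + q2))) - q3 * ((d 4 - d 5) / (r * (q2 + q3))) =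
      0 := by
    refine lin_coeff (c0 := 0) (c2 := 0) (c3 := 0) (hd 4) fun t => ?_
    simp only [F0, f0, a0, a1, a2, a3, a4, a5, D0, D1, D2]
    simp
    field_simp
    rw [q3']
    ring
  have L3 : d 5 - q1 * ((d 5 - d 3) / (r * (q1 + q3))) - q2 * ((d 5 - d 4) / (r * (q2 + q3))) =
      0 := by
    refine lin_coeff (c0 := 0) (c2 := 0) (c3 := 0) (hd 5) fun t => ?_
    simp only [F0, f0, a0, a1, a2, a3, a4, a5, D0, D1, D2]
    simp
    field_simp
    rw [q3']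
    ring
  obtain ⟨D3, D4, D5⟩ := lin3 hq1 hq2 hq3 L1 L2 L3
  ext i
  fin_cases i
  · exact D0
  · exact D1
  · exact D2
  · exact D3
  · exact D4
  · exact D5

end Pool.Agent.Helper58.EF
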