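import Pool.Agent.Helper58.EF.CountC
import Pool.Agent.Helper58.EF.Nond0

/-!
# The number of metrics of the class of three blocks which are not close to a line
-/

set_option autoImplicit false

namespace Pool.Agent.Helper58.EF

open Filter Topology

/-- `max (|a|, |b|, |c|)`. -/
noncomputable def mx (a b c : ℝ) : ℝ := max |a| (max |b| |c|)

theorem le_mx {a b c r : ℝ} (h : ¬ (|a| ≤ r ∧ |b| ≤ r ∧ |c| ≤ r)) : r ≤ mx a b c := by
  by_contra hc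
  rw [not_le, mx, max_lt_iff, max_lt_iff] at hc
  exact h ⟨hc.1.le, hc.2.1.le, hc.2.2.le⟩

/-- Solutions of the equations of three blocks. -/
theorem three {q1 q2 q3 w u v : ℝ} (hq1 : 0 < q1) (hq2 : 0 < q2) (hq3 : 0 < q3)
    (hq : q1 + q2 + q3 = 1) (hw : 0 < w) (hu : 0 < u) (hv : 0 < v)
    (e1 : w - (q1 + q2) - q3 * bt w u v = 0) (e2 : u - (q1 + q3) - q2 * bt u w v = 0)
    (e3 : v - (q2 + q3) - q1 * bt v w u = 0) :
    (u = q1 + q3 ∧ v = q2 + q3 ∧ w = q1 + q3 + (q2 + q3)) ∨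
    (w = q1 + q2 ∧ v = q2 + q3 ∧ u = q1 + q2 + (q2 + q3)) ∨
    (w = q1 + q2 ∧ u = q1 + q3 ∧ v = q1 + q2 + (q1 + q3)) ∨
    (w = rr q1 q2 q3 * (q1 + q2) ∧ u = rr q1 q2 q3 * (q1 + q3) ∧
      v = rr q1 q2 q3 * (q2 + q3)) := by
  have R12 := row3 q1 q2 q3 w u v hw hu hv
  have R13 := row3 q1 q3 q2 u w v hu hw hv
  have R23 := row3 q2 q3 q1 v w u hv hw hu
  rw [e1, e2, e3] at R12
  rw [e1, e2, add_comm q3 q2, bt_comm v u w, e3] at R13
  rw [bt_comm w v u, bt_comm u v w, add_comm q2 q1, add_comm q3 q1, e1, e2, e3] at R23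
  by_cases c1 : w = u + v
  · left
    have k1 : bt u w v = 0 := by
      unfold bt
      rw [c1]
      simp
    have k2 : bt v w u = 0 := by
      unfold bt
      rw [c1]
      simp
    rw [k1] at e2
    rw [k2] at e3
    exact ⟨by linarith, by linarith, by linarith⟩
  by_cases c2 : u = w + v
  · right; left
    have k1 : bt w u v = 0 := by
      unfold bt
      rw [c2]
      simp
    have k2 : bt v w u = 0 := by
      rw [bt_comm]
      unfold bt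
      rw [c2]
      simp
    rw [k1] at e1
    rw [k2] at e3
    exact ⟨by linarith, by linarith, by linarith⟩
  by_cases c3 : v = w + u
  · right; right; left
    have k1 : bt w u v = 0 := by
      rw [bt_comm]
      unfold bt
      rw [c3]
      simp
    have k2 : bt u w v = 0 := by
      rw [bt_comm]
      unfold bt
      rw [c3]
      simp
    rw [k1] at e1
    rw [k2] at e2
    exact ⟨by linarith, by linarith, by linarith⟩
  right; right; right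
  have n1 : w - u - v ≠ 0 := fun h => c1 (by linarith)
  have n2 : w - u + v ≠ 0 := fun h => c2 (by linarith)
  have n3 : w - v + u ≠ 0 := fun h => c3 (by linarith)
  have m1 : u - w - v ≠ 0 := fun h => c2 (by linarith)
  have m2 : u - w + v ≠ 0 := fun h => c1 (by linarith)
  have m3 : u - v + w ≠ 0 := fun h => c3 (by linarith)
  have l1 : v - w - u ≠ 0 := fun h => c3 (by linarith)
  have l2 : v - w + u ≠ 0 := fun h => c1 (by linarith)
  have l3 : v - u + w ≠ 0 := fun h => c2 (by linarith)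
  have B12 : (q1 + q2) * (w - u - v) + 2 * w * q3 = 0 := by
    have : (w - u - v) * (w - u + v) * (w - v + u) * ((q1 + q2) * (w - u - v) + 2 * w * q3) =
      0 := by rw [← R12]; ring
    exact (mul_eq_zero.1 this).resolve_left (mul_ne_zero (mul_ne_zero n1 n2) n3)
  have B13 : (q1 + q3) * (u - w - v) + 2 * u * q2 = 0 := by
    have : (u - w - v) * (u - w + v) * (u - v + w) * ((q1 + q3) * (u - w - v) + 2 * u * q2) =
      0 := by rw [← R13]; ring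
    exact (mul_eq_zero.1 this).resolve_left (mul_ne_zero (mul_ne_zero m1 m2) m3)
  have B23 : (q2 + q3) * (v - w - u) + 2 * v * q1 = 0 := by
    have : (v - w - u) * (v - w + u) * (v - u + w) * ((q2 + q3) * (v - w - u) + 2 * v * q1) =
      0 := by rw [← R23]; ring
    exact (mul_eq_zero.1 this).resolve_left (mul_ne_zero (mul_ne_zero l1 l2) l3)
  set S := (w + u + v) / 2 with hS
  have D0 : w = S * (q1 + q2) := by
    rw [hS]
    linear_combination B12 / 2 - w * hq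
  have D1 : u = S * (q1 + q3) := by
    rw [hS]
    linear_combination B13 / 2 - u * hq
  have D2 : v = S * (q2 + q3) := by
    rw [hS]
    linear_combination B23 / 2 - v * hq
  have hS0 : S ≠ 0 := by
    rw [hS]
    positivity
  have h1 := bt_s hq1 hq2 hq3 hS0
  rw [← D0, ← D1, ← D2] at h1
  have h2 : S = rr q1 q2 q3 := by
    have h3 : (q1 + q2) * S = (q1 + q2) * rr q1 q2 q3 := by linarith
    exact mul_left_cancel₀ (by positivity) h3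
  rw [← h2]
  exact ⟨D0, D1, D2⟩

/-- The metrics with `x12`, `x13`, `x23` near `0` which are not close to a line. -/
def cl0 (q1 q2 q3 ρ ε : ℝ) : Set (Fin 4 → Fin 4 → ℝ) :=
  {x | x ∈ XX (pq q1 q2 q3 ε) ∧ x 0 1 < 1 ∧ x 0 2 < 1 ∧ x 1 2 < 1 ∧
    ¬ (|x 0 1 - ε * (q1 + q2)| ≤ ρ * ε ∧ |x 1 2 - ε * (q2 + q3)| ≤ ρ * ε ∧
      |x 0 2 - ε * (q1 + q2 + (q2 + q3))| ≤ ρ * ε) ∧
    ¬ (|x 0 1 - ε * (q1 + q2)| ≤ ρ * ε ∧ |x 0 2 - ε * (q1 + q3)| ≤ ρ * ε ∧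
      |x 1 2 - ε * (q1 + q2 + (q1 + q3))| ≤ ρ * ε) ∧
    ¬ (|x 0 2 - ε * (q1 + q3)| ≤ ρ * ε ∧ |x 1 2 - ε * (q2 + q3)| ≤ ρ * ε ∧
      |x 0 1 - ε * (q1 + q3 + (q2 + q3))| ≤ ρ * ε)}

/-- The chart. -/
noncomputable def ph0 (ε : ℝ) (u : Fin 6 → ℝ) : Fin 4 → Fin 4 → ℝ :=
  mat (ε * u 0) (ε * u 1) (1 + ε * u 3) (ε * u 2) (1 + ε * u 4) (1 + ε * u 5)

/-- The compact set. -/
def K0 (q1 q2 q3 ρ : ℝ) : Set (Fin 6 → ℝ) :=
  Set.Icc ![q1 + q2, q1 + q3, q2 + q3, -1, -1, -1] ![8, 8, 8, 1, 1, 1] ∩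
    ({u | ρ ≤ mx (u 0 - (q1 + q2)) (u 2 - (q2 + q3)) (u 1 - (q1 + q2 + (q2 + q3)))} ∩
    ({u | ρ ≤ mx (u 0 - (q1 + q2)) (u 1 - (q1 + q3)) (u 2 - (q1 + q2 + (q1 + q3)))} ∩
    {u | ρ ≤ mx (u 1 - (q1 + q3)) (u 2 - (q2 + q3)) (u 0 - (q1 + q3 + (q2 + q3)))}))

theorem isCompact_K0 (q1 q2 q3 ρ : ℝ) : IsCompact (K0 q1 q2 q3 ρ) := by
  apply isCompact_Icc.inter_right
  refine IsClosed.inter ?_ (IsClosed.inter ?_ ?_) <;>
  · apply isClosed_le continuous_const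
    unfold mx
    fun_prop

theorem ph0_surj {q1 q2 q3 ε : ℝ} (hε : 0 < ε) {x : Fin 4 → Fin 4 → ℝ}
    (hx : x ∈ XX (pq q1 q2 q3 ε)) : ∃ u : Fin 6 → ℝ, ph0 ε u = x := by
  have nε := hε.ne'
  refine ⟨![x 0 1 / ε, x 0 2 / ε, x 1 2 / ε, (x 0 3 - 1) / ε, (x 1 3 - 1) / ε,
    (x 2 3 - 1) / ε], ?_⟩
  rw [← mat_eta hx]
  unfold ph0
  congr 1
  · show ε * (x 0 1 / ε) = x 0 1
    field_simp
  · show ε * (x 0 2 / ε) = x 0 2
    field_simp
  · show 1 + ε * ((x 0 3 - 1) / ε) = x 0 3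
    field_simp
    ring
  · show ε * (x 1 2 / ε) = x 1 2
    field_simp
  · show 1 + ε * ((x 1 3 - 1) / ε) = x 1 3
    field_simp
    ring
  · show 1 + ε * ((x 2 3 - 1) / ε) = x 2 3
    field_simp
    ring

theorem ph0_inj {ε : ℝ} (hε : 0 < ε) {u u' : Fin 6 → ℝ} (h : ph0 ε u = ph0 ε u') :
    u = u' := by
  have nε := hε.ne'
  have e01 : ε * u 0 = ε * u' 0 := congrFun (congrFun h 0) 1
  have e02 : ε * u 1 = ε * u' 1 := congrFun (congrFun h 0) 2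
  have e12 : ε * u 2 = ε * u' 2 := congrFun (congrFun h 1) 2
  have e03 : 1 + ε * u 3 = 1 + ε * u' 3 := congrFun (congrFun h 0) 3
  have e13 : 1 + ε * u 4 = 1 + ε * u' 4 := congrFun (congrFun h 1) 3
  have e23 : 1 + ε * u 5 = 1 + ε * u' 5 := congrFun (congrFun h 2) 3
  funext i
  fin_cases i
  · exact mul_left_cancel₀ nε e01
  · exact mul_left_cancel₀ nε e02
  · exact mul_left_cancel₀ nε e12
  · exact mul_left_cancel₀ nε (add_left_cancel e03)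
  · exact mul_left_cancel₀ nε (add_left_cancel e13)
  · exact mul_left_cancel₀ nε (add_left_cancel e23)

theorem ph0_eqs {q1 q2 q3 ε : ℝ} {u : Fin 6 → ℝ} (hε : 0 < ε) :
    F0 q1 q2 q3 (ε, u) = 0 ↔ Eqs (ε * q1) (ε * q2) (ε * q3) (1 - ε) (ε * u 0)
      (ε * u 1) (1 + ε * u 3) (ε * u 2) (1 + ε * u 4) (1 + ε * u 5) :=
  chart0 hε rfl rfl rfl

theorem abs_scale' {ε a b ρ : ℝ} (hε : 0 < ε) (h : |a - b| ≤ ρ) :
    |ε * a - ε * b| ≤ ρ * ε := by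
  rw [← mul_sub, abs_mul, abs_of_pos hε, mul_comm]
  exact mul_le_mul_of_nonneg_right h hε.le

theorem h10 {q1 q2 q3 ε ρ : ℝ} (hq1 : 0 < q1) (hq2 : 0 < q2) (hq3 : 0 < q3)
    (hq : q1 + q2 + q3 = 1) (hε : 0 < ε) (hε3 : ε ≤ 1 / 3) {u : Fin 6 → ℝ}
    (hx : ph0 ε u ∈ cl0 q1 q2 q3 ρ ε) : u ∈ K0 q1 q2 q3 ρ ∧ F0 q1 q2 q3 (ε, u) = 0 := by
  obtain ⟨hX, c1, c2, c3, n2, n1, n3⟩ := hx
  have b := bounds hq1 hq2 hq3 hq hε hε3 hX.1
  have eqs := hX.1.eqs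
  have e01 : ph0 ε u 0 1 = ε * u 0 := rfl
  have e02 : ph0 ε u 0 2 = ε * u 1 := rfl
  have e03 : ph0 ε u 0 3 = 1 + ε * u 3 := rfl
  have e12 : ph0 ε u 1 2 = ε * u 2 := rfl
  have e13 : ph0 ε u 1 3 = 1 + ε * u 4 := rfl
  have e23 : ph0 ε u 2 3 = 1 + ε * u 5 := rfl
  rw [e01, e12, e13, e23, e02, e03] at b eqs
  rw [e01, e12, e02] at n1 n2 n3
  rw [e01] at c1
  rw [e02] at c2
  rw [e12] at c3
  have lo : ∀ {a b : ℝ}, ε * a ≤ ε * b → a ≤ b := fun h => le_of_mul_le_mul_left h hε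
  have wlo : ∀ {w : ℝ}, 1 - ε ≤ 1 + ε * w → -1 ≤ w := by
    intro w h
    apply lo
    linarith
  have whi : ∀ {w : ℝ}, 1 + ε * w ≤ 1 + ε → w ≤ 1 := by
    intro w h
    apply lo
    linarith
  have l01 := b.b12
  have l02 := b.b13
  have l12 := b.b23
  rw [← mul_add] at l01 l02 l12
  refine ⟨⟨⟨?_, ?_⟩, ?_, ?_, ?_⟩, (ph0_eqs hε).2 eqs⟩
  · intro i
    fin_cases i
    · exact lo l01
    · exact lo l02
    · exact lo l12
    · exact wlo b.a1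
    · exact wlo b.a2
    · exact wlo b.a3
  · intro i
    fin_cases i
    · exact lo (b.e12 c1)
    · exact lo (b.e13 c2)
    · exact lo (b.e23 c3)
    · exact whi b.a1'
    · exact whi b.a2'
    · exact whi b.a3'
  · exact le_mx fun h => n2 ⟨abs_scale' hε h.1, abs_scale' hε h.2.1, abs_scale' hε h.2.2⟩
  · exact le_mx fun h => n1 ⟨abs_scale' hε h.1, abs_scale' hε h.2.1, abs_scale' hε h.2.2⟩
  · exact le_mx fun h => n3 ⟨abs_scale' hε h.1, abs_scale' hε h.2.1, abs_scale' hε h.2.2⟩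

theorem h20 {q1 q2 q3 ρ : ℝ} (hq1 : 0 < q1) (hq2 : 0 < q2) (hq3 : 0 < q3)
    (hρ1 : ρ < (rr q1 q2 q3 - 1) * (q1 + q2)) (hρ2 : ρ < (rr q1 q2 q3 - 1) * (q1 + q3)) :
    ∀ᶠ q in 𝓝[>] (0 : ℝ) ×ˢ 𝓝 (pt0 q1 q2 q3), F0 q1 q2 q3 q = 0 →
      ph0 q.1 q.2 ∈ cl0 q1 q2 q3 ρ q.1 := by
  have hle : 𝓝[>] (0 : ℝ) ×ˢ 𝓝 (pt0 q1 q2 q3) ≤ 𝓝 ((0 : ℝ), pt0 q1 q2 q3) := by
    rw [nhds_prod_eq]
    exact Filter.prod_mono nhdsWithin_le_nhds le_rfl
  have hev : ∀ (f : ℝ × (Fin 6 → ℝ) → ℝ), Continuous f → 0 < f (0, pt0 q1 q2 q3) →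
      ∀ᶠ q in 𝓝[>] (0 : ℝ) ×ˢ 𝓝 (pt0 q1 q2 q3), 0 < f q := by
    intro f hf h0
    exact (hf.continuousAt.eventually (lt_mem_nhds h0)).filter_mono hle
  have hr1 := one_lt_rr hq1 hq2 hq3
  have e0 : pt0 q1 q2 q3 0 = rr q1 q2 q3 * (q1 + q2) := rfl
  have e1 : pt0 q1 q2 q3 1 = rr q1 q2 q3 * (q1 + q3) := rfl
  have e2 : pt0 q1 q2 q3 2 = rr q1 q2 q3 * (q2 + q3) := rfl
  have p0 : 0 < rr q1 q2 q3 * (q1 + q2) := by positivity
  have p1 : 0 < rr q1 q2 q3 * (q1 + q3) := by positivity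
  have p2 : 0 < rr q1 q2 q3 * (q2 + q3) := by positivity
  have f0 : ∀ᶠ q in 𝓝[>] (0 : ℝ) ×ˢ 𝓝 (pt0 q1 q2 q3), 0 < q.1 :=
    (Filter.eventually_of_mem self_mem_nhdsWithin (fun _ h => h)).prod_inl _
  have f1 := hev (fun q => 1 - q.1) (by fun_prop) (by norm_num)
  have f2 := hev (fun q => q.2 0) (by fun_prop) p0
  have f3 := hev (fun q => q.2 1) (by fun_prop) p1
  have f4 := hev (fun q => q.2 2) (by fun_prop) p2
  have f5 := hev (fun q => 1 + q.1 * q.2 3) (by fun_prop) (by norm_num)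
  have f6 := hev (fun q => 1 + q.1 * q.2 4) (by fun_prop) (by norm_num)
  have f7 := hev (fun q => 1 + q.1 * q.2 5) (by fun_prop) (by norm_num)
  have f8 := hev (fun q => 1 - q.1 * q.2 0) (by fun_prop) (by norm_num)
  have f9 := hev (fun q => 1 - q.1 * q.2 1) (by fun_prop) (by norm_num)
  have f10 := hev (fun q => 1 - q.1 * q.2 2) (by fun_prop) (by norm_num)
  have f11 := hev (fun q => q.2 0 - (q1 + q2) - ρ) (by fun_prop) (by
    show 0 < rr q1 q2 q3 * (q1 + q2) - (q1 + q2) - ρ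
    linarith)
  have f12 := hev (fun q => q.2 1 - (q1 + q3) - ρ) (by fun_prop) (by
    show 0 < rr q1 q2 q3 * (q1 + q3) - (q1 + q3) - ρ
    linarith)
  filter_upwards [f0, f1, f2, f3, f4, f5, f6, f7, f8, f9, f10, f11, f12] with q g0 g1 g2 g3 g4
    g5 g6 g7 g8 g9 g10 g11 g12 hF
  have n01 : ¬ |q.1 * q.2 0 - q.1 * (q1 + q2)| ≤ ρ * q.1 := by
    intro h
    have h2 := abs_scale g0 h
    have h3 := le_abs_self (q.2 0 - (q1 + q2))
    linarith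
  have n02 : ¬ |q.1 * q.2 1 - q.1 * (q1 + q3)| ≤ ρ * q.1 := by
    intro h
    have h2 := abs_scale g0 h
    have h3 := le_abs_self (q.2 1 - (q1 + q3))
    linarith
  refine ⟨?_, ?_, ?_, ?_, fun h => n01 h.1, fun h => n01 h.1, fun h => n02 h.1⟩
  · refine mat_mem (pq_pos hq1 hq2 hq3 g0 (by linarith)) (mul_pos g0 g2) (mul_pos g0 g3) g5
      (mul_pos g0 g4) g6 g7 ?_
    exact (ph0_eqs g0).1 hF
  · show q.1 * q.2 0 < 1
    linarith
  · show q.1 * q.2 1 < 1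
    linarith
  · show q.1 * q.2 2 < 1
    linarith

theorem zero0 {q1 q2 q3 ρ : ℝ} (hq1 : 0 < q1) (hq2 : 0 < q2) (hq3 : 0 < q3)
    (hq : q1 + q2 + q3 = 1) (hρ : 0 < ρ) {u : Fin 6 → ℝ} (hu : u ∈ K0 q1 q2 q3 ρ)
    (h : F0 q1 q2 q3 (0, u) = 0) : u = pt0 q1 q2 q3 := by
  obtain ⟨⟨k1, k2⟩, m2, m1, m3⟩ := hu
  have p0 : 0 < u 0 := lt_of_lt_of_le (show 0 < q1 + q2 by positivity) (k1 0)
  have p1 : 0 < u 1 := lt_of_lt_of_le (show 0 < q1 + q3 by positivity) (k1 1)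
  have p2 : 0 < u 2 := lt_of_lt_of_le (show 0 < q2 + q3 by positivity) (k1 2)
  have e0 := congrFun h 0
  have e1 := congrFun h 1
  have e2 := congrFun h 2
  have e3 := congrFun h 3
  have e4 := congrFun h 4
  have e5 := congrFun h 5
  simp [F0, f0] at e0 e1 e2
  have hmx : mx 0 0 0 = 0 := by simp [mx]
  rw [Set.mem_ofPred_eq] at m1 m2 m3
  rcases three hq1 hq2 hq3 hq p0 p1 p2 e0 e1 e2 with ⟨g1, g2, g3⟩ | ⟨g1, g2, g3⟩ |
    ⟨g1, g2, g3⟩ | ⟨g1, g2, g3⟩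
  · exfalso
    rw [g1, g2, g3, sub_self, sub_self, sub_self, hmx] at m3
    linarith
  · exfalso
    rw [g1, g2, g3, sub_self, sub_self, sub_self, hmx] at m2
    linarith
  · exfalso
    rw [g1, g2, g3, sub_self, sub_self, sub_self, hmx] at m1
    linarith
  · have hr1 := one_lt_rr hq1 hq2 hq3
    have hr0 : 0 < rr q1 q2 q3 := by linarith
    have q3' : q3 = 1 - q1 - q2 := by linarith
    set r := rr q1 q2 q3 with hrd
    have L1 : u 3 - q2 * ((u 3 - u 4) / (r * (q1 + q2))) - q3 * ((u 3 - u 5) / (r * (q1 + q3))) =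
        0 := by
      rw [← show F0 q1 q2 q3 (0, u) 3 = 0 from e3]
      simp [F0, f0, g1, g2, g3]
      field_simp
      rw [q3']
      ring
    have L2 : u 4 - q1 * ((u 4 - u 3) / (r * (q1 + q2))) - q3 * ((u 4 - u 5) / (r * (q2 + q3))) =
        0 := by
      rw [← show F0 q1 q2 q3 (0, u) 4 = 0 from e4]
      simp [F0, f0, g1, g2, g3]
      field_simp
      rw [q3']
      ring
    have L3 : u 5 - q1 * ((u 5 - u 3) / (r * (q1 + q3))) - q2 * ((u 5 - u 4) / (r * (q2 + q3))) =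
        0 := by
      rw [← show F0 q1 q2 q3 (0, u) 5 = 0 from e5]
      simp [F0, f0, g1, g2, g3]
      field_simp
      rw [q3']
      ring
    have L := lin3 hq1 hq2 hq3 L1 L2 L3
    funext i
    fin_cases i
    · exact g1
    · exact g2
    · exact g3
    · exact L.1
    · exact L.2.1
    · exact L.2.2

theorem count0 {q1 q2 q3 : ℝ} (hq1 : 0 < q1) (hq2 : 0 < q2) (hq3 : 0 < q3)
    (hq : q1 + q2 + q3 = 1) : ∃ ρ₀ : ℝ, 0 < ρ₀ ∧ ∀ ρ : ℝ, 0 < ρ → ρ ≤ ρ₀ →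
    ∀ᶠ ε in 𝓝[>] (0 : ℝ), (cl0 q1 q2 q3 ρ ε).Finite ∧ (cl0 q1 q2 q3 ρ ε).ncard = 1 := by
  have hr1 := one_lt_rr hq1 hq2 hq3
  have t1 : 0 < (rr q1 q2 q3 - 1) * (q1 + q2) := mul_pos (by linarith) (by linarith)
  have t2 : 0 < (rr q1 q2 q3 - 1) * (q1 + q3) := mul_pos (by linarith) (by linarith)
  refine ⟨min ((rr q1 q2 q3 - 1) * (q1 + q2)) ((rr q1 q2 q3 - 1) * (q1 + q3)) / 2,
    half_pos (lt_min t1 t2), fun ρ hρ hρl => ?_⟩
  have hm := lt_min t1 t2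
  have hρ1 : ρ < (rr q1 q2 q3 - 1) * (q1 + q2) := by
    have := min_le_left ((rr q1 q2 q3 - 1) * (q1 + q2)) ((rr q1 q2 q3 - 1) * (q1 + q3))
    linarith
  have hρ2 : ρ < (rr q1 q2 q3 - 1) * (q1 + q3) := by
    have := min_le_right ((rr q1 q2 q3 - 1) * (q1 + q2)) ((rr q1 q2 q3 - 1) * (q1 + q3))
    linarith
  let S : ℝ → Set (Fin 6 → ℝ) := fun ε => {u | ph0 ε u ∈ cl0 q1 q2 q3 ρ ε}
  have himg : ∀ ε : ℝ, 0 < ε → cl0 q1 q2 q3 ρ ε = ph0 ε '' S ε := by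
    intro ε hε
    ext x
    constructor
    · intro hx
      obtain ⟨u, rfl⟩ := ph0_surj hε hx.1
      exact ⟨u, hx, rfl⟩
    · rintro ⟨u, hu, rfl⟩
      exact hu
  have hinj : ∀ ε : ℝ, 0 < ε → Set.InjOn (ph0 ε) (S ε) :=
    fun ε hε u hu u' hu' h => ph0_inj hε h
  have hmain := count_zeros (F0 q1 q2 q3) (K0 q1 q2 q3 ρ) (isCompact_K0 q1 q2 q3 ρ)
    {pt0 q1 q2 q3} S ?_ ?_ ?_ ?_ ?_
  · filter_upwards [hmain, self_mem_nhdsWithin] with ε h hε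
    rw [himg ε hε] at *
    exact ⟨h.1.image _, by rw [(hinj ε hε).ncard_image, h.2, Finset.card_singleton]⟩
  · intro u hu
    have k1 := hu.1.1
    have p0 : 0 < u 0 := lt_of_lt_of_le (show 0 < q1 + q2 by positivity) (k1 0)
    have p1 : 0 < u 1 := lt_of_lt_of_le (show 0 < q1 + q3 by positivity) (k1 1)
    have p2 : 0 < u 2 := lt_of_lt_of_le (show 0 < q2 + q3 by positivity) (k1 2)
    exact (smooth0 p0.ne' p1.ne' p2.ne').continuousAt
  · intro u hu h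
    rw [Finset.mem_singleton]
    exact zero0 hq1 hq2 hq3 hq hρ hu h
  · intro u hu
    rw [Finset.mem_singleton] at hu
    rw [hu]
    exact nond0 hq1 hq2 hq3 hq
  · have : ∀ᶠ ε in 𝓝[>] (0 : ℝ), ε ≤ 1 / 3 :=
      (eventually_le_nhds (by norm_num : (0 : ℝ) < 1 / 3)).filter_mono nhdsWithin_le_nhds
    filter_upwards [this, self_mem_nhdsWithin] with ε h3 h0 u hu
    exact h10 hq1 hq2 hq3 hq h0 h3 hu
  · intro z hz
    rw [Finset.mem_singleton] at hz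
    rw [hz]
    exact h20 hq1 hq2 hq3 hρ1 hρ2

end Pool.Agent.Helper58.EF
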