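import Pool.Agent.Helper58.EF.CountB

/-!
# The number of metrics of the class of three blocks which are far from each other
-/

set_option autoImplicit false

namespace Pool.Agent.Helper58.EF

open Filter Topology

/-- The equations as a map. -/
noncomputable def FA (q1 q2 q3 : ℝ) (v : ℝ × (Fin 6 → ℝ)) : Fin 6 → ℝ :=
  ![v.2 0 - (v.1 * q1 + v.1 * q2 + v.1 * q3 * bt (v.2 0) (v.2 1) (v.2 2) +
      (1 - v.1) * bt (v.2 0) (v.2 3) (v.2 4)),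
    v.2 1 - (v.1 * q1 + v.1 * q3 + v.1 * q2 * bt (v.2 1) (v.2 0) (v.2 2) +
      (1 - v.1) * bt (v.2 1) (v.2 3) (v.2 5)),
    v.2 2 - (v.1 * q2 + v.1 * q3 + v.1 * q1 * bt (v.2 2) (v.2 0) (v.2 1) +
      (1 - v.1) * bt (v.2 2) (v.2 4) (v.2 5)),
    v.2 3 - (v.1 * q1 + (1 - v.1) + v.1 * q2 * bt (v.2 3) (v.2 0) (v.2 4) +
      v.1 * q3 * bt (v.2 3) (v.2 1) (v.2 5)),
    v.2 4 - (v.1 * q2 + (1 - v.1) + v.1 * q1 * bt (v.2 4) (v.2 0) (v.2 3) +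
      v.1 * q3 * bt (v.2 4) (v.2 2) (v.2 5)),
    v.2 5 - (v.1 * q3 + (1 - v.1) + v.1 * q1 * bt (v.2 5) (v.2 1) (v.2 3) +
      v.1 * q2 * bt (v.2 5) (v.2 2) (v.2 4))]

/-- The metrics with `x12`, `x13` and `x23` near `2`. -/
def clA (q1 q2 q3 ε : ℝ) : Set (Fin 4 → Fin 4 → ℝ) :=
  {x | x ∈ XX (pq q1 q2 q3 ε) ∧ 1 ≤ x 0 1 ∧ 1 ≤ x 0 2 ∧ 1 ≤ x 1 2}

/-- The chart. -/
def phA (u : Fin 6 → ℝ) : Fin 4 → Fin 4 → ℝ := mat (u 0) (u 1) (u 3) (u 2) (u 4) (u 5)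

/-- The compact set. -/
def KA : Set (Fin 6 → ℝ) :=
  Set.Icc ![1, 1, 1, 1 / 2, 1 / 2, 1 / 2] ![2, 2, 2, 3 / 2, 3 / 2, 3 / 2]

/-- The zero. -/
def ptA : Fin 6 → ℝ := ![2, 2, 2, 1, 1, 1]

theorem phA_eqs {q1 q2 q3 ε : ℝ} {u : Fin 6 → ℝ} :
    FA q1 q2 q3 (ε, u) = 0 ↔ Eqs (ε * q1) (ε * q2) (ε * q3) (1 - ε) (u 0) (u 1) (u 3) (u 2)
      (u 4) (u 5) := by
  rw [funext_iff]
  simp only [Fin.forall_fin_succ, FA, Eqs]
  simp [sub_eq_zero]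

theorem phA_inj {u u' : Fin 6 → ℝ} (h : phA u = phA u') : u = u' := by
  have e01 : u 0 = u' 0 := congrFun (congrFun h 0) 1
  have e02 : u 1 = u' 1 := congrFun (congrFun h 0) 2
  have e12 : u 2 = u' 2 := congrFun (congrFun h 1) 2
  have e03 : u 3 = u' 3 := congrFun (congrFun h 0) 3
  have e13 : u 4 = u' 4 := congrFun (congrFun h 1) 3
  have e23 : u 5 = u' 5 := congrFun (congrFun h 2) 3
  funext i
  fin_cases i
  · exact e01
  · exact e02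
  · exact e12
  · exact e03
  · exact e13
  · exact e23

theorem smoothA {q1 q2 q3 : ℝ} {u : Fin 6 → ℝ} (h : ∀ i, u i ≠ 0) :
    ContDiffAt ℝ 1 (FA q1 q2 q3) (0, u) := by
  rw [contDiffAt_pi]
  intro i
  fin_cases i <;>
  · simp only [FA, bt]
    simp
    fun_prop (disch := simp [h])

theorem KA_of {u : Fin 6 → ℝ} (h : u ∈ KA) : (1 ≤ u 0 ∧ u 0 ≤ 2) ∧ (1 ≤ u 1 ∧ u 1 ≤ 2) ∧
    (1 ≤ u 2 ∧ u 2 ≤ 2) ∧ (1 / 2 ≤ u 3 ∧ u 3 ≤ 3 / 2) ∧ (1 / 2 ≤ u 4 ∧ u 4 ≤ 3 / 2) ∧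
    (1 / 2 ≤ u 5 ∧ u 5 ≤ 3 / 2) := by
  obtain ⟨h1, h2⟩ := h
  exact ⟨⟨h1 0, h2 0⟩, ⟨h1 1, h2 1⟩, ⟨h1 2, h2 2⟩, ⟨h1 3, h2 3⟩, ⟨h1 4, h2 4⟩, ⟨h1 5, h2 5⟩⟩

theorem KA_ne {u : Fin 6 → ℝ} (h : u ∈ KA) : ∀ i, u i ≠ 0 := by
  obtain ⟨k0, k1, k2, k3, k4, k5⟩ := KA_of h
  intro i
  fin_cases i
  · show u 0 ≠ 0
    linarith
  · show u 1 ≠ 0
    linarith
  · show u 2 ≠ 0
    linarith
  · show u 3 ≠ 0
    linarith
  · show u 4 ≠ 0
    linarith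
  · show u 5 ≠ 0
    linarith

theorem h1A {q1 q2 q3 ε : ℝ} (hq1 : 0 < q1) (hq2 : 0 < q2) (hq3 : 0 < q3)
    (hq : q1 + q2 + q3 = 1) (hε : 0 < ε) (hε3 : ε ≤ 1 / 3) {u : Fin 6 → ℝ}
    (hx : phA u ∈ clA q1 q2 q3 ε) : u ∈ KA ∧ FA q1 q2 q3 (ε, u) = 0 := by
  obtain ⟨hX, c1, c2, c3⟩ := hx
  have b := bounds hq1 hq2 hq3 hq hε hε3 hX.1
  have eqs := hX.1.eqs
  have e01 : phA u 0 1 = u 0 := rfl
  have e02 : phA u 0 2 = u 1 := rfl
  have e12 : phA u 1 2 = u 2 := rfl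
  have e03 : phA u 0 3 = u 3 := rfl
  have e13 : phA u 1 3 = u 4 := rfl
  have e23 : phA u 2 3 = u 5 := rfl
  rw [e01, e12, e13, e23, e02, e03] at b eqs
  rw [e01] at c1
  rw [e02] at c2
  rw [e12] at c3
  have b1 := b.a1
  have b2 := b.a2
  have b3 := b.a3
  have b1' := b.a1'
  have b2' := b.a2'
  have b3' := b.a3'
  refine ⟨⟨?_, ?_⟩, phA_eqs.2 eqs⟩
  · intro i
    fin_cases i
    · exact c1
    · exact c2
    · exact c3
    · show 1 / 2 ≤ u 3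
      linarith
    · show 1 / 2 ≤ u 4
      linarith
    · show 1 / 2 ≤ u 5
      linarith
  · intro i
    fin_cases i
    · exact b.b12'
    · exact b.b13'
    · exact b.b23'
    · show u 3 ≤ 3 / 2
      linarith
    · show u 4 ≤ 3 / 2
      linarith
    · show u 5 ≤ 3 / 2
      linarith

theorem h2A {q1 q2 q3 : ℝ} (hq1 : 0 < q1) (hq2 : 0 < q2) (hq3 : 0 < q3) :
    ∀ᶠ q in 𝓝[>] (0 : ℝ) ×ˢ 𝓝 ptA, FA q1 q2 q3 q = 0 → phA q.2 ∈ clA q1 q2 q3 q.1 := by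
  have hle : 𝓝[>] (0 : ℝ) ×ˢ 𝓝 ptA ≤ 𝓝 ((0 : ℝ), ptA) := by
    rw [nhds_prod_eq]
    exact Filter.prod_mono nhdsWithin_le_nhds le_rfl
  have hev : ∀ (f : ℝ × (Fin 6 → ℝ) → ℝ), Continuous f → 0 < f (0, ptA) →
      ∀ᶠ q in 𝓝[>] (0 : ℝ) ×ˢ 𝓝 ptA, 0 < f q := by
    intro f hf h0
    exact (hf.continuousAt.eventually (lt_mem_nhds h0)).filter_mono hle
  have f0 : ∀ᶠ q in 𝓝[>] (0 : ℝ) ×ˢ 𝓝 ptA, 0 < q.1 :=
    (Filter.eventually_of_mem self_mem_nhdsWithin (fun _ h => h)).prod_inl _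
  have f1 := hev (fun q => 1 - q.1) (by fun_prop) (by norm_num)
  have f2 := hev (fun q => q.2 0 - 1) (by fun_prop) (by
    show (0 : ℝ) < 2 - 1
    norm_num)
  have f3 := hev (fun q => q.2 1 - 1) (by fun_prop) (by
    show (0 : ℝ) < 2 - 1
    norm_num)
  have f4 := hev (fun q => q.2 2 - 1) (by fun_prop) (by
    show (0 : ℝ) < 2 - 1
    norm_num)
  have f5 := hev (fun q => q.2 3) (by fun_prop) (one_pos : (0 : ℝ) < 1)
  have f6 := hev (fun q => q.2 4) (by fun_prop) (one_pos : (0 : ℝ) < 1)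
  have f7 := hev (fun q => q.2 5) (by fun_prop) (one_pos : (0 : ℝ) < 1)
  filter_upwards [f0, f1, f2, f3, f4, f5, f6, f7] with q g0 g1 g2 g3 g4 g5 g6 g7 hF
  refine ⟨?_, ?_, ?_, ?_⟩
  · exact mat_mem (pq_pos hq1 hq2 hq3 g0 (by linarith)) (by linarith) (by linarith) g5
      (by linarith) g6 g7 (phA_eqs.1 hF)
  · show 1 ≤ q.2 0
    linarith
  · show 1 ≤ q.2 1
    linarith
  · show 1 ≤ q.2 2
    linarith

theorem zeroA {q1 q2 q3 : ℝ} {u : Fin 6 → ℝ} (hu : u ∈ KA)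
    (h : FA q1 q2 q3 (0, u) = 0) : u = ptA := by
  obtain ⟨k0, k1, k2, k3, k4, k5⟩ := KA_of hu
  have e0 := congrFun h 0
  have e1 := congrFun h 1
  have e2 := congrFun h 2
  have e3 := congrFun h 3
  have e4 := congrFun h 4
  have e5 := congrFun h 5
  simp [FA] at e3 e4 e5
  have g3 : u 3 = 1 := by linarith
  have g4 : u 4 = 1 := by linarith
  have g5 : u 5 = 1 := by linarith
  simp [FA, bt, g3, g4, g5] at e0 e1 e2
  have key : ∀ a : ℝ, 1 ≤ a → a - a ^ 2 / 2 = 0 → a = 2 := by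
    intro a ha h
    have : a * (2 - a) = 0 := by linarith
    rcases mul_eq_zero.1 this with h' | h'
    · linarith
    · linarith
  funext i
  fin_cases i
  · exact key _ k0.1 e0
  · exact key _ k1.1 e1
  · exact key _ k2.1 e2
  · exact g3
  · exact g4
  · exact g5

theorem nondA {q1 q2 q3 : ℝ} : Nondeg (FA q1 q2 q3) ptA := by
  have e0 : ptA 0 = 2 := rfl
  have e1 : ptA 1 = 2 := rfl
  have e2 : ptA 2 = 2 := rfl
  have e3 : ptA 3 = 1 := rfl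
  have e4 : ptA 4 = 1 := rfl
  have e5 : ptA 5 = 1 := rfl
  refine ⟨smoothA ?_, ?_, ?_⟩
  · intro i
    fin_cases i
    · exact two_ne_zero
    · exact two_ne_zero
    · exact two_ne_zero
    · exact one_ne_zero
    · exact one_ne_zero
    · exact one_ne_zero
  · ext i
    fin_cases i <;> simp [FA, bt, e0, e1, e2, e3, e4, e5] <;> norm_num
  · intro d hd
    have a0 : ∀ t : ℝ, (ptA + t • d) 0 = 2 + t * d 0 := fun t => rfl
    have a1 : ∀ t : ℝ, (ptA + t • d) 1 = 2 + t * d 1 := fun t => rfl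
    have a2 : ∀ t : ℝ, (ptA + t • d) 2 = 2 + t * d 2 := fun t => rfl
    have a3 : ∀ t : ℝ, (ptA + t • d) 3 = 1 + t * d 3 := fun t => rfl
    have a4 : ∀ t : ℝ, (ptA + t • d) 4 = 1 + t * d 4 := fun t => rfl
    have a5 : ∀ t : ℝ, (ptA + t • d) 5 = 1 + t * d 5 := fun t => rfl
    have d3 : d 3 = 0 := by
      refine lin_coeff (c0 := 0) (c2 := 0) (c3 := 0) (hd 3) fun t => ?_
      simp only [FA, a3]
      simp
      ring
    have d4 : d 4 = 0 := by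
      refine lin_coeff (c0 := 0) (c2 := 0) (c3 := 0) (hd 4) fun t => ?_
      simp only [FA, a4]
      simp
      ring
    have d5 : d 5 = 0 := by
      refine lin_coeff (c0 := 0) (c2 := 0) (c3 := 0) (hd 5) fun t => ?_
      simp only [FA, a5]
      simp
      ring
    have d0 : -d 0 = 0 := by
      refine lin_coeff (c0 := 0) (c2 := -(d 0) ^ 2 / 2) (c3 := 0) (hd 0) fun t => ?_
      simp only [FA, bt, a0, a3, a4, d3, d4]
      simp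
      ring
    have d1 : -d 1 = 0 := by
      refine lin_coeff (c0 := 0) (c2 := -(d 1) ^ 2 / 2) (c3 := 0) (hd 1) fun t => ?_
      simp only [FA, bt, a1, a3, a5, d3, d5]
      simp
      ring
    have d2 : -d 2 = 0 := by
      refine lin_coeff (c0 := 0) (c2 := -(d 2) ^ 2 / 2) (c3 := 0) (hd 2) fun t => ?_
      simp only [FA, bt, a2, a4, a5, d4, d5]
      simp
      ring
    ext i
    fin_cases i
    · exact neg_eq_zero.1 d0
    · exact neg_eq_zero.1 d1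
    · exact neg_eq_zero.1 d2
    · exact d3
    · exact d4
    · exact d5

theorem countA {q1 q2 q3 : ℝ} (hq1 : 0 < q1) (hq2 : 0 < q2) (hq3 : 0 < q3)
    (hq : q1 + q2 + q3 = 1) :
    ∀ᶠ ε in 𝓝[>] (0 : ℝ), (clA q1 q2 q3 ε).Finite ∧ (clA q1 q2 q3 ε).ncard = 1 := by
  let S : ℝ → Set (Fin 6 → ℝ) := fun ε => {u | phA u ∈ clA q1 q2 q3 ε}
  have himg : ∀ ε : ℝ, clA q1 q2 q3 ε = phA '' S ε := by
    intro ε
    ext x
    constructor
    · intro hx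
      refine ⟨![x 0 1, x 0 2, x 1 2, x 0 3, x 1 3, x 2 3], ?_, mat_eta hx.1⟩
      show phA ![x 0 1, x 0 2, x 1 2, x 0 3, x 1 3, x 2 3] ∈ clA q1 q2 q3 ε
      have : phA ![x 0 1, x 0 2, x 1 2, x 0 3, x 1 3, x 2 3] = x := mat_eta hx.1
      rw [this]
      exact hx
    · rintro ⟨u, hu, rfl⟩
      exact hu
  have hinj : ∀ ε : ℝ, Set.InjOn phA (S ε) := fun ε u hu u' hu' h => phA_inj h
  have hmain := count_zeros (FA q1 q2 q3) KA isCompact_Icc {ptA} S ?_ ?_ ?_ ?_ ?_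
  · filter_upwards [hmain] with ε h
    rw [himg ε] at *
    exact ⟨h.1.image _, by rw [(hinj ε).ncard_image, h.2, Finset.card_singleton]⟩
  · intro u hu
    exact (smoothA (KA_ne hu)).continuousAt
  · intro u hu h
    rw [Finset.mem_singleton]
    exact zeroA hu h
  · intro u hu
    rw [Finset.mem_singleton] at hu
    rw [hu]
    exact nondA
  · have : ∀ᶠ ε in 𝓝[>] (0 : ℝ), ε ≤ 1 / 3 :=
      (eventually_le_nhds (by norm_num : (0 : ℝ) < 1 / 3)).filter_mono nhdsWithin_le_nhds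
    filter_upwards [this, self_mem_nhdsWithin] with ε h3 h0 u hu
    exact h1A hq1 hq2 hq3 hq h0 h3 hu
  · intro z hz
    rw [Finset.mem_singleton] at hz
    rw [hz]
    exact h2A hq1 hq2 hq3

end Pool.Agent.Helper58.EF
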