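import Pool.Agent.Helper58.EF.Bounds
import Pool.Agent.Helper58.EF.NondB

/-!
# The number of metrics of the class of a pair
-/

set_option autoImplicit false

namespace Pool.Agent.Helper58.EF

open Filter Topology

/-- The metrics with `x12` near `0` and `x13`, `x23` near `2`. -/
def clB (q1 q2 q3 ε : ℝ) : Set (Fin 4 → Fin 4 → ℝ) :=
  {x | x ∈ XX (pq q1 q2 q3 ε) ∧ x 0 1 < 1 ∧ 1 ≤ x 0 2 ∧ 1 ≤ x 1 2}

/-- The chart. -/
def phB (ε : ℝ) (u : Fin 6 → ℝ) : Fin 4 → Fin 4 → ℝ :=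
  mat (ε * u 2) (u 5 + ε * u 2 * u 1) (u 3 + ε * u 2 * u 0) (u 5) (u 3) (u 4)

/-- The compact set. -/
def KB : Set (Fin 6 → ℝ) :=
  Set.Icc ![-1, -1, 0, 1 / 2, 1 / 2, 1] ![1, 1, 8, 3 / 2, 3 / 2, 2]

/-- The zeros. -/
noncomputable def ptB (q1 q2 z : ℝ) : Fin 6 → ℝ := ![z, z, q1 + q2, 1, 1, 2]

theorem ptB_inj {q1 q2 z z' : ℝ} (h : ptB q1 q2 z = ptB q1 q2 z') : z = z' :=
  congrFun h 0

theorem phB_eqs {q1 q2 q3 ε : ℝ} {u : Fin 6 → ℝ} (hε : 0 < ε) (h2 : 0 < u 2) (h3 : 0 < u 3)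
    (h4 : 0 < u 4) (h5 : 0 < u 5) (h0 : 0 < u 3 + ε * u 2 * u 0) (h1 : 0 < u 5 + ε * u 2 * u 1) :
    FB q1 q2 q3 (ε, u) = 0 ↔ Eqs (ε * q1) (ε * q2) (ε * q3) (1 - ε) (ε * u 2)
      (u 5 + ε * u 2 * u 1) (u 3 + ε * u 2 * u 0) (u 5) (u 3) (u 4) :=
  chartB hε rfl rfl rfl h2 h0 h3 h4 h5 h1

theorem pq_pos {q1 q2 q3 ε : ℝ} (hq1 : 0 < q1) (hq2 : 0 < q2) (hq3 : 0 < q3) (hε : 0 < ε)
    (hε1 : ε < 1) : ∀ i, 0 < pq q1 q2 q3 ε i := by
  intro i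
  fin_cases i
  · show 0 < ε * q1
    positivity
  · show 0 < ε * q2
    positivity
  · show 0 < ε * q3
    positivity
  · show 0 < 1 - ε
    linarith

theorem phB_surj {q1 q2 q3 ε : ℝ} (hε : 0 < ε) {x : Fin 4 → Fin 4 → ℝ}
    (hx : x ∈ XX (pq q1 q2 q3 ε)) : ∃ u : Fin 6 → ℝ, 0 < u 2 ∧ phB ε u = x := by
  have hpos := hx.1.pos 0 1 (by decide)
  have hne := hpos.ne'
  have hne' := hε.ne'
  refine ⟨![(x 0 3 - x 1 3) / x 0 1, (x 0 2 - x 1 2) / x 0 1, x 0 1 / ε, x 1 3, x 2 3,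
    x 1 2], div_pos hpos hε, ?_⟩
  rw [← mat_eta hx]
  unfold phB
  congr 1
  · show ε * (x 0 1 / ε) = x 0 1
    field_simp
  · show x 1 2 + ε * (x 0 1 / ε) * ((x 0 2 - x 1 2) / x 0 1) = x 0 2
    field_simp
    ring
  · show x 1 3 + ε * (x 0 1 / ε) * ((x 0 3 - x 1 3) / x 0 1) = x 0 3
    field_simp
    ring

theorem phB_inj {ε : ℝ} (hε : 0 < ε) {u u' : Fin 6 → ℝ} (hu : 0 < u 2) (h : phB ε u = phB ε u') :
    u = u' := by
  have e01 : ε * u 2 = ε * u' 2 := congrFun (congrFun h 0) 1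
  have e12 : u 5 = u' 5 := congrFun (congrFun h 1) 2
  have e13 : u 3 = u' 3 := congrFun (congrFun h 1) 3
  have e23 : u 4 = u' 4 := congrFun (congrFun h 2) 3
  have e02 : u 5 + ε * u 2 * u 1 = u' 5 + ε * u' 2 * u' 1 := congrFun (congrFun h 0) 2
  have e03 : u 3 + ε * u 2 * u 0 = u' 3 + ε * u' 2 * u' 0 := congrFun (congrFun h 0) 3
  have g2 : u 2 = u' 2 := mul_left_cancel₀ hε.ne' e01
  have hne : ε * u 2 ≠ 0 := (mul_pos hε hu).ne'
  rw [← g2, e12] at e02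
  rw [← g2, e13] at e03
  have g1 : u 1 = u' 1 := mul_left_cancel₀ hne (add_left_cancel e02)
  have g0 : u 0 = u' 0 := mul_left_cancel₀ hne (add_left_cancel e03)
  funext i
  fin_cases i
  · exact g0
  · exact g1
  · exact g2
  · exact e13
  · exact e23
  · exact e12

theorem KB_of {u : Fin 6 → ℝ} (h : u ∈ KB) : (-1 ≤ u 0 ∧ u 0 ≤ 1) ∧ (-1 ≤ u 1 ∧ u 1 ≤ 1) ∧
    (0 ≤ u 2 ∧ u 2 ≤ 8) ∧ (1 / 2 ≤ u 3 ∧ u 3 ≤ 3 / 2) ∧ (1 / 2 ≤ u 4 ∧ u 4 ≤ 3 / 2) ∧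
    (1 ≤ u 5 ∧ u 5 ≤ 2) := by
  obtain ⟨h1, h2⟩ := h
  exact ⟨⟨h1 0, h2 0⟩, ⟨h1 1, h2 1⟩, ⟨h1 2, h2 2⟩, ⟨h1 3, h2 3⟩, ⟨h1 4, h2 4⟩, ⟨h1 5, h2 5⟩⟩

theorem mem_KB {u : Fin 6 → ℝ} (h0 : |u 0| ≤ 1) (h1 : |u 1| ≤ 1) (h2 : 0 ≤ u 2 ∧ u 2 ≤ 8)
    (h3 : 1 / 2 ≤ u 3 ∧ u 3 ≤ 3 / 2) (h4 : 1 / 2 ≤ u 4 ∧ u 4 ≤ 3 / 2)
    (h5 : 1 ≤ u 5 ∧ u 5 ≤ 2) : u ∈ KB := by
  rw [abs_le] at h0 h1
  constructor
  · intro i
    fin_cases i
    · exact h0.1
    · exact h1.1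
    · exact h2.1
    · exact h3.1
    · exact h4.1
    · exact h5.1
  · intro i
    fin_cases i
    · exact h0.2
    · exact h1.2
    · exact h2.2
    · exact h3.2
    · exact h4.2
    · exact h5.2

theorem abs_le_of {t z : ℝ} (ht : 0 < t) (h : |t * z| ≤ t) : |z| ≤ 1 := by
  rw [abs_mul, abs_of_pos ht] at h
  by_contra hc
  rw [not_le] at hc
  have := mul_lt_mul_of_pos_left hc ht
  linarith

theorem h1B {q1 q2 q3 ε : ℝ} (hq1 : 0 < q1) (hq2 : 0 < q2) (hq3 : 0 < q3)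
    (hq : q1 + q2 + q3 = 1) (hε : 0 < ε) (hε3 : ε ≤ 1 / 3) {u : Fin 6 → ℝ} (h2 : 0 < u 2)
    (hx : phB ε u ∈ clB q1 q2 q3 ε) : u ∈ KB ∧ FB q1 q2 q3 (ε, u) = 0 := by
  obtain ⟨hX, c1, c2, c3⟩ := hx
  have b := bounds hq1 hq2 hq3 hq hε hε3 hX.1
  have eqs := hX.1.eqs
  have e01 : phB ε u 0 1 = ε * u 2 := rfl
  have e12 : phB ε u 1 2 = u 5 := rfl
  have e13 : phB ε u 1 3 = u 3 := rfl
  have e23 : phB ε u 2 3 = u 4 := rfl
  have e02 : phB ε u 0 2 = u 5 + ε * u 2 * u 1 := rfl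
  have e03 : phB ε u 0 3 = u 3 + ε * u 2 * u 0 := rfl
  rw [e01, e12, e13, e23, e02, e03] at b eqs
  rw [e01] at c1
  rw [e02] at c2
  rw [e12] at c3
  have t : 0 < ε * u 2 := mul_pos hε h2
  have b1 := b.a1
  have b2 := b.a2
  have b3 := b.a3
  refine ⟨mem_KB ?_ ?_ ⟨h2.le, ?_⟩ ⟨by linarith, by linarith [b.a2']⟩
    ⟨by linarith, by linarith [b.a3']⟩ ⟨c3, b.b23'⟩, ?_⟩
  · apply abs_le_of t
    have := b.c12
    rwa [add_sub_cancel_left] at this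
  · apply abs_le_of t
    have := b.d12
    rwa [add_sub_cancel_left] at this
  · exact le_of_mul_le_mul_left (b.e12 c1) hε
  · exact (phB_eqs hε h2 (by linarith) (by linarith) (by linarith) (by linarith)
      (by linarith)).2 eqs

theorem h2B {q1 q2 q3 : ℝ} (hq1 : 0 < q1) (hq2 : 0 < q2) (hq3 : 0 < q3) {z : Fin 6 → ℝ}
    (z2 : 0 < z 2) (z3 : 0 < z 3) (z4 : 0 < z 4) (z5 : 1 < z 5) :
    ∀ᶠ q in 𝓝[>] (0 : ℝ) ×ˢ 𝓝 z, FB q1 q2 q3 q = 0 →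
      0 < q.2 2 ∧ phB q.1 q.2 ∈ clB q1 q2 q3 q.1 := by
  have hle : 𝓝[>] (0 : ℝ) ×ˢ 𝓝 z ≤ 𝓝 ((0 : ℝ), z) := by
    rw [nhds_prod_eq]
    exact Filter.prod_mono nhdsWithin_le_nhds le_rfl
  have hev : ∀ (f : ℝ × (Fin 6 → ℝ) → ℝ), Continuous f → 0 < f (0, z) →
      ∀ᶠ q in 𝓝[>] (0 : ℝ) ×ˢ 𝓝 z, 0 < f q := by
    intro f hf h0
    exact (hf.continuousAt.eventually (lt_mem_nhds h0)).filter_mono hle
  have f0 : ∀ᶠ q in 𝓝[>] (0 : ℝ) ×ˢ 𝓝 z, 0 < q.1 :=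
    (Filter.eventually_of_mem self_mem_nhdsWithin (fun _ h => h)).prod_inl _
  have f1 := hev (fun q => 1 - q.1) (by fun_prop) (by norm_num)
  have f2 := hev (fun q => q.2 2) (by fun_prop) z2
  have f3 := hev (fun q => q.2 3) (by fun_prop) z3
  have f4 := hev (fun q => q.2 4) (by fun_prop) z4
  have f5 := hev (fun q => q.2 5 - 1) (by fun_prop) (by simpa using z5)
  have f6 := hev (fun q => q.2 3 + q.1 * q.2 2 * q.2 0) (by fun_prop) (by simpa using z3)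
  have f7 := hev (fun q => q.2 5 + q.1 * q.2 2 * q.2 1 - 1) (by fun_prop) (by simpa using z5)
  have f8 := hev (fun q => 1 - q.1 * q.2 2) (by fun_prop) (by norm_num)
  filter_upwards [f0, f1, f2, f3, f4, f5, f6, f7, f8] with q g0 g1 g2 g3 g4 g5 g6 g7 g8 hF
  refine ⟨g2, ?_, ?_, ?_, ?_⟩
  · refine mat_mem (pq_pos hq1 hq2 hq3 g0 (by linarith)) (mul_pos g0 g2) (by linarith)
      (by linarith) (by linarith) g3 g4 ?_
    exact (phB_eqs g0 g2 g3 g4 (by linarith) g6 (by linarith)).1 hF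
  · show q.1 * q.2 2 < 1
    linarith
  · show 1 ≤ q.2 5 + q.1 * q.2 2 * q.2 1
    linarith
  · show 1 ≤ q.2 5
    linarith

theorem zeroB {q1 q2 q3 : ℝ} (hs : 0 < q1 + q2) {u : Fin 6 → ℝ} (hu : u ∈ KB)
    (h : FB q1 q2 q3 (0, u) = 0) : ∃ z, u = ptB q1 q2 z ∧
      (1 - z ^ 2) * ((q1 + q2) * z + q2 - q1) = 0 := by
  obtain ⟨k0, k1, k2, k3, k4, k5⟩ := KB_of hu
  have e0 := congrFun h 0
  have e1 := congrFun h 1
  have e2 := congrFun h 2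
  have e3 := congrFun h 3
  have e4 := congrFun h 4
  have e5 := congrFun h 5
  simp [FB, fB] at e0 e3 e4
  have g2 : u 2 = q1 + q2 := by linarith
  have g3 : u 3 = 1 := by linarith
  have g4 : u 4 = 1 := by linarith
  simp [FB, fB, bt, g3, g4] at e5
  have g5 : u 5 = 2 := by
    have : u 5 * (2 - u 5) = 0 := by linarith
    rcases mul_eq_zero.1 this with h' | h'
    · linarith [k5.1]
    · linarith
  simp [FB, fB, kp, g2, g3, g4, g5] at e2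
  have g1 : u 1 = u 0 := by
    have : (q1 + q2) * (u 1 - u 0) = 0 := by
      field_simp at e2
      linarith
    rcases mul_eq_zero.1 this with h' | h'
    · linarith
    · linarith
  simp [FB, fB, y1, dl, g1, g2, g3, g4, g5] at e1
  refine ⟨u 0, ?_, ?_⟩
  · funext i
    fin_cases i
    · rfl
    · exact g1
    · exact g2
    · exact g3
    · exact g4
    · exact g5
  · have : (q1 + q2) * ((1 - u 0 ^ 2) * ((q1 + q2) * u 0 + q2 - q1)) = 0 := by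
      field_simp at e1
      linarith
    exact (mul_eq_zero.1 this).resolve_left hs.ne'

theorem countB {q1 q2 q3 : ℝ} (hq1 : 0 < q1) (hq2 : 0 < q2) (hq3 : 0 < q3)
    (hq : q1 + q2 + q3 = 1) :
    ∀ᶠ ε in 𝓝[>] (0 : ℝ), (clB q1 q2 q3 ε).Finite ∧ (clB q1 q2 q3 ε).ncard = 3 := by
  classical
  set zs := (q1 - q2) / (q1 + q2) with hzs
  have hs : 0 < q1 + q2 := by linarith
  have hzs' : (q1 + q2) * zs = q1 - q2 := by rw [hzs]; field_simp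
  have hz1 : zs < 1 := by
    rw [hzs, div_lt_one hs]; linarith
  have hz2 : -1 < zs := by
    rw [hzs, lt_div_iff₀ hs]; linarith
  let S : ℝ → Set (Fin 6 → ℝ) := fun ε => {u | 0 < u 2 ∧ phB ε u ∈ clB q1 q2 q3 ε}
  let Z : Finset (Fin 6 → ℝ) := {ptB q1 q2 1, ptB q1 q2 (-1), ptB q1 q2 zs}
  have hZ : Z.card = 3 := by
    rw [Finset.card_eq_three]
    refine ⟨_, _, _, ?_, ?_, ?_, rfl⟩
    · intro h
      have := ptB_inj h
      norm_num at this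
    · intro h
      exact hz1.ne' (ptB_inj h)
    · intro h
      exact hz2.ne (ptB_inj h)
  -- the class is the image of `S`
  have himg : ∀ ε : ℝ, 0 < ε → clB q1 q2 q3 ε = phB ε '' S ε := by
    intro ε hε
    ext x
    constructor
    · intro hx
      obtain ⟨u, h2, rfl⟩ := phB_surj hε hx.1
      exact ⟨u, ⟨h2, hx⟩, rfl⟩
    · rintro ⟨u, hu, rfl⟩
      exact hu.2
  have hinj : ∀ ε : ℝ, 0 < ε → Set.InjOn (phB ε) (S ε) :=
    fun ε hε u hu u' hu' h => phB_inj hε hu.1 h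
  have hmain := count_zeros (FB q1 q2 q3) KB isCompact_Icc Z S ?_ ?_ ?_ ?_ ?_
  · filter_upwards [hmain, self_mem_nhdsWithin] with ε h hε
    rw [himg ε hε, hZ] at *
    exact ⟨h.1.image _, by rw [(hinj ε hε).ncard_image, h.2]⟩
  · intro u hu
    obtain ⟨k0, k1, k2, k3, k4, k5⟩ := KB_of hu
    exact (smoothB (by linarith) (by linarith) (by linarith)).continuousAt
  · intro u hu h
    obtain ⟨z, rfl, hz⟩ := zeroB hs hu h
    simp only [Z, Finset.mem_insert, Finset.mem_singleton]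
    rcases mul_eq_zero.1 hz with h' | h'
    · have : (1 - z) * (1 + z) = 0 := by linarith
      rcases mul_eq_zero.1 this with h'' | h''
      · left
        rw [show z = 1 by linarith]
      · right; left
        rw [show z = -1 by linarith]
    · right; right
      have : (q1 + q2) * z = (q1 + q2) * zs := by linarith
      rw [mul_left_cancel₀ hs.ne' this]
  · intro u hu
    simp only [Z, Finset.mem_insert, Finset.mem_singleton] at hu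
    rcases hu with rfl | rfl | rfl
    · refine nondB hq1 hq2 (by norm_num) ?_
      intro h
      apply hq2.ne'
      linarith
    · refine nondB hq1 hq2 (by norm_num) ?_
      intro h
      apply hq1.ne'
      linarith
    · refine nondB hq1 hq2 (by rw [hzs']; ring) ?_
      rw [hzs']
      have h3 : 0 < 1 - zs ^ 2 := by nlinarith
      have h4 := mul_pos h3 hs
      intro h
      linarith
  · have : ∀ᶠ ε in 𝓝[>] (0 : ℝ), ε ≤ 1 / 3 :=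
      (eventually_le_nhds (by norm_num : (0 : ℝ) < 1 / 3)).filter_mono nhdsWithin_le_nhds
    filter_upwards [this, self_mem_nhdsWithin] with ε h3 h0 u hu
    exact h1B hq1 hq2 hq3 hq h0 h3 hu.1 hu.2
  · intro z hz
    simp only [Z, Finset.mem_insert, Finset.mem_singleton] at hz
    rcases hz with rfl | rfl | rfl
    · exact h2B hq1 hq2 hq3 hs (one_pos : (0 : ℝ) < 1) (one_pos : (0 : ℝ) < 1)
        (one_lt_two : (1 : ℝ) < 2)
    · exact h2B hq1 hq2 hq3 hs (one_pos : (0 : ℝ) < 1) (one_pos : (0 : ℝ) < 1)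
        (one_lt_two : (1 : ℝ) < 2)
    · exact h2B hq1 hq2 hq3 hs (one_pos : (0 : ℝ) < 1) (one_pos : (0 : ℝ) < 1)
        (one_lt_two : (1 : ℝ) < 2)

end Pool.Agent.Helper58.EF
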