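import Pool.Agent.Helper58.EF.ChartC
import Pool.Agent.Helper58.EF.NondB

/-!
# The chart of a line: the limit
-/

set_option autoImplicit false

namespace Pool.Agent.Helper58.EF

open Filter Topology

noncomputable def vC (v : ℝ × (Fin 6 → ℝ)) : ℝ := v.2 3 + v.2 4 + v.1 * v.2 2

noncomputable def vz23 (v : ℝ × (Fin 6 → ℝ)) : ℝ := v.2 0 + v.1 * v.2 1

noncomputable def vz13 (v : ℝ × (Fin 6 → ℝ)) : ℝ :=
  v.2 0 + v.1 * ((v.2 1 * v.2 4 - v.2 0 * v.2 2) / vC v)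

noncomputable def vw2 (v : ℝ × (Fin 6 → ℝ)) : ℝ := v.2 5 - v.1 * v.2 3 * v.2 0

noncomputable def vw3 (v : ℝ × (Fin 6 → ℝ)) : ℝ := vw2 v - v.1 * v.2 4 * vz23 v

/-- The equations of the chart of a line. -/
noncomputable def FC (q1 q2 q3 : ℝ) (v : ℝ × (Fin 6 → ℝ)) : Fin 6 → ℝ :=
  fC q1 q2 q3 v.1 (v.2 0) (v.2 1) (v.2 2) (v.2 3) (v.2 4) (v.2 5) (vC v) (vz23 v) (vz13 v)
    (vw2 v) (vw3 v)

theorem smoothC {q1 q2 q3 : ℝ} {u : Fin 6 → ℝ} (h3 : u 3 ≠ 0) (h4 : u 4 ≠ 0) (h5 : u 5 ≠ 0)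
    (h34 : u 3 + u 4 ≠ 0) : ContDiffAt ℝ 1 (FC q1 q2 q3) (0, u) := by
  rw [contDiffAt_pi]
  intro i
  fin_cases i <;>
  · simp only [FC, fC, cA, vC, vz23, vz13, vw2, vw3]
    simp
    fun_prop (disch := simp [h3, h4, h5, h34])

/-- The polynomial in `z`. -/
def rC (q1 q2 q3 z : ℝ) : ℝ :=
  (q1 ^ 2 + q3 ^ 2 + q2 * (q1 + q3)) * z - (q1 - q3) * (q1 + q3 - q2)

noncomputable def ptC (q1 q2 q3 z : ℝ) : Fin 6 → ℝ :=
  ![z, -((q1 + q2 + (q2 + q3)) / q3 * (1 - z ^ 2) * (z * (q2 + q3) * (q1 + q2 - q3) / (2 * q2) +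
      (q2 + q3 - q1) / 2)),
    -((1 - z ^ 2) * (q1 + q2) * (q2 + q3) * (q1 + q2 + (q2 + q3)) / (2 * q2)), q1 + q2, q2 + q3, 1]

theorem nondC {q1 q2 q3 z : ℝ} (hq1 : 0 < q1) (hq2 : 0 < q2) (hq3 : 0 < q3)
    (hz : (1 - z ^ 2) * rC q1 q2 q3 z = 0)
    (hz' : -2 * z * rC q1 q2 q3 z + (1 - z ^ 2) * (q1 ^ 2 + q3 ^ 2 + q2 * (q1 + q3)) ≠ 0)
    (hq : q1 + q2 + q3 = 1) :
    Nondeg (FC q1 q2 q3) (ptC q1 q2 q3 z) := by
  have p3 : 0 < q1 + q2 := by linarith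
  have p4 : 0 < q2 + q3 := by linarith
  have p34 : 0 < q1 + q2 + (q2 + q3) := by linarith
  have e0 : ptC q1 q2 q3 z 0 = z := rfl
  have e1 : ptC q1 q2 q3 z 1 = -((q1 + q2 + (q2 + q3)) / q3 * (1 - z ^ 2) *
    (z * (q2 + q3) * (q1 + q2 - q3) / (2 * q2) + (q2 + q3 - q1) / 2)) := rfl
  have e2 : ptC q1 q2 q3 z 2 = -((1 - z ^ 2) * (q1 + q2) * (q2 + q3) * (q1 + q2 + (q2 + q3)) /
    (2 * q2)) := rfl
  have e3 : ptC q1 q2 q3 z 3 = q1 + q2 := rfl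
  have e4 : ptC q1 q2 q3 z 4 = q2 + q3 := rfl
  have e5 : ptC q1 q2 q3 z 5 = 1 := rfl
  refine ⟨smoothC (by rw [e3]; exact p3.ne') (by rw [e4]; exact p4.ne') (by rw [e5]; simp)
    (by rw [e3, e4]; exact p34.ne'), ?_, ?_⟩
  · ext i
    fin_cases i
    · simp [FC, fC, cA, vC, vz23, vz13, vw2, vw3, e3]
    · simp [FC, fC, cA, vC, vz23, vz13, vw2, vw3, e4]
    · simp [FC, fC, cA, vC, vz23, vz13, vw2, vw3, e0, e1, e2, e3, e4, e5]
      have : q1 = 1 - q2 - q3 := by linarith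
      field_simp
      rw [this]
      ring
    · simp [FC, fC, cA, vC, vz23, vz13, vw2, vw3, e0, e1, e2, e3, e4, e5]
      field_simp
      ring
    · simp [FC, fC, cA, vC, vz23, vz13, vw2, vw3, e0, e1, e2, e3, e4, e5]
      have h5 : (0 : ℝ) = (q2 + q3) / (2 * q3) * ((1 - z ^ 2) * rC q1 q2 q3 z) := by
        rw [hz, mul_zero]
      rw [h5]
      unfold rC
      field_simp
      ring
    · simp [FC, fC, cA, vC, vz23, vz13, vw2, vw3, e0, e1, e2, e3, e4, e5]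
  · intro d hd
    have a0 : ∀ t : ℝ, (ptC q1 q2 q3 z + t • d) 0 = z + t * d 0 := fun t => rfl
    have a1 : ∀ t : ℝ, (ptC q1 q2 q3 z + t • d) 1 = ptC q1 q2 q3 z 1 + t * d 1 := fun t => rfl
    have a2 : ∀ t : ℝ, (ptC q1 q2 q3 z + t • d) 2 = ptC q1 q2 q3 z 2 + t * d 2 := fun t => rfl
    have a3 : ∀ t : ℝ, (ptC q1 q2 q3 z + t • d) 3 = (q1 + q2) + t * d 3 := fun t => rfl
    have a4 : ∀ t : ℝ, (ptC q1 q2 q3 z + t • d) 4 = (q2 + q3) + t * d 4 := fun t => rfl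
    have a5 : ∀ t : ℝ, (ptC q1 q2 q3 z + t • d) 5 = 1 + t * d 5 := fun t => rfl
    generalize hom : ptC q1 q2 q3 z 1 = om at a1
    generalize hps : ptC q1 q2 q3 z 2 = ps at a2
    have d3 : d 3 = 0 := by
      refine lin_coeff (c0 := 0) (c2 := 0) (c3 := 0) (hd 0) fun t => ?_
      simp only [FC, fC, cA, vC, vz23, vz13, vw2, vw3, a3]
      simp
      ring
    have d4 : d 4 = 0 := by
      refine lin_coeff (c0 := 0) (c2 := 0) (c3 := 0) (hd 1) fun t => ?_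
      simp only [FC, fC, cA, vC, vz23, vz13, vw2, vw3, a4]
      simp
      ring
    have d5 : d 5 = 0 := by
      refine lin_coeff (c0 := 0) (c2 := 0) (c3 := 0) (hd 5) fun t => ?_
      simp only [FC, fC, cA, vC, vz23, vz13, vw2, vw3, a5]
      simp
      ring
    have d0 : d 0 * (-2 * z * rC q1 q2 q3 z + (1 - z ^ 2) * (q1 ^ 2 + q3 ^ 2 +
        q2 * (q1 + q3))) / 2 = 0 := by
      have h := ((hd 3).const_mul (q1 / (q1 + q2))).add ((hd 4).const_mul (q3 / (q2 + q3)))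
      rw [mul_zero, mul_zero, add_zero] at h
      refine lin_coeff (c0 := (1 - z ^ 2) * rC q1 q2 q3 z / 2)
        (c2 := (-(d 0) ^ 2 * rC q1 q2 q3 z - 2 * z * (d 0) ^ 2 *
          (q1 ^ 2 + q3 ^ 2 + q2 * (q1 + q3))) / 2)
        (c3 := -(q1 ^ 2 + q3 ^ 2 + q2 * (q1 + q3)) * (d 0) ^ 3 / 2) h fun t => ?_
      simp only [Pi.add_apply, FC, fC, cA, vC, vz23, vz13, vw2, vw3, a0, a1, a2, a3, a4, a5, d3,
        d4, d5, rC]
      simp
      field_simp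
      ring
    have d0' : d 0 = 0 := by
      have h : d 0 * (-2 * z * rC q1 q2 q3 z + (1 - z ^ 2) * (q1 ^ 2 + q3 ^ 2 +
        q2 * (q1 + q3))) = 0 := by linarith
      exact (mul_eq_zero.1 h).resolve_right hz'
    have d2 : -(2 * q2 / (q1 + q2 + (q2 + q3))) * d 2 = 0 := by
      refine lin_coeff (c0 := -(2 * q2 / (q1 + q2 + (q2 + q3))) * ps -
        (q1 + q2) * (q2 + q3) * (1 - z ^ 2)) (c2 := 0) (c3 := 0) (hd 2) fun t => ?_
      simp only [FC, fC, cA, vC, vz23, vz13, vw2, vw3, a0, a1, a2, a3, a4, a5, d3, d4, d5, d0']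
      simp
      have : q1 = 1 - q2 - q3 := by linarith
      field_simp
      rw [this]
      ring
    have d2' : d 2 = 0 := by
      have hne : -(2 * q2 / (q1 + q2 + (q2 + q3))) ≠ 0 := neg_ne_zero.2 (by positivity)
      exact (mul_eq_zero.1 d2).resolve_left hne
    have d1 : q3 * (q1 + q2) / (q1 + q2 + (q2 + q3)) * d 1 = 0 := by
      refine lin_coeff (c0 := (q1 + q2) ^ 2 * (1 - z ^ 2) * z / 2 -
        q3 * (q1 + q2) * ps * z / ((q1 + q2 + (q2 + q3)) * (q2 + q3)) +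
        q3 * om * (q1 + q2) / (q1 + q2 + (q2 + q3)) + q3 * z * ps / (q1 + q2 + (q2 + q3)) +
        (q1 + q2) * (1 - z ^ 2) * (q2 - q1 + q3) / 2) (c2 := 0) (c3 := 0) (hd 3) fun t => ?_
      simp only [FC, fC, cA, vC, vz23, vz13, vw2, vw3, a0, a1, a2, a3, a4, a5, d3, d4, d5, d0',
        d2']
      simp
      field_simp
      ring
    have d1' : d 1 = 0 := by
      have hne : q3 * (q1 + q2) / (q1 + q2 + (q2 + q3)) ≠ 0 := by positivity
      exact (mul_eq_zero.1 d1).resolve_left hne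
    ext i
    fin_cases i
    · exact d0'
    · exact d1'
    · exact d2'
    · exact d3
    · exact d4
    · exact d5

end Pool.Agent.Helper58.EF
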