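import Pool.Agent.Helper58.EF.CountB
import Pool.Agent.Helper58.EF.NondC

/-!
# The number of metrics of the class of a line
-/

set_option autoImplicit false

namespace Pool.Agent.Helper58.EF

open Filter Topology

/-- The metrics whose coefficients `x12 / ε`, `x23 / ε`, `x13 / ε` are close to those of the Kähler
metric of three blocks with the block `2` in the middle. -/
def clC (q1 q2 q3 ρ ε : ℝ) : Set (Fin 4 → Fin 4 → ℝ) :=
  {x | x ∈ XX (pq q1 q2 q3 ε) ∧ |x 0 1 - ε * (q1 + q2)| ≤ ρ * ε ∧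
    |x 1 2 - ε * (q2 + q3)| ≤ ρ * ε ∧ |x 0 2 - ε * (q1 + q2 + (q2 + q3))| ≤ ρ * ε}

/-- The chart. -/
noncomputable def phC (ε : ℝ) (u : Fin 6 → ℝ) : Fin 4 → Fin 4 → ℝ :=
  mat (ε * u 3) (ε * vC (ε, u)) (u 5) (ε * u 4) (vw2 (ε, u)) (vw3 (ε, u))

theorem ptC_inj {q1 q2 q3 z z' : ℝ} (h : ptC q1 q2 q3 z = ptC q1 q2 q3 z') : z = z' :=
  congrFun h 0

theorem phC_surj {q1 q2 q3 ε : ℝ} (hε : 0 < ε) {x : Fin 4 → Fin 4 → ℝ}
    (hx : x ∈ XX (pq q1 q2 q3 ε)) : ∃ u : Fin 6 → ℝ, 0 < u 3 ∧ 0 < u 4 ∧ phC ε u = x := by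
  have h01 := hx.1.pos 0 1 (by decide)
  have h12 := hx.1.pos 1 2 (by decide)
  have n01 := h01.ne'
  have n12 := h12.ne'
  have nε := hε.ne'
  refine ⟨![(x 0 3 - x 1 3) / x 0 1, ((x 1 3 - x 2 3) / x 1 2 - (x 0 3 - x 1 3) / x 0 1) / ε,
    (x 0 2 / ε - x 0 1 / ε - x 1 2 / ε) / ε, x 0 1 / ε, x 1 2 / ε, x 0 3], div_pos h01 hε,
    div_pos h12 hε, ?_⟩
  refine Eq.trans ?_ (mat_eta hx)
  have eC : vC (ε, ![(x 0 3 - x 1 3) / x 0 1, ((x 1 3 - x 2 3) / x 1 2 -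
      (x 0 3 - x 1 3) / x 0 1) / ε, (x 0 2 / ε - x 0 1 / ε - x 1 2 / ε) / ε, x 0 1 / ε, x 1 2 / ε,
      x 0 3]) = x 0 2 / ε := by
    show x 0 1 / ε + x 1 2 / ε + ε * ((x 0 2 / ε - x 0 1 / ε - x 1 2 / ε) / ε) = x 0 2 / ε
    field_simp
    ring
  have ez : vz23 (ε, ![(x 0 3 - x 1 3) / x 0 1, ((x 1 3 - x 2 3) / x 1 2 -
      (x 0 3 - x 1 3) / x 0 1) / ε, (x 0 2 / ε - x 0 1 / ε - x 1 2 / ε) / ε, x 0 1 / ε, x 1 2 / ε,
      x 0 3]) = (x 1 3 - x 2 3) / x 1 2 := by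
    show (x 0 3 - x 1 3) / x 0 1 + ε * (((x 1 3 - x 2 3) / x 1 2 -
      (x 0 3 - x 1 3) / x 0 1) / ε) = _
    field_simp
    ring
  have e2 : vw2 (ε, ![(x 0 3 - x 1 3) / x 0 1, ((x 1 3 - x 2 3) / x 1 2 -
      (x 0 3 - x 1 3) / x 0 1) / ε, (x 0 2 / ε - x 0 1 / ε - x 1 2 / ε) / ε, x 0 1 / ε, x 1 2 / ε,
      x 0 3]) = x 1 3 := by
    show x 0 3 - ε * (x 0 1 / ε) * ((x 0 3 - x 1 3) / x 0 1) = x 1 3
    field_simp
    ring
  unfold phC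
  rw [eC]
  unfold vw3
  rw [ez, e2]
  congr 1
  · show ε * (x 0 1 / ε) = x 0 1
    field_simp
  · field_simp
  · show ε * (x 1 2 / ε) = x 1 2
    field_simp
  · show x 1 3 - ε * (x 1 2 / ε) * ((x 1 3 - x 2 3) / x 1 2) = x 2 3
    field_simp
    ring

theorem phC_inj {ε : ℝ} (hε : 0 < ε) {u u' : Fin 6 → ℝ} (hu : 0 < u 3) (hu4 : 0 < u 4)
    (h : phC ε u = phC ε u') : u = u' := by
  have e01 : ε * u 3 = ε * u' 3 := congrFun (congrFun h 0) 1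
  have e12 : ε * u 4 = ε * u' 4 := congrFun (congrFun h 1) 2
  have e03 : u 5 = u' 5 := congrFun (congrFun h 0) 3
  have e02 : ε * vC (ε, u) = ε * vC (ε, u') := congrFun (congrFun h 0) 2
  have e13 : vw2 (ε, u) = vw2 (ε, u') := congrFun (congrFun h 1) 3
  have e23 : vw3 (ε, u) = vw3 (ε, u') := congrFun (congrFun h 2) 3
  have nε := hε.ne'
  have g3 : u 3 = u' 3 := mul_left_cancel₀ nε e01
  have g4 : u 4 = u' 4 := mul_left_cancel₀ nε e12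
  have gC : u 3 + u 4 + ε * u 2 = u' 3 + u' 4 + ε * u' 2 := mul_left_cancel₀ nε e02
  have g2 : u 2 = u' 2 := by
    rw [g3, g4] at gC
    exact mul_left_cancel₀ nε (add_left_cancel gC)
  have g0 : u 0 = u' 0 := by
    have k : u 5 - ε * u 3 * u 0 = u' 5 - ε * u' 3 * u' 0 := e13
    rw [e03, ← g3] at k
    exact mul_left_cancel₀ (mul_pos hε hu).ne' (by linarith)
  have gz : vz23 (ε, u) = vz23 (ε, u') := by
    have k : vw2 (ε, u) - ε * u 4 * vz23 (ε, u) = vw2 (ε, u') - ε * u' 4 * vz23 (ε, u') := e23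
    rw [e13, ← g4] at k
    exact mul_left_cancel₀ (mul_pos hε hu4).ne' (by linarith)
  have g1 : u 1 = u' 1 := by
    have k : u 0 + ε * u 1 = u' 0 + ε * u' 1 := gz
    rw [g0] at k
    exact mul_left_cancel₀ nε (add_left_cancel k)
  funext i
  fin_cases i
  · exact g0
  · exact g1
  · exact g2
  · exact g3
  · exact g4
  · exact e03

theorem phC_eqs {q1 q2 q3 ε : ℝ} {u : Fin 6 → ℝ} (hε : 0 < ε) (h3 : 0 < u 3) (h4 : 0 < u 4)
    (h5 : 0 < u 5) (hC : 0 < vC (ε, u)) (h2 : 0 < vw2 (ε, u)) (hw3 : 0 < vw3 (ε, u)) :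
    FC q1 q2 q3 (ε, u) = 0 ↔ Eqs (ε * q1) (ε * q2) (ε * q3) (1 - ε) (ε * u 3)
      (ε * vC (ε, u)) (u 5) (ε * u 4) (vw2 (ε, u)) (vw3 (ε, u)) :=
  chartC hε rfl rfl rfl rfl rfl rfl rfl rfl h3 h4 hC h5 h2 hw3

/-- The coefficient of `ψ` in the third equation. -/
noncomputable def br (q1 q2 q3 A B C : ℝ) : ℝ :=
  q2 * ((A + B + C) / (2 * A * B)) + q3 * ((A + C - B) / (2 * C * B)) +
    q1 * ((B + C - A) / (2 * C * A))

theorem exists_rho {q1 q2 q3 : ℝ} (hq1 : 0 < q1) (hq2 : 0 < q2) (hq3 : 0 < q3)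
    (hq : q1 + q2 + q3 = 1) : ∃ ρ₀ : ℝ, 0 < ρ₀ ∧ ρ₀ ≤ 1 ∧ ∀ A B C : ℝ,
      |A - (q1 + q2)| ≤ ρ₀ → |B - (q2 + q3)| ≤ ρ₀ → |C - (q1 + q2 + (q2 + q3))| ≤ ρ₀ →
      1 + q2 / (q1 + q2 + (q2 + q3)) < br q1 q2 q3 A B C ∧ (q1 + q2) / 2 < C - B ∧ 0 < A ∧
        0 < B := by
  have p3 : 0 < q1 + q2 := by linarith
  have p4 : 0 < q2 + q3 := by linarith
  have p34 : 0 < q1 + q2 + (q2 + q3) := by linarith
  set A0 := q1 + q2 with hA0
  set B0 := q2 + q3 with hB0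
  set C0 := A0 + B0 with hC0
  let f : ℝ × ℝ × ℝ → ℝ := fun t => br q1 q2 q3 t.1 t.2.1 t.2.2
  have hf : ContinuousAt f (A0, B0, C0) := by
    have n1 : A0 ≠ 0 := p3.ne'
    have n2 : B0 ≠ 0 := p4.ne'
    have n3 : C0 ≠ 0 := p34.ne'
    show ContinuousAt (fun t : ℝ × ℝ × ℝ => q2 * ((t.1 + t.2.1 + t.2.2) / (2 * t.1 * t.2.1)) +
      q3 * ((t.1 + t.2.2 - t.2.1) / (2 * t.2.2 * t.2.1)) +
      q1 * ((t.2.1 + t.2.2 - t.1) / (2 * t.2.2 * t.1))) (A0, B0, C0)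
    have d1 : ContinuousAt (fun t : ℝ × ℝ × ℝ => (t.1 + t.2.1 + t.2.2) / (2 * t.1 * t.2.1))
        (A0, B0, C0) := ContinuousAt.div (by fun_prop) (by fun_prop) (by simp [n1, n2])
    have d2 : ContinuousAt (fun t : ℝ × ℝ × ℝ => (t.1 + t.2.2 - t.2.1) / (2 * t.2.2 * t.2.1))
        (A0, B0, C0) := ContinuousAt.div (by fun_prop) (by fun_prop) (by simp [n2, n3])
    have d3 : ContinuousAt (fun t : ℝ × ℝ × ℝ => (t.2.1 + t.2.2 - t.1) / (2 * t.2.2 * t.1))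
        (A0, B0, C0) := ContinuousAt.div (by fun_prop) (by fun_prop) (by simp [n1, n3])
    exact ((continuousAt_const.mul d1).add (continuousAt_const.mul d2)).add
      (continuousAt_const.mul d3)
  have hval : f (A0, B0, C0) = 1 + 2 * q2 / C0 := by
    show br q1 q2 q3 A0 B0 C0 = _
    unfold br
    rw [hC0]
    have n1 : A0 ≠ 0 := p3.ne'
    have n2 : B0 ≠ 0 := p4.ne'
    have n3 : A0 + B0 ≠ 0 := p34.ne'
    have e1 : q1 = 1 - B0 := by rw [hB0]; linarith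
    have e3 : q3 = 1 - A0 := by rw [hA0]; linarith
    have e2 : q2 = A0 + B0 - 1 := by rw [hA0, hB0]; linarith
    rw [e1, e2, e3]
    field_simp
    ring
  have h1 : ∀ᶠ t in 𝓝 ((A0, B0, C0) : ℝ × ℝ × ℝ), 1 + q2 / C0 < f t := by
    apply hf.eventually (lt_mem_nhds _)
    rw [hval]
    have : q2 / C0 < 2 * q2 / C0 := by
      apply div_lt_div_of_pos_right _ p34
      linarith
    linarith
  have c2 : ContinuousAt (fun t : ℝ × ℝ × ℝ => t.2.2 - t.2.1) (A0, B0, C0) := by fun_prop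
  have h2 : ∀ᶠ t in 𝓝 ((A0, B0, C0) : ℝ × ℝ × ℝ), A0 / 2 < t.2.2 - t.2.1 := by
    apply c2.eventually (lt_mem_nhds _)
    show A0 / 2 < C0 - B0
    rw [hC0]
    linarith
  have c3 : ContinuousAt (fun t : ℝ × ℝ × ℝ => t.1) (A0, B0, C0) := by fun_prop
  have h3 : ∀ᶠ t in 𝓝 ((A0, B0, C0) : ℝ × ℝ × ℝ), 0 < t.1 := c3.eventually (lt_mem_nhds p3)
  have c4 : ContinuousAt (fun t : ℝ × ℝ × ℝ => t.2.1) (A0, B0, C0) := by fun_prop
  have h4 : ∀ᶠ t in 𝓝 ((A0, B0, C0) : ℝ × ℝ × ℝ), 0 < t.2.1 := c4.eventually (lt_mem_nhds p4)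
  have h5 := h1.and (h2.and (h3.and h4))
  rw [(Metric.nhds_basis_closedBall).eventually_iff] at h5
  obtain ⟨r, hr, h5⟩ := h5
  refine ⟨min r 1, lt_min hr one_pos, min_le_right _ _, fun A B C hA hB hC => ?_⟩
  have hm : (A, B, C) ∈ Metric.closedBall ((A0, B0, C0) : ℝ × ℝ × ℝ) r := by
    rw [Metric.mem_closedBall, Prod.dist_eq, Prod.dist_eq]
    refine max_le ?_ (max_le ?_ ?_)
    · rw [Real.dist_eq]; exact hA.trans (min_le_left _ _)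
    · rw [Real.dist_eq]; exact hB.trans (min_le_left _ _)
    · rw [Real.dist_eq]; exact hC.trans (min_le_left _ _)
  exact h5 hm

theorem quad_bound {A z w w' M : ℝ} (hA : 0 ≤ A) (hM : A ≤ M) (hz : |z| ≤ 1) (hw : 2 / 3 ≤ w)
    (hw' : 2 / 3 ≤ w') : 0 ≤ A ^ 2 * (1 - z ^ 2) / (2 * w * w') ∧
      A ^ 2 * (1 - z ^ 2) / (2 * w * w') ≤ M ^ 2 * (9 / 8) := by
  have h1 : z ^ 2 ≤ 1 := by rw [← sq_abs]; nlinarith [abs_nonneg z]
  have h2 : 0 ≤ 1 - z ^ 2 := by linarith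
  have h3 : (2 / 3 : ℝ) * (2 / 3) ≤ w * w' := mul_le_mul hw hw' (by norm_num) (by linarith)
  refine ⟨by positivity, ?_⟩
  rw [div_le_iff₀ (by nlinarith)]
  have h4 : A ^ 2 ≤ M ^ 2 := pow_le_pow_left₀ hA hM 2
  have h5 : A ^ 2 * (1 - z ^ 2) ≤ M ^ 2 * 1 :=
    mul_le_mul h4 (by nlinarith [sq_nonneg z]) h2 (by positivity)
  have h6 : M ^ 2 * (9 / 8) * (2 * ((2 / 3) * (2 / 3))) ≤ M ^ 2 * (9 / 8) * (2 * w * w') := by
    apply mul_le_mul_of_nonneg_left _ (by positivity)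
    nlinarith
  nlinarith

theorem one_bound {A z w M : ℝ} (hA : 0 ≤ A) (hM : A ≤ M) (hz : |z| ≤ 1) (hw : 2 / 3 ≤ w) :
    0 ≤ A * (1 - z ^ 2) / (2 * w) ∧ A * (1 - z ^ 2) / (2 * w) ≤ M * (3 / 4) := by
  have h1 : z ^ 2 ≤ 1 := by rw [← sq_abs]; nlinarith [abs_nonneg z]
  have h2 : 0 ≤ 1 - z ^ 2 := by linarith
  refine ⟨by positivity, ?_⟩
  rw [div_le_iff₀ (by linarith)]
  have h5 : A * (1 - z ^ 2) ≤ M * 1 :=
    mul_le_mul hM (by nlinarith [sq_nonneg z]) h2 (by linarith)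
  have h6 : M * (3 / 4) * (2 * (2 / 3)) ≤ M * (3 / 4) * (2 * w) := by
    apply mul_le_mul_of_nonneg_left _ (by linarith)
    linarith
  linarith

/-- The bound for `ψ`. -/
theorem psi_le {q2 C0 ε ψ b U12 U13 U23 : ℝ} (hq2 : 0 < q2) (hC0 : 0 < C0) (hC2 : C0 ≤ 2)
    (hb : 1 + q2 / C0 < b) (hε : 0 < ε) (hε1 : ε ≤ 1 / 3) (h12 : 0 ≤ U12 ∧ U12 ≤ 2 ^ 2 * (9 / 8))
    (h23 : 0 ≤ U23 ∧ U23 ≤ 2 ^ 2 * (9 / 8)) (h13 : 0 ≤ U13 ∧ U13 ≤ 3 ^ 2 * (9 / 8))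
    (h : ψ * (1 - b) = (1 - ε) * (U13 - U12 - U23)) : |ψ| ≤ 22 / q2 := by
  have h1 : |ψ * (1 - b)| ≤ 11 := by
    rw [h, abs_mul, abs_of_nonneg (by linarith : 0 ≤ 1 - ε)]
    have : |U13 - U12 - U23| ≤ 11 := by
      rw [abs_le]; constructor <;> linarith
    nlinarith [abs_nonneg (U13 - U12 - U23)]
  have h2 : q2 / 2 ≤ q2 / C0 := div_le_div_of_nonneg_left hq2.le hC0 hC2
  rw [abs_mul] at h1
  have h3 : q2 / 2 ≤ |1 - b| := by
    rw [abs_sub_comm, abs_of_pos (by linarith)]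
    linarith
  have h4 := mul_le_mul_of_nonneg_left h3 (abs_nonneg ψ)
  rw [le_div_iff₀ hq2]
  linarith

/-- The bound for `ω`. -/
theorem om_le {q3 A0 K ω C B X : ℝ} (hq3 : 0 < q3) (hA0 : 0 < A0) (hC : 0 < C) (hC3 : C ≤ 3)
    (hCB : A0 / 2 < C - B) (hX : |X| ≤ K) (h : q3 * (ω * (C - B) / C) = X) :
    |ω| ≤ 6 * K / (q3 * A0) := by
  have h1 : |ω| * (q3 * (C - B)) = |X| * C := by
    rw [← h, abs_mul, abs_div, abs_mul, abs_of_pos hq3, abs_of_pos hC,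
      abs_of_pos (by linarith : 0 < C - B)]
    field_simp
  rw [le_div_iff₀ (by positivity)]
  have h2 : |ω| * (q3 * (A0 / 2)) ≤ |ω| * (q3 * (C - B)) := by
    apply mul_le_mul_of_nonneg_left _ (abs_nonneg ω)
    exact mul_le_mul_of_nonneg_left hCB.le hq3.le
  have h3 : |X| * C ≤ K * 3 := mul_le_mul hX hC3 hC.le (by linarith [abs_nonneg X])
  linarith

/-- Bounds for `ψ` and `ω`. -/
noncomputable def Mps (q2 : ℝ) : ℝ := 22 / q2

noncomputable def Mom (q1 q2 q3 : ℝ) : ℝ :=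
  6 * (10 + 5 * Mps q2 / (2 * (q2 + q3) ^ 2) + Mps q2 / (q2 + q3)) / (q3 * (q1 + q2))

theorem scalC {q1 q2 q3 ε z ω ψ A B w1 C z23 z13 w2 w3 : ℝ} (hq1 : 0 < q1) (hq2 : 0 < q2)
    (hq3 : 0 < q3) (hq : q1 + q2 + q3 = 1) (hε : 0 < ε) (hε1 : ε ≤ 1 / 3)
    (hC : C = A + B + ε * ψ) (hA : q1 + q2 ≤ A) (hA2 : A ≤ 2) (hB : q2 + q3 ≤ B) (hB2 : B ≤ 2)
    (hC3 : C ≤ 3) (hb : 1 + q2 / (q1 + q2 + (q2 + q3)) < br q1 q2 q3 A B C)
    (hCB : (q1 + q2) / 2 < C - B) (hz : |z| ≤ 1) (hz23 : |z23| ≤ 1) (hz13 : |z13| ≤ 1)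
    (hw1 : 2 / 3 ≤ w1) (hw2 : 2 / 3 ≤ w2) (hw3 : 2 / 3 ≤ w3)
    (h2 : ψ - ((1 - ε) * (C ^ 2 * (1 - z13 ^ 2) / (2 * w1 * w3) -
      A ^ 2 * (1 - z ^ 2) / (2 * w1 * w2) -
      B ^ 2 * (1 - z23 ^ 2) / (2 * w2 * w3)) + q2 * (ψ * (A + B + C) / (2 * A * B)) +
      q3 * (ψ * (2 * A + ε * ψ) / (2 * C * B)) + q1 * (ψ * (2 * B + ε * ψ) / (2 * C * A))) = 0)
    (h3 : cA q3 ε z ψ A B C w1 w2 * z + q3 * ((ω * (A + ε * ψ) + z * ψ) / C) +
      A * (1 - z ^ 2) * (q2 / (2 * w2) - q1 / (2 * w1)) +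
      q3 * ((C * (1 - z13 ^ 2) - B * (1 - z23 ^ 2)) / (2 * w3)) = 0) :
    |ψ| ≤ Mps q2 ∧ |ω| ≤ Mom q1 q2 q3 := by
  have pA : 0 < A := by linarith
  have pB : 0 < B := by linarith
  have pC : 0 < C := by linarith
  have u12 := quad_bound pA.le hA2 hz hw1 hw2
  have u23 := quad_bound pB.le hB2 hz23 hw2 hw3
  have u13 := quad_bound pC.le hC3 hz13 hw1 hw3
  have v12 := one_bound pA.le hA2 hz hw1
  have v12' := one_bound pA.le hA2 hz hw2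
  have v23 := one_bound pB.le hB2 hz23 hw3
  have v13 := one_bound pC.le hC3 hz13 hw3
  have e1 : 2 * A + ε * ψ = A + C - B := by rw [hC]; ring
  have e2 : 2 * B + ε * ψ = B + C - A := by rw [hC]; ring
  have e3 : A + ε * ψ = C - B := by rw [hC]; ring
  have hps : |ψ| ≤ Mps q2 := by
    refine psi_le (C0 := q1 + q2 + (q2 + q3)) (b := br q1 q2 q3 A B C) hq2 (by linarith)
      (by linarith) hb hε hε1 u12 u23 u13 ?_
    rw [e1, e2] at h2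
    unfold br
    linear_combination h2
  refine ⟨hps, ?_⟩
  have hps0 := abs_nonneg ψ
  have hM : 0 ≤ Mps q2 := hps0.trans hps
  set U12 := A ^ 2 * (1 - z ^ 2) / (2 * w1 * w2) with hU
  have hcA : |cA q3 ε z ψ A B C w1 w2| ≤ 9 / 2 + 5 * Mps q2 / (2 * (q2 + q3) ^ 2) := by
    unfold cA
    rw [e1]
    refine (abs_sub _ _).trans ?_
    apply add_le_add
    · rw [abs_mul, abs_of_nonneg (by linarith : 0 ≤ 1 - ε), abs_of_nonneg u12.1]
      nlinarith [u12.1, u12.2]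
    · have k1 : 0 < A + C - B := by linarith
      rw [abs_mul, abs_div, abs_mul, abs_of_pos hq3, abs_of_pos k1,
        abs_of_pos (by positivity : 0 < 2 * C * B), ← mul_div_assoc]
      have k2 : 2 * (q2 + q3) ^ 2 ≤ 2 * C * B := by nlinarith
      apply div_le_div₀ (by positivity) _ (by positivity) k2
      have k3 : |ψ| * (A + C - B) ≤ Mps q2 * 5 := mul_le_mul hps (by linarith) k1.le hM
      have k4 : q3 * (|ψ| * (A + C - B)) ≤ 1 * (|ψ| * (A + C - B)) :=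
        mul_le_mul_of_nonneg_right (by linarith) (by positivity)
      linarith
  refine om_le (C := C) (B := B)
    (X := -(cA q3 ε z ψ A B C w1 w2 * z + q3 * (z * ψ / C) +
      (q2 * (A * (1 - z ^ 2) / (2 * w2)) - q1 * (A * (1 - z ^ 2) / (2 * w1))) +
      q3 * (C * (1 - z13 ^ 2) / (2 * w3) - B * (1 - z23 ^ 2) / (2 * w3)))) hq3
    (by linarith) pC hC3 hCB ?_ ?_
  · rw [abs_neg]
    have m1 : |cA q3 ε z ψ A B C w1 w2 * z| ≤ 9 / 2 + 5 * Mps q2 / (2 * (q2 + q3) ^ 2) := by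
      rw [abs_mul]
      have := mul_le_mul hcA hz (abs_nonneg z) (le_trans (abs_nonneg _) hcA)
      linarith
    have m2 : |q3 * (z * ψ / C)| ≤ Mps q2 / (q2 + q3) := by
      rw [abs_mul, abs_div, abs_mul, abs_of_pos hq3, abs_of_pos pC, ← mul_div_assoc]
      apply div_le_div₀ hM _ (by positivity) (by linarith)
      have k3 : |z| * |ψ| ≤ 1 * Mps q2 := mul_le_mul hz hps hps0 (by norm_num)
      have k4 : q3 * (|z| * |ψ|) ≤ 1 * (|z| * |ψ|) :=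
        mul_le_mul_of_nonneg_right (by linarith) (by positivity)
      linarith
    have m3 : |q2 * (A * (1 - z ^ 2) / (2 * w2)) - q1 * (A * (1 - z ^ 2) / (2 * w1))| ≤
        3 / 2 := by
      have k1 := mul_nonneg hq2.le v12'.1
      have k2 := mul_nonneg hq1.le v12.1
      have k3 := mul_le_mul_of_nonneg_left v12'.2 hq2.le
      have k4 := mul_le_mul_of_nonneg_left v12.2 hq1.le
      rw [abs_le]; constructor <;> linarith
    have m4 : |q3 * (C * (1 - z13 ^ 2) / (2 * w3) - B * (1 - z23 ^ 2) / (2 * w3))| ≤ 9 / 4 := by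
      rw [abs_mul, abs_of_pos hq3]
      have k1 : |C * (1 - z13 ^ 2) / (2 * w3) - B * (1 - z23 ^ 2) / (2 * w3)| ≤ 9 / 4 := by
        rw [abs_le]; constructor <;> linarith [v13.1, v13.2, v23.1, v23.2]
      have k2 := mul_le_mul (by linarith : q3 ≤ 1) k1 (abs_nonneg _) (by norm_num)
      linarith
    have t1 := abs_add_le (cA q3 ε z ψ A B C w1 w2 * z + q3 * (z * ψ / C) +
      (q2 * (A * (1 - z ^ 2) / (2 * w2)) - q1 * (A * (1 - z ^ 2) / (2 * w1))))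
      (q3 * (C * (1 - z13 ^ 2) / (2 * w3) - B * (1 - z23 ^ 2) / (2 * w3)))
    have t2 := abs_add_le (cA q3 ε z ψ A B C w1 w2 * z + q3 * (z * ψ / C))
      (q2 * (A * (1 - z ^ 2) / (2 * w2)) - q1 * (A * (1 - z ^ 2) / (2 * w1)))
    have t3 := abs_add_le (cA q3 ε z ψ A B C w1 w2 * z) (q3 * (z * ψ / C))
    linarith
  · rw [e3] at h3
    linear_combination h3

/-- The compact set. -/
noncomputable def KC (q1 q2 q3 : ℝ) : Set (Fin 6 → ℝ) :=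
  Set.Icc ![-1, -Mom q1 q2 q3, -Mps q2, q1 + q2, q2 + q3, 1 / 2]
    ![1, Mom q1 q2 q3, Mps q2, 2, 2, 3 / 2]

theorem KC_of {q1 q2 q3 : ℝ} {u : Fin 6 → ℝ} (h : u ∈ KC q1 q2 q3) :
    (-1 ≤ u 0 ∧ u 0 ≤ 1) ∧ (q1 + q2 ≤ u 3) ∧ (q2 + q3 ≤ u 4) ∧ (1 / 2 ≤ u 5) := by
  obtain ⟨h1, h2⟩ := h
  exact ⟨⟨h1 0, h2 0⟩, h1 3, h1 4, h1 5⟩

theorem mem_KC {q1 q2 q3 : ℝ} {u : Fin 6 → ℝ} (h0 : |u 0| ≤ 1) (h1 : |u 1| ≤ Mom q1 q2 q3)
    (h2 : |u 2| ≤ Mps q2) (h3 : q1 + q2 ≤ u 3 ∧ u 3 ≤ 2) (h4 : q2 + q3 ≤ u 4 ∧ u 4 ≤ 2)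
    (h5 : 1 / 2 ≤ u 5 ∧ u 5 ≤ 3 / 2) : u ∈ KC q1 q2 q3 := by
  rw [abs_le] at h0 h1 h2
  constructor
  · intro i
    fin_cases i
    · exact h0.1
    · exact h1.1
    · exact h2.1
    · exact h3.1
    · exact h4.1
    · exact h5.1
  · intro i
    fin_cases i
    · exact h0.2
    · exact h1.2
    · exact h2.2
    · exact h3.2
    · exact h4.2
    · exact h5.2

theorem abs_scale {ε a b ρ : ℝ} (hε : 0 < ε) (h : |ε * a - ε * b| ≤ ρ * ε) : |a - b| ≤ ρ := by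
  rw [← mul_sub, abs_mul, abs_of_pos hε, mul_comm ρ] at h
  exact le_of_mul_le_mul_left h hε

theorem h1C {q1 q2 q3 ε ρ : ℝ} (hq1 : 0 < q1) (hq2 : 0 < q2) (hq3 : 0 < q3)
    (hq : q1 + q2 + q3 = 1) (hε : 0 < ε) (hε3 : ε ≤ 1 / 3) (hρ1 : ρ ≤ 1)
    (hρ : ∀ A B C : ℝ, |A - (q1 + q2)| ≤ ρ → |B - (q2 + q3)| ≤ ρ →
      |C - (q1 + q2 + (q2 + q3))| ≤ ρ → 1 + q2 / (q1 + q2 + (q2 + q3)) < br q1 q2 q3 A B C ∧
        (q1 + q2) / 2 < C - B ∧ 0 < A ∧ 0 < B) {u : Fin 6 → ℝ} (h3 : 0 < u 3) (h4 : 0 < u 4)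
    (hx : phC ε u ∈ clC q1 q2 q3 ρ ε) : u ∈ KC q1 q2 q3 ∧ FC q1 q2 q3 (ε, u) = 0 := by
  obtain ⟨hX, c1, c2, c3⟩ := hx
  have b := bounds hq1 hq2 hq3 hq hε hε3 hX.1
  have eqs := hX.1.eqs
  have hp02 := hX.1.pos 0 2 (by decide)
  have e01 : phC ε u 0 1 = ε * u 3 := rfl
  have e02 : phC ε u 0 2 = ε * vC (ε, u) := rfl
  have e03 : phC ε u 0 3 = u 5 := rfl
  have e12 : phC ε u 1 2 = ε * u 4 := rfl
  have e13 : phC ε u 1 3 = vw2 (ε, u) := rfl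
  have e23 : phC ε u 2 3 = vw3 (ε, u) := rfl
  rw [e01, e12, e13, e23, e02, e03] at b eqs
  rw [e01] at c1
  rw [e12] at c2
  rw [e02] at c3 hp02
  have pC : 0 < vC (ε, u) := by
    by_contra hc
    rw [not_lt] at hc
    have := mul_nonpos_of_nonneg_of_nonpos hε.le hc
    linarith
  have hA := abs_scale hε c1
  have hB := abs_scale hε c2
  have hC := abs_scale hε c3
  obtain ⟨k1, k2, -, -⟩ := hρ _ _ _ hA hB hC
  have b1 := b.a1
  have b2 := b.a2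
  have b3 := b.a3
  have A1 : q1 + q2 ≤ u 3 := by
    have := b.b12
    rw [← mul_add] at this
    exact le_of_mul_le_mul_left this hε
  have B1 : q2 + q3 ≤ u 4 := by
    have := b.b23
    rw [← mul_add] at this
    exact le_of_mul_le_mul_left this hε
  have A2 : u 3 ≤ 2 := by rw [abs_le] at hA; linarith [hA.2]
  have B2 : u 4 ≤ 2 := by rw [abs_le] at hB; linarith [hB.2]
  have C2 : vC (ε, u) ≤ 3 := by rw [abs_le] at hC; linarith [hC.2]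
  have z1 : |u 0| ≤ 1 := by
    apply abs_le_of (mul_pos hε h3)
    have := b.c12
    rwa [show u 5 - vw2 (ε, u) = ε * u 3 * u 0 by
      show u 5 - (u 5 - ε * u 3 * u 0) = ε * u 3 * u 0
      ring] at this
  have z2 : |vz23 (ε, u)| ≤ 1 := by
    apply abs_le_of (mul_pos hε h4)
    have := b.c23
    rwa [show vw2 (ε, u) - vw3 (ε, u) = ε * u 4 * vz23 (ε, u) by
      show vw2 (ε, u) - (vw2 (ε, u) - ε * u 4 * vz23 (ε, u)) = ε * u 4 * vz23 (ε, u)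
      ring] at this
  have z3 : |vz13 (ε, u)| ≤ 1 := by
    apply abs_le_of (mul_pos hε pC)
    have := b.c13
    rwa [show u 5 - vw3 (ε, u) = ε * vC (ε, u) * vz13 (ε, u) by
      have nC := pC.ne'
      have s1 : ε * vC (ε, u) * vz13 (ε, u) =
          ε * (vC (ε, u) * u 0 + ε * (u 1 * u 4 - u 0 * u 2)) := by
        show ε * vC (ε, u) * (u 0 + ε * ((u 1 * u 4 - u 0 * u 2) / vC (ε, u))) = _
        field_simp
      rw [s1]
      show u 5 - (u 5 - ε * u 3 * u 0 - ε * u 4 * (u 0 + ε * u 1)) =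
        ε * ((u 3 + u 4 + ε * u 2) * u 0 + ε * (u 1 * u 4 - u 0 * u 2))
      ring] at this
  have hF : FC q1 q2 q3 (ε, u) = 0 :=
    (phC_eqs hε h3 h4 (by linarith) pC (by linarith) (by linarith)).2 eqs
  have hs := scalC (ε := ε) (z := u 0) (ω := u 1) (ψ := u 2) (A := u 3) (B := u 4) (w1 := u 5)
    (C := vC (ε, u)) (z23 := vz23 (ε, u)) (z13 := vz13 (ε, u)) (w2 := vw2 (ε, u))
    (w3 := vw3 (ε, u)) hq1 hq2 hq3 hq hε hε3 rfl A1 A2 B1 B2 C2 k1 k2 z1 z2 z3 (by linarith)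
    (by linarith) (by linarith) (congrFun hF 2) (congrFun hF 3)
  exact ⟨mem_KC z1 hs.2 hs.1 ⟨A1, A2⟩ ⟨B1, B2⟩ ⟨by linarith, by linarith [b.a1']⟩, hF⟩

theorem h2C {q1 q2 q3 ρ : ℝ} (hq1 : 0 < q1) (hq2 : 0 < q2) (hq3 : 0 < q3) (hρ : 0 < ρ)
    (z : ℝ) :
    ∀ᶠ q in 𝓝[>] (0 : ℝ) ×ˢ 𝓝 (ptC q1 q2 q3 z), FC q1 q2 q3 q = 0 →
      0 < q.2 3 ∧ 0 < q.2 4 ∧ phC q.1 q.2 ∈ clC q1 q2 q3 ρ q.1 := by
  have hle : 𝓝[>] (0 : ℝ) ×ˢ 𝓝 (ptC q1 q2 q3 z) ≤ 𝓝 ((0 : ℝ), ptC q1 q2 q3 z) := by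
    rw [nhds_prod_eq]
    exact Filter.prod_mono nhdsWithin_le_nhds le_rfl
  have hev : ∀ (f : ℝ × (Fin 6 → ℝ) → ℝ), Continuous f → 0 < f (0, ptC q1 q2 q3 z) →
      ∀ᶠ q in 𝓝[>] (0 : ℝ) ×ˢ 𝓝 (ptC q1 q2 q3 z), 0 < f q := by
    intro f hf h0
    exact (hf.continuousAt.eventually (lt_mem_nhds h0)).filter_mono hle
  have e3 : ptC q1 q2 q3 z 3 = q1 + q2 := rfl
  have e4 : ptC q1 q2 q3 z 4 = q2 + q3 := rfl
  have e5 : ptC q1 q2 q3 z 5 = 1 := rfl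
  have p3 : 0 < q1 + q2 := by linarith
  have p4 : 0 < q2 + q3 := by linarith
  have p34 : 0 < q1 + q2 + (q2 + q3) := by linarith
  have cC : Continuous vC := by unfold vC; fun_prop
  have c2 : Continuous vw2 := by unfold vw2; fun_prop
  have cz : Continuous vz23 := by unfold vz23; fun_prop
  have c3 : Continuous vw3 := by unfold vw3; fun_prop
  have f0 : ∀ᶠ q in 𝓝[>] (0 : ℝ) ×ˢ 𝓝 (ptC q1 q2 q3 z), 0 < q.1 :=
    (Filter.eventually_of_mem self_mem_nhdsWithin (fun _ h => h)).prod_inl _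
  have f1 := hev (fun q => 1 - q.1) (by fun_prop) (by norm_num)
  have f2 := hev (fun q => q.2 3) (by fun_prop) p3
  have f3 := hev (fun q => q.2 4) (by fun_prop) p4
  have f4 := hev (fun q => q.2 5) (by fun_prop) (one_pos : (0 : ℝ) < 1)
  have f5 := hev vC cC (by
    show 0 < ptC q1 q2 q3 z 3 + ptC q1 q2 q3 z 4 + 0 * ptC q1 q2 q3 z 2
    rw [e3, e4]; linarith)
  have f6 := hev vw2 c2 (by simp [vw2, e5])
  have f7 := hev vw3 c3 (by simp [vw3, vw2, e5])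
  have f8 := hev (fun q => ρ - |q.2 3 - (q1 + q2)|) (by fun_prop) (by simp [e3, hρ])
  have f9 := hev (fun q => ρ - |q.2 4 - (q2 + q3)|) (by fun_prop) (by simp [e4, hρ])
  have f10 := hev (fun q => ρ - |vC q - (q1 + q2 + (q2 + q3))|) (by fun_prop)
    (by simp [vC, e3, e4, hρ])
  filter_upwards [f0, f1, f2, f3, f4, f5, f6, f7, f8, f9, f10] with q g0 g1 g2 g3 g4 g5 g6 g7 g8
    g9 g10 hF
  have sc : ∀ a b : ℝ, 0 < ρ - |a - b| → |q.1 * a - q.1 * b| ≤ ρ * q.1 := by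
    intro a b h
    rw [← mul_sub, abs_mul, abs_of_pos g0, mul_comm]
    exact mul_le_mul_of_nonneg_right (by linarith) g0.le
  refine ⟨g2, g3, ?_, sc _ _ g8, sc _ _ g9, sc _ _ g10⟩
  refine mat_mem (pq_pos hq1 hq2 hq3 g0 (by linarith)) (mul_pos g0 g2) (mul_pos g0 g5) g4
    (mul_pos g0 g3) g6 g7 ?_
  exact (phC_eqs g0 g2 g3 g4 g5 g6 g7).1 hF

theorem zeroC {q1 q2 q3 : ℝ} (hq1 : 0 < q1) (hq2 : 0 < q2) (hq3 : 0 < q3)
    (hq : q1 + q2 + q3 = 1) {u : Fin 6 → ℝ}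
    (h : FC q1 q2 q3 (0, u) = 0) : ∃ z, u = ptC q1 q2 q3 z ∧ (1 - z ^ 2) * rC q1 q2 q3 z = 0 := by
  have p3 : 0 < q1 + q2 := by linarith
  have p4 : 0 < q2 + q3 := by linarith
  have p34 : 0 < q1 + q2 + (q2 + q3) := by linarith
  have e0 := congrFun h 0
  have e1 := congrFun h 1
  have e2 := congrFun h 2
  have e3 := congrFun h 3
  have e4 := congrFun h 4
  have e5 := congrFun h 5
  simp [FC, fC] at e0 e1 e5
  have g3 : u 3 = q1 + q2 := by linarith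
  have g4 : u 4 = q2 + q3 := by linarith
  have g5 : u 5 = 1 := by linarith
  have k2 : FC q1 q2 q3 (0, u) 2 = -(2 * q2 / (q1 + q2 + (q2 + q3))) * u 2 -
      (q1 + q2) * (q2 + q3) * (1 - (u 0) ^ 2) := by
    simp [FC, fC, cA, vC, vz23, vz13, vw2, vw3, g3, g4, g5]
    have : q1 = 1 - q2 - q3 := by linarith
    field_simp
    rw [this]
    ring
  have k3 : FC q1 q2 q3 (0, u) 3 = q3 * (q1 + q2) / (q1 + q2 + (q2 + q3)) * u 1 +
        ((q1 + q2) ^ 2 * (1 - (u 0) ^ 2) * (u 0) / 2 -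
        q3 * (q1 + q2) * (u 2) * (u 0) / ((q1 + q2 + (q2 + q3)) * (q2 + q3)) +
        q3 * (u 0) * (u 2) / (q1 + q2 + (q2 + q3)) +
        (q1 + q2) * (1 - (u 0) ^ 2) * (q2 - q1 + q3) / 2) := by
    simp [FC, fC, cA, vC, vz23, vz13, vw2, vw3, g3, g4, g5]
    field_simp
    ring
  have k4 : q1 / (q1 + q2) * FC q1 q2 q3 (0, u) 3 + q3 / (q2 + q3) * FC q1 q2 q3 (0, u) 4 =
      (1 - (u 0) ^ 2) * rC q1 q2 q3 (u 0) / 2 := by
    simp [FC, fC, cA, vC, vz23, vz13, vw2, vw3, g3, g4, g5, rC]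
    field_simp
    ring
  rw [e2] at k2
  rw [e3] at k3
  rw [e3, e4] at k4
  have g2 : u 2 = -((1 - u 0 ^ 2) * (q1 + q2) * (q2 + q3) * (q1 + q2 + (q2 + q3)) /
      (2 * q2)) := by
    simp only [Pi.zero_apply] at k2
    field_simp at k2 ⊢
    linarith
  have g1 : u 1 = -((q1 + q2 + (q2 + q3)) / q3 * (1 - u 0 ^ 2) * (u 0 * (q2 + q3) *
      (q1 + q2 - q3) / (2 * q2) + (q2 + q3 - q1) / 2)) := by
    simp only [Pi.zero_apply] at k3
    have hne : q3 * (q1 + q2) / (q1 + q2 + (q2 + q3)) ≠ 0 := by positivity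
    apply mul_left_cancel₀ hne
    rw [g2] at k3
    have k5 := eq_neg_of_add_eq_zero_left k3.symm
    rw [k5]
    field_simp
    ring
  refine ⟨u 0, ?_, ?_⟩
  · funext i
    fin_cases i
    · rfl
    · exact g1
    · exact g2
    · exact g3
    · exact g4
    · exact g5
  · simp only [Pi.zero_apply, mul_zero, add_zero] at k4
    linarith

theorem countC {q1 q2 q3 : ℝ} (hq1 : 0 < q1) (hq2 : 0 < q2) (hq3 : 0 < q3)
    (hq : q1 + q2 + q3 = 1) : ∃ ρ₀ : ℝ, 0 < ρ₀ ∧ ∀ ρ : ℝ, 0 < ρ → ρ ≤ ρ₀ →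
    ∀ᶠ ε in 𝓝[>] (0 : ℝ), (clC q1 q2 q3 ρ ε).Finite ∧ (clC q1 q2 q3 ρ ε).ncard = 3 := by
  classical
  obtain ⟨ρ₀, hρ0, hρ1, hρ⟩ := exists_rho hq1 hq2 hq3 hq
  refine ⟨ρ₀, hρ0, fun ρ hρp hρl => ?_⟩
  have hD : 0 < q1 ^ 2 + q3 ^ 2 + q2 * (q1 + q3) := by positivity
  set D := q1 ^ 2 + q3 ^ 2 + q2 * (q1 + q3) with hDd
  set zs := (q1 - q3) * (q1 + q3 - q2) / D with hzs
  have hzs' : D * zs = (q1 - q3) * (q1 + q3 - q2) := by rw [hzs]; field_simp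
  have hz1 : zs < 1 := by
    rw [hzs, div_lt_one hD, hDd]; nlinarith [mul_pos hq1 hq3, mul_pos hq1 hq2, mul_pos hq2 hq3]
  have hz2 : -1 < zs := by
    rw [hzs, lt_div_iff₀ hD, hDd]
    nlinarith [mul_pos hq1 hq3, mul_pos hq1 hq2, mul_pos hq2 hq3]
  let S : ℝ → Set (Fin 6 → ℝ) := fun ε => {u | 0 < u 3 ∧ 0 < u 4 ∧ phC ε u ∈ clC q1 q2 q3 ρ ε}
  let Z : Finset (Fin 6 → ℝ) := {ptC q1 q2 q3 1, ptC q1 q2 q3 (-1), ptC q1 q2 q3 zs}
  have hZ : Z.card = 3 := by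
    rw [Finset.card_eq_three]
    refine ⟨_, _, _, ?_, ?_, ?_, rfl⟩
    · intro h
      have := ptC_inj h
      norm_num at this
    · intro h
      exact hz1.ne' (ptC_inj h)
    · intro h
      exact hz2.ne (ptC_inj h)
  have himg : ∀ ε : ℝ, 0 < ε → clC q1 q2 q3 ρ ε = phC ε '' S ε := by
    intro ε hε
    ext x
    constructor
    · intro hx
      obtain ⟨u, h2, h4, rfl⟩ := phC_surj hε hx.1
      exact ⟨u, ⟨h2, h4, hx⟩, rfl⟩
    · rintro ⟨u, hu, rfl⟩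
      exact hu.2.2
  have hinj : ∀ ε : ℝ, 0 < ε → Set.InjOn (phC ε) (S ε) :=
    fun ε hε u hu u' hu' h => phC_inj hε hu.1 hu.2.1 h
  have hrC : ∀ z, rC q1 q2 q3 z = D * z - D * zs := by
    intro z
    rw [hzs', hDd]
    unfold rC
    ring
  have hmain := count_zeros (FC q1 q2 q3) (KC q1 q2 q3) isCompact_Icc Z S ?_ ?_ ?_ ?_ ?_
  · filter_upwards [hmain, self_mem_nhdsWithin] with ε h hε
    rw [himg ε hε, hZ] at *
    exact ⟨h.1.image _, by rw [(hinj ε hε).ncard_image, h.2]⟩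
  · intro u hu
    obtain ⟨k0, k3, k4, k5⟩ := KC_of hu
    exact (smoothC (by linarith) (by linarith) (by linarith) (by linarith)).continuousAt
  · intro u hu h
    obtain ⟨z, rfl, hz⟩ := zeroC hq1 hq2 hq3 hq h
    simp only [Z, Finset.mem_insert, Finset.mem_singleton]
    rcases mul_eq_zero.1 hz with h' | h'
    · have : (1 - z) * (1 + z) = 0 := by linarith
      rcases mul_eq_zero.1 this with h'' | h''
      · left
        rw [show z = 1 by linarith]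
      · right; left
        rw [show z = -1 by linarith]
    · right; right
      rw [hrC] at h'
      have : D * z = D * zs := by linarith
      rw [mul_left_cancel₀ hD.ne' this]
  · intro u hu
    simp only [Z, Finset.mem_insert, Finset.mem_singleton] at hu
    rcases hu with rfl | rfl | rfl
    · refine nondC hq1 hq2 hq3 (by norm_num) ?_ hq
      rw [hrC]
      intro h
      have : D * (1 - zs) = 0 := by linarith
      rcases mul_eq_zero.1 this with h' | h'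
      · exact hD.ne' h'
      · linarith
    · refine nondC hq1 hq2 hq3 (by norm_num) ?_ hq
      rw [hrC]
      intro h
      have : D * (1 + zs) = 0 := by linarith
      rcases mul_eq_zero.1 this with h' | h'
      · exact hD.ne' h'
      · linarith
    · refine nondC hq1 hq2 hq3 (by rw [hrC]; ring) ?_ hq
      rw [hrC]
      have h3 : 0 < 1 - zs ^ 2 := by nlinarith
      have h4 := mul_pos h3 hD
      intro h
      linarith
  · have : ∀ᶠ ε in 𝓝[>] (0 : ℝ), ε ≤ 1 / 3 :=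
      (eventually_le_nhds (by norm_num : (0 : ℝ) < 1 / 3)).filter_mono nhdsWithin_le_nhds
    filter_upwards [this, self_mem_nhdsWithin] with ε h3 h0 u hu
    exact h1C hq1 hq2 hq3 hq h0 h3 (hρl.trans hρ1)
      (fun A B C hA hB hC => hρ A B C (hA.trans hρl) (hB.trans hρl) (hC.trans hρl))
      hu.1 hu.2.1 hu.2.2
  · intro z hz
    simp only [Z, Finset.mem_insert, Finset.mem_singleton] at hz
    rcases hz with rfl | rfl | rfl
    · exact h2C hq1 hq2 hq3 hρp 1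
    · exact h2C hq1 hq2 hq3 hρp (-1)
    · exact h2C hq1 hq2 hq3 hρp zs

end Pool.Agent.Helper58.EF
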