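import Mathlib

/-!
# Invariant Einstein metrics on flag manifolds with four blocks: polynomial inequalities

The six lengths of a tetrahedron `a b c e` are `w = ab`, `u = ac`, `v = bc`, `ya = ae`, `yb = be`,
`yc = ce`. In each configuration the six lengths are expressed by nonnegative slack variables, and the
polynomial in question has nonnegative coefficients.
-/

set_option autoImplicit false

namespace Pool.Agent.Helper58.EF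

/-- The coefficient of the fourth weight in the row of the face `abc`. -/
def N2 (w u v ya yb yc : ℝ) : ℝ :=
  2 * u * v * w * yc * (w ^ 2 - (ya - yb) ^ 2) + v * yb * (u ^ 2 + w ^ 2 - v ^ 2) *
    ((ya - yc) ^ 2 - u ^ 2) + u * ya * (v ^ 2 + w ^ 2 - u ^ 2) * ((yb - yc) ^ 2 - v ^ 2)

/-- The coefficient of the weight of `c` in the row of the face `abc`. -/
def M2 (w u v ya yb yc : ℝ) : ℝ :=
  2 * (w - u - v) * (w + u - v) * (w + v - u) * (ya * yb * yc)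


/-- Only the face `abc` violates the triangle inequality. -/
theorem P1_t (t0 t1 t2 t3 t4 t5 : ℝ) (h0 : 0 ≤ t0) (h1 : 0 ≤ t1) (h2 : 0 ≤ t2)
    (h3 : 0 ≤ t3) (h4 : 0 ≤ t4) (h5 : 0 ≤ t5) :
    0 ≤ N2 (2 * t0 + t1 + t2 + t3 + t4) (t1 + t2) (t3 + t4) (t0 + t1 + t3 + t5) (t0 + t2 + t4 + t5) (t0 + t2 + t3 + t5) := by
  have e : N2 (2 * t0 + t1 + t2 + t3 + t4) (t1 + t2) (t3 + t4) (t0 + t1 + t3 + t5) (t0 + t2 + t4 + t5) (t0 + t2 + t3 + t5) =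
      t2 * (t2 * (t3 * (t4 * (t4 * (t5 * 8 + t4 * 8)) + t3 * (t4 * (t5 * 16 + t4 * 24) + t3 * (t5 *
      8 + t4 * 24 + t3 * 8))) + t2 * (t3 * (t4 * (t5 * 8 + t4 * 16) + t3 * (t5 * 8 + t4 * 32 + t3 *
      16)) + t2 * (t3 * (t4 * 8 + t3 * 8))))) + t1 * (t2 * (t4 * (t4 * (t4 * (t5 * 8))) + t3 *
      (t4 * (t4 * (t5 * 24 + t4 * 8)) + t3 * (t4 * (t5 * 24 + t4 * 24) + t3 * (t5 * 8 + t4 * 24 +
      t3 * 8))) + t2 * (t4 * (t4 * (t5 * 8)) + t3 * (t4 * (t5 * 24 + t4 * 32) + t3 * (t5 * 16 +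
      t4 * 64 + t3 * 32)) + t2 * (t3 * (t4 * 24 + t3 * 24)))) + t1 * (t4 * (t4 * (t4 * (t5 * 8))) +
      t3 * (t4 * (t4 * (t5 * 16)) + t3 * (t4 * (t5 * 8))) + t2 * (t4 * (t4 * (t5 * 16)) + t3 *
      (t4 * (t5 * 24 + t4 * 16) + t3 * (t5 * 8 + t4 * 32 + t3 * 16)) + t2 * (t3 * (t4 * 24 + t3 *
      24))) + t1 * (t4 * (t4 * (t5 * 8)) + t3 * (t4 * (t5 * 8)) + t2 * (t3 * (t4 * 8 + t3 *
      8))))) + t0 * (t2 * (t4 * (t4 * (t4 * (t5 * 8))) + t3 * (t4 * (t4 * (t5 * 24 + t4 * 8)) +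
      t3 * (t4 * (t5 * 24 + t4 * 24) + t3 * (t5 * 8 + t4 * 24 + t3 * 8))) + t2 * (t4 * (t4 * (t5 *
      16 + t4 * 8)) + t3 * (t4 * (t5 * 32 + t4 * 64) + t3 * (t5 * 32 + t4 * 88 + t3 * 48)) + t2 *
      (t4 * (t5 * 8 + t4 * 16) + t3 * (t5 * 8 + t4 * 64 + t3 * 48) + t2 * (t4 * 8 + t3 * 8)))) +
      t1 * (t4 * (t4 * (t4 * (t5 * 8))) + t3 * (t4 * (t4 * (t5 * 24 + t4 * 8)) + t3 * (t4 * (t5 *
      24 + t4 * 24) + t3 * (t5 * 8 + t4 * 24 + t3 * 8))) + t2 * (t4 * (t4 * (t5 * 32)) + t3 * (t4 *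
      (t5 * 32 + t4 * 64) + t3 * (t5 * 32 + t4 * 96 + t3 * 64)) + t2 * (t4 * (t5 * 24 + t4 * 24) +
      t3 * (t5 * 24 + t4 * 96 + t3 * 88) + t2 * (t4 * 24 + t3 * 24))) + t1 * (t4 * (t4 * (t5 * 32 +
      t4 * 8)) + t3 * (t4 * (t5 * 32 + t4 * 32) + t3 * (t5 * 16 + t4 * 24 + t3 * 16)) + t2 * (t4 *
      (t5 * 24 + t4 * 32) + t3 * (t5 * 24 + t4 * 64 + t3 * 64) + t2 * (t4 * 24 + t3 * 24)) + t1 *
      (t4 * (t5 * 8 + t4 * 8) + t3 * (t5 * 8 + t3 * 8) + t2 * (t4 * 8 + t3 * 8)))) + t0 * (t2 *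
      (t4 * (t4 * (t5 * 24 + t4 * 8)) + t3 * (t4 * (t5 * 32 + t4 * 48) + t3 * (t5 * 24 + t4 * 56 +
      t3 * 32)) + t2 * (t4 * (t5 * 24 + t4 * 40) + t3 * (t5 * 24 + t4 * 104 + t3 * 80) + t2 * (t4 *
      32 + t3 * 32))) + t1 * (t4 * (t4 * (t5 * 24 + t4 * 8)) + t3 * (t4 * (t5 * 32 + t4 * 48) +
      t3 * (t5 * 24 + t4 * 56 + t3 * 32)) + t2 * (t4 * (t5 * 32 + t4 * 40) + t3 * (t5 * 32 + t4 *
      96 + t3 * 104) + t2 * (t4 * 56 + t3 * 56)) + t1 * (t4 * (t5 * 24 + t4 * 32) + t3 * (t5 * 24 +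
      t4 * 40 + t3 * 40) + t2 * (t4 * 48 + t3 * 48) + t1 * (t4 * 8 + t3 * 8))) + t0 * (t2 * (t4 *
      (t5 * 16 + t4 * 24) + t3 * (t5 * 16 + t4 * 48 + t3 * 40) + t2 * (t4 * 40 + t3 * 40)) + t1 *
      (t4 * (t5 * 16 + t4 * 24) + t3 * (t5 * 16 + t4 * 48 + t3 * 40) + t2 * (t4 * 48 + t3 * 48) +
      t1 * (t4 * 24 + t3 * 24)) + t0 * (t2 * (t4 * 16 + t3 * 16) + t1 * (t4 * 16 + t3 * 16))))) := by
    unfold N2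
    ring
  rw [e]
  positivity

theorem P1 (w u v ya yb yc : ℝ) (h0 : 0 ≤ (1 / 2) * w - (1 / 2) * u - (1 / 2) * v) (h1 : 0 ≤ (1 / 2) * u + (1 / 2) * ya - (1 / 2) * yc) (h2 : 0 ≤ (1 / 2) * u - (1 / 2) * ya + (1 / 2) * yc) (h3 : 0 ≤ (1 / 2) * v - (1 / 2) * yb + (1 / 2) * yc) (h4 : 0 ≤ (1 / 2) * v + (1 / 2) * yb - (1 / 2) * yc) (h5 : 0 ≤ -(1 / 2) * w + (1 / 2) * ya + (1 / 2) * yb) :
    0 ≤ N2 w u v ya yb yc := by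
  have h := P1_t ((1 / 2) * w - (1 / 2) * u - (1 / 2) * v) ((1 / 2) * u + (1 / 2) * ya - (1 / 2) * yc) ((1 / 2) * u - (1 / 2) * ya + (1 / 2) * yc) ((1 / 2) * v - (1 / 2) * yb + (1 / 2) * yc) ((1 / 2) * v + (1 / 2) * yb - (1 / 2) * yc) (-(1 / 2) * w + (1 / 2) * ya + (1 / 2) * yb) h0 h1 h2 h3 h4 h5
  have e0 : 2 * ((1 / 2) * w - (1 / 2) * u - (1 / 2) * v) + ((1 / 2) * u + (1 / 2) * ya - (1 / 2) * yc) + ((1 / 2) * u - (1 / 2) * ya + (1 / 2) * yc) + ((1 / 2) * v - (1 / 2) * yb + (1 / 2) * yc) + ((1 / 2) * v + (1 / 2) * yb - (1 / 2) * yc) = w := by ring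
  have e1 : ((1 / 2) * u + (1 / 2) * ya - (1 / 2) * yc) + ((1 / 2) * u - (1 / 2) * ya + (1 / 2) * yc) = u := by ring
  have e2 : ((1 / 2) * w - (1 / 2) * u - (1 / 2) * v) + ((1 / 2) * u + (1 / 2) * ya - (1 / 2) * yc) + ((1 / 2) * v - (1 / 2) * yb + (1 / 2) * yc) + (-(1 / 2) * w + (1 / 2) * ya + (1 / 2) * yb) = ya := by ring
  have e3 : ((1 / 2) * v - (1 / 2) * yb + (1 / 2) * yc) + ((1 / 2) * v + (1 / 2) * yb - (1 / 2) * yc) = v := by ring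
  have e4 : ((1 / 2) * w - (1 / 2) * u - (1 / 2) * v) + ((1 / 2) * u - (1 / 2) * ya + (1 / 2) * yc) + ((1 / 2) * v + (1 / 2) * yb - (1 / 2) * yc) + (-(1 / 2) * w + (1 / 2) * ya + (1 / 2) * yb) = yb := by ring
  have e5 : ((1 / 2) * w - (1 / 2) * u - (1 / 2) * v) + ((1 / 2) * u - (1 / 2) * ya + (1 / 2) * yc) + ((1 / 2) * v - (1 / 2) * yb + (1 / 2) * yc) + (-(1 / 2) * w + (1 / 2) * ya + (1 / 2) * yb) = yc := by ring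
  rw [e0, e1, e2, e3, e4, e5] at h
  exact h

/-- The edge `ab` is long in `abc` and `abe`. -/
theorem P2_t (t0 t1 t2 t3 t4 t5 : ℝ) (h0 : 0 ≤ t0) (h1 : 0 ≤ t1) (h2 : 0 ≤ t2)
    (h3 : 0 ≤ t3) (h4 : 0 ≤ t4) (h5 : 0 ≤ t5) :
    0 ≤ N2 (2 * t0 + t1 + t2 + t3 + t4 + t5) (t0 + t1 + t2) (t0 + t3 + t4) (t1 + t3) (t2 + t4) (t0 + t2 + t3) + N2 (2 * t0 + t1 + t2 + t3 + t4 + t5) (t1 + t3) (t2 + t4) (t0 + t1 + t2) (t0 + t3 + t4) (t0 + t2 + t3) := by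
  have e : N2 (2 * t0 + t1 + t2 + t3 + t4 + t5) (t0 + t1 + t2) (t0 + t3 + t4) (t1 + t3) (t2 + t4) (t0 + t2 + t3) + N2 (2 * t0 + t1 + t2 + t3 + t4 + t5) (t1 + t3) (t2 + t4) (t0 + t1 + t2) (t0 + t3 + t4) (t0 + t2 + t3) =
      t3 * (t3 * (t4 * (t5 * (t5 * (t5 * 2)) + t4 * (t5 * (t5 * 6) + t4 * (t5 * 4))) + t3 * (t4 *
      (t5 * (t5 * 6) + t4 * (t5 * 8)) + t3 * (t4 * (t5 * 4))))) + t2 * (t3 * (t4 * (t5 * (t5 *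
      (t5 * 4)) + t4 * (t5 * (t5 * 12) + t4 * (t5 * 8))) + t3 * (t5 * (t5 * (t5 * 4)) + t4 * (t5 *
      (t5 * 26) + t4 * (t5 * 40 + t4 * 8)) + t3 * (t5 * (t5 * 12) + t4 * (t5 * 40 + t4 * 16) + t3 *
      (t5 * 8 + t4 * 8)))) + t2 * (t4 * (t5 * (t5 * (t5 * 2)) + t4 * (t5 * (t5 * 6) + t4 * (t5 *
      4))) + t3 * (t5 * (t5 * (t5 * 4)) + t4 * (t5 * (t5 * 26) + t4 * (t5 * 40 + t4 * 8)) + t3 *
      (t5 * (t5 * 24) + t4 * (t5 * 72 + t4 * 48) + t3 * (t5 * 40 + t4 * 56 + t3 * 16))) + t2 *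
      (t4 * (t5 * (t5 * 6) + t4 * (t5 * 8)) + t3 * (t5 * (t5 * 12) + t4 * (t5 * 40 + t4 * 16) +
      t3 * (t5 * 40 + t4 * 56 + t3 * 32)) + t2 * (t4 * (t5 * 4) + t3 * (t5 * 8 + t4 * 8 + t3 *
      16))))) + t1 * (t3 * (t4 * (t5 * (t5 * (t5 * 4)) + t4 * (t5 * (t5 * 8))) + t3 * (t5 * (t5 *
      (t5 * 2)) + t4 * (t5 * (t5 * 16) + t4 * (t5 * 20)) + t3 * (t5 * (t5 * 6) + t4 * (t5 * 24) +
      t3 * (t5 * 4)))) + t2 * (t4 * (t5 * (t5 * (t5 * 4)) + t4 * (t5 * (t5 * 8))) + t3 * (t5 *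
      (t5 * (t5 * 4)) + t4 * (t5 * (t5 * 32) + t4 * (t5 * 40 + t4 * 16)) + t3 * (t5 * (t5 * 26) +
      t4 * (t5 * 72 + t4 * 56) + t3 * (t5 * 40 + t4 * 48 + t3 * 8))) + t2 * (t5 * (t5 * (t5 * 2)) +
      t4 * (t5 * (t5 * 16) + t4 * (t5 * 20)) + t3 * (t5 * (t5 * 26) + t4 * (t5 * 72 + t4 * 56) +
      t3 * (t5 * 72 + t4 * 128 + t3 * 56)) + t2 * (t5 * (t5 * 6) + t4 * (t5 * 24) + t3 * (t5 * 40 +
      t4 * 48 + t3 * 56) + t2 * (t5 * 4 + t3 * 8)))) + t1 * (t3 * (t4 * (t5 * (t5 * 8) + t4 * (t5 *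
      16)) + t3 * (t5 * (t5 * 6) + t4 * (t5 * 20) + t3 * (t5 * 8))) + t2 * (t4 * (t5 * (t5 * 8) +
      t4 * (t5 * 16)) + t3 * (t5 * (t5 * 12) + t4 * (t5 * 40 + t4 * 32) + t3 * (t5 * 40 + t4 * 56 +
      t3 * 16)) + t2 * (t5 * (t5 * 6) + t4 * (t5 * 20) + t3 * (t5 * 40 + t4 * 56 + t3 * 48) + t2 *
      (t5 * 8 + t3 * 16))) + t1 * (t3 * (t3 * (t5 * 4)) + t2 * (t3 * (t5 * 8 + t4 * 16 + t3 * 8) +
      t2 * (t5 * 4 + t3 * 8))))) + t0 * (t3 * (t4 * (t5 * (t5 * (t5 * 4)) + t4 * (t5 * (t5 * 12) +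
      t4 * (t5 * 8))) + t3 * (t5 * (t5 * (t5 * 2)) + t4 * (t5 * (t5 * 26) + t4 * (t5 * 44 + t4 *
      8)) + t3 * (t5 * (t5 * 6) + t4 * (t5 * 40 + t4 * 16) + t3 * (t5 * 4 + t4 * 8)))) + t2 * (t4 *
      (t5 * (t5 * (t5 * 4)) + t4 * (t5 * (t5 * 12) + t4 * (t5 * 8))) + t3 * (t5 * (t5 * (t5 * 8)) +
      t4 * (t5 * (t5 * 64) + t4 * (t5 * 104 + t4 * 24)) + t3 * (t5 * (t5 * 54) + t4 * (t5 * 184 +
      t4 * 112) + t3 * (t5 * 80 + t4 * 112 + t3 * 24))) + t2 * (t5 * (t5 * (t5 * 2)) + t4 * (t5 *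
      (t5 * 30) + t4 * (t5 * 44 + t4 * 8)) + t3 * (t5 * (t5 * 54) + t4 * (t5 * 184 + t4 * 112) +
      t3 * (t5 * 168 + t4 * 240 + t3 * 120)) + t2 * (t5 * (t5 * 6) + t4 * (t5 * 40 + t4 * 16) +
      t3 * (t5 * 80 + t4 * 112 + t3 * 120) + t2 * (t5 * 4 + t4 * 8 + t3 * 24)))) + t1 * (t4 * (t5 *
      (t5 * (t5 * 4)) + t4 * (t5 * (t5 * 8))) + t3 * (t5 * (t5 * (t5 * 4)) + t4 * (t5 * (t5 * 44) +
      t4 * (t5 * 56 + t4 * 8)) + t3 * (t5 * (t5 * 30) + t4 * (t5 * 104 + t4 * 48) + t3 * (t5 * 40 +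
      t4 * 48 + t3 * 8))) + t2 * (t5 * (t5 * (t5 * 4)) + t4 * (t5 * (t5 * 44) + t4 * (t5 * 56 +
      t4 * 8)) + t3 * (t5 * (t5 * 64) + t4 * (t5 * 208 + t4 * 152) + t3 * (t5 * 184 + t4 * 272 +
      t3 * 112)) + t2 * (t5 * (t5 * 26) + t4 * (t5 * 104 + t4 * 48) + t3 * (t5 * 184 + t4 * 272 +
      t3 * 240) + t2 * (t5 * 40 + t4 * 48 + t3 * 112 + t2 * 8))) + t1 * (t4 * (t5 * (t5 * 8) + t4 *
      (t5 * 16)) + t3 * (t5 * (t5 * 12) + t4 * (t5 * 56 + t4 * 32) + t3 * (t5 * 44 + t4 * 48 + t3 *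
      16)) + t2 * (t5 * (t5 * 12) + t4 * (t5 * 56 + t4 * 32) + t3 * (t5 * 104 + t4 * 152 + t3 *
      112) + t2 * (t5 * 44 + t4 * 48 + t3 * 112 + t2 * 16)) + t1 * (t3 * (t5 * 8 + t4 * 8 + t3 *
      8) + t2 * (t5 * 8 + t4 * 8 + t3 * 24 + t2 * 8)))) + t0 * (t4 * (t5 * (t5 * (t5 * 2)) + t4 *
      (t5 * (t5 * 6) + t4 * (t5 * 4))) + t3 * (t5 * (t5 * (t5 * 4)) + t4 * (t5 * (t5 * 38) + t4 *
      (t5 * 64 + t4 * 16)) + t3 * (t5 * (t5 * 24) + t4 * (t5 * 108 + t4 * 64) + t3 * (t5 * 32 +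
      t4 * 56 + t3 * 8))) + t2 * (t5 * (t5 * (t5 * 4)) + t4 * (t5 * (t5 * 42) + t4 * (t5 * 64 +
      t4 * 16)) + t3 * (t5 * (t5 * 72) + t4 * (t5 * 264 + t4 * 176) + t3 * (t5 * 208 + t4 * 312 +
      t3 * 128)) + t2 * (t5 * (t5 * 24) + t4 * (t5 * 116 + t4 * 64) + t3 * (t5 * 208 + t4 * 312 +
      t3 * 272) + t2 * (t5 * 32 + t4 * 56 + t3 * 128 + t2 * 8))) + t1 * (t5 * (t5 * (t5 * 2)) +
      t4 * (t5 * (t5 * 28) + t4 * (t5 * 36 + t4 * 8)) + t3 * (t5 * (t5 * 42) + t4 * (t5 * 160 +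
      t4 * 96) + t3 * (t5 * 116 + t4 * 168 + t3 * 56)) + t2 * (t5 * (t5 * 38) + t4 * (t5 * 160 +
      t4 * 96) + t3 * (t5 * 264 + t4 * 400 + t3 * 312) + t2 * (t5 * 108 + t4 * 168 + t3 * 312 +
      t2 * 56)) + t1 * (t5 * (t5 * 6) + t4 * (t5 * 36 + t4 * 16) + t3 * (t5 * 64 + t4 * 96 + t3 *
      64) + t2 * (t5 * 64 + t4 * 96 + t3 * 176 + t2 * 64) + t1 * (t5 * 4 + t4 * 8 + t3 * 16 + t2 *
      16))) + t0 * (t5 * (t5 * (t5 * 2)) + t4 * (t5 * (t5 * 18) + t4 * (t5 * 28 + t4 * 8)) + t3 *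
      (t5 * (t5 * 30) + t4 * (t5 * 120 + t4 * 80) + t3 * (t5 * 76 + t4 * 128 + t3 * 40)) + t2 *
      (t5 * (t5 * 30) + t4 * (t5 * 128 + t4 * 80) + t3 * (t5 * 208 + t4 * 328 + t3 * 240) + t2 *
      (t5 * 76 + t4 * 128 + t3 * 240 + t2 * 40)) + t1 * (t5 * (t5 * 18) + t4 * (t5 * 80 + t4 *
      48) + t3 * (t5 * 128 + t4 * 200 + t3 * 128) + t2 * (t5 * 120 + t4 * 200 + t3 * 328 + t2 *
      128) + t1 * (t5 * 28 + t4 * 48 + t3 * 80 + t2 * 80 + t1 * 8)) + t0 * (t5 * (t5 * 12) + t4 *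
      (t5 * 48 + t4 * 32) + t3 * (t5 * 72 + t4 * 120 + t3 * 72) + t2 * (t5 * 72 + t4 * 120 + t3 *
      192 + t2 * 72) + t1 * (t5 * 48 + t4 * 80 + t3 * 120 + t2 * 120 + t1 * 32) + t0 * (t5 * 24 +
      t4 * 40 + t3 * 56 + t2 * 56 + t1 * 40 + t0 * 16))))) := by
    unfold N2
    ring
  rw [e]
  positivity

theorem P2 (w u v ya yb yc : ℝ) (h0 : 0 ≤ (1 / 2) * u - (1 / 2) * ya + (1 / 2) * v - (1 / 2) * yb) (h1 : 0 ≤ (1 / 2) * u + (1 / 2) * ya - (1 / 2) * yc) (h2 : 0 ≤ -(1 / 2) * v + (1 / 2) * yb + (1 / 2) * yc) (h3 : 0 ≤ -(1 / 2) * u + (1 / 2) * ya + (1 / 2) * yc) (h4 : 0 ≤ (1 / 2) * v + (1 / 2) * yb - (1 / 2) * yc) (h5 : 0 ≤ w - u - v) :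
    0 ≤ N2 w u v ya yb yc + N2 w ya yb u v yc := by
  have h := P2_t ((1 / 2) * u - (1 / 2) * ya + (1 / 2) * v - (1 / 2) * yb) ((1 / 2) * u + (1 / 2) * ya - (1 / 2) * yc) (-(1 / 2) * v + (1 / 2) * yb + (1 / 2) * yc) (-(1 / 2) * u + (1 / 2) * ya + (1 / 2) * yc) ((1 / 2) * v + (1 / 2) * yb - (1 / 2) * yc) (w - u - v) h0 h1 h2 h3 h4 h5
  have e0 : 2 * ((1 / 2) * u - (1 / 2) * ya + (1 / 2) * v - (1 / 2) * yb) + ((1 / 2) * u + (1 / 2) * ya - (1 / 2) * yc) + (-(1 / 2) * v + (1 / 2) * yb + (1 / 2) * yc) + (-(1 / 2) * u + (1 / 2) * ya + (1 / 2) * yc) + ((1 / 2) * v + (1 / 2) * yb - (1 / 2) * yc) + (w - u - v) = w := by ring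
  have e1 : ((1 / 2) * u - (1 / 2) * ya + (1 / 2) * v - (1 / 2) * yb) + ((1 / 2) * u + (1 / 2) * ya - (1 / 2) * yc) + (-(1 / 2) * v + (1 / 2) * yb + (1 / 2) * yc) = u := by ring
  have e2 : ((1 / 2) * u + (1 / 2) * ya - (1 / 2) * yc) + (-(1 / 2) * u + (1 / 2) * ya + (1 / 2) * yc) = ya := by ring
  have e3 : ((1 / 2) * u - (1 / 2) * ya + (1 / 2) * v - (1 / 2) * yb) + (-(1 / 2) * u + (1 / 2) * ya + (1 / 2) * yc) + ((1 / 2) * v + (1 / 2) * yb - (1 / 2) * yc) = v := by ring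
  have e4 : (-(1 / 2) * v + (1 / 2) * yb + (1 / 2) * yc) + ((1 / 2) * v + (1 / 2) * yb - (1 / 2) * yc) = yb := by ring
  have e5 : ((1 / 2) * u - (1 / 2) * ya + (1 / 2) * v - (1 / 2) * yb) + (-(1 / 2) * v + (1 / 2) * yb + (1 / 2) * yc) + (-(1 / 2) * u + (1 / 2) * ya + (1 / 2) * yc) = yc := by ring
  rw [e0, e1, e2, e3, e4, e5] at h
  exact h

/-- `ab` is long in `abc` and `abe`, `ac` is long in `ace`. -/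
theorem P3_t (t0 t1 t2 t3 t4 t5 : ℝ) (h0 : 0 ≤ t0) (h1 : 0 ≤ t1) (h2 : 0 ≤ t2)
    (h3 : 0 ≤ t3) (h4 : 0 ≤ t4) (h5 : 0 ≤ t5) :
    0 ≤ (t1) * N2 (2 * t0 + t1 + t2 + t3 + t4 + t5) (t0 + t1 + t2 + t3) (t0 + t4) (t1) (t2 + t4) (t0 + t2) + (t0 + t1 + t2 + t3) * N2 (2 * t0 + t1 + t2 + t3 + t4 + t5) (t1) (t2 + t4) (t0 + t1 + t2 + t3) (t0 + t4) (t0 + t2) + (t0 + t1 + t2 + t3) * N2 (t0 + t1 + t2 + t3) (t1) (t0 + t2) (2 * t0 + t1 + t2 + t3 + t4 + t5) (t0 + t4) (t2 + t4) := by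
  have e : (t1) * N2 (2 * t0 + t1 + t2 + t3 + t4 + t5) (t0 + t1 + t2 + t3) (t0 + t4) (t1) (t2 + t4) (t0 + t2) + (t0 + t1 + t2 + t3) * N2 (2 * t0 + t1 + t2 + t3 + t4 + t5) (t1) (t2 + t4) (t0 + t1 + t2 + t3) (t0 + t4) (t0 + t2) + (t0 + t1 + t2 + t3) * N2 (t0 + t1 + t2 + t3) (t1) (t0 + t2) (2 * t0 + t1 + t2 + t3 + t4 + t5) (t0 + t4) (t2 + t4) =
      t3 * (t3 * (t3 * (t4 * (t4 * (t5 * t5 + t4 * (t5 * 2))) + t3 * (t4 * (t4 * (t5 * 2 + t4 *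
      2)) + t3 * (t4 * t4))))) + t2 * (t3 * (t3 * (t4 * (t4 * (t5 * t5 + t4 * (t5 * 2))) + t3 *
      (t4 * (t5 * (t5 * 2) + t4 * (t5 * 6 + t4 * 2)) + t3 * (t4 * (t5 * 4 + t4 * 5) + t3 * (t4 *
      2))))) + t2 * (t3 * (t3 * (t4 * (t5 * (t5 * 4) + t4 * (t5 * 4)) + t3 * (t4 * (t5 * 10 + t4 *
      4) + t3 * (t4 * 6)))) + t2 * (t3 * (t4 * (t5 * (t5 * 2)) + t3 * (t4 * (t5 * 6) + t3 * (t4 *
      4)))))) + t1 * (t3 * (t3 * (t4 * (t4 * (t5 * (t5 * 2) + t4 * (t5 * 4))) + t3 * (t4 * (t4 *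
      (t5 * 6 + t4 * 6)) + t3 * (t4 * (t4 * 3))))) + t2 * (t3 * (t4 * (t5 * (t5 * (t5 * 4)) + t4 *
      (t5 * (t5 * 12) + t4 * (t5 * 8))) + t3 * (t4 * (t5 * (t5 * 11) + t4 * (t5 * 30 + t4 * 4)) +
      t3 * (t4 * (t5 * 12 + t4 * 16) + t3 * (t4 * 6)))) + t2 * (t4 * (t5 * (t5 * (t5 * 4)) + t4 *
      (t5 * (t5 * 12) + t4 * (t5 * 8))) + t3 * (t5 * (t5 * (t5 * 2)) + t4 * (t5 * (t5 * 24) + t4 *
      (t5 * 40)) + t3 * (t5 * (t5 * 4) + t4 * (t5 * 34 + t4 * 10) + t3 * (t4 * 16))) + t2 * (t5 *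
      (t5 * (t5 * 2)) + t4 * (t5 * (t5 * 14) + t4 * (t5 * 20)) + t3 * (t5 * (t5 * 8) + t4 * (t5 *
      32) + t3 * (t4 * 8)) + t2 * (t5 * (t5 * 4) + t4 * (t5 * 12))))) + t1 * (t3 * (t3 * (t4 *
      (t4 * (t5 * 4 + t4 * 4)) + t3 * (t4 * (t4 * 2)))) + t2 * (t4 * (t5 * (t5 * (t5 * 4)) + t4 *
      (t5 * (t5 * 8))) + t3 * (t4 * (t5 * (t5 * 16) + t4 * (t5 * 36)) + t3 * (t4 * (t5 * 12 + t4 *
      14) + t3 * (t4 * 4))) + t2 * (t5 * (t5 * (t5 * 2)) + t4 * (t5 * (t5 * 18) + t4 * (t5 * 28)) +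
      t3 * (t5 * (t5 * 8) + t4 * (t5 * 36 + t4 * 4) + t3 * (t4 * 8)) + t2 * (t5 * (t5 * 8) + t4 *
      (t5 * 24)))) + t1 * (t2 * (t4 * (t5 * (t5 * 8) + t4 * (t5 * 16)) + t3 * (t4 * (t5 * 4 + t4 *
      4)) + t2 * (t5 * (t5 * 4) + t4 * (t5 * 12)))))) + t0 * (t3 * (t3 * (t4 * (t4 * (t5 * t5 +
      t4 * (t5 * 2))) + t3 * (t4 * (t5 * (t5 * 2) + t4 * (t5 * 8 + t4 * 6)) + t3 * (t4 * (t5 * 4 +
      t4 * 7) + t3 * (t4 * 2))))) + t2 * (t3 * (t3 * (t4 * (t5 * (t5 * 8) + t4 * (t5 * 10 + t4 *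
      4)) + t3 * (t5 * (t5 * 2) + t4 * (t5 * 28 + t4 * 18) + t3 * (t5 * 4 + t4 * 20 + t3 * 2)))) +
      t2 * (t3 * (t4 * (t5 * (t5 * 6)) + t3 * (t5 * (t5 * 4) + t4 * (t5 * 34 + t4 * 8) + t3 * (t5 *
      10 + t4 * 32 + t3 * 6))) + t2 * (t3 * (t5 * (t5 * 2) + t4 * (t5 * 8) + t3 * (t5 * 6 + t4 *
      12 + t3 * 4))))) + t1 * (t3 * (t4 * (t5 * (t5 * (t5 * 4)) + t4 * (t5 * (t5 * 12) + t4 * (t5 *
      8))) + t3 * (t4 * (t5 * (t5 * 15) + t4 * (t5 * 42 + t4 * 24)) + t3 * (t4 * (t5 * 20 + t4 *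
      30) + t3 * (t4 * 10)))) + t2 * (t4 * (t5 * (t5 * (t5 * 8)) + t4 * (t5 * (t5 * 24) + t4 *
      (t5 * 16))) + t3 * (t5 * (t5 * (t5 * 4)) + t4 * (t5 * (t5 * 68) + t4 * (t5 * 120 + t4 *
      32)) + t3 * (t5 * (t5 * 15) + t4 * (t5 * 128 + t4 * 104) + t3 * (t5 * 16 + t4 * 76 + t3 *
      6))) + t2 * (t5 * (t5 * (t5 * 6)) + t4 * (t5 * (t5 * 58) + t4 * (t5 * 92 + t4 * 16)) + t3 *
      (t5 * (t5 * 40) + t4 * (t5 * 184 + t4 * 104) + t3 * (t5 * 46 + t4 * 124 + t3 * 16)) + t2 *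
      (t5 * (t5 * 26) + t4 * (t5 * 88 + t4 * 40) + t3 * (t5 * 40 + t4 * 80 + t3 * 8) + t2 * (t5 *
      12 + t4 * 24)))) + t1 * (t4 * (t5 * (t5 * (t5 * 4)) + t4 * (t5 * (t5 * 8))) + t3 * (t4 *
      (t5 * (t5 * 20) + t4 * (t5 * 44 + t4 * 16)) + t3 * (t4 * (t5 * 28 + t4 * 34) + t3 * (t4 *
      20))) + t2 * (t5 * (t5 * (t5 * 4)) + t4 * (t5 * (t5 * 52) + t4 * (t5 * 80 + t4 * 16)) + t3 *
      (t5 * (t5 * 24) + t4 * (t5 * 152 + t4 * 120) + t3 * (t5 * 24 + t4 * 100 + t3 * 4)) + t2 *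
      (t5 * (t5 * 34) + t4 * (t5 * 128 + t4 * 80) + t3 * (t5 * 60 + t4 * 136 + t3 * 8) + t2 * (t5 *
      32 + t4 * 64))) + t1 * (t4 * (t5 * (t5 * 8) + t4 * (t5 * 16)) + t3 * (t4 * (t5 * 12 + t4 *
      12) + t3 * (t4 * 20)) + t2 * (t5 * (t5 * 12) + t4 * (t5 * 56 + t4 * 40) + t3 * (t5 * 20 +
      t4 * 64) + t2 * (t5 * 28 + t4 * 56)) + t1 * (t3 * (t4 * 8) + t2 * (t5 * 8 + t4 * 16))))) +
      t0 * (t3 * (t3 * (t4 * (t5 * (t5 * 4) + t4 * (t5 * 6 + t4 * 4)) + t3 * (t5 * t5 + t4 * (t5 *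
      16 + t4 * 14) + t3 * (t5 * 2 + t4 * 12 + t3)))) + t2 * (t3 * (t4 * (t5 * (t5 * 6)) + t3 *
      (t5 * (t5 * 7) + t4 * (t5 * 48 + t4 * 16) + t3 * (t5 * 22 + t4 * 58 + t3 * 15))) + t2 * (t3 *
      (t5 * (t5 * 6) + t4 * (t5 * 24) + t3 * (t5 * 30 + t4 * 52 + t3 * 28)) + t2 * (t3 * (t5 * 8 +
      t4 * 8 + t3 * 12)))) + t1 * (t4 * (t5 * (t5 * (t5 * 4)) + t4 * (t5 * (t5 * 12) + t4 * (t5 *
      8))) + t3 * (t5 * (t5 * (t5 * 2)) + t4 * (t5 * (t5 * 44) + t4 * (t5 * 80 + t4 * 32)) + t3 *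
      (t5 * (t5 * 9) + t4 * (t5 * 98 + t4 * 94) + t3 * (t5 * 14 + t4 * 66 + t3 * 7))) + t2 * (t5 *
      (t5 * (t5 * 6)) + t4 * (t5 * (t5 * 74) + t4 * (t5 * 124 + t4 * 32)) + t3 * (t5 * (t5 * 56) +
      t4 * (t5 * 304 + t4 * 224) + t3 * (t5 * 110 + t4 * 280 + t3 * 60)) + t2 * (t5 * (t5 * 54) +
      t4 * (t5 * 216 + t4 * 136) + t3 * (t5 * 160 + t4 * 312 + t3 * 98) + t2 * (t5 * 68 + t4 *
      120 + t3 * 48 + t2 * 8))) + t1 * (t5 * (t5 * (t5 * 2)) + t4 * (t5 * (t5 * 34) + t4 * (t5 *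
      52 + t4 * 16)) + t3 * (t5 * (t5 * 16) + t4 * (t5 * 124 + t4 * 100) + t3 * (t5 * 32 + t4 *
      116 + t3 * 18)) + t2 * (t5 * (t5 * 48) + t4 * (t5 * 216 + t4 * 160) + t3 * (t5 * 156 + t4 *
      352 + t3 * 86) + t2 * (t5 * 124 + t4 * 240 + t3 * 100 + t2 * 32)) + t1 * (t5 * (t5 * 8) +
      t4 * (t5 * 44 + t4 * 24) + t3 * (t5 * 28 + t4 * 80 + t3 * 20) + t2 * (t5 * 72 + t4 * 136 +
      t3 * 60 + t2 * 40) + t1 * (t5 * 8 + t4 * 16 + t3 * 8 + t2 * 16)))) + t0 * (t3 * (t4 * (t5 *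
      (t5 * 2)) + t3 * (t5 * (t5 * 3) + t4 * (t5 * 20 + t4 * 8) + t3 * (t5 * 10 + t4 * 26 + t3 *
      7))) + t2 * (t3 * (t5 * (t5 * 6) + t4 * (t5 * 24) + t3 * (t5 * 40 + t4 * 64 + t3 * 42)) +
      t2 * (t3 * (t5 * 24 + t4 * 24 + t3 * 44) + t2 * (t3 * 8))) + t1 * (t5 * (t5 * (t5 * 2)) +
      t4 * (t5 * (t5 * 30) + t4 * (t5 * 52 + t4 * 16)) + t3 * (t5 * (t5 * 24) + t4 * (t5 * 152 +
      t4 * 120) + t3 * (t5 * 60 + t4 * 160 + t3 * 42)) + t2 * (t5 * (t5 * 46) + t4 * (t5 * 216 +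
      t4 * 152) + t3 * (t5 * 200 + t4 * 400 + t3 * 180) + t2 * (t5 * 132 + t4 * 232 + t3 * 176 +
      t2 * 48)) + t1 * (t5 * (t5 * 22) + t4 * (t5 * 112 + t4 * 80) + t3 * (t5 * 96 + t4 * 216 +
      t3 * 86) + t2 * (t5 * 160 + t4 * 304 + t3 * 232 + t2 * 128) + t1 * (t5 * 44 + t4 * 80 + t3 *
      68 + t2 * 96 + t1 * 16))) + t0 * (t3 * (t5 * (t5 * 2) + t4 * (t5 * 8) + t3 * (t5 * 16 + t4 *
      24 + t3 * 18)) + t2 * (t3 * (t5 * 24 + t4 * 24 + t3 * 52) + t2 * (t3 * 24)) + t1 * (t5 *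
      (t5 * 14) + t4 * (t5 * 76 + t4 * 56) + t3 * (t5 * 80 + t4 * 168 + t3 * 90) + t2 * (t5 * 108 +
      t4 * 200 + t3 * 208 + t2 * 96) + t1 * (t5 * 68 + t4 * 128 + t3 * 132 + t2 * 160 + t1 * 56)) +
      t0 * (t3 * (t5 * 8 + t4 * 8 + t3 * 20) + t2 * (t3 * 24) + t1 * (t5 * 32 + t4 * 64 + t3 * 80 +
      t2 * 80 + t1 * 64) + t0 * (t3 * 8 + t1 * 24)))))) := by
    unfold N2
    ring
  rw [e]
  positivity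

theorem P3 (w u v ya yb yc : ℝ) (h0 : 0 ≤ (1 / 2) * v - (1 / 2) * yb + (1 / 2) * yc) (h1 : 0 ≤ ya) (h2 : 0 ≤ -(1 / 2) * v + (1 / 2) * yb + (1 / 2) * yc) (h3 : 0 ≤ u - ya - yc) (h4 : 0 ≤ (1 / 2) * v + (1 / 2) * yb - (1 / 2) * yc) (h5 : 0 ≤ w - u - v) :
    0 ≤ ya * N2 w u v ya yb yc + u * N2 w ya yb u v yc + u * N2 u ya yc w v yb := by
  have h := P3_t ((1 / 2) * v - (1 / 2) * yb + (1 / 2) * yc) (ya) (-(1 / 2) * v + (1 / 2) * yb + (1 / 2) * yc) (u - ya - yc) ((1 / 2) * v + (1 / 2) * yb - (1 / 2) * yc) (w - u - v) h0 h1 h2 h3 h4 h5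
  have e0 : 2 * ((1 / 2) * v - (1 / 2) * yb + (1 / 2) * yc) + (ya) + (-(1 / 2) * v + (1 / 2) * yb + (1 / 2) * yc) + (u - ya - yc) + ((1 / 2) * v + (1 / 2) * yb - (1 / 2) * yc) + (w - u - v) = w := by ring
  have e1 : ((1 / 2) * v - (1 / 2) * yb + (1 / 2) * yc) + (ya) + (-(1 / 2) * v + (1 / 2) * yb + (1 / 2) * yc) + (u - ya - yc) = u := by ring
  have e2 : (ya) = ya := by ring
  have e3 : ((1 / 2) * v - (1 / 2) * yb + (1 / 2) * yc) + ((1 / 2) * v + (1 / 2) * yb - (1 / 2) * yc) = v := by ring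
  have e4 : (-(1 / 2) * v + (1 / 2) * yb + (1 / 2) * yc) + ((1 / 2) * v + (1 / 2) * yb - (1 / 2) * yc) = yb := by ring
  have e5 : ((1 / 2) * v - (1 / 2) * yb + (1 / 2) * yc) + (-(1 / 2) * v + (1 / 2) * yb + (1 / 2) * yc) = yc := by ring
  rw [e0, e1, e2, e3, e4, e5] at h
  exact h

/-- `ab` is long in `abc`, `ae` is long in `ace`. -/
theorem P10_t (t0 t1 t2 t3 t4 t5 : ℝ) (h0 : 0 ≤ t0) (h1 : 0 ≤ t1) (h2 : 0 ≤ t2)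
    (h3 : 0 ≤ t3) (h4 : 0 ≤ t4) (h5 : 0 ≤ t5) :
    0 ≤ (t0 + t2 + t5) * (t0 + t1 + t2 + t3 + t5) * N2 (2 * t0 + t1 + t2 + t3 + t4) (t1) (t2 + t4) (t0 + t1 + t2 + t3 + t5) (t0 + t4 + t5) (t0 + t2 + t5) + (t2 + t4) * (2 * t0 + t1 + t2 + t3 + t4) * N2 (t0 + t1 + t2 + t3 + t5) (t1) (t0 + t2 + t5) (2 * t0 + t1 + t2 + t3 + t4) (t0 + t4 + t5) (t2 + t4) := by
  have e : (t0 + t2 + t5) * (t0 + t1 + t2 + t3 + t5) * N2 (2 * t0 + t1 + t2 + t3 + t4) (t1) (t2 + t4) (t0 + t1 + t2 + t3 + t5) (t0 + t4 + t5) (t0 + t2 + t5) + (t2 + t4) * (2 * t0 + t1 + t2 + t3 + t4) * N2 (t0 + t1 + t2 + t3 + t5) (t1) (t0 + t2 + t5) (2 * t0 + t1 + t2 + t3 + t4) (t0 + t4 + t5) (t2 + t4) =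
      t3 * (t3 * (t3 * (t4 * (t4 * (t5 * (t5 * (t5 * 4)) + t4 * (t5 * (t5 * 4)))) + t3 * (t4 *
      (t5 * (t5 * (t5 * 3)) + t4 * (t5 * (t5 * 6) + t4 * (t5 * 3))) + t3 * (t4 * (t5 * (t5 * 2) +
      t4 * (t5 * 2))))))) + t2 * (t3 * (t3 * (t3 * (t4 * (t5 * (t5 * (t5 * 8)) + t4 * (t5 * (t5 *
      16) + t4 * (t5 * 8))) + t3 * (t5 * (t5 * (t5 * 3)) + t4 * (t5 * (t5 * 15) + t4 * (t5 * 15 +
      t4 * 3)) + t3 * (t5 * (t5 * 2) + t4 * (t5 * 4 + t4 * 2)))))) + t2 * (t3 * (t3 * (t3 * (t5 *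
      (t5 * (t5 * 4)) + t4 * (t5 * (t5 * 20) + t4 * (t5 * 20 + t4 * 4)) + t3 * (t5 * (t5 * 9) +
      t4 * (t5 * 18 + t4 * 9) + t3 * (t5 * 2 + t4 * 2))))) + t2 * (t3 * (t3 * (t3 * (t5 * (t5 *
      8) + t4 * (t5 * 16 + t4 * 8) + t3 * (t5 * 6 + t4 * 6)))) + t2 * (t3 * (t3 * (t3 * (t5 * 4 +
      t4 * 4))))))) + t1 * (t3 * (t4 * (t4 * (t4 * (t5 * (t5 * (t5 * 16))))) + t3 * (t4 * (t4 *
      (t5 * (t5 * (t5 * 28)) + t4 * (t5 * (t5 * 28)))) + t3 * (t4 * (t5 * (t5 * (t5 * 12)) + t4 *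
      (t5 * (t5 * 40) + t4 * (t5 * 12))) + t3 * (t4 * (t5 * (t5 * 10) + t4 * (t5 * 10)))))) + t2 *
      (t3 * (t4 * (t4 * (t5 * (t5 * (t5 * 32)) + t4 * (t5 * (t5 * 32)))) + t3 * (t4 * (t5 * (t5 *
      (t5 * 36)) + t4 * (t5 * (t5 * 112) + t4 * (t5 * 36))) + t3 * (t5 * (t5 * (t5 * 12)) + t4 *
      (t5 * (t5 * 68) + t4 * (t5 * 68 + t4 * 12)) + t3 * (t5 * (t5 * 10) + t4 * (t5 * 12 + t4 *
      10))))) + t2 * (t3 * (t4 * (t5 * (t5 * (t5 * 16)) + t4 * (t5 * (t5 * 64) + t4 * (t5 * 16))) +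
      t3 * (t5 * (t5 * (t5 * 12)) + t4 * (t5 * (t5 * 96) + t4 * (t5 * 96 + t4 * 12)) + t3 * (t5 *
      (t5 * 36) + t4 * (t5 * 56 + t4 * 36) + t3 * (t5 * 6 + t4 * 6)))) + t2 * (t3 * (t4 * (t5 *
      (t5 * 32) + t4 * (t5 * 32)) + t3 * (t5 * (t5 * 24) + t4 * (t5 * 56 + t4 * 24) + t3 * (t5 *
      16 + t4 * 16))) + t2 * (t3 * (t4 * (t5 * 16) + t3 * (t5 * 8 + t4 * 8)))))) + t1 * (t4 * (t4 *
      (t4 * (t5 * (t5 * (t5 * 16))))) + t3 * (t4 * (t4 * (t5 * (t5 * (t5 * 40)) + t4 * (t5 * (t5 *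
      40)))) + t3 * (t4 * (t5 * (t5 * (t5 * 16)) + t4 * (t5 * (t5 * 80) + t4 * (t5 * 16))) + t3 *
      (t4 * (t5 * (t5 * 20) + t4 * (t5 * 20))))) + t2 * (t4 * (t4 * (t5 * (t5 * (t5 * 32)) + t4 *
      (t5 * (t5 * 32)))) + t3 * (t4 * (t5 * (t5 * (t5 * 40)) + t4 * (t5 * (t5 * 160) + t4 * (t5 *
      40))) + t3 * (t5 * (t5 * (t5 * 16)) + t4 * (t5 * (t5 * 104) + t4 * (t5 * 104 + t4 * 16)) +
      t3 * (t5 * (t5 * 20) + t4 * (t5 * 8 + t4 * 20)))) + t2 * (t4 * (t5 * (t5 * (t5 * 16)) + t4 *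
      (t5 * (t5 * 64) + t4 * (t5 * 16))) + t3 * (t5 * (t5 * (t5 * 8)) + t4 * (t5 * (t5 * 112) +
      t4 * (t5 * 112 + t4 * 8)) + t3 * (t5 * (t5 * 48) + t4 * (t5 * 48 + t4 * 48) + t3 * (t5 * 4 +
      t4 * 4))) + t2 * (t4 * (t5 * (t5 * 32) + t4 * (t5 * 32)) + t3 * (t5 * (t5 * 16) + t4 * (t5 *
      48 + t4 * 16) + t3 * (t5 * 8 + t4 * 8)) + t2 * (t4 * (t5 * 16))))) + t1 * (t4 * (t4 * (t5 *
      (t5 * (t5 * 16)) + t4 * (t5 * (t5 * 16)))) + t3 * (t4 * (t5 * (t5 * (t5 * 8)) + t4 * (t5 *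
      (t5 * 64) + t4 * (t5 * 8))) + t3 * (t4 * (t5 * (t5 * 20) + t4 * (t5 * 20)))) + t2 * (t4 *
      (t5 * (t5 * (t5 * 16)) + t4 * (t5 * (t5 * 64) + t4 * (t5 * 16))) + t3 * (t5 * (t5 * (t5 *
      8)) + t4 * (t5 * (t5 * 72) + t4 * (t5 * 72 + t4 * 8)) + t3 * (t5 * (t5 * 20) + t4 * (t4 *
      20))) + t2 * (t4 * (t5 * (t5 * 48) + t4 * (t5 * 48)) + t3 * (t5 * (t5 * 24) + t4 * (t5 * 32 +
      t4 * 24)) + t2 * (t4 * (t5 * 32)))) + t1 * (t4 * (t4 * (t5 * (t5 * 16))) + t3 * (t4 * (t5 *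
      (t5 * 8) + t4 * (t5 * 8))) + t2 * (t4 * (t5 * (t5 * 16) + t4 * (t5 * 16)) + t3 * (t5 * (t5 *
      8) + t4 * (t4 * 8)) + t2 * (t4 * (t5 * 16))))))) + t0 * (t3 * (t3 * (t4 * (t4 * (t5 * (t5 *
      (t5 * 12)) + t4 * (t5 * (t5 * 12)))) + t3 * (t4 * (t5 * (t5 * (t5 * 16)) + t4 * (t5 * (t5 *
      36) + t4 * (t5 * 16))) + t3 * (t4 * (t5 * (t5 * 19) + t4 * (t5 * 22 + t4 * 3)) + t3 * (t4 *
      (t5 * 4 + t4 * 2)))))) + t2 * (t3 * (t3 * (t4 * (t5 * (t5 * (t5 * 24)) + t4 * (t5 * (t5 *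
      48) + t4 * (t5 * 24))) + t3 * (t5 * (t5 * (t5 * 16)) + t4 * (t5 * (t5 * 88) + t4 * (t5 * 88 +
      t4 * 16)) + t3 * (t5 * (t5 * 19) + t4 * (t5 * 50 + t4 * 25) + t3 * (t5 * 4 + t4 * 4))))) +
      t2 * (t3 * (t3 * (t5 * (t5 * (t5 * 12)) + t4 * (t5 * (t5 * 60) + t4 * (t5 * 60 + t4 * 12)) +
      t3 * (t5 * (t5 * 52) + t4 * (t5 * 112 + t4 * 52) + t3 * (t5 * 28 + t4 * 28 + t3 * 2)))) +
      t2 * (t3 * (t3 * (t5 * (t5 * 24) + t4 * (t5 * 48 + t4 * 24) + t3 * (t5 * 40 + t4 * 40 + t3 *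
      6))) + t2 * (t3 * (t3 * (t5 * 12 + t4 * 12 + t3 * 4)))))) + t1 * (t4 * (t4 * (t4 * (t5 *
      (t5 * (t5 * 16))))) + t3 * (t4 * (t4 * (t5 * (t5 * (t5 * 80)) + t4 * (t5 * (t5 * 80)))) +
      t3 * (t4 * (t5 * (t5 * (t5 * 56)) + t4 * (t5 * (t5 * 204) + t4 * (t5 * 72))) + t3 * (t4 *
      (t5 * (t5 * 84) + t4 * (t5 * 112 + t4 * 12)) + t3 * (t4 * (t5 * 20 + t4 * 10))))) + t2 *
      (t4 * (t4 * (t5 * (t5 * (t5 * 32)) + t4 * (t5 * (t5 * 32)))) + t3 * (t4 * (t5 * (t5 * (t5 *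
      96)) + t4 * (t5 * (t5 * 320) + t4 * (t5 * 112))) + t3 * (t5 * (t5 * (t5 * 56)) + t4 * (t5 *
      (t5 * 340) + t4 * (t5 * 400 + t4 * 52)) + t3 * (t5 * (t5 * 84) + t4 * (t5 * 184 + t4 * 100) +
      t3 * (t5 * 20 + t4 * 12)))) + t2 * (t4 * (t5 * (t5 * (t5 * 16)) + t4 * (t5 * (t5 * 64) + t4 *
      (t5 * 16))) + t3 * (t5 * (t5 * (t5 * 32)) + t4 * (t5 * (t5 * 256) + t4 * (t5 * 304 + t4 *
      32)) + t3 * (t5 * (t5 * 180) + t4 * (t5 * 360 + t4 * 168) + t3 * (t5 * 104 + t4 * 72 + t3 *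
      6))) + t2 * (t4 * (t5 * (t5 * 32) + t4 * (t5 * 32)) + t3 * (t5 * (t5 * 64) + t4 * (t5 * 176 +
      t4 * 64) + t3 * (t5 * 120 + t4 * 80 + t3 * 16)) + t2 * (t4 * (t5 * 16) + t3 * (t5 * 32 + t4 *
      16 + t3 * 8))))) + t1 * (t4 * (t4 * (t5 * (t5 * (t5 * 64)) + t4 * (t5 * (t5 * 64)))) + t3 *
      (t4 * (t5 * (t5 * (t5 * 56)) + t4 * (t5 * (t5 * 280) + t4 * (t5 * 88))) + t3 * (t4 * (t5 *
      (t5 * 132) + t4 * (t5 * 196 + t4 * 16)) + t3 * (t4 * (t5 * 40 + t4 * 20)))) + t2 * (t4 *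
      (t5 * (t5 * (t5 * 64)) + t4 * (t5 * (t5 * 256) + t4 * (t5 * 80))) + t3 * (t5 * (t5 * (t5 *
      56)) + t4 * (t5 * (t5 * 368) + t4 * (t5 * 488 + t4 * 48)) + t3 * (t5 * (t5 * 132) + t4 *
      (t5 * 232 + t4 * 140) + t3 * (t5 * 40 + t4 * 8))) + t2 * (t5 * (t5 * (t5 * 16)) + t4 * (t5 *
      (t5 * 176) + t4 * (t5 * 224 + t4 * 16)) + t3 * (t5 * (t5 * 176) + t4 * (t5 * 320 + t4 *
      152) + t3 * (t5 * 132 + t4 * 36 + t3 * 4)) + t2 * (t5 * (t5 * 32) + t4 * (t5 * 112 + t4 *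
      32) + t3 * (t5 * 96 + t4 * 16 + t3 * 8) + t2 * (t5 * 16)))) + t1 * (t4 * (t5 * (t5 * (t5 *
      16)) + t4 * (t5 * (t5 * 112) + t4 * (t5 * 32))) + t3 * (t4 * (t5 * (t5 * 88) + t4 * (t5 *
      144 + t4 * 8)) + t3 * (t4 * (t5 * 40 + t4 * 20))) + t2 * (t5 * (t5 * (t5 * 16)) + t4 * (t5 *
      (t5 * 128) + t4 * (t5 * 192 + t4 * 16)) + t3 * (t5 * (t5 * 88) + t4 * (t5 * 144 + t4 * 88) +
      t3 * (t5 * 40)) + t2 * (t5 * (t5 * 48) + t4 * (t5 * 128 + t4 * 48) + t3 * (t5 * 80) + t2 *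
      (t5 * 32))) + t1 * (t4 * (t5 * (t5 * 16) + t4 * (t5 * 32)) + t3 * (t4 * (t5 * 16 + t4 * 8)) +
      t2 * (t5 * (t5 * 16) + t4 * (t5 * 32 + t4 * 16) + t3 * (t5 * 16) + t2 * (t5 * 16)))))) + t0 *
      (t3 * (t4 * (t4 * (t5 * (t5 * (t5 * 8)) + t4 * (t5 * (t5 * 8)))) + t3 * (t4 * (t5 * (t5 *
      (t5 * 28)) + t4 * (t5 * (t5 * 68) + t4 * (t5 * 28))) + t3 * (t4 * (t5 * (t5 * 64) + t4 *
      (t5 * 76 + t4 * 12)) + t3 * (t4 * (t5 * 29 + t4 * 16) + t3 * (t4 * 2))))) + t2 * (t3 * (t4 *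
      (t5 * (t5 * (t5 * 16)) + t4 * (t5 * (t5 * 32) + t4 * (t5 * 16))) + t3 * (t5 * (t5 * (t5 *
      28)) + t4 * (t5 * (t5 * 164) + t4 * (t5 * 164 + t4 * 28)) + t3 * (t5 * (t5 * 64) + t4 * (t5 *
      184 + t4 * 88) + t3 * (t5 * 29 + t4 * 35 + t3 * 2)))) + t2 * (t3 * (t5 * (t5 * (t5 * 8)) +
      t4 * (t5 * (t5 * 40) + t4 * (t5 * 40 + t4 * 8)) + t3 * (t5 * (t5 * 96) + t4 * (t5 * 216 +
      t4 * 96) + t3 * (t5 * 108 + t4 * 108 + t3 * 19))) + t2 * (t3 * (t5 * (t5 * 16) + t4 * (t5 *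
      32 + t4 * 16) + t3 * (t5 * 80 + t4 * 80 + t3 * 32)) + t2 * (t3 * (t5 * 8 + t4 * 8 + t3 *
      12))))) + t1 * (t4 * (t4 * (t5 * (t5 * (t5 * 48)) + t4 * (t5 * (t5 * 48)))) + t3 * (t4 *
      (t5 * (t5 * (t5 * 80)) + t4 * (t5 * (t5 * 320) + t4 * (t5 * 112))) + t3 * (t4 * (t5 * (t5 *
      240) + t4 * (t5 * 348 + t4 * 44)) + t3 * (t4 * (t5 * 132 + t4 * 72) + t3 * (t4 * 10)))) +
      t2 * (t4 * (t5 * (t5 * (t5 * 48)) + t4 * (t5 * (t5 * 192) + t4 * (t5 * 64))) + t3 * (t5 *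
      (t5 * (t5 * 80)) + t4 * (t5 * (t5 * 512) + t4 * (t5 * 656 + t4 * 80)) + t3 * (t5 * (t5 *
      240) + t4 * (t5 * 636 + t4 * 312) + t3 * (t5 * 132 + t4 * 116 + t3 * 10))) + t2 * (t5 * (t5 *
      (t5 * 16)) + t4 * (t5 * (t5 * 128) + t4 * (t5 * 176 + t4 * 16)) + t3 * (t5 * (t5 * 272) +
      t4 * (t5 * 608 + t4 * 272) + t3 * (t5 * 380 + t4 * 272 + t3 * 68)) + t2 * (t5 * (t5 * 32) +
      t4 * (t5 * 80 + t4 * 32) + t3 * (t5 * 224 + t4 * 144 + t3 * 96) + t2 * (t5 * 16 + t3 *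
      32)))) + t1 * (t4 * (t5 * (t5 * (t5 * 48)) + t4 * (t5 * (t5 * 240) + t4 * (t5 * 80))) + t3 *
      (t4 * (t5 * (t5 * 272) + t4 * (t5 * 448 + t4 * 48)) + t3 * (t4 * (t5 * 216 + t4 * 116) + t3 *
      (t4 * 20))) + t2 * (t5 * (t5 * (t5 * 48)) + t4 * (t5 * (t5 * 320) + t4 * (t5 * 464 + t4 *
      48)) + t3 * (t5 * (t5 * 272) + t4 * (t5 * 664 + t4 * 336) + t3 * (t5 * 216 + t4 * 128 + t3 *
      20)) + t2 * (t5 * (t5 * 160) + t4 * (t5 * 352 + t4 * 160) + t3 * (t5 * 400 + t4 * 184 + t3 *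
      84) + t2 * (t5 * 128 + t4 * 48 + t3 * 80 + t2 * 16))) + t1 * (t4 * (t5 * (t5 * 96) + t4 *
      (t5 * 176 + t4 * 16)) + t3 * (t4 * (t5 * 152 + t4 * 80) + t3 * (t4 * 20)) + t2 * (t5 * (t5 *
      96) + t4 * (t5 * 240 + t4 * 128) + t3 * (t5 * 152 + t4 * 72 + t3 * 20) + t2 * (t5 * 144 +
      t4 * 64 + t3 * 56 + t2 * 32)) + t1 * (t4 * (t5 * 32 + t4 * 16) + t3 * (t4 * 8) + t2 * (t5 *
      32 + t4 * 16 + t3 * 8 + t2 * 16))))) + t0 * (t3 * (t4 * (t5 * (t5 * (t5 * 16)) + t4 * (t5 *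
      (t5 * 40) + t4 * (t5 * 16))) + t3 * (t4 * (t5 * (t5 * 92) + t4 * (t5 * 108 + t4 * 16)) + t3 *
      (t4 * (t5 * 80 + t4 * 44) + t3 * (t4 * 13)))) + t2 * (t3 * (t5 * (t5 * (t5 * 16)) + t4 *
      (t5 * (t5 * 96) + t4 * (t5 * 96 + t4 * 16)) + t3 * (t5 * (t5 * 92) + t4 * (t5 * 272 + t4 *
      124) + t3 * (t5 * 80 + t4 * 104 + t3 * 13))) + t2 * (t3 * (t5 * (t5 * 56) + t4 * (t5 * 128 +
      t4 * 56) + t3 * (t5 * 164 + t4 * 164 + t3 * 60)) + t2 * (t3 * (t5 * 48 + t4 * 48 + t3 * 56) +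
      t2 * (t3 * 8)))) + t1 * (t4 * (t5 * (t5 * (t5 * 32)) + t4 * (t5 * (t5 * 144) + t4 * (t5 *
      48))) + t3 * (t4 * (t5 * (t5 * 272) + t4 * (t5 * 400 + t4 * 48)) + t3 * (t4 * (t5 * 312 +
      t4 * 172) + t3 * (t4 * 60))) + t2 * (t5 * (t5 * (t5 * 32)) + t4 * (t5 * (t5 * 208) + t4 *
      (t5 * 288 + t4 * 32)) + t3 * (t5 * (t5 * 272) + t4 * (t5 * 768 + t4 * 368) + t3 * (t5 * 312 +
      t4 * 332 + t3 * 60)) + t2 * (t5 * (t5 * 112) + t4 * (t5 * 240 + t4 * 112) + t3 * (t5 * 480 +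
      t4 * 368 + t3 * 212) + t2 * (t5 * 96 + t4 * 48 + t3 * 160 + t2 * 16))) + t1 * (t4 * (t5 *
      (t5 * 176) + t4 * (t5 * 288 + t4 * 32)) + t3 * (t4 * (t5 * 376 + t4 * 208) + t3 * (t4 *
      100)) + t2 * (t5 * (t5 * 176) + t4 * (t5 * 480 + t4 * 240) + t3 * (t5 * 376 + t4 * 336 + t3 *
      100) + t2 * (t5 * 304 + t4 * 192 + t3 * 232 + t2 * 96)) + t1 * (t4 * (t5 * 144 + t4 * 80) +
      t3 * (t4 * 72) + t2 * (t5 * 144 + t4 * 128 + t3 * 72 + t2 * 96) + t1 * (t4 * 16 + t2 *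
      16)))) + t0 * (t3 * (t4 * (t5 * (t5 * 48) + t4 * (t5 * 56 + t4 * 8)) + t3 * (t4 * (t5 * 100 +
      t4 * 52) + t3 * (t4 * 32))) + t2 * (t3 * (t5 * (t5 * 48) + t4 * (t5 * 144 + t4 * 64) + t3 *
      (t5 * 100 + t4 * 132 + t3 * 32)) + t2 * (t3 * (t5 * 88 + t4 * 88 + t3 * 80) + t2 * (t3 *
      32))) + t1 * (t4 * (t5 * (t5 * 96) + t4 * (t5 * 144 + t4 * 16)) + t3 * (t4 * (t5 * 304 + t4 *
      160) + t3 * (t4 * 128)) + t2 * (t5 * (t5 * 96) + t4 * (t5 * 272 + t4 * 128) + t3 * (t5 *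
      304 + t4 * 352 + t3 * 128) + t2 * (t5 * 176 + t4 * 128 + t3 * 240 + t2 * 64)) + t1 * (t4 *
      (t5 * 208 + t4 * 112) + t3 * (t4 * 160) + t2 * (t5 * 208 + t4 * 224 + t3 * 160 + t2 * 160) +
      t1 * (t4 * 64 + t2 * 64))) + t0 * (t3 * (t4 * (t5 * 48 + t4 * 24) + t3 * (t4 * 36)) + t2 *
      (t3 * (t5 * 48 + t4 * 64 + t3 * 36) + t2 * (t3 * 40)) + t1 * (t4 * (t5 * 96 + t4 * 48) + t3 *
      (t4 * 112) + t2 * (t5 * 96 + t4 * 112 + t3 * 112 + t2 * 80) + t1 * (t4 * 80 + t2 * 80)) +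
      t0 * (t3 * (t4 * 16) + t2 * (t3 * 16) + t1 * (t4 * 32 + t2 * 32))))))) := by
    unfold N2
    ring
  rw [e]
  positivity

theorem P10 (w u v ya yb yc : ℝ) (h0 : 0 ≤ (1 / 2) * w - (1 / 2) * ya - (1 / 2) * v + (1 / 2) * yc) (h1 : 0 ≤ u) (h2 : 0 ≤ (1 / 2) * v - (1 / 2) * yb + (1 / 2) * yc) (h3 : 0 ≤ -u + ya - yc) (h4 : 0 ≤ (1 / 2) * v + (1 / 2) * yb - (1 / 2) * yc) (h5 : 0 ≤ -(1 / 2) * w + (1 / 2) * ya + (1 / 2) * yb) :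
    0 ≤ yc * ya * N2 w u v ya yb yc + v * w * N2 ya u yc w yb v := by
  have h := P10_t ((1 / 2) * w - (1 / 2) * ya - (1 / 2) * v + (1 / 2) * yc) (u) ((1 / 2) * v - (1 / 2) * yb + (1 / 2) * yc) (-u + ya - yc) ((1 / 2) * v + (1 / 2) * yb - (1 / 2) * yc) (-(1 / 2) * w + (1 / 2) * ya + (1 / 2) * yb) h0 h1 h2 h3 h4 h5
  have e0 : 2 * ((1 / 2) * w - (1 / 2) * ya - (1 / 2) * v + (1 / 2) * yc) + (u) + ((1 / 2) * v - (1 / 2) * yb + (1 / 2) * yc) + (-u + ya - yc) + ((1 / 2) * v + (1 / 2) * yb - (1 / 2) * yc) = w := by ring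
  have e1 : (u) = u := by ring
  have e2 : ((1 / 2) * w - (1 / 2) * ya - (1 / 2) * v + (1 / 2) * yc) + (u) + ((1 / 2) * v - (1 / 2) * yb + (1 / 2) * yc) + (-u + ya - yc) + (-(1 / 2) * w + (1 / 2) * ya + (1 / 2) * yb) = ya := by ring
  have e3 : ((1 / 2) * v - (1 / 2) * yb + (1 / 2) * yc) + ((1 / 2) * v + (1 / 2) * yb - (1 / 2) * yc) = v := by ring
  have e4 : ((1 / 2) * w - (1 / 2) * ya - (1 / 2) * v + (1 / 2) * yc) + ((1 / 2) * v + (1 / 2) * yb - (1 / 2) * yc) + (-(1 / 2) * w + (1 / 2) * ya + (1 / 2) * yb) = yb := by ring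
  have e5 : ((1 / 2) * w - (1 / 2) * ya - (1 / 2) * v + (1 / 2) * yc) + ((1 / 2) * v - (1 / 2) * yb + (1 / 2) * yc) + (-(1 / 2) * w + (1 / 2) * ya + (1 / 2) * yb) = yc := by ring
  rw [e0, e1, e2, e3, e4, e5] at h
  exact h

/-- `ab` is long in `abc`, `ce` is long in `ace`. -/
theorem P12_t (t0 t1 t2 t3 t4 t5 : ℝ) (h0 : 0 ≤ t0) (h1 : 0 ≤ t1) (h2 : 0 ≤ t2)
    (h3 : 0 ≤ t3) (h4 : 0 ≤ t4) (h5 : 0 ≤ t5) :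
    0 ≤ N2 (2 * t0 + t1 + t2 + t3 + t4) (t1) (t2 + t3) (t0 + t2 + t5) (t0 + t1 + t3 + t4 + t5) (t0 + t1 + t2 + t4 + t5) := by
  have e : N2 (2 * t0 + t1 + t2 + t3 + t4) (t1) (t2 + t3) (t0 + t2 + t5) (t0 + t1 + t3 + t4 + t5) (t0 + t1 + t2 + t4 + t5) =
      t3 * (t4 * (t4 * (t4 * (t4 * (t5 + t4)))) + t3 * (t4 * (t4 * (t4 * (t5 * 2 + t4 * 3))) + t3 *
      (t4 * (t4 * (t4 * 2))))) + t2 * (t4 * (t4 * (t4 * (t4 * (t5 + t4)))) + t3 * (t4 * (t4 * (t4 *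
      (t5 * 4 + t4 * 5))) + t3 * (t4 * (t4 * (t4 * 4)))) + t2 * (t4 * (t4 * (t4 * (t5 * 2 + t4 *
      2))) + t3 * (t4 * (t4 * (t4 * 2))))) + t1 * (t3 * (t4 * (t4 * (t4 * (t5 * 4 + t4 * 5))) +
      t3 * (t4 * (t4 * (t5 * 6 + t4 * 12)) + t3 * (t4 * (t4 * 6)))) + t2 * (t4 * (t4 * (t4 * (t5 *
      4 + t4 * 5))) + t3 * (t4 * (t4 * (t5 * 16 + t4 * 28)) + t3 * (t4 * (t5 * 8 + t4 * 28) + t3 *
      (t4 * 8))) + t2 * (t4 * (t4 * (t5 * 14 + t4 * 16)) + t3 * (t4 * (t5 * 16 + t4 * 34) + t3 *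
      (t4 * 24)) + t2 * (t4 * (t5 * 8 + t4 * 16) + t3 * (t4 * 24) + t2 * (t4 * 8)))) + t1 * (t3 *
      (t4 * (t4 * (t5 * 6 + t4 * 10)) + t3 * (t4 * (t5 * 4 + t4 * 16) + t3 * (t4 * 4))) + t2 *
      (t4 * (t4 * (t5 * 6 + t4 * 10)) + t3 * (t4 * (t5 * 16 + t4 * 50) + t3 * (t5 * 8 + t4 * 40 +
      t3 * 8)) + t2 * (t4 * (t5 * 20 + t4 * 34) + t3 * (t5 * 16 + t4 * 60 + t3 * 24) + t2 * (t5 *
      8 + t4 * 32 + t3 * 24 + t2 * 8))) + t1 * (t3 * (t4 * (t5 * 4 + t4 * 10) + t3 * (t4 * 8)) +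
      t2 * (t4 * (t5 * 4 + t4 * 10) + t3 * (t5 * 8 + t4 * 36 + t3 * 16) + t2 * (t5 * 8 + t4 * 28 +
      t3 * 32 + t2 * 16)) + t1 * (t3 * (t4 * 4) + t2 * (t4 * 4 + t3 * 8 + t2 * 8))))) + t0 * (t3 *
      (t4 * (t4 * (t4 * (t5 * 4 + t4 * 5))) + t3 * (t4 * (t4 * (t5 * 4 + t4 * 10)) + t3 * (t4 *
      (t4 * 4)))) + t2 * (t4 * (t4 * (t4 * (t5 * 4 + t4 * 5))) + t3 * (t4 * (t4 * (t5 * 8 + t4 *
      16)) + t3 * (t4 * (t4 * 8))) + t2 * (t4 * (t4 * (t5 * 4 + t4 * 6)) + t3 * (t4 * (t4 * 4)))) +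
      t1 * (t3 * (t4 * (t4 * (t5 * 20 + t4 * 28)) + t3 * (t4 * (t5 * 24 + t4 * 46) + t3 * (t5 * 8 +
      t4 * 16))) + t2 * (t4 * (t4 * (t5 * 20 + t4 * 28)) + t3 * (t4 * (t5 * 48 + t4 * 108) + t3 *
      (t5 * 24 + t4 * 80 + t3 * 8)) + t2 * (t4 * (t5 * 40 + t4 * 66) + t3 * (t5 * 24 + t4 * 96 +
      t3 * 24) + t2 * (t5 * 8 + t4 * 48 + t3 * 24 + t2 * 8))) + t1 * (t3 * (t4 * (t5 * 24 + t4 *
      50) + t3 * (t5 * 16 + t4 * 52 + t3 * 8)) + t2 * (t4 * (t5 * 24 + t4 * 50) + t3 * (t5 * 32 +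
      t4 * 152 + t3 * 64) + t2 * (t5 * 32 + t4 * 108 + t3 * 88 + t2 * 48)) + t1 * (t3 * (t5 * 8 +
      t4 * 36 + t3 * 16) + t2 * (t5 * 8 + t4 * 36 + t3 * 64 + t2 * 48) + t1 * (t3 * 8 + t2 *
      8)))) + t0 * (t3 * (t4 * (t4 * (t5 * 4 + t4 * 8)) + t3 * (t4 * (t4 * 8))) + t2 * (t4 * (t4 *
      (t5 * 4 + t4 * 8)) + t3 * (t4 * (t4 * 12)) + t2 * (t4 * (t4 * 4))) + t1 * (t3 * (t4 * (t5 *
      32 + t4 * 56) + t3 * (t5 * 24 + t4 * 56 + t3 * 8)) + t2 * (t4 * (t5 * 32 + t4 * 56) + t3 *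
      (t5 * 32 + t4 * 128 + t3 * 48) + t2 * (t5 * 24 + t4 * 88 + t3 * 56 + t2 * 32)) + t1 * (t3 *
      (t5 * 24 + t4 * 80 + t3 * 40) + t2 * (t5 * 24 + t4 * 80 + t3 * 104 + t2 * 80) + t1 * (t3 *
      32 + t2 * 32))) + t0 * (t3 * (t4 * (t4 * 4)) + t2 * (t4 * (t4 * 4)) + t1 * (t3 * (t5 * 16 +
      t4 * 48 + t3 * 24) + t2 * (t5 * 16 + t4 * 48 + t3 * 48 + t2 * 40) + t1 * (t3 * 40 + t2 *
      40)) + t0 * (t1 * (t3 * 16 + t2 * 16))))) := by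
    unfold N2
    ring
  rw [e]
  positivity

theorem P12 (w u v ya yb yc : ℝ) (h0 : 0 ≤ (1 / 2) * w + (1 / 2) * ya - (1 / 2) * v - (1 / 2) * yc) (h1 : 0 ≤ u) (h2 : 0 ≤ (1 / 2) * v - (1 / 2) * yb + (1 / 2) * yc) (h3 : 0 ≤ (1 / 2) * v + (1 / 2) * yb - (1 / 2) * yc) (h4 : 0 ≤ -u - ya + yc) (h5 : 0 ≤ -(1 / 2) * w + (1 / 2) * ya + (1 / 2) * yb) :
    0 ≤ N2 w u v ya yb yc := by
  have h := P12_t ((1 / 2) * w + (1 / 2) * ya - (1 / 2) * v - (1 / 2) * yc) (u) ((1 / 2) * v - (1 / 2) * yb + (1 / 2) * yc) ((1 / 2) * v + (1 / 2) * yb - (1 / 2) * yc) (-u - ya + yc) (-(1 / 2) * w + (1 / 2) * ya + (1 / 2) * yb) h0 h1 h2 h3 h4 h5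
  have e0 : 2 * ((1 / 2) * w + (1 / 2) * ya - (1 / 2) * v - (1 / 2) * yc) + (u) + ((1 / 2) * v - (1 / 2) * yb + (1 / 2) * yc) + ((1 / 2) * v + (1 / 2) * yb - (1 / 2) * yc) + (-u - ya + yc) = w := by ring
  have e1 : (u) = u := by ring
  have e2 : ((1 / 2) * w + (1 / 2) * ya - (1 / 2) * v - (1 / 2) * yc) + ((1 / 2) * v - (1 / 2) * yb + (1 / 2) * yc) + (-(1 / 2) * w + (1 / 2) * ya + (1 / 2) * yb) = ya := by ring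
  have e3 : ((1 / 2) * v - (1 / 2) * yb + (1 / 2) * yc) + ((1 / 2) * v + (1 / 2) * yb - (1 / 2) * yc) = v := by ring
  have e4 : ((1 / 2) * w + (1 / 2) * ya - (1 / 2) * v - (1 / 2) * yc) + (u) + ((1 / 2) * v + (1 / 2) * yb - (1 / 2) * yc) + (-u - ya + yc) + (-(1 / 2) * w + (1 / 2) * ya + (1 / 2) * yb) = yb := by ring
  have e5 : ((1 / 2) * w + (1 / 2) * ya - (1 / 2) * v - (1 / 2) * yc) + (u) + ((1 / 2) * v - (1 / 2) * yb + (1 / 2) * yc) + (-u - ya + yc) + (-(1 / 2) * w + (1 / 2) * ya + (1 / 2) * yb) = yc := by ring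
  rw [e0, e1, e2, e3, e4, e5] at h
  exact h

/-- Line configuration, first case. -/
theorem P5a_t (t0 t1 t2 t3 t4 t5 : ℝ) (h0 : 0 ≤ t0) (h1 : 0 ≤ t1) (h2 : 0 ≤ t2)
    (h3 : 0 ≤ t3) (h4 : 0 ≤ t4) (h5 : 0 ≤ t5) :
    0 ≤ N2 (t0 + t1 + t2 + t3 + t4) (t1) (t2) (2 * t0 + t1 + t2 + t3 + t4 + t5) (t5) (t0 + t2 + t3 + t5) := by
  have e : N2 (t0 + t1 + t2 + t3 + t4) (t1) (t2) (2 * t0 + t1 + t2 + t3 + t4 + t5) (t5) (t0 + t2 + t3 + t5) =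
      t2 * (t4 * (t4 * (t4 * (t4 * t5))) + t3 * (t4 * (t4 * (t4 * (t5 * 2))) + t3 * (t4 * (t4 *
      t5))) + t2 * (t4 * (t4 * (t4 * (t5 * 2))) + t3 * (t4 * (t4 * (t5 * 2))))) + t1 * (t3 * (t3 *
      (t4 * (t4 * (t5 + t4)) + t3 * (t4 * (t5 * 2 + t4 * 3) + t3 * (t5 + t4 * 3 + t3)))) + t2 *
      (t4 * (t4 * (t4 * (t5 * 4))) + t3 * (t4 * (t4 * (t5 * 8 + t4 * 2)) + t3 * (t4 * (t5 * 8 +
      t4 * 9) + t3 * (t5 * 4 + t4 * 12 + t3 * 5))) + t2 * (t4 * (t4 * (t5 * 6)) + t3 * (t4 * (t5 *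
      8 + t4 * 6) + t3 * (t5 * 6 + t4 * 16 + t3 * 10)) + t2 * (t3 * (t5 * 4 + t4 * 8 + t3 * 10) +
      t2 * (t3 * 4)))) + t1 * (t3 * (t3 * (t4 * (t5 * 2 + t4 * 3) + t3 * (t5 * 2 + t4 * 6 + t3 *
      3))) + t2 * (t4 * (t4 * (t5 * 6)) + t3 * (t4 * (t5 * 8 + t4 * 6) + t3 * (t5 * 6 + t4 * 18 +
      t3 * 12)) + t2 * (t4 * (t5 * 4) + t3 * (t5 * 4 + t4 * 12 + t3 * 16) + t2 * (t3 * 8))) + t1 *
      (t3 * (t3 * (t4 * 2 + t3 * 2)) + t2 * (t4 * (t5 * 4) + t3 * (t4 * 4 + t3 * 6) + t2 * (t3 *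
      4))))) + t0 * (t2 * (t4 * (t4 * (t4 * (t5 * 4))) + t3 * (t4 * (t4 * (t5 * 6)) + t3 * (t4 *
      (t5 * 2))) + t2 * (t4 * (t4 * (t5 * 6)) + t3 * (t4 * (t5 * 4)))) + t1 * (t3 * (t4 * (t4 *
      (t5 * 2 + t4 * 2)) + t3 * (t4 * (t5 * 6 + t4 * 10) + t3 * (t5 * 4 + t4 * 14 + t3 * 6))) +
      t2 * (t4 * (t4 * (t5 * 10 + t4 * 2)) + t3 * (t4 * (t5 * 16 + t4 * 16) + t3 * (t5 * 10 + t4 *
      34 + t3 * 20)) + t2 * (t4 * (t5 * 8 + t4 * 2) + t3 * (t5 * 8 + t4 * 20 + t3 * 24) + t2 *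
      (t3 * 12))) + t1 * (t3 * (t4 * (t5 * 4 + t4 * 6) + t3 * (t5 * 6 + t4 * 20 + t3 * 14)) + t2 *
      (t4 * (t5 * 8 + t4 * 6) + t3 * (t5 * 8 + t4 * 32 + t3 * 34) + t2 * (t4 * 4 + t3 * 20)) + t1 *
      (t3 * (t4 * 4 + t3 * 6) + t2 * (t4 * 4 + t3 * 8)))) + t0 * (t2 * (t4 * (t4 * (t5 * 6)) + t3 *
      (t4 * (t5 * 6) + t3 * t5) + t2 * (t4 * (t5 * 6) + t3 * (t5 * 2))) + t1 * (t4 * (t4 * (t5 +
      t4)) + t3 * (t4 * (t5 * 6 + t4 * 11) + t3 * (t5 * 6 + t4 * 24 + t3 * 14)) + t2 * (t4 * (t5 *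
      8 + t4 * 7) + t3 * (t5 * 8 + t4 * 30 + t3 * 28) + t2 * (t5 * 2 + t4 * 2 + t3 * 14)) + t1 *
      (t4 * (t5 * 2 + t4 * 3) + t3 * (t5 * 6 + t4 * 22 + t3 * 24) + t2 * (t5 * 2 + t4 * 14 + t3 *
      30 + t2 * 2) + t1 * (t4 * 2 + t3 * 6 + t2 * 2))) + t0 * (t2 * (t4 * (t5 * 4) + t3 * (t5 *
      2) + t2 * (t5 * 2)) + t1 * (t4 * (t5 * 2 + t4 * 4) + t3 * (t5 * 4 + t4 * 18 + t3 * 16) + t2 *
      (t5 * 2 + t4 * 8 + t3 * 16) + t1 * (t5 * 2 + t4 * 8 + t3 * 18 + t2 * 8 + t1 * 2)) + t0 *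
      (t2 * t5 + t1 * (t5 + t4 * 5 + t3 * 9 + t2 * 3 + t1 * 5) + t0 * (t1 * 2))))) := by
    unfold N2
    ring
  rw [e]
  positivity

theorem P5a (w u v ya yb yc : ℝ) (h0 : 0 ≤ w - ya - yb) (h1 : 0 ≤ u) (h2 : 0 ≤ yc) (h3 : 0 ≤ -w + ya + v - yc) (h4 : 0 ≤ -u + ya - v + yb) (h5 : 0 ≤ yb) :
    0 ≤ N2 ya u yc w yb v := by
  have h := P5a_t (w - ya - yb) (u) (yc) (-w + ya + v - yc) (-u + ya - v + yb) (yb) h0 h1 h2 h3 h4 h5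
  have e0 : 2 * (w - ya - yb) + (u) + (yc) + (-w + ya + v - yc) + (-u + ya - v + yb) + (yb) = w := by ring
  have e1 : (u) = u := by ring
  have e2 : (w - ya - yb) + (u) + (yc) + (-w + ya + v - yc) + (-u + ya - v + yb) = ya := by ring
  have e3 : (w - ya - yb) + (yc) + (-w + ya + v - yc) + (yb) = v := by ring
  have e4 : (yb) = yb := by ring
  have e5 : (yc) = yc := by ring
  rw [e0, e1, e2, e3, e4, e5] at h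
  exact h

end Pool.Agent.Helper58.EF
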