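import Pool.Agent.Helper58.EF.Ineq

/-!
# Polynomial inequalities, continued: the line configuration

The four blocks are in the order `a, c, e, b` on a line, up to nonnegative excesses: `g1 = ac`, `g2 = ce`,
`g3 = eb`, `ae = g1 + g2 + D + k`, `cb = g2 + g3 + D`, `ab = ae + cb - ce + m`.
-/

set_option autoImplicit false

namespace Pool.Agent.Helper58.EF

theorem I1_t (g1 g2 g3 D k m : ℝ) (h0 : 0 ≤ g1) (h1 : 0 ≤ g2) (h2 : 0 ≤ g3)
    (h3 : 0 ≤ D) (h4 : 0 ≤ k) (h5 : 0 ≤ m) :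
    0 ≤
      (g2 + g3 + D) * ((2 * g2 + D) * N2 (g1 + g2 + g3 + 2 * D + k + m) g1 (g2 + g3 + D) (g1 + g2 +
      D + k) g3 g2 + D * N2 (g1 + g2 + g3 + 2 * D + k + m) (g1 + g2 + D + k) g3 g1 (g2 + g3 + D)
      g2) + (2 * g2 + 2 * D) * (g1 + g2 + D + k) * M2 (g1 + g2 + g3 + 2 * D + k + m) (g1 + g2 + D +
      k) g3 g1 (g2 + g3 + D) g2 + (D * (k * ((9 / 16)))) * N2 (g1 + g2 + g3 + 2 * D + k + m) g1
      (g2 + g3 + D) (g1 + g2 + D + k) g3 g2 + (D * (m + k * ((9 / 16)) + D * 3) + g3 * (m * ((3 /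
      2)) + D * ((19 / 4)) + g3 * 2) + g2 * (D * 4 + g3 * 4 + g2 * 2)) * N2 (g1 + g2 + D + k) g1
      g2 (g1 + g2 + g3 + 2 * D + k + m) g3 (g2 + g3 + D) + (D * (D * 3) + g3 * D + g1 * (D * 5 +
      g3 * 2)) * N2 (g2 + g3 + D) g2 g3 g1 (g1 + g2 + g3 + 2 * D + k + m) (g1 + g2 + D + k) := by
  have e :
      (g2 + g3 + D) * ((2 * g2 + D) * N2 (g1 + g2 + g3 + 2 * D + k + m) g1 (g2 + g3 + D) (g1 + g2 +
      D + k) g3 g2 + D * N2 (g1 + g2 + g3 + 2 * D + k + m) (g1 + g2 + D + k) g3 g1 (g2 + g3 + D)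
      g2) + (2 * g2 + 2 * D) * (g1 + g2 + D + k) * M2 (g1 + g2 + g3 + 2 * D + k + m) (g1 + g2 + D +
      k) g3 g1 (g2 + g3 + D) g2 + (D * (k * ((9 / 16)))) * N2 (g1 + g2 + g3 + 2 * D + k + m) g1
      (g2 + g3 + D) (g1 + g2 + D + k) g3 g2 + (D * (m + k * ((9 / 16)) + D * 3) + g3 * (m * ((3 /
      2)) + D * ((19 / 4)) + g3 * 2) + g2 * (D * 4 + g3 * 4 + g2 * 2)) * N2 (g1 + g2 + D + k) g1
      g2 (g1 + g2 + g3 + 2 * D + k + m) g3 (g2 + g3 + D) + (D * (D * 3) + g3 * D + g1 * (D * 5 +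
      g3 * 2)) * N2 (g2 + g3 + D) g2 g3 g1 (g1 + g2 + g3 + 2 * D + k + m) (g1 + g2 + D + k) =
      g3 * (D * (D * (k * (k * (k * (m * (m * ((9 / 16))) + k * (m * ((9 / 8)) + k * ((9 /
      16)))))) + D * (k * (k * (m * (m * ((9 / 8))) + k * (m * ((9 / 2)) + k * ((19 / 8))))) + D *
      (k * (m * (m * ((9 / 16))) + k * (m * ((69 / 8)) + k * ((23 / 4)))) + D * (k * (m * ((33 /
      4)) + k * ((85 / 8))) + D * (m * 3 + k * ((171 / 16)) + D * 4)))))) + g3 * (D * (k * (k *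
      (k * (m * (m * ((9 / 16))) + k * (m * ((9 / 8)) + k * ((9 / 16)))))) + D * (k * (k * (m *
      (m * ((9 / 8))) + k * (m * ((45 / 8)) + k * ((5 / 2))))) + D * (k * (m * (m * ((9 / 16))) +
      k * (m * ((119 / 8)) + k * ((73 / 8)))) + D * (k * (m * ((139 / 8)) + k * 24) + D * (m * 7 +
      k * ((445 / 16)) + D * 11))))) + g3 * (D * (k * (k * (k * (m * ((9 / 8)) + k * ((1 / 8))))) +
      D * (k * (k * (m * ((17 / 4)) + k * ((11 / 8)))) + D * (k * (m * ((41 / 8)) + k * ((59 /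
      8))) + D * (m * 2 + k * ((89 / 8)) + D * 5))))))) + g2 * (g3 * (D * (k * (k * (m * (m * m) +
      k * (m * (m * ((25 / 8))) + k * (m * ((13 / 4)) + k * ((9 / 8)))))) + D * (k * (m * (m * (m *
      4)) + k * (m * (m * ((77 / 4))) + k * (m * 29 + k * ((47 / 4))))) + D * (m * (m * (m * 3)) +
      k * (m * (m * ((217 / 8))) + k * (m * ((285 / 4)) + k * ((75 / 2)))) + D * (m * (m * 11) +
      k * (m * ((125 / 2)) + k * ((209 / 4))) + D * (m * 17 + k * ((299 / 8)) + D * 12))))) + g3 *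
      (k * (k * (m * (m * (m * ((3 / 2)))) + k * (m * (m * 3) + k * (m * ((3 / 2)))))) + D * (k *
      (m * (m * (m * 5)) + k * (m * (m * ((95 / 4))) + k * (m * ((127 / 4)) + k * 11))) + D * (m *
      (m * (m * ((7 / 2)))) + k * (m * (m * ((77 / 2))) + k * (m * 104 + k * ((215 / 4)))) + D *
      (m * (m * ((71 / 4))) + k * (m * ((419 / 4)) + k * ((361 / 4))) + D * (m * 31 + k * ((301 /
      4)) + D * ((111 / 4)))))) + g3 * (k * (k * (m * (m * 4) + k * (m * 8 + k * 4))) + D * (k *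
      (m * (m * 10) + k * (m * 42 + k * 28)) + D * (m * (m * 6) + k * (m * 44 + k * 46) + D * (m *
      10 + k * 32 + D * 10))) + g3 * (k * (k * (m * 4 + k * 4)) + D * (k * (m * 4 + k * 8) + D *
      (k * 4)))))) + g2 * (g3 * (D * (k * (m * (m * (m * 4)) + k * (m * (m * ((153 / 8))) + k *
      (m * ((219 / 8)) + k * ((45 / 4))))) + D * (m * (m * (m * 6)) + k * (m * (m * ((409 / 8))) +
      k * (m * ((475 / 4)) + k * ((251 / 4)))) + D * (m * (m * 32) + k * (m * ((1147 / 8)) + k *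
      ((439 / 4))) + D * (m * 44 + k * ((313 / 4)) + D * 20)))) + g3 * (k * (m * (m * (m * 3)) +
      k * (m * (m * 14) + k * (m * 19 + k * 8))) + D * (m * (m * (m * 5)) + k * (m * (m * ((99 /
      2))) + k * (m * 120 + k * ((135 / 2)))) + D * (m * (m * ((79 / 2))) + k * (m * 175 + k *
      ((273 / 2))) + D * (m * 58 + k * ((209 / 2)) + D * ((55 / 2))))) + g3 * (k * (m * (m * 4) +
      k * (m * 20 + k * 16)) + D * (m * (m * 8) + k * (m * 44 + k * 42) + D * (m * 16 + k * 32 +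
      D * 6))))) + g2 * (g3 * (k * (k * (m * (m * 4) + k * (m * 8 + k * 4))) + D * (m * (m * (m *
      2)) + k * (m * (m * 26) + k * (m * 66 + k * 38)) + D * (m * (m * 28) + k * (m * 120 + k *
      88) + D * (m * 50 + k * 76 + D * 22))) + g3 * (k * (m * (m * 8) + k * (m * 28 + k * 20)) +
      D * (m * (m * 18) + k * (m * 76 + k * 58) + D * (m * 40 + k * 52 + D * 14)) + g3 * (D * (m *
      4)))) + g2 * (g3 * (k * (m * (m * 4) + k * (m * 12 + k * 8)) + D * (m * (m * 10) + k * (m *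
      36 + k * 24) + D * (m * 24 + k * 24 + D * 8)) + g3 * (D * (m * 8))) + g2 * (g3 * (D * (m *
      4))))))) + g1 * (D * (D * (D * (k * (k * (m * (m * ((7 / 16))) + k * (m * ((7 / 16))))) + D *
      (k * (m * (m * ((23 / 16))) + k * (m * ((19 / 4)) + k * ((23 / 16)))) + D * (m * m + k * (m *
      ((149 / 16)) + k * ((27 / 4))) + D * (m * 5 + k * ((149 / 16)) + D * 4)))))) + g3 * (D * (D *
      (k * (k * (m * (m * ((3 / 2))) + k * (m * ((21 / 8)) + k * ((9 / 8))))) + D * (k * (m * (m *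
      3) + k * (m * ((143 / 8)) + k * ((107 / 16)))) + D * (m * (m * ((3 / 2))) + k * (m * 29 + k *
      24) + D * (m * ((55 / 4)) + k * ((479 / 16)) + D * ((23 / 2))))))) + g3 * (D * (k * (k * (m *
      (m * ((9 / 8))) + k * (m * ((27 / 8)) + k * ((9 / 4))))) + D * (k * (m * (m * ((9 / 8))) +
      k * (m * ((49 / 2)) + k * ((61 / 4)))) + D * (k * (m * ((293 / 8)) + k * ((423 / 8))) + D *
      (m * ((31 / 2)) + k * ((469 / 8)) + D * ((75 / 4)))))) + g3 * (D * (k * (k * (m * ((25 /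
      4)) + k * ((27 / 8)))) + D * (k * (m * ((41 / 4)) + k * ((49 / 2))) + D * (m * 4 + k *
      ((217 / 8)) + D * 6))) + g3 * (D * (k * (k * 4) + D * (k * 4)))))) + g2 * (D * (D * (k * (m *
      (m * (m * ((25 / 8)))) + k * (m * (m * ((57 / 8))) + k * (m * ((7 / 8))))) + D * (m * (m *
      (m * 4)) + k * (m * (m * ((351 / 16))) + k * (m * ((127 / 8)) + k * ((31 / 8)))) + D * (m *
      (m * 21) + k * (m * ((161 / 4)) + k * ((37 / 2))) + D * (m * 35 + k * ((213 / 8)) + D *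
      16))))) + g3 * (D * (k * (m * (m * (m * ((17 / 8)))) + k * (m * (m * ((37 / 4))) + k * (m *
      ((37 / 4)) + k * ((9 / 4))))) + D * (m * (m * (m * 7)) + k * (m * (m * ((251 / 8))) + k *
      (m * ((273 / 4)) + k * ((57 / 2)))) + D * (m * (m * ((75 / 2))) + k * (m * ((501 / 4)) + k *
      ((343 / 4))) + D * (m * ((175 / 2)) + k * ((343 / 4)) + D * ((161 / 4)))))) + g3 * (k * (k *
      (m * (m * 3) + k * (m * 6))) + D * (m * (m * (m * 4)) + k * (m * (m * ((91 / 8))) + k * (m *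
      ((123 / 2)) + k * ((151 / 4)))) + D * (m * (m * 27) + k * (m * ((463 / 4)) + k * ((273 /
      2))) + D * (m * ((155 / 2)) + k * ((513 / 4)) + D * ((91 / 2))))) + g3 * (k * (k * (m * 12 +
      k * 16)) + D * (m * (m * 8) + k * (m * ((105 / 4)) + k * 66) + D * (m * 20 + k * 52 + D *
      10)) + g3 * (k * (k * 8) + D * (k * 8))))) + g2 * (D * (k * (m * (m * (m * ((57 / 8)))) + k *
      (m * (m * ((57 / 4))))) + D * (m * (m * (m * 16)) + k * (m * (m * ((259 / 4))) + k * (m *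
      ((73 / 4)) + k * 2)) + D * (m * (m * 82) + k * (m * ((687 / 8)) + k * ((67 / 4))) + D * (m *
      108 + k * ((135 / 4)) + D * 32)))) + g3 * (k * (m * (m * m) + k * (m * (m * 2))) + D * (m *
      (m * (m * 16)) + k * (m * (m * 49) + k * (m * ((243 / 4)) + k * ((57 / 2)))) + D * (m * (m *
      108) + k * (m * 229 + k * 132) + D * (m * ((487 / 2)) + k * ((327 / 2)) + D * 96))) + g3 *
      (m * (m * (m * 4)) + k * (m * (m * 12) + k * (m * 37 + k * 24)) + D * (m * (m * 52) + k *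
      (m * ((651 / 4)) + k * ((305 / 2))) + D * (m * 164 + k * 174 + D * ((127 / 2)))) + g3 * (m *
      (m * 8) + k * (m * 24 + k * 44) + D * (m * 28 + k * 52 + D * 4)))) + g2 * (k * (m * (m * (m *
      4)) + k * (m * (m * 8))) + D * (m * (m * (m * 20)) + k * (m * (m * ((273 / 4))) + k * (m *
      8)) + D * (m * (m * 118) + k * (m * ((177 / 2)) + k * 6) + D * (m * 154 + k * 26 + D *
      38))) + g3 * (m * (m * (m * 9)) + k * (m * (m * 24) + k * (m * 16 + k * 8)) + D * (m * (m *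
      ((201 / 2))) + k * (m * ((349 / 2)) + k * 82) + D * (m * 291 + k * 160 + D * 132)) + g3 *
      (m * (m * 22) + k * (m * 64 + k * 52) + D * (m * 133 + k * 92 + D * 60) + g3 * (m * 8))) +
      g2 * (m * (m * (m * 8)) + k * (m * (m * 24)) + D * (m * (m * 74) + k * (m * 32) + D * (m *
      108 + k * 8 + D * 28)) + g3 * (m * (m * 30) + k * (m * 40 + k * 16) + D * (m * 149 + k * 48 +
      D * 80) + g3 * (m * 32 + D * 16)) + g2 * (m * (m * 16) + D * (m * 28 + D * 8) + g3 * (m *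
      24 + D * 16)))))) + g1 * (D * (D * (D * (k * (m * (m * ((23 / 16))) + k * (m * ((15 / 8)))) +
      D * (m * (m * 2) + k * (m * ((47 / 4)) + k * ((39 / 8))) + D * (m * 11 + k * ((63 / 4)) + D *
      11))))) + g3 * (D * (D * (k * (m * (m * ((15 / 8))) + k * (m * ((9 / 4)))) + D * (m * (m *
      3) + k * (m * ((143 / 8)) + k * ((23 / 8))) + D * (m * 19 + k * ((161 / 8)) + D * ((67 /
      4)))))) + g3 * (D * (k * (k * (m * ((9 / 4)) + k * ((27 / 8)))) + D * (k * (m * 7 + k *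
      ((43 / 4))) + D * (m * 7 + k * ((77 / 4)) + D * ((19 / 2))))) + g3 * (D * (k * (k * ((9 /
      4))) + D * (k * 4))))) + g2 * (D * (D * (m * (m * (m * 2)) + k * (m * (m * ((105 / 8))) + k *
      (m * ((15 / 4)))) + D * (m * (m * 23) + k * (m * ((263 / 8)) + k * ((51 / 4))) + D * (m *
      48 + k * ((83 / 2)) + D * 35)))) + g3 * (D * (m * (m * m) + k * (m * (m * ((89 / 8))) + k *
      (m * ((51 / 4)))) + D * (m * (m * ((43 / 2))) + k * (m * 54 + k * 26) + D * (m * ((151 /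
      2)) + k * ((237 / 4)) + D * 50))) + g3 * (k * (k * (m * 9)) + D * (m * (m * 2) + k * (m *
      ((41 / 2)) + k * 47) + D * (m * 24 + k * 58 + D * ((43 / 2)))) + g3 * (k * (k * 24) + D *
      (k * 20)))) + g2 * (D * (m * (m * (m * 6)) + k * (m * (m * ((105 / 4)))) + D * (m * (m *
      68) + k * (m * ((137 / 4)) + k * 6) + D * (m * 98 + k * ((143 / 4)) + D * 46))) + g3 * (m *
      (m * m) + k * (m * (m * 4)) + D * (m * (m * ((81 / 2))) + k * (m * ((137 / 4)) + k * 18) +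
      D * (m * 135 + k * ((125 / 2)) + D * ((151 / 2)))) + g3 * (m * (m * 2) + k * (m * 14 + k *
      24) + D * (m * 45 + k * 67 + D * 28) + g3 * (k * 24))) + g2 * (m * (m * (m * 4)) + k * (m *
      (m * 16)) + D * (m * (m * 66) + k * (m * 16) + D * (m * 84 + k * 12 + D * 26)) + g3 * (m *
      (m * 20) + k * (m * 8) + D * (m * 90 + k * 28 + D * 52) + g3 * (m * 24 + k * 24 + D * 16)) +
      g2 * (m * (m * 24) + D * (m * 32 + D * 8) + g3 * (m * 24 + D * 16))))) + g1 * (D * (D * (D *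
      (k * (m * ((7 / 8))) + D * (m * 2 + k * ((23 / 8)) + D * 4)))) + g3 * (D * (D * (k * (m *
      ((3 / 4))) + D * (m * 3 + k * ((1 / 8)) + D * ((7 / 2))))) + g3 * (D * (k * (k * ((9 /
      4)))))) + g2 * (D * (D * (m * (m * 4) + k * (m * ((7 / 4))) + D * (m * 2 + k * ((31 / 4)) +
      D * 6))) + g3 * (D * (m * (m * 2) + k * (m * ((31 / 4))) + D * (m * 4 + k * ((37 / 2)) + D *
      ((7 / 2)))) + g3 * (k * (m * 6) + D * (k * 31) + g3 * (k * 16))) + g2 * (D * (m * (m * 12) +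
      D * (m * 4 + k * 4 + D * 2)) + g3 * (m * (m * 2) + D * (m + k * 12) + g3 * (k * 16)) + g2 *
      (m * (m * 8) + D * (m * 4))))))) := by
    unfold N2 M2
    ring
  rw [e]
  positivity

end Pool.Agent.Helper58.EF
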