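import Pool.Agent.Helper58.EF.Ineq

/-!
# Polynomial inequalities, continued: the line configuration

The four blocks are in the order `a, c, e, b` on a line, up to nonnegative excesses: `g1 = ac`, `g2 = ce`,
`g3 = eb`, `ae = g1 + g2 + D + k`, `cb = g2 + g3 + D`, `ab = ae + cb - ce + m`.
-/

set_option autoImplicit false

namespace Pool.Agent.Helper58.EF

theorem I2_t (g1 g2 g3 D k m : ℝ) (h0 : 0 ≤ g1) (h1 : 0 ≤ g2) (h2 : 0 ≤ g3)
    (h3 : 0 ≤ D) (h4 : 0 ≤ k) (h5 : 0 ≤ m) :
    0 ≤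
      (2 * g1 + g2) * ((g1 + g2 + D + k) * (D * N2 (g1 + g2 + g3 + 2 * D + k + m) g1 (g2 + g3 +
      D) (g1 + g2 + D + k) g3 g2 + (2 * g2 + D) * N2 (g1 + g2 + g3 + 2 * D + k + m) (g1 + g2 + D +
      k) g3 g1 (g2 + g3 + D) g2) + (2 * g2 + 2 * D) * (g2 + g3 + D) * M2 (g1 + g2 + g3 + 2 * D +
      k + m) g1 (g2 + g3 + D) (g1 + g2 + D + k) g3 g2) + (D * (m * (m * ((1 / 8))) + k * (k * 2) +
      D * (k * ((3 / 2)))) + g3 * (D * (D * ((1 / 4)))) + g2 * (m * (m * ((1 / 8))) + g3 * (m * 3 +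
      k * 4) + g2 * (g3 * ((3 / 2)))) + g1 * (D * (m + k * 2 + D * ((7 / 4))) + g2 * (m * ((3 /
      2))))) * N2 (g1 + g2 + g3 + 2 * D + k + m) g1 (g2 + g3 + D) (g1 + g2 + D + k) g3 g2 + (D *
      (m * (m * ((1 / 8))) + k * k) + g2 * (m * (m * ((7 / 72))) + k * k) + g1 * (D * m)) * N2
      (g1 + g2 + g3 + 2 * D + k + m) (g1 + g2 + D + k) g3 g1 (g2 + g3 + D) g2 + (D * (m * (m *
      ((17 / 72))) + k * (m + k * 2) + D * (k * ((9 / 2)))) + g3 * (m * (m * ((1 / 2))) + k * (m *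
      2 + k * 4) + g3 * (D * 4)) + g2 * (D * (k + D) + g3 * (k * 8 + g3 * 9) + g2 * D) + g1 * (D *
      (m * ((5 / 4)) + k * 4 + D * 7) + g3 * (m * ((5 / 2)) + k * 8 + D * 17 + g3 * 4) + g2 * (m *
      ((3 / 2)) + D * 3 + g3 * 10) + g1 * (D * 2 + g3 * 4))) * N2 (g1 + g2 + D + k) g1 g2 (g1 +
      g2 + g3 + 2 * D + k + m) g3 (g2 + g3 + D) + (D * (m * (m * ((1 / 8)))) + g2 * (D * (D * 8) +
      g2 * (g2 * 2))) * N2 (g2 + g3 + D) g2 g3 g1 (g1 + g2 + g3 + 2 * D + k + m) (g1 + g2 + D +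
      k) := by
  have e :
      (2 * g1 + g2) * ((g1 + g2 + D + k) * (D * N2 (g1 + g2 + g3 + 2 * D + k + m) g1 (g2 + g3 +
      D) (g1 + g2 + D + k) g3 g2 + (2 * g2 + D) * N2 (g1 + g2 + g3 + 2 * D + k + m) (g1 + g2 + D +
      k) g3 g1 (g2 + g3 + D) g2) + (2 * g2 + 2 * D) * (g2 + g3 + D) * M2 (g1 + g2 + g3 + 2 * D +
      k + m) g1 (g2 + g3 + D) (g1 + g2 + D + k) g3 g2) + (D * (m * (m * ((1 / 8))) + k * (k * 2) +
      D * (k * ((3 / 2)))) + g3 * (D * (D * ((1 / 4)))) + g2 * (m * (m * ((1 / 8))) + g3 * (m * 3 +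
      k * 4) + g2 * (g3 * ((3 / 2)))) + g1 * (D * (m + k * 2 + D * ((7 / 4))) + g2 * (m * ((3 /
      2))))) * N2 (g1 + g2 + g3 + 2 * D + k + m) g1 (g2 + g3 + D) (g1 + g2 + D + k) g3 g2 + (D *
      (m * (m * ((1 / 8))) + k * k) + g2 * (m * (m * ((7 / 72))) + k * k) + g1 * (D * m)) * N2
      (g1 + g2 + g3 + 2 * D + k + m) (g1 + g2 + D + k) g3 g1 (g2 + g3 + D) g2 + (D * (m * (m *
      ((17 / 72))) + k * (m + k * 2) + D * (k * ((9 / 2)))) + g3 * (m * (m * ((1 / 2))) + k * (m *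
      2 + k * 4) + g3 * (D * 4)) + g2 * (D * (k + D) + g3 * (k * 8 + g3 * 9) + g2 * D) + g1 * (D *
      (m * ((5 / 4)) + k * 4 + D * 7) + g3 * (m * ((5 / 2)) + k * 8 + D * 17 + g3 * 4) + g2 * (m *
      ((3 / 2)) + D * 3 + g3 * 10) + g1 * (D * 2 + g3 * 4))) * N2 (g1 + g2 + D + k) g1 g2 (g1 +
      g2 + g3 + 2 * D + k + m) g3 (g2 + g3 + D) + (D * (m * (m * ((1 / 8)))) + g2 * (D * (D * 8) +
      g2 * (g2 * 2))) * N2 (g2 + g3 + D) g2 g3 g1 (g1 + g2 + g3 + 2 * D + k + m) (g1 + g2 + D +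
      k) =
      g3 * (D * (D * (k * (k * (k * (k * (m * (m * ((7 / 8))) + k * (m * 2))))) + D * (k * (k *
      (m * (m * (m * ((1 / 8)))) + k * (m * (m * ((25 / 8))) + k * (m * 11 + k * ((7 / 2)))))) +
      D * (k * (m * (m * (m * ((1 / 4)))) + k * (m * (m * ((29 / 8))) + k * (m * 22 + k * 14))) +
      D * (m * (m * (m * ((1 / 8)))) + k * (m * (m * ((11 / 8))) + k * (m * 19 + k * 22)) + D *
      (k * (m * 6 + k * 16) + D * (k * ((9 / 2))))))))) + g3 * (D * (k * (k * (k * (k * (m * (m *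
      ((7 / 8))) + k * (m * 2))))) + D * (k * (k * (m * (m * (m * ((1 / 4)))) + k * (m * (m *
      ((13 / 4))) + k * (m * 13 + k * ((11 / 2)))))) + D * (k * (m * (m * (m * ((1 / 2)))) + k *
      (m * (m * ((17 / 4))) + k * (m * ((59 / 2)) + k * ((85 / 4))))) + D * (m * (m * (m * ((1 /
      4)))) + k * (m * (m * ((9 / 4))) + k * (m * 29 + k * ((69 / 2)))) + D * (m * (m * ((3 /
      8))) + k * (m * ((23 / 2)) + k * 28) + D * (m + k * 10 + D * ((3 / 4)))))))) + g3 * (D * (k *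
      (k * (k * (k * (m * 2 + k * 2)))) + D * (k * (k * (m * (m * ((1 / 4))) + k * (m * ((15 /
      2)) + k * ((29 / 4))))) + D * (k * (m * (m * ((1 / 2))) + k * (m * ((21 / 2)) + k * 13)) +
      D * (m * (m * ((1 / 4))) + k * (m * ((13 / 2)) + k * ((27 / 2))) + D * (m * ((3 / 2)) + k *
      7 + D * ((5 / 4))))))) + g3 * (D * (D * (k * (k * (m * ((1 / 2)) + k * ((1 / 2)))) + D * (k *
      (m + k * ((3 / 2))) + D * (m * ((1 / 2)) + k * ((3 / 2)) + D * ((1 / 2)))))))))) + g2 * (g3 *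
      (D * (k * (m * (m * (m * (m * (m * ((1 / 4)))))) + k * (m * (m * (m * (m * ((73 / 72))))) +
      k * (m * (m * (m * ((77 / 18)))) + k * (m * (m * ((247 / 24))) + k * (m * 11 + k * 2))))) +
      D * (m * (m * (m * (m * (m * ((1 / 4)))))) + k * (m * (m * (m * (m * ((41 / 18))))) + k *
      (m * (m * (m * ((311 / 36)))) + k * (m * (m * ((299 / 9))) + k * (m * 56 + k * 15)))) + D *
      (m * (m * (m * (m * ((91 / 72))))) + k * (m * (m * (m * ((223 / 36)))) + k * (m * (m *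
      ((2273 / 72))) + k * (m * 98 + k * 39))) + D * (m * (m * (m * ((11 / 6)))) + k * (m * (m *
      ((311 / 36))) + k * (m * 80 + k * 55)) + D * (k * (m * 35 + k * 59) + D * (m * 8 + k * 44 +
      D * 14)))))) + g3 * (k * (k * (m * (m * (m * (m * ((19 / 36))))) + k * (m * (m * (m * ((55 /
      18)))) + k * (m * (m * ((535 / 72))) + k * (m * 8 + k * 2))))) + D * (k * (m * (m * (m * (m *
      ((47 / 36))))) + k * (m * (m * (m * ((397 / 36)))) + k * (m * (m * ((203 / 6))) + k * (m *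
      45 + k * 11)))) + D * (m * (m * (m * (m * ((7 / 9))))) + k * (m * (m * (m * ((223 / 18)))) +
      k * (m * (m * ((427 / 8))) + k * (m * ((205 / 2)) + k * ((113 / 4))))) + D * (m * (m * (m *
      ((53 / 12)))) + k * (m * (m * ((1403 / 36))) + k * (m * ((257 / 2)) + k * 55)) + D * (m *
      (m * 12) + k * (m * ((179 / 2)) + k * ((205 / 2))) + D * (m * ((53 / 2)) + k * 104 + D *
      ((149 / 4))))))) + g3 * (k * (k * (m * (m * (m * ((55 / 18)))) + k * (m * (m * ((181 /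
      18))) + k * (m * 9 + k * 2)))) + D * (k * (m * (m * (m * ((101 / 18)))) + k * (m * (m *
      ((1493 / 36))) + k * (m * 68 + k * 26))) + D * (m * (m * (m * ((23 / 9)))) + k * (m * (m *
      ((475 / 9))) + k * (m * 133 + k * 69)) + D * (m * (m * ((769 / 36))) + k * (m * 98 + k *
      91) + D * (m * 24 + k * 65 + D * 19)))) + g3 * (k * (k * (m * (m * 6) + k * (m * 14 + k *
      8))) + D * (k * (m * (m * 12) + k * (m * 34 + k * 24)) + D * (m * (m * 6) + k * (m * 26 + k *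
      24) + D * (m * 6 + k * 8))))))) + g2 * (g3 * (k * (m * (m * (m * (m * (m * ((7 / 36)))))) +
      k * (m * (m * (m * (m * ((11 / 18))))) + k * (m * (m * (m * ((95 / 36)))) + k * (m * (m *
      ((41 / 8))) + k * (m * 4))))) + D * (m * (m * (m * (m * (m * ((4 / 9)))))) + k * (m * (m *
      (m * (m * ((37 / 12))))) + k * (m * (m * (m * ((53 / 4)))) + k * (m * (m * ((115 / 3))) + k *
      (m * 46 + k * 2)))) + D * (m * (m * (m * (m * ((107 / 36))))) + k * (m * (m * (m * ((229 /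
      12)))) + k * (m * (m * ((1907 / 24))) + k * (m * 139 + k * 8))) + D * (m * (m * (m * ((377 /
      36)))) + k * (m * (m * ((479 / 9))) + k * (m * 168 + k * 13)) + D * (m * (m * ((467 / 36))) +
      k * (m * 71 + k * 19) + D * (m * 4 + k * 33 + D * 21))))) + g3 * (k * (m * (m * (m * (m *
      ((25 / 18))))) + k * (m * (m * (m * ((89 / 9)))) + k * (m * (m * ((334 / 9))) + k * (m * 47 +
      k * 12)))) + D * (m * (m * (m * (m * ((17 / 9))))) + k * (m * (m * (m * ((365 / 18)))) + k *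
      (m * (m * ((407 / 4))) + k * (m * 175 + k * ((89 / 2))))) + D * (m * (m * (m * ((187 /
      18)))) + k * (m * (m * ((1099 / 12))) + k * (m * ((501 / 2)) + k * ((119 / 2)))) + D * (m *
      (m * ((593 / 18))) + k * (m * 128 + k * ((101 / 2))) + D * (m * ((27 / 2)) + k * ((157 /
      2)) + D * 55)))) + g3 * (k * (k * (m * (m * ((803 / 36))) + k * (m * 45 + k * ((41 / 2))))) +
      D * (k * (m * (m * ((542 / 9))) + k * (m * 161 + k * 82)) + D * (m * (m * ((455 / 12))) + k *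
      (m * 147 + k * 107) + D * (m * 35 + k * 78 + D * ((65 / 2))))) + g3 * (k * (k * (m * 3 + k *
      3)) + D * (k * (m * 6 + k * 9) + D * (m * 3 + k * 9 + D * 3)))))) + g2 * (g3 * (m * (m * (m *
      (m * (m * ((7 / 36)))))) + k * (m * (m * (m * (m * ((35 / 36))))) + k * (m * (m * (m * ((89 /
      12)))) + k * (m * (m * ((81 / 4))) + k * (m * 20)))) + D * (m * (m * (m * (m * ((37 /
      18))))) + k * (m * (m * (m * 25)) + k * (m * (m * ((914 / 9))) + k * (m * 134))) + D * (m *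
      (m * (m * ((863 / 36)))) + k * (m * (m * ((949 / 6))) + k * (m * 320 + k * 20)) + D * (m *
      (m * ((2911 / 36))) + k * (m * 274 + k * 45) + D * (m * 48 + k * 42 + D * 17)))) + g3 * (m *
      (m * (m * (m * ((7 / 12))))) + k * (m * (m * (m * ((31 / 6)))) + k * (m * (m * ((1703 /
      36))) + k * (m * 77 + k * ((31 / 2))))) + D * (m * (m * (m * ((179 / 18)))) + k * (m * (m *
      ((1082 / 9))) + k * (m * 281 + k * 62)) + D * (m * (m * ((947 / 12))) + k * (m * 287 + k *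
      77) + D * (m * 35 + k * 52 + D * ((43 / 2))))) + g3 * (m * (m * (m * ((7 / 18)))) + k * (m *
      (m * 26) + k * (m * 58 + k * 24)) + D * (m * (m * 34) + k * (m * 128 + k * 70) + D * (m *
      42 + k * 64 + D * 18))))) + g2 * (g3 * (m * (m * (m * (m * ((7 / 12))))) + k * (m * (m * (m *
      ((79 / 6)))) + k * (m * (m * 48) + k * (m * 56 + k * 4))) + D * (m * (m * (m * ((431 /
      18)))) + k * (m * (m * 166) + k * (m * 286 + k * 40)) + D * (m * (m * 138) + k * (m * 432 +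
      k * 110) + D * (m * 154 + k * 114 + D * 40))) + g3 * (m * (m * (m * ((43 / 9)))) + k * (m *
      (m * 44) + k * (m * 83 + k * 11)) + D * (m * (m * 82) + k * (m * 242 + k * 47) + D * (m *
      111 + k * 57 + D * 21)) + g3 * (m * (m * 8) + k * (m * 16) + D * (m * 20)))) + g2 * (g3 *
      (m * (m * (m * ((151 / 18)))) + k * (m * (m * 48) + k * (m * 76 + k * 12)) + D * (m * (m *
      86) + k * (m * 232 + k * 52) + D * (m * 136 + k * 68 + D * 28)) + g3 * (m * (m * 24) + k *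
      (m * 56 + k * 8) + D * (m * 64 + k * 16 + D * 8))) + g2 * (g3 * (m * (m * 16) + k * (m * 40 +
      k * 8) + D * (m * 44 + k * 16 + D * 8)))))))) + g1 * (D * (D * (D * (k * (k * (m * (m * (m *
      ((17 / 72)))) + k * (m * (m * ((1 / 9))) + k * m))) + D * (k * (m * (m * (m * ((17 / 36)))) +
      k * (m * (m * ((5 / 72))) + k * (m * ((7 / 2)) + k * 3))) + D * (m * (m * (m * ((17 /
      72)))) + k * (m * (m * ((13 / 72))) + k * (m * 3 + k * ((15 / 2)))) + D * (m * (m * ((2 /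
      9))) + k * (m * ((1 / 2)) + k * 6) + D * (k * ((3 / 2))))))))) + g3 * (D * (D * (k * (k *
      (m * (m * (m * ((1 / 2)))) + k * (m * (m * ((15 / 4))) + k * (m * 11)))) + D * (k * (m * (m *
      m) + k * (m * (m * ((355 / 36))) + k * (m * ((75 / 2)) + k * ((51 / 4))))) + D * (m * (m *
      (m * ((1 / 2)))) + k * (m * (m * ((269 / 36))) + k * (m * ((91 / 2)) + k * ((95 / 4)))) + D *
      (m * (m * ((49 / 36))) + k * (m * 23 + k * ((47 / 4))) + D * (m * 4 + k * ((3 / 4)))))))) +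
      g3 * (D * (k * (k * (k * (m * (m * ((7 / 2))) + k * (m * 9)))) + D * (k * (k * (m * (m *
      10) + k * (m * ((93 / 2)) + k * ((103 / 4))))) + D * (k * (m * (m * ((29 / 4))) + k * (m *
      79 + k * ((125 / 2)))) + D * (m * (m * ((3 / 4))) + k * (m * 52 + k * 62) + D * (m * ((21 /
      2)) + k * ((65 / 2)) + D * ((29 / 4))))))) + g3 * (D * (k * (k * (k * (m * 8 + k * 10))) +
      D * (k * (k * (m * 21 + k * ((51 / 2)))) + D * (k * (m * 17 + k * ((59 / 2))) + D * (m * 4 +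
      k * 18 + D * 4)))) + g3 * (D * (D * (k * (m + k * ((3 / 2))) + D * (m + k * 2 + D * ((1 /
      2))))))))) + g2 * (D * (D * (m * (m * (m * (m * (m * ((1 / 4)))))) + k * (k * (m * (m * (m *
      ((53 / 36)))) + k * (m * (m * ((223 / 72)))))) + D * (m * (m * (m * (m * ((7 / 8))))) + k *
      (m * (m * (m * ((5 / 12)))) + k * (m * (m * ((511 / 72))) + k * (m * 5 + k * 4))) + D * (m *
      (m * (m * ((17 / 18)))) + k * (m * (m * ((1 / 4))) + k * (m * 8 + k * 12)) + D * (k * (k *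
      10) + D * (m + k)))))) + g3 * (D * (m * (m * (m * (m * (m * ((1 / 2)))))) + k * (m * (m *
      (m * (m * ((11 / 4))))) + k * (m * (m * (m * ((577 / 36)))) + k * (m * (m * ((419 / 12))) +
      k * (m * ((151 / 4)) + k * 8)))) + D * (m * (m * (m * (m * ((9 / 2))))) + k * (m * (m * (m *
      ((338 / 9)))) + k * (m * (m * ((1294 / 9))) + k * (m * ((429 / 2)) + k * ((191 / 4))))) + D *
      (m * (m * (m * ((973 / 36)))) + k * (m * (m * 175) + k * (m * 393 + k * ((173 / 2)))) + D *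
      (m * (m * ((692 / 9))) + k * (m * ((577 / 2)) + k * ((213 / 4))) + D * (m * ((325 / 4)) + k *
      7 + D * ((1 / 2))))))) + g3 * (k * (m * (m * (m * (m * ((1 / 18))))) + k * (m * (m * (m *
      ((31 / 6)))) + k * (m * (m * ((283 / 18))) + k * (m * 22 + k * 8)))) + D * (m * (m * (m *
      (m * ((19 / 18))))) + k * (m * (m * (m * ((413 / 18)))) + k * (m * (m * ((2041 / 18))) + k *
      (m * 162 + k * 30))) + D * (m * (m * (m * ((347 / 18)))) + k * (m * (m * ((6565 / 36))) + k *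
      (m * ((813 / 2)) + k * 78)) + D * (m * (m * ((3319 / 36))) + k * (m * 363 + k * ((187 /
      2))) + D * (m * ((203 / 2)) + k * 66 + D * ((45 / 2)))))) + g3 * (k * (m * (m * (m * ((55 /
      9)))) + k * (m * (m * ((199 / 6))) + k * (m * 35 + k * 6))) + D * (m * (m * (m * ((55 /
      9)))) + k * (m * (m * ((509 / 6))) + k * (m * 171 + k * 68)) + D * (m * (m * ((319 / 6))) +
      k * (m * 169 + k * 80) + D * (m * 34 + k * 22))) + g3 * (k * (m * (m * 12) + k * (m * 34 +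
      k * 24)) + D * (m * (m * 12) + k * (m * 40 + k * 32) + D * (m * 7 + k * 8)))))) + g2 * (D *
      (m * (m * (m * (m * (m * ((1 / 2)))))) + k * (m * (m * (m * (m * ((7 / 9))))) + k * (m * (m *
      (m * ((14 / 9)))) + k * (m * (m * ((15 / 4)))))) + D * (m * (m * (m * (m * ((91 / 36))))) +
      k * (m * (m * (m * ((11 / 18)))) + k * (m * (m * ((871 / 72))) + k * (m * 4))) + D * (m *
      (m * (m * ((163 / 36)))) + k * (m * (m * ((37 / 9))) + k * (m * 13 + k * 4)) + D * (m * (m *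
      ((625 / 36))) + k * (m * 13 + k * 8) + D * (m * 35 + k * 6 + D * 13))))) + g3 * (m * (m *
      (m * (m * (m * ((4 / 9)))))) + k * (m * (m * (m * (m * ((17 / 36))))) + k * (m * (m * (m *
      ((101 / 12)))) + k * (m * (m * 20) + k * (m * 15)))) + D * (m * (m * (m * (m * ((100 /
      9))))) + k * (m * (m * (m * ((710 / 9)))) + k * (m * (m * ((865 / 4))) + k * (m * ((469 /
      2)) + k * 18))) + D * (m * (m * (m * ((956 / 9)))) + k * (m * (m * ((19085 / 36))) + k * (m *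
      822 + k * 74)) + D * (m * (m * ((6721 / 18))) + k * (m * ((2009 / 2)) + k * ((229 / 2))) +
      D * (m * 433 + k * ((123 / 2)) + D * 37)))) + g3 * (m * (m * (m * (m * ((125 / 18))))) + k *
      (m * (m * (m * ((322 / 9)))) + k * (m * (m * ((298 / 3))) + k * (m * 123 + k * 34))) + D *
      (m * (m * (m * ((692 / 9)))) + k * (m * (m * ((7169 / 18))) + k * (m * 594 + k * 115)) + D *
      (m * (m * ((12757 / 36))) + k * (m * 875 + k * ((305 / 2))) + D * (m * 348 + k * 53 + D *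
      ((39 / 2))))) + g3 * (m * (m * (m * ((163 / 9)))) + k * (m * (m * ((1775 / 18))) + k * (m *
      151 + k * 78)) + D * (m * (m * ((1244 / 9))) + k * (m * 312 + k * 178) + D * (m * 96 + k *
      75 + D * 3)) + g3 * (m * (m * 12) + k * (m * 22 + k * 9) + D * (m * 6 + k * 12 + D * 3))))) +
      g2 * (m * (m * (m * (m * (m * ((1 / 4)))))) + k * (m * (m * (m * (m * ((3 / 4))))) + k * (m *
      (m * (m * ((1 / 2)))))) + D * (m * (m * (m * (m * ((41 / 18))))) + k * (m * (m * (m * ((29 /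
      18)))) + k * (m * (m * ((15 / 4))))) + D * (m * (m * (m * ((265 / 36)))) + k * (m * (m *
      ((37 / 4))) + k * (m * 8)) + D * (m * (m * ((1429 / 36))) + k * (m * 30 + k * 8) + D * (m *
      78 + k * 18 + D * 29)))) + g3 * (m * (m * (m * (m * ((61 / 9))))) + k * (m * (m * (m *
      ((341 / 6)))) + k * (m * (m * ((509 / 4))) + k * (m * 102 + k * 8))) + D * (m * (m * (m *
      ((1166 / 9)))) + k * (m * (m * ((10757 / 18))) + k * (m * 770 + k * 73)) + D * (m * (m *
      ((5612 / 9))) + k * (m * 1540 + k * ((469 / 2))) + D * (m * 915 + k * 258 + D * ((277 /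
      2))))) + g3 * (m * (m * (m * ((707 / 18)))) + k * (m * (m * ((3449 / 18))) + k * (m * 245 +
      k * 52)) + D * (m * (m * ((3296 / 9))) + k * (m * 814 + k * 169) + D * (m * 516 + k * 122 +
      D * 27)) + g3 * (m * (m * 69) + k * (m * 136 + k * 80) + D * (m * 82 + k * 92 + D * 8) + g3 *
      (m * 6)))) + g2 * (m * (m * (m * (m * ((3 / 4))))) + k * (m * (m * m)) + D * (m * (m * (m *
      ((73 / 18)))) + k * (m * (m * 4)) + D * (m * (m * 20) + k * (m * 12) + D * (m * 44 + k * 8 +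
      D * 14))) + g3 * (m * (m * (m * ((149 / 3)))) + k * (m * (m * 213) + k * (m * 246 + k *
      36)) + D * (m * (m * 434) + k * (m * 1042 + k * 205) + D * (m * 899 + k * 335 + D * 176)) +
      g3 * (m * (m * 126) + k * (m * 234 + k * 47) + D * (m * 350 + k * 100 + D * 49) + g3 * (m *
      14))) + g2 * (m * (m * (m * ((1 / 2)))) + D * (m * (m * 8) + D * (m * 20 + D * 8)) + g3 *
      (m * (m * 105) + k * (m * 228 + k * 48) + D * (m * 414 + k * 128 + D * 96) + g3 * (m * 70 +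
      k * 16 + D * 16)) + g2 * (g3 * (m * 62 + k * 16 + D * 16))))))) + g1 * (D * (D * (D * (k *
      (m * (m * (m * ((17 / 36)))) + k * (m * (m * ((7 / 12))) + k * (m * ((13 / 4))))) + D * (m *
      (m * (m * ((17 / 36)))) + k * (m * (m * ((7 / 18))) + k * (m * ((21 / 2)) + k * ((49 /
      4)))) + D * (m * (m * ((13 / 72))) + k * (m * ((27 / 4)) + k * ((101 / 4))) + D * (m * ((1 /
      2)) + k * ((57 / 4)) + D * ((5 / 4)))))))) + g3 * (D * (D * (k * (m * (m * m) + k * (m * (m *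
      ((19 / 4))) + k * (m * ((37 / 2))))) + D * (m * (m * m) + k * (m * (m * ((287 / 36))) + k *
      (m * ((175 / 4)) + k * ((41 / 2)))) + D * (m * (m * ((125 / 36))) + k * (m * ((65 / 2)) + k *
      ((87 / 4))) + D * (m * ((39 / 4)) + k * 2 + D * ((1 / 4))))))) + g3 * (D * (k * (k * (m *
      (m * ((7 / 2))) + k * (m * 12))) + D * (k * (m * (m * ((15 / 2))) + k * (m * 47 + k * 40)) +
      D * (m * (m * 3) + k * (m * 50 + k * 60) + D * (m * ((31 / 2)) + k * ((59 / 2)) + D * ((17 /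
      2)))))) + g3 * (D * (k * (k * (m * 8 + k * 16)) + D * (k * (m * 12 + k * 26) + D * (m * 3 +
      k * 13 + D * ((5 / 2))))) + g3 * (D * (D * k))))) + g2 * (D * (D * (m * (m * (m * (m * 2))) +
      k * (m * (m * (m * ((89 / 18)))) + k * (m * (m * ((223 / 24))) + k * (m * ((5 / 2))))) + D *
      (m * (m * (m * ((155 / 12)))) + k * (m * (m * ((889 / 36))) + k * (m * ((93 / 4)) + k *
      ((41 / 2)))) + D * (m * (m * 30) + k * (m * 38 + k * ((213 / 4))) + D * (m * ((121 / 4)) +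
      k * 40 + D * ((41 / 4))))))) + g3 * (D * (m * (m * (m * (m * ((71 / 18))))) + k * (m * (m *
      (m * ((179 / 9)))) + k * (m * (m * ((1555 / 36))) + k * (m * 47 + k * 10))) + D * (m * (m *
      (m * ((779 / 18)))) + k * (m * (m * ((2875 / 18))) + k * (m * 275 + k * 62)) + D * (m * (m *
      ((1817 / 12))) + k * (m * 401 + k * 119) + D * (m * 201 + k * ((147 / 2)) + D * ((47 /
      2)))))) + g3 * (k * (m * (m * (m * ((28 / 9)))) + k * (m * (m * ((79 / 9))) + k * (m * 16 +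
      k * 10))) + D * (m * (m * (m * 13)) + k * (m * (m * ((680 / 9))) + k * (m * 137 + k * 16)) +
      D * (m * (m * ((856 / 9))) + k * (m * 280 + k * ((173 / 2))) + D * (m * 144 + k * 90 + D *
      ((97 / 2))))) + g3 * (k * (m * (m * ((163 / 9))) + k * (m * 27 + k * 4)) + D * (m * (m *
      22) + k * (m * 68 + k * 44) + D * (m * 8 + D * 2)) + g3 * (k * (m * 12 + k * 16))))) + g2 *
      (D * (m * (m * (m * (m * ((52 / 9))))) + k * (m * (m * (m * ((209 / 18)))) + k * (m * (m *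
      ((45 / 4))))) + D * (m * (m * (m * ((623 / 18)))) + k * (m * (m * ((2005 / 36))) + k * (m *
      ((37 / 2)))) + D * (m * (m * ((1559 / 18))) + k * (m * ((139 / 2)) + k * ((49 / 2))) + D *
      (m * 94 + k * ((91 / 2)) + D * 31)))) + g3 * (m * (m * (m * (m * ((17 / 6))))) + k * (m *
      (m * (m * ((29 / 3)))) + k * (m * (m * ((85 / 4))) + k * (m * 18))) + D * (m * (m * (m *
      ((754 / 9)))) + k * (m * (m * ((785 / 3))) + k * (m * ((673 / 2)) + k * 36)) + D * (m * (m *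
      ((15035 / 36))) + k * (m * 932 + k * 187) + D * (m * ((1367 / 2)) + k * 262 + D * ((263 /
      2))))) + g3 * (m * (m * (m * ((205 / 9)))) + k * (m * (m * ((596 / 9))) + k * (m * 79 + k *
      20)) + D * (m * (m * 203) + k * (m * 406 + k * 140) + D * (m * 319 + k * 229 + D * 106)) +
      g3 * (m * (m * 46) + k * (m * 86 + k * 99) + D * (m * 12 + k * 110) + g3 * (k * 6)))) + g2 *
      (m * (m * (m * (m * ((15 / 4))))) + k * (m * (m * (m * 7))) + D * (m * (m * (m * ((262 /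
      9)))) + k * (m * (m * ((55 / 2)))) + D * (m * (m * ((335 / 4))) + k * (m * 36) + D * (m *
      103 + k * 28 + D * 42))) + g3 * (m * (m * (m * ((307 / 6)))) + k * (m * (m * ((323 / 2))) +
      k * (m * 152 + k * 24)) + D * (m * (m * 428) + k * (m * 884 + k * 183) + D * (m * 975 + k *
      385 + D * 258)) + g3 * (m * (m * 101) + k * (m * 158 + k * 55) + D * (m * 262 + k * 176 + D *
      97) + g3 * (k * 64))) + g2 * (m * (m * (m * 7)) + D * (m * (m * 27) + D * (m * 35 + D *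
      16)) + g3 * (m * (m * 139) + k * (m * 268 + k * 72) + D * (m * 606 + k * 242 + D * 195) +
      g3 * (m * 76 + k * 50 + D * 36)) + g2 * (g3 * (m * 132 + k * 48 + D * 48)))))) + g1 * (D *
      (D * (D * (k * (m * (m * ((13 / 18))) + k * (m * ((11 / 4)))) + D * (m * (m * ((35 / 36))) +
      k * (m * 10 + k * ((63 / 4))) + D * (m * ((31 / 4)) + k * ((51 / 2)) + D * ((45 / 4))))))) +
      g3 * (D * (D * (k * (m * (m * ((3 / 2))) + k * (m * ((19 / 2)))) + D * (m * (m * 2) + k *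
      (m * ((63 / 2)) + k * 27) + D * (m * 21 + k * ((101 / 2)) + D * 28)))) + g3 * (D * (k * (k *
      (m * 4)) + D * (k * (m * 12 + k * ((49 / 2))) + D * (m * 4 + k * 35 + D * ((27 / 2))))) +
      g3 * (D * (k * (k * 8) + D * (k * 8))))) + g2 * (D * (D * (m * (m * (m * 3)) + k * (m * (m *
      ((295 / 36))) + k * (m * ((7 / 2)))) + D * (m * (m * ((227 / 12))) + k * (m * ((53 / 2)) +
      k * ((59 / 2))) + D * (m * 39 + k * ((121 / 2)) + D * 37)))) + g3 * (D * (m * (m * (m *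
      ((53 / 9)))) + k * (m * (m * ((325 / 18))) + k * (m * ((41 / 2)) + k * 4)) + D * (m * (m *
      ((863 / 18))) + k * (m * 141 + k * ((127 / 2))) + D * (m * ((273 / 2)) + k * 163 + D *
      108))) + g3 * (k * (m * (m * ((1 / 9))) + k * (k * 4)) + D * (m * (m * 10) + k * (m * 22 +
      k * 2) + D * (m * 30 + k * 75 + D * 58)) + g3 * (k * (m * 2) + D * (k * 8)))) + g2 * (D *
      (m * (m * (m * ((181 / 18)))) + k * (m * (m * ((23 / 2)))) + D * (m * (m * ((179 / 4))) + k *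
      (m * 25) + D * (m * ((123 / 2)) + k * 33 + D * ((83 / 2))))) + g3 * (m * (m * (m * ((35 /
      9)))) + k * (m * (m * ((11 / 2))) + k * (m * 4)) + D * (m * (m * 84) + k * (m * 139 + k *
      16) + D * (m * 265 + k * 146 + D * 150)) + g3 * (m * (m * 6) + k * (m * 2) + D * (m * 26 +
      k * 80 + D * 61) + g3 * (k * 50))) + g2 * (m * (m * (m * ((13 / 2)))) + D * (m * (m * 24) +
      D * (m * 28 + D * 20)) + g3 * (m * (m * 54) + k * (m * 64 + k * 16) + D * (m * 236 + k * 90 +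
      D * 111) + g3 * (m * 14 + k * 26 + D * 20)) + g2 * (g3 * (m * 70 + k * 32 + D * 32))))) +
      g1 * (D * (D * (D * (k * (m * ((1 / 2))) + D * (m + k * ((13 / 2)) + D * 5)))) + g3 * (D *
      (D * (k * m + D * (m * 2 + k * 18 + D * ((23 / 2))))) + g3 * (D * (D * (k * 7)))) + g2 * (D *
      (D * (k * m + D * (m * ((3 / 2)) + k * 13 + D * ((23 / 2))))) + g3 * (D * (k * (m * 3) + D *
      (m + k * 41 + D * 28)) + g3 * (D * (k * 20))) + g2 * (D * (m * m + D * (m * 5 + D * 8)) +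
      g3 * (D * (D * 16)))))))) := by
    unfold N2 M2
    ring
  rw [e]
  positivity

end Pool.Agent.Helper58.EF
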