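import Pool.Agent.Helper58.EF.MatMain

/-!
# The Ricci curvature of the invariant metrics: an orthonormal basis, Einstein metrics
-/

set_option autoImplicit false

namespace Pool.Agent.Helper58.EF.Mat

open Matrix Finset Pool.Agent.Helper83.EIN

variable {s : ℕ} {n : Fin s → ℕ} {x : Fin s → Fin s → ℝ}

/-- `E_pq - E_qp`. -/
noncomputable def EA (p q : Ix n) : Mt n := Matrix.single p q 1 - Matrix.single q p 1

/-- `i (E_pq + E_qp)`. -/
noncomputable def ES (p q : Ix n) : Mt n := Complex.I • (Matrix.single p q 1 + Matrix.single q p 1)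

theorem single_off {c d : Ix n} (hcd : c.1 ≠ d.1) {p q : Ix n} (hpq : p.1 = q.1) :
    (Matrix.single c d (1 : ℂ) : Mt n) p q = 0 := by
  rw [Matrix.single_apply, if_neg]
  rintro ⟨rfl, rfl⟩
  exact hcd hpq

theorem EA_mem {p q : Ix n} (h : p.1 ≠ q.1) : EA p q ∈ fm n := by
  rw [mem_fm]
  unfold EA
  refine ⟨?_, ?_⟩
  · rw [Matrix.conjTranspose_sub, Matrix.conjTranspose_single, Matrix.conjTranspose_single]
    simp
  · intro a b hab
    rw [Matrix.sub_apply, single_off h hab, single_off (Ne.symm h) hab, sub_zero]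

theorem ES_mem {p q : Ix n} (h : p.1 ≠ q.1) : ES p q ∈ fm n := by
  rw [mem_fm]
  unfold ES
  refine ⟨?_, ?_⟩
  · rw [Matrix.conjTranspose_smul, Matrix.conjTranspose_add, Matrix.conjTranspose_single,
      Matrix.conjTranspose_single]
    simp [add_comm]
  · intro a b hab
    rw [Matrix.smul_apply, Matrix.add_apply, single_off h hab, single_off (Ne.symm h) hab]
    simp

theorem fm_smul {X : Mt n} (hX : X ∈ fm n) (r : ℝ) : r • X ∈ fm n := by
  rw [mem_fm] at hX ⊢
  refine ⟨?_, ?_⟩
  · rw [Matrix.conjTranspose_smul, hX.1]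
    simp
  · intro a b hab
    rw [Matrix.smul_apply, hX.2 a b hab, smul_zero]

theorem Gc_EA (w : Fin s → Fin s → ℝ) (hw : ∀ i j, w i j = w j i) (p q : Ix n) (Z : Mt n) :
    Gc w (EA p q) Z = -(2 * (NN n : ℂ)) * ((w p.1 q.1 : ℂ) * (Z q p - Z p q)) := by
  have : EA p q = Matrix.single p q 1 + (-1 : ℂ) • Matrix.single q p 1 := by
    unfold EA
    rw [neg_smul, one_smul, sub_eq_add_neg]
  rw [this, Gc_add, Gc_smul, Gc_single, Gc_single, hw q.1 p.1]
  ring

theorem Gc_ES (w : Fin s → Fin s → ℝ) (hw : ∀ i j, w i j = w j i) (p q : Ix n) (Z : Mt n) :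
    Gc w (ES p q) Z = -(2 * (NN n : ℂ)) * ((w p.1 q.1 : ℂ) * (Complex.I * (Z q p + Z p q))) := by
  unfold ES
  rw [Gc_smul, Gc_add, Gc_single, Gc_single, hw q.1 p.1]
  ring

theorem single_lt {p q p' q' : Ix n} (h : p.1 < q.1) (h' : p'.1 < q'.1) :
    (Matrix.single p' q' (1 : ℂ) : Mt n) q p = 0 := by
  rw [Matrix.single_apply, if_neg]
  rintro ⟨rfl, rfl⟩
  exact absurd h h'.not_gt

/-- The index set of the explicit orthonormal basis. -/
abbrev Kp (n : Fin s → ℕ) := {pq : Ix n × Ix n // pq.1.1 < pq.2.1} × Bool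

/-- The explicit orthonormal basis. -/
noncomputable def bas (x : Fin s → Fin s → ℝ) (k : Kp n) : Mt n :=
  (Real.sqrt (4 * NN n * x k.1.1.1.1 k.1.1.2.1))⁻¹ •
    (if k.2 then ES k.1.1.1 k.1.1.2 else EA k.1.1.1 k.1.1.2)

theorem EA_apply {p q : Ix n} {p' q' : Ix n} (h : p.1 < q.1) (h' : p'.1 < q'.1) :
    EA p' q' q p = -(if p' = p ∧ q' = q then 1 else 0) ∧
      EA p' q' p q = if p' = p ∧ q' = q then 1 else 0 := by
  unfold EA
  constructor
  · rw [Matrix.sub_apply, single_lt h h', Matrix.single_apply]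
    by_cases hc : p' = p ∧ q' = q
    · rw [if_pos ⟨hc.2, hc.1⟩, if_pos hc, zero_sub]
    · rw [if_neg (fun k ↦ hc ⟨k.2, k.1⟩), if_neg hc]
      simp
  · have h2 : (Matrix.single q' p' (1 : ℂ) : Mt n) p q = 0 := by
      rw [Matrix.single_apply, if_neg]
      rintro ⟨rfl, rfl⟩
      exact absurd h h'.not_gt
    rw [Matrix.sub_apply, h2, Matrix.single_apply, sub_zero]

theorem ES_apply {p q : Ix n} {p' q' : Ix n} (h : p.1 < q.1) (h' : p'.1 < q'.1) :
    ES p' q' q p = (if p' = p ∧ q' = q then Complex.I else 0) ∧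
      ES p' q' p q = if p' = p ∧ q' = q then Complex.I else 0 := by
  unfold ES
  constructor
  · rw [Matrix.smul_apply, Matrix.add_apply, single_lt h h', Matrix.single_apply]
    by_cases hc : p' = p ∧ q' = q
    · rw [if_pos ⟨hc.2, hc.1⟩, if_pos hc]
      simp
    · rw [if_neg (fun k ↦ hc ⟨k.2, k.1⟩), if_neg hc]
      simp
  · have h2 : (Matrix.single q' p' (1 : ℂ) : Mt n) p q = 0 := by
      rw [Matrix.single_apply, if_neg]
      rintro ⟨rfl, rfl⟩
      exact absurd h h'.not_gt
    rw [Matrix.smul_apply, Matrix.add_apply, h2, Matrix.single_apply]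
    by_cases hc : p' = p ∧ q' = q
    · rw [if_pos hc, if_pos hc]
      simp
    · rw [if_neg hc, if_neg hc]
      simp

theorem Gc_smul_real (w : Fin s → Fin s → ℝ) (r : ℝ) (Y Z : Mt n) :
    Gc w (r • Y) Z = r * Gc w Y Z := by
  have : r • Y = (r : ℂ) • Y := by
    ext p q
    simp
  rw [this, Gc_smul]

theorem bas_onb (hx : IsMetric x) : IsONB x (bas x : Kp n → Mt n) := by
  refine ⟨?_, ?_, ?_⟩
  · rintro ⟨⟨⟨p, q⟩, h⟩, b⟩
    apply fm_smul
    simp only
    split_ifs
    · exact ES_mem h.ne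
    · exact EA_mem h.ne
  · rintro ⟨⟨⟨p, q⟩, h⟩, b⟩ ⟨⟨⟨p', q'⟩, h'⟩, b'⟩
    simp only at h h'
    have hN := NN_pos p
    have hxp := hx.pos _ _ h.ne
    rw [gx_eq hx.symm hx.diag]
    unfold bas
    rw [Gc_smul_real]
    simp only
    have hA := EA_apply h h'
    have hS := ES_apply h h'
    have hsq : Real.sqrt (4 * NN n * x p.1 q.1) ^ 2 = 4 * NN n * x p.1 q.1 :=
      Real.sq_sqrt (by positivity)
    have hs0 : Real.sqrt (4 * NN n * x p.1 q.1) ≠ 0 :=
      (Real.sqrt_pos.2 (by positivity)).ne'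
    have hval : (Real.sqrt (4 * NN n * x p.1 q.1))⁻¹ * (2 * NN n * (x p.1 q.1 *
        (2 * (Real.sqrt (4 * NN n * x p.1 q.1))⁻¹))) = 1 := by
      have : (Real.sqrt (4 * NN n * x p.1 q.1))⁻¹ * (2 * NN n * (x p.1 q.1 *
        (2 * (Real.sqrt (4 * NN n * x p.1 q.1))⁻¹))) =
        (4 * NN n * x p.1 q.1) / Real.sqrt (4 * NN n * x p.1 q.1) ^ 2 := by
        field_simp
        ring
      rw [this, hsq]
      exact div_self (by positivity)
    have hcast : ∀ r : ℝ, (r : ℂ).re = r := Complex.ofReal_re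
    cases b <;> cases b'
    · simp only [Bool.false_eq_true, if_false]
      rw [Gc_EA _ hx.symm, Matrix.smul_apply, Matrix.smul_apply, hA.1, hA.2]
      by_cases hc : p' = p ∧ q' = q
      · obtain ⟨rfl, rfl⟩ := hc
        rw [if_pos ⟨rfl, rfl⟩, if_pos rfl]
        rw [← hval, ← hcast ((Real.sqrt (4 * NN n * x p'.1 q'.1))⁻¹ * _)]
        congr 1
        push_cast
        simp
        ring
      · rw [if_neg hc, if_neg]
        · simp
        · intro h3
          simp only [Prod.mk.injEq, Subtype.mk.injEq, and_true] at h3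
          exact hc ⟨h3.1.symm, h3.2.symm⟩
    · simp only [Bool.false_eq_true, if_false, if_true]
      rw [Gc_EA _ hx.symm, Matrix.smul_apply, Matrix.smul_apply, hS.1, hS.2, sub_self, mul_zero,
        mul_zero, mul_zero, if_neg]
      · simp
      · intro h3
        have := congrArg Prod.snd h3
        simp at this
    · simp only [Bool.false_eq_true, if_false, if_true]
      rw [Gc_ES _ hx.symm, Matrix.smul_apply, Matrix.smul_apply, hA.1, hA.2, smul_neg,
        neg_add_cancel, mul_zero, mul_zero, mul_zero, mul_zero, if_neg]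
      · simp
      · intro h3
        have := congrArg Prod.snd h3
        simp at this
    · simp only [if_true]
      rw [Gc_ES _ hx.symm, Matrix.smul_apply, Matrix.smul_apply, hS.1, hS.2]
      by_cases hc : p' = p ∧ q' = q
      · obtain ⟨rfl, rfl⟩ := hc
        rw [if_pos ⟨rfl, rfl⟩, if_pos rfl]
        rw [← hval, ← hcast ((Real.sqrt (4 * NN n * x p'.1 q'.1))⁻¹ * _)]
        congr 1
        push_cast
        simp only [Complex.real_smul]
        push_cast
        linear_combination (-(4 : ℂ) * (((Real.sqrt (4 * NN n * x p'.1 q'.1) : ℝ) : ℂ))⁻¹ ^ 2 *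
          NN n * x p'.1 q'.1) * Complex.I_mul_I
      · rw [if_neg hc, if_neg]
        · simp
        · intro h3
          simp only [Prod.mk.injEq, Subtype.mk.injEq, and_true] at h3
          exact hc ⟨h3.1.symm, h3.2.symm⟩
  · intro Y hY
    rw [mem_fm] at hY
    have hmem : ∀ k : Kp n, (if k.2 then ES k.1.1.1 k.1.1.2 else EA k.1.1.1 k.1.1.2 : Mt n) ∈
        Submodule.span ℝ (Set.range (bas x : Kp n → Mt n)) := by
      intro k
      have hN := NN_pos k.1.1.1
      have hxp := hx.pos _ _ k.1.2.ne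
      have hs0 : Real.sqrt (4 * NN n * x k.1.1.1.1 k.1.1.2.1) ≠ 0 :=
        (Real.sqrt_pos.2 (by positivity)).ne'
      have h1 : (if k.2 then ES k.1.1.1 k.1.1.2 else EA k.1.1.1 k.1.1.2 : Mt n) =
          Real.sqrt (4 * NN n * x k.1.1.1.1 k.1.1.2.1) • bas x k := by
        unfold bas
        rw [smul_smul, mul_inv_cancel₀ hs0, one_smul]
      rw [h1]
      exact Submodule.smul_mem _ _ (Submodule.subset_span ⟨k, rfl⟩)
    have hsum : Y = ∑ k : {pq : Ix n × Ix n // pq.1.1 < pq.2.1},
        ((Y k.1.1 k.1.2).re • EA k.1.1 k.1.2 + (Y k.1.1 k.1.2).im • ES k.1.1 k.1.2) := by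
      ext a b
      rw [Matrix.sum_apply]
      rcases lt_trichotomy a.1 b.1 with h | h | h
      · rw [Finset.sum_eq_single ⟨(a, b), h⟩]
        · rw [Matrix.add_apply, Matrix.smul_apply, Matrix.smul_apply, (EA_apply h h).2,
            (ES_apply h h).2]
          simp
        · rintro ⟨⟨p, q⟩, hpq⟩ _ hne
          rw [Matrix.add_apply, Matrix.smul_apply, Matrix.smul_apply, (EA_apply h hpq).2,
            (ES_apply h hpq).2]
          have : ¬ (p = a ∧ q = b) := by
            rintro ⟨rfl, rfl⟩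
            exact hne rfl
          simp [this]
        · intro h3
          exact absurd (mem_univ _) h3
      · rw [hY.2 a b h]
        symm
        refine Finset.sum_eq_zero fun k _ ↦ ?_
        rw [Matrix.add_apply, Matrix.smul_apply, Matrix.smul_apply,
          (mem_fm.1 (EA_mem k.2.ne)).2 a b h, (mem_fm.1 (ES_mem k.2.ne)).2 a b h]
        simp
      · rw [Finset.sum_eq_single ⟨(b, a), h⟩]
        · rw [Matrix.add_apply, Matrix.smul_apply, Matrix.smul_apply, (EA_apply h h).1,
            (ES_apply h h).1]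
          have h3 := skew_apply hY.1 b a
          have h4 : Y a b = -star (Y b a) := by rw [h3, neg_neg]
          rw [h4]
          apply Complex.ext <;> simp
        · rintro ⟨⟨p, q⟩, hpq⟩ _ hne
          rw [Matrix.add_apply, Matrix.smul_apply, Matrix.smul_apply, (EA_apply h hpq).1,
            (ES_apply h hpq).1]
          have : ¬ (p = b ∧ q = a) := by
            rintro ⟨rfl, rfl⟩
            exact hne rfl
          simp [this]
        · intro h3
          exact absurd (mem_univ _) h3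
    rw [hsum]
    refine Submodule.sum_mem _ fun k _ ↦ Submodule.add_mem _ ?_ ?_
    · exact Submodule.smul_mem _ _ (hmem (k, false))
    · exact Submodule.smul_mem _ _ (hmem (k, true))

theorem gx_EA (w : Fin s → Fin s → ℝ) (hw : ∀ i j, w i j = w j i) (h0 : ∀ i, w i i = 0)
    {p q : Ix n} (h : p.1 ≠ q.1) : gx w (EA p q) (EA p q) = 4 * NN n * w p.1 q.1 := by
  have hpq : p ≠ q := fun k ↦ h (by rw [k])
  rw [gx_eq hw h0, Gc_EA w hw]
  have e1 : EA p q q p = -1 := by
    unfold EA
    rw [Matrix.sub_apply, Matrix.single_apply, Matrix.single_apply, if_neg, if_pos ⟨rfl, rfl⟩,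
      zero_sub]
    rintro ⟨h1, -⟩
    exact hpq h1
  have e2 : EA p q p q = 1 := by
    unfold EA
    rw [Matrix.sub_apply, Matrix.single_apply, Matrix.single_apply, if_pos ⟨rfl, rfl⟩, if_neg,
      sub_zero]
    rintro ⟨h1, -⟩
    exact hpq h1.symm
  rw [e1, e2]
  have : -(2 * (NN n : ℂ)) * ((w p.1 q.1 : ℂ) * (-1 - 1)) = ((4 * NN n * w p.1 q.1 : ℝ) : ℂ) := by
    push_cast
    ring
  rw [this, Complex.ofReal_re]

/-- **The Einstein condition.** -/
theorem einstein_iff (hn : ∀ i, 0 < n i) (hx : IsMetric x) (c : ℝ) :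
    Einstein n c x ↔ IsEinstein n c x := by
  have hs : ∀ i j, ric n x i j * x i j = ric n x j i * x j i := fun i j ↦ by
    rw [ric_symm hx, hx.symm i j]
  have hd : ∀ i, ric n x i i * x i i = 0 := fun i ↦ by rw [hx.diag, mul_zero]
  constructor
  · intro h i j hij
    have h1 : EA (⟨i, ⟨0, hn i⟩⟩ : Ix n) ⟨j, ⟨0, hn j⟩⟩ ∈ fm n := EA_mem hij
    have h2 := h _ _ (bas_onb hx) _ h1
    rw [Ric_eq hx (bas_onb hx) h1, gx_EA _ hs hd hij, gx_EA _ hx.symm hx.diag hij] at h2
    have hN := NN_pos (⟨i, ⟨0, hn i⟩⟩ : Ix n)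
    have hxp := hx.pos i j hij
    have h3 : (4 * NN n * x i j) * ric n x i j = (4 * NN n * x i j) * c := by
      simp only at h2
      linarith
    exact mul_left_cancel₀ (by positivity) h3
  · intro h κ _ _ e he X hX
    rw [Ric_eq hx he hX, gx_eq hs hd, gx_eq hx.symm hx.diag]
    have hX' := mem_fm.1 hX
    have h1 : Gc (fun i j ↦ ric n x i j * x i j) X X = (c : ℂ) * Gc x X X := by
      unfold Gc
      rw [mul_left_comm]
      congr 1
      rw [Finset.mul_sum]
      refine Finset.sum_congr rfl fun p _ ↦ ?_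
      rw [Finset.mul_sum]
      refine Finset.sum_congr rfl fun q _ ↦ ?_
      by_cases hpq : p.1 = q.1
      · rw [hX'.2 p q hpq]
        ring
      · show ((ric n x p.1 q.1 * x p.1 q.1 : ℝ) : ℂ) * (X p q * X q p) = _
        rw [h p.1 q.1 hpq]
        push_cast
        ring
    rw [h1, Complex.re_ofReal_mul]

end Pool.Agent.Helper58.EF.Mat
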