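import Pool.Agent.Helper58.EF.MatDefs

/-!
# The Ricci curvature of the invariant metrics: the completeness relation
-/

set_option autoImplicit false

namespace Pool.Agent.Helper58.EF.Mat

open Matrix Finset Pool.Agent.Helper83.EIN

variable {s : ℕ} {n : Fin s → ℕ}

/-- The number of rows. -/
noncomputable def NN (n : Fin s → ℕ) : ℝ := ∑ l, (n l : ℝ)

theorem NN_pos (p : Ix n) : 0 < NN n := by
  have h1 : 0 < n p.1 := lt_of_le_of_lt (Nat.zero_le _) p.2.2
  have h2 : (0 : ℝ) < n p.1 := by exact_mod_cast h1
  have h3 : (n p.1 : ℝ) ≤ NN n := by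
    unfold NN
    exact single_le_sum (f := fun l ↦ (n l : ℝ)) (fun l _ ↦ Nat.cast_nonneg _) (mem_univ _)
  linarith

theorem trace_mul_eq (X Y : Mt n) : (X * Y).trace = ∑ p, ∑ q, X p q * Y q p := by
  simp [Matrix.trace, Matrix.mul_apply, Matrix.diag]

theorem skew_apply {X : Mt n} (h : Xᴴ = -X) (p q : Ix n) : star (X p q) = -X q p := by
  have := congrFun (congrFun h q) p
  rwa [Matrix.conjTranspose_apply] at this

/-- The off-diagonal skew hermitian matrices. -/
theorem mem_fm {X : Mt n} : X ∈ fm n ↔ Xᴴ = -X ∧ ∀ p q, p.1 = q.1 → X p q = 0 := by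
  constructor
  · rintro ⟨⟨h1, h2⟩, h3⟩
    refine ⟨h1, ?_⟩
    have hsk := skew_apply h1
    have key : ∀ Y ∈ fk n, ∀ p : Ix n, (X * Y).trace.re = 0 := by
      intro Y hY p
      have h := h3 Y hY
      unfold B at h
      have hN := NN_pos p
      unfold NN at hN
      have h4 : 2 * (∑ l, (n l : ℝ)) * (X * Y).trace.re = 0 := by linarith
      exact (mul_eq_zero.1 h4).resolve_left (by positivity)
    have hdiag : ∀ p q : Ix n, p ≠ q → (X p p - X q q).im = 0 := by
      intro p q hpq
      have hY : (Complex.I • (Matrix.single p p 1 - Matrix.single q q 1) : Mt n) ∈ fk n := by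
        refine ⟨⟨?_, ?_⟩, ?_⟩
        · rw [Matrix.conjTranspose_smul, Matrix.conjTranspose_sub, Matrix.conjTranspose_single,
            Matrix.conjTranspose_single]
          simp
        · simp
        · intro a b hab
          have hab' : a ≠ b := fun h ↦ hab (by rw [h])
          have e1 : (Matrix.single p p (1 : ℂ) : Mt n) a b = 0 := by
            rw [Matrix.single_apply, if_neg]
            rintro ⟨h1, h2⟩
            exact hab' (h1.symm.trans h2)
          have e2 : (Matrix.single q q (1 : ℂ) : Mt n) a b = 0 := by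
            rw [Matrix.single_apply, if_neg]
            rintro ⟨h1, h2⟩
            exact hab' (h1.symm.trans h2)
          simp [e1, e2]
      have h := key _ hY p
      have e : (X * (Complex.I • (Matrix.single p p 1 - Matrix.single q q 1) : Mt n)).trace =
          Complex.I * (X p p - X q q) := by
        rw [Matrix.mul_smul, Matrix.trace_smul, Matrix.mul_sub, Matrix.trace_sub,
          Matrix.trace_mul_single, Matrix.trace_mul_single]
        simp
      rw [e] at h
      simp at h ⊢
      linarith
    intro p q hpq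
    by_cases hne : p = q
    · subst hne
      have hre : (X p p).re = 0 := by
        have := congrArg Complex.re (hsk p p)
        simp at this
        linarith
      have him : (X p p).im = 0 := by
        have h4 := congrArg Complex.im h2
        rw [Matrix.trace, Complex.im_sum] at h4
        have h5 : ∀ q ∈ (univ : Finset (Ix n)), ((Matrix.diag X) q).im = (X p p).im := by
          intro q _
          by_cases hq : p = q
          · rw [hq]
            rfl
          · have := hdiag p q hq
            rw [Complex.sub_im] at this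
            show (X q q).im = (X p p).im
            linarith
        rw [Finset.sum_congr rfl h5, Finset.sum_const, nsmul_eq_mul] at h4
        have h6 : ((univ : Finset (Ix n)).card : ℝ) ≠ 0 := by
          have : 0 < (univ : Finset (Ix n)).card := Finset.card_pos.2 ⟨p, mem_univ p⟩
          positivity
        exact (mul_eq_zero.1 h4).resolve_left h6
      exact Complex.ext hre him
    · have hY1 : (Matrix.single q p 1 - Matrix.single p q 1 : Mt n) ∈ fk n := by
        refine ⟨⟨?_, ?_⟩, ?_⟩
        · rw [Matrix.conjTranspose_sub, Matrix.conjTranspose_single, Matrix.conjTranspose_single]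
          simp
        · rw [Matrix.trace_sub, Matrix.trace_single_eq_of_ne _ _ _ (Ne.symm hne),
            Matrix.trace_single_eq_of_ne _ _ _ hne, sub_zero]
        · intro a b hab
          have e1 : (Matrix.single q p (1 : ℂ) : Mt n) a b = 0 := by
            rw [Matrix.single_apply, if_neg]
            rintro ⟨h1, h2⟩
            exact hab (by rw [← h1, ← h2, hpq])
          have e2 : (Matrix.single p q (1 : ℂ) : Mt n) a b = 0 := by
            rw [Matrix.single_apply, if_neg]
            rintro ⟨h1, h2⟩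
            exact hab (by rw [← h1, ← h2, hpq])
          simp [e1, e2]
      have hY2 : (Complex.I • (Matrix.single q p 1 + Matrix.single p q 1) : Mt n) ∈ fk n := by
        refine ⟨⟨?_, ?_⟩, ?_⟩
        · rw [Matrix.conjTranspose_smul, Matrix.conjTranspose_add, Matrix.conjTranspose_single,
            Matrix.conjTranspose_single]
          simp [add_comm]
        · rw [Matrix.trace_smul, Matrix.trace_add,
            Matrix.trace_single_eq_of_ne _ _ _ (Ne.symm hne),
            Matrix.trace_single_eq_of_ne _ _ _ hne, add_zero, smul_zero]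
        · intro a b hab
          have e1 : (Matrix.single q p (1 : ℂ) : Mt n) a b = 0 := by
            rw [Matrix.single_apply, if_neg]
            rintro ⟨h1, h2⟩
            exact hab (by rw [← h1, ← h2, hpq])
          have e2 : (Matrix.single p q (1 : ℂ) : Mt n) a b = 0 := by
            rw [Matrix.single_apply, if_neg]
            rintro ⟨h1, h2⟩
            exact hab (by rw [← h1, ← h2, hpq])
          simp [e1, e2]
      have k1 := key _ hY1 p
      have k2 := key _ hY2 p
      rw [Matrix.mul_sub, Matrix.trace_sub, Matrix.trace_mul_single,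
        Matrix.trace_mul_single] at k1
      rw [Matrix.mul_smul, Matrix.trace_smul, Matrix.mul_add, Matrix.trace_add,
        Matrix.trace_mul_single, Matrix.trace_mul_single] at k2
      simp at k1 k2
      have s1 := congrArg Complex.re (hsk p q)
      have s2 := congrArg Complex.im (hsk p q)
      simp at s1 s2
      exact Complex.ext (by rw [Complex.zero_re]; linarith) (by rw [Complex.zero_im]; linarith)
  · rintro ⟨h1, h2⟩
    refine ⟨⟨h1, ?_⟩, ?_⟩
    · rw [Matrix.trace]
      exact Finset.sum_eq_zero fun p _ ↦ h2 p p rfl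
    · rintro Y ⟨-, hY⟩
      unfold B
      rw [trace_mul_eq]
      have : ∑ p, ∑ q, X p q * Y q p = 0 := by
        refine Finset.sum_eq_zero fun p _ ↦ Finset.sum_eq_zero fun q _ ↦ ?_
        by_cases h : p.1 = q.1
        · rw [h2 p q h, zero_mul]
        · rw [hY q p (Ne.symm h), mul_zero]
      rw [this]
      simp

/-- The complex bilinear form. -/
noncomputable def Gc (x : Fin s → Fin s → ℝ) (Y Z : Mt n) : ℂ :=
  -(2 * (NN n : ℂ)) * ∑ p, ∑ q, (x p.1 q.1 : ℂ) * (Y p q * Z q p)

/-- The weights. -/
noncomputable def kap (x : Fin s → Fin s → ℝ) (p q : Ix n) : ℝ := (2 * NN n * x p.1 q.1)⁻¹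

theorem kap_same {x : Fin s → Fin s → ℝ} (hx : IsMetric x) {p q : Ix n} (h : p.1 = q.1) :
    kap x p q = 0 := by
  unfold kap
  rw [h, hx.diag, mul_zero, _root_.inv_zero]

theorem kap_symm {x : Fin s → Fin s → ℝ} (hx : IsMetric x) (p q : Ix n) :
    kap x p q = kap x q p := by
  unfold kap
  rw [hx.symm]

theorem gx_eq {x : Fin s → Fin s → ℝ} (hs : ∀ i j, x i j = x j i) (h0 : ∀ i, x i i = 0)
    (Y Z : Mt n) : gx x Y Z = (Gc x Y Z).re := by
  have h1 : ∀ i j, B (comp i j Y) (comp i j Z) = -(2 * NN n) * ∑ p : Ix n, ∑ q : Ix n,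
      if (p.1 = i ∧ q.1 = j) ∨ (p.1 = j ∧ q.1 = i) then (Y p q * Z q p).re else 0 := by
    intro i j
    unfold B
    rw [trace_mul_eq, Complex.re_sum]
    unfold NN
    have : ∀ p : Ix n, (∑ q, comp i j Y p q * comp i j Z q p).re = ∑ q : Ix n,
        if (p.1 = i ∧ q.1 = j) ∨ (p.1 = j ∧ q.1 = i) then (Y p q * Z q p).re else 0 := by
      intro p
      rw [Complex.re_sum]
      refine Finset.sum_congr rfl fun q _ ↦ ?_
      unfold comp
      by_cases h : (p.1 = i ∧ q.1 = j) ∨ (p.1 = j ∧ q.1 = i)
      · have h' : (q.1 = i ∧ p.1 = j) ∨ (q.1 = j ∧ p.1 = i) := by tauto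
        rw [if_pos h, if_pos h', if_pos h]
      · rw [if_neg h, if_neg h]
        simp
    rw [Finset.sum_congr rfl fun p _ ↦ this p]
    ring
  have h2 : gx x Y Z = -(2 * NN n) * ∑ p : Ix n, ∑ q : Ix n, x p.1 q.1 * (Y p q * Z q p).re := by
    unfold gx
    have e1 : ∀ i, ∑ j with i < j, x i j * B (comp i j Y) (comp i j Z) =
        ∑ j, if i < j then x i j * (-(2 * NN n) * ∑ p : Ix n, ∑ q : Ix n,
          if (p.1 = i ∧ q.1 = j) ∨ (p.1 = j ∧ q.1 = i) then (Y p q * Z q p).re else 0) else 0 := by
      intro i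
      rw [Finset.sum_filter]
      refine Finset.sum_congr rfl fun j _ ↦ ?_
      rw [h1]
    rw [Finset.sum_congr rfl fun i _ ↦ e1 i]
    have e2 : ∀ i j : Fin s, (if i < j then x i j * (-(2 * NN n) * ∑ p : Ix n, ∑ q : Ix n,
        if (p.1 = i ∧ q.1 = j) ∨ (p.1 = j ∧ q.1 = i) then (Y p q * Z q p).re else 0) else 0) =
        -(2 * NN n) * ∑ p : Ix n, ∑ q : Ix n, (if i < j ∧ ((p.1 = i ∧ q.1 = j) ∨
          (p.1 = j ∧ q.1 = i)) then x i j else 0) * (Y p q * Z q p).re := by
      intro i j
      by_cases hij : i < j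
      · rw [if_pos hij, mul_left_comm, Finset.mul_sum]
        congr 1
        refine Finset.sum_congr rfl fun p _ ↦ ?_
        rw [Finset.mul_sum]
        refine Finset.sum_congr rfl fun q _ ↦ ?_
        simp [hij]
      · simp [hij]
    simp only [e2]

    simp only [← Finset.mul_sum]
    congr 1
    have e3 : ∀ (f : Fin s → Fin s → Ix n → Ix n → ℝ), ∑ i, ∑ j, ∑ p, ∑ q, f i j p q =
        ∑ p, ∑ q, ∑ i, ∑ j, f i j p q := by
      intro f
      have a1 : ∀ i, ∑ j, ∑ p, ∑ q, f i j p q = ∑ p, ∑ q, ∑ j, f i j p q := by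
        intro i
        rw [Finset.sum_comm]
        exact Finset.sum_congr rfl fun p _ ↦ Finset.sum_comm
      rw [Finset.sum_congr rfl fun i _ ↦ a1 i, Finset.sum_comm]
      exact Finset.sum_congr rfl fun p _ ↦ Finset.sum_comm
    rw [e3]
    refine Finset.sum_congr rfl fun p _ ↦ Finset.sum_congr rfl fun q _ ↦ ?_
    have e4 : ∀ i j : Fin s, (if i < j ∧ ((p.1 = i ∧ q.1 = j) ∨ (p.1 = j ∧ q.1 = i)) then x i j
        else 0) * (Y p q * Z q p).re = if i = min p.1 q.1 then (if j = max p.1 q.1 then
        x p.1 q.1 * (Y p q * Z q p).re else 0) else 0 := by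
      intro i j
      rcases lt_trichotomy p.1 q.1 with h | h | h
      · rw [min_eq_left h.le, max_eq_right h.le]
        by_cases hi : i = p.1
        · by_cases hj : j = q.1
          · subst hi hj
            simp [h]
          · have : ¬ (i < j ∧ ((p.1 = i ∧ q.1 = j) ∨ (p.1 = j ∧ q.1 = i))) := by
              rintro ⟨h3, h4 | h4⟩
              · exact hj h4.2.symm
              · rw [← h4.1, ← h4.2] at h3
                exact absurd h3 h.not_gt
            rw [if_neg this, if_pos hi, if_neg hj, zero_mul]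
        · have : ¬ (i < j ∧ ((p.1 = i ∧ q.1 = j) ∨ (p.1 = j ∧ q.1 = i))) := by
            rintro ⟨h3, h4 | h4⟩
            · exact hi h4.1.symm
            · rw [← h4.1, ← h4.2] at h3
              exact absurd h3 h.not_gt
          rw [if_neg this, if_neg hi, zero_mul]
      · have h5 : (if i < j ∧ ((p.1 = i ∧ q.1 = j) ∨ (p.1 = j ∧ q.1 = i)) then x i j
            else 0) = 0 := by
          rw [if_neg]
          rintro ⟨h3, h4 | h4⟩
          · rw [← h4.1, ← h4.2, h] at h3
            exact lt_irrefl _ h3
          · rw [← h4.1, ← h4.2, h] at h3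
            exact lt_irrefl _ h3
        rw [h5, h, h0]
        simp
      · rw [min_eq_right h.le, max_eq_left h.le]
        by_cases hi : i = q.1
        · by_cases hj : j = p.1
          · subst hi hj
            simp [h, hs]
          · have : ¬ (i < j ∧ ((p.1 = i ∧ q.1 = j) ∨ (p.1 = j ∧ q.1 = i))) := by
              rintro ⟨h3, h4 | h4⟩
              · rw [← h4.1, ← h4.2] at h3
                exact absurd h3 h.not_gt
              · exact hj h4.1.symm
            rw [if_neg this, if_pos hi, if_neg hj, zero_mul]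
        · have : ¬ (i < j ∧ ((p.1 = i ∧ q.1 = j) ∨ (p.1 = j ∧ q.1 = i))) := by
            rintro ⟨h3, h4 | h4⟩
            · rw [← h4.1, ← h4.2] at h3
              exact absurd h3 h.not_gt
            · exact hi h4.2.symm
          rw [if_neg this, if_neg hi, zero_mul]
    simp only [e4]
    simp
  rw [h2]
  unfold Gc
  have h3 : (∑ p : Ix n, ∑ q : Ix n, (x p.1 q.1 : ℂ) * (Y p q * Z q p)).re =
      ∑ p : Ix n, ∑ q : Ix n, x p.1 q.1 * (Y p q * Z q p).re := by
    rw [Complex.re_sum]
    refine Finset.sum_congr rfl fun p _ ↦ ?_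
    rw [Complex.re_sum]
    refine Finset.sum_congr rfl fun q _ ↦ ?_
    rw [Complex.re_ofReal_mul]
  rw [← h3]
  have h4 : -(2 * (NN n : ℂ)) = ((-(2 * NN n) : ℝ) : ℂ) := by push_cast; ring
  rw [h4, Complex.re_ofReal_mul]

/-- The form is real on skew hermitian matrices. -/
theorem Gc_real {x : Fin s → Fin s → ℝ} (hs : ∀ i j, x i j = x j i) {Y Z : Mt n}
    (hY : Yᴴ = -Y) (hZ : Zᴴ = -Z) : (((Gc x Y Z).re : ℝ) : ℂ) = Gc x Y Z := by
  apply Complex.conj_eq_iff_re.1
  unfold Gc
  rw [map_mul, map_neg, map_mul, Complex.conj_ofReal, map_sum]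
  have h2 : (starRingEnd ℂ) 2 = 2 := Complex.conj_ofNat 2
  rw [h2]
  congr 1
  have h : ∀ p : Ix n, (starRingEnd ℂ) (∑ q, (x p.1 q.1 : ℂ) * (Y p q * Z q p)) =
      ∑ q, (x q.1 p.1 : ℂ) * (Y q p * Z p q) := by
    intro p
    rw [map_sum]
    refine Finset.sum_congr rfl fun q _ ↦ ?_
    rw [map_mul, map_mul, Complex.conj_ofReal]
    have e1 : (starRingEnd ℂ) (Y p q) = -Y q p := skew_apply hY p q
    have e2 : (starRingEnd ℂ) (Z q p) = -Z p q := skew_apply hZ q p
    rw [e1, e2, hs p.1 q.1]
    ring
  rw [Finset.sum_congr rfl fun p _ ↦ h p]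
  exact Finset.sum_comm

end Pool.Agent.Helper58.EF.Mat
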