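import Pool.Agent.Helper58.EF.MatBasic

/-!
# The Ricci curvature of the invariant metrics: the completeness relation
-/

set_option autoImplicit false

namespace Pool.Agent.Helper58.EF.Mat

open Matrix Finset Pool.Agent.Helper83.EIN

variable {s : ℕ} {n : Fin s → ℕ} {x : Fin s → Fin s → ℝ} {κ : Type} [Fintype κ] [DecidableEq κ]
  {e : κ → Mt n}

theorem Gc_add (Y Y' Z : Mt n) : Gc x (Y + Y') Z = Gc x Y Z + Gc x Y' Z := by
  unfold Gc
  rw [← mul_add, ← Finset.sum_add_distrib]
  congr 1
  refine Finset.sum_congr rfl fun p _ ↦ ?_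
  rw [← Finset.sum_add_distrib]
  refine Finset.sum_congr rfl fun q _ ↦ ?_
  rw [Matrix.add_apply]
  ring

theorem Gc_smul (c : ℂ) (Y Z : Mt n) : Gc x (c • Y) Z = c * Gc x Y Z := by
  unfold Gc
  rw [mul_left_comm]
  congr 1
  rw [Finset.mul_sum]
  refine Finset.sum_congr rfl fun p _ ↦ ?_
  rw [Finset.mul_sum]
  refine Finset.sum_congr rfl fun q _ ↦ ?_
  rw [Matrix.smul_apply, smul_eq_mul]
  ring

theorem Gc_single (c d : Ix n) (Z : Mt n) :
    Gc x (Matrix.single d c 1) Z = -(2 * (NN n : ℂ)) * ((x d.1 c.1 : ℂ) * Z c d) := by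
  unfold Gc
  congr 1
  rw [Finset.sum_eq_single d]
  · rw [Finset.sum_eq_single c]
    · simp
    · intro q _ hq
      rw [Matrix.single_apply, if_neg, zero_mul, mul_zero]
      rintro ⟨-, h⟩
      exact hq h.symm
    · intro h
      exact absurd (mem_univ _) h
  · intro p _ hp
    refine Finset.sum_eq_zero fun q _ ↦ ?_
    rw [Matrix.single_apply, if_neg, zero_mul, mul_zero]
    rintro ⟨h, -⟩
    exact hp h.symm
  · intro h
    exact absurd (mem_univ _) h

/-- The expansion in an orthonormal basis. -/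
theorem expand (hx : IsMetric x) (he : IsONB x e) {Y : Mt n} (hY : Y ∈ fm n) (a b : Ix n) :
    Y a b = ∑ j, Gc x Y (e j) * e j a b := by
  obtain ⟨c, hc⟩ := (Submodule.mem_span_range_iff_exists_fun ℝ).1 (he.span Y hY)
  have hsk := fun j ↦ (mem_fm.1 (he.mem j)).1
  have hreal : ∀ i j, Gc x (e i) (e j) = if i = j then 1 else 0 := by
    intro i j
    rw [← Gc_real hx.symm (hsk i) (hsk j), ← gx_eq hx.symm hx.diag, he.orth]
    split_ifs <;> simp
  have hG : ∀ k, Gc x Y (e k) = (c k : ℂ) := by
    intro k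
    have h1 : Gc x Y (e k) = ∑ j, (c j : ℂ) * Gc x (e j) (e k) := by
      have h2 : ∀ (t : Finset κ), Gc x (∑ j ∈ t, c j • e j) (e k) =
          ∑ j ∈ t, (c j : ℂ) * Gc x (e j) (e k) := by
        intro t
        induction t using Finset.induction_on with
        | empty =>
          rw [Finset.sum_empty, Finset.sum_empty]
          unfold Gc
          simp
        | insert i t hi ih =>
          rw [Finset.sum_insert hi, Finset.sum_insert hi, Gc_add, ih]
          congr 1
          have : (c i • e i : Mt n) = ((c i : ℂ) • e i : Mt n) := by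
            ext p q
            simp
          rw [this, Gc_smul]
      rw [← h2, hc]
    rw [h1]
    simp only [hreal]
    simp
  simp only [hG]
  rw [← hc, Matrix.sum_apply]
  refine Finset.sum_congr rfl fun j _ ↦ ?_
  simp

/-- The completeness relation. -/
theorem compl (hx : IsMetric x) (he : IsONB x e) (a b c d : Ix n) :
    ∑ j, e j a b * e j c d = if a = d ∧ b = c then -(kap x a b : ℂ) else 0 := by
  have hz := fun j ↦ (mem_fm.1 (he.mem j)).2
  by_cases h1 : a.1 = b.1
  · rw [Finset.sum_eq_zero fun j _ ↦ by rw [hz j a b h1, zero_mul], kap_same hx h1]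
    simp
  by_cases h2 : c.1 = d.1
  · rw [Finset.sum_eq_zero fun j _ ↦ by rw [hz j c d h2, mul_zero], if_neg]
    rintro ⟨rfl, rfl⟩
    exact h1 h2.symm
  have hsx : ∀ c' d' : Ix n, c'.1 ≠ d'.1 → ∀ p q : Ix n, p.1 = q.1 →
      (Matrix.single c' d' (1 : ℂ) : Mt n) p q = 0 := by
    intro c' d' hcd p q hpq
    rw [Matrix.single_apply, if_neg]
    rintro ⟨rfl, rfl⟩
    exact hcd hpq
  have hY1 : (Matrix.single d c 1 - Matrix.single c d 1 : Mt n) ∈ fm n := by
    rw [mem_fm]
    refine ⟨?_, ?_⟩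
    · rw [Matrix.conjTranspose_sub, Matrix.conjTranspose_single, Matrix.conjTranspose_single]
      simp
    · intro p q hpq
      rw [Matrix.sub_apply, hsx d c (Ne.symm h2) p q hpq, hsx c d h2 p q hpq, sub_zero]
  have hY2 : (Complex.I • (Matrix.single d c 1 + Matrix.single c d 1) : Mt n) ∈ fm n := by
    rw [mem_fm]
    refine ⟨?_, ?_⟩
    · rw [Matrix.conjTranspose_smul, Matrix.conjTranspose_add, Matrix.conjTranspose_single,
        Matrix.conjTranspose_single]
      simp [add_comm]
    · intro p q hpq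
      rw [Matrix.smul_apply, Matrix.add_apply, hsx d c (Ne.symm h2) p q hpq,
        hsx c d h2 p q hpq]
      simp
  have e1 := expand hx he hY1 a b
  have e2 := expand hx he hY2 a b
  have g1 : ∀ Z : Mt n, Gc x (Matrix.single d c 1 - Matrix.single c d 1) Z =
      Gc x (Matrix.single d c 1) Z - Gc x (Matrix.single c d 1) Z := by
    intro Z
    have : (Matrix.single d c 1 - Matrix.single c d 1 : Mt n) =
        Matrix.single d c 1 + (-1 : ℂ) • Matrix.single c d 1 := by
      rw [neg_smul, one_smul, sub_eq_add_neg]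
    rw [this, Gc_add, Gc_smul]
    ring
  simp only [g1] at e1
  simp only [Gc_smul, Gc_add] at e2
  have e3 : (Matrix.single d c (1 : ℂ) : Mt n) a b =
      ∑ j, Gc x (Matrix.single d c 1) (e j) * e j a b := by
    have h3 : (Matrix.single d c (1 : ℂ) : Mt n) a b =
        1 / 2 * ((Matrix.single d c 1 - Matrix.single c d 1 : Mt n) a b -
          Complex.I * (Complex.I • (Matrix.single d c 1 + Matrix.single c d 1) : Mt n) a b) := by
      rw [Matrix.sub_apply, Matrix.smul_apply, Matrix.add_apply, smul_eq_mul, ← mul_assoc,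
        Complex.I_mul_I]
      ring
    rw [h3, e1, e2, Finset.mul_sum, ← Finset.sum_sub_distrib, Finset.mul_sum]
    refine Finset.sum_congr rfl fun j _ ↦ ?_
    linear_combination (-(1 / 2) * (Gc x (Matrix.single d c 1) (e j) +
      Gc x (Matrix.single c d 1) (e j)) * e j a b) * Complex.I_mul_I
  simp only [Gc_single] at e3
  have hN := NN_pos a
  have hxp := hx.pos d.1 c.1 (Ne.symm h2)
  have hne : (2 * NN n * x d.1 c.1 : ℝ) ≠ 0 := by positivity
  have e4 : (Matrix.single d c (1 : ℂ) : Mt n) a b =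
      -((2 * NN n * x d.1 c.1 : ℝ) : ℂ) * ∑ j, e j a b * e j c d := by
    rw [e3, Finset.mul_sum]
    refine Finset.sum_congr rfl fun j _ ↦ ?_
    push_cast
    ring
  have hne' : ((2 * NN n * x d.1 c.1 : ℝ) : ℂ) ≠ 0 := by exact_mod_cast hne
  have e5 : ∑ j, e j a b * e j c d =
      -((2 * NN n * x d.1 c.1 : ℝ) : ℂ)⁻¹ * (Matrix.single d c (1 : ℂ) : Mt n) a b := by
    rw [e4]
    field_simp
  rw [e5, Matrix.single_apply]
  by_cases h : d = a ∧ c = b
  · obtain ⟨rfl, rfl⟩ := h
    simp only [and_self, if_true, mul_one]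
    unfold kap
    rw [Complex.ofReal_inv]
  · have h' : ¬ (a = d ∧ b = c) := fun h3 ↦ h ⟨h3.1.symm, h3.2.symm⟩
    rw [if_neg h, if_neg h', mul_zero]

end Pool.Agent.Helper58.EF.Mat
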