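import Pool.Agent.Helper83.EIN.Defs

/-!
# The Ricci curvature of the invariant metrics on `SU(N)/S(U(n₀) × ⋯ × U(n_{s-1}))`: definitions

The rows and the columns of the matrices are indexed by the pairs `⟨i, a⟩`, `i < s`, `a < n_i`; the
first component is the block.
-/

set_option autoImplicit false

namespace Pool.Agent.Helper58.EF.Mat

open Matrix Finset Pool.Agent.Helper83.EIN

variable {s : ℕ}

/-- The indices of the rows and of the columns. -/
abbrev Ix (n : Fin s → ℕ) := Σ i : Fin s, Fin (n i)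

/-- The complex `N × N` matrices, `N = ∑ n_i`. -/
abbrev Mt (n : Fin s → ℕ) := Matrix (Ix n) (Ix n) ℂ

/-- The Lie algebra `𝔤 = 𝔰𝔲(N)`. -/
def fg (n : Fin s → ℕ) : Set (Mt n) := {X | Xᴴ = -X ∧ X.trace = 0}

/-- The Lie algebra `𝔨` of `K = S(U(n₀) × ⋯ × U(n_{s-1}))`. -/
def fk (n : Fin s → ℕ) : Set (Mt n) := {X | X ∈ fg n ∧ ∀ p q, p.1 ≠ q.1 → X p q = 0}

/-- `B`, the negative of the Killing form `(X, Y) ↦ 2 N tr(X Y)` of `𝔰𝔲(N)`. -/
noncomputable def B {n : Fin s → ℕ} (X Y : Mt n) : ℝ := -(2 * (∑ l, (n l : ℝ)) * (X * Y).trace.re)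

/-- The `B`-orthogonal complement `𝔪` of `𝔨` in `𝔤`. -/
def fm (n : Fin s → ℕ) : Set (Mt n) := {X | X ∈ fg n ∧ ∀ Y ∈ fk n, B X Y = 0}

/-- The projection to `𝔪` along `𝔨`: the entries in the diagonal blocks are replaced by `0`. -/
def prm {n : Fin s → ℕ} (X : Mt n) : Mt n := fun p q ↦ if p.1 = q.1 then 0 else X p q

/-- The component in `𝔪_{ij}`. -/
def comp {n : Fin s → ℕ} (i j : Fin s) (X : Mt n) : Mt n := fun p q ↦
  if (p.1 = i ∧ q.1 = j) ∨ (p.1 = j ∧ q.1 = i) then X p q else 0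

/-- The inner product `g = ∑_{i<j} x_{ij} B|𝔪_{ij}` on `𝔪`. -/
noncomputable def gx {n : Fin s → ℕ} (x : Fin s → Fin s → ℝ) (X Y : Mt n) : ℝ :=
  ∑ i, ∑ j with i < j, x i j * B (comp i j X) (comp i j Y)

/-- The family `e` is an orthonormal basis of `𝔪` with the inner product `g`. -/
structure IsONB {n : Fin s → ℕ} {κ : Type} [Fintype κ] [DecidableEq κ] (x : Fin s → Fin s → ℝ)
    (e : κ → Mt n) : Prop where
  mem : ∀ j, e j ∈ fm n
  orth : ∀ i j, gx x (e i) (e j) = if i = j then 1 else 0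
  span : ∀ X ∈ fm n, X ∈ Submodule.span ℝ (Set.range e)

/-- The Ricci curvature `Ric(X, X)` of the invariant metric given by `g`, computed with the
orthonormal basis `e` of `𝔪` (A. Besse, Einstein Manifolds, Corollary 7.38, `G` unimodular):
`Ric(X, X) = -1/2 ∑_j |[X, e_j]_𝔪|² - 1/2 Kill(X, X) + 1/4 ∑_{i,j} g([e_i, e_j]_𝔪, X)²`. -/
noncomputable def Ric {n : Fin s → ℕ} {κ : Type} [Fintype κ] (x : Fin s → Fin s → ℝ)
    (e : κ → Mt n) (X : Mt n) : ℝ :=
  -(1 / 2) * ∑ j, gx x (prm ⁅X, e j⁆) (prm ⁅X, e j⁆) + 1 / 2 * B X X +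
    1 / 4 * ∑ i, ∑ j, gx x (prm ⁅e i, e j⁆) X ^ 2

/-- The invariant metric given by `g` is Einstein with the constant `c`: `Ric = c g`. -/
def Einstein (n : Fin s → ℕ) (c : ℝ) (x : Fin s → Fin s → ℝ) : Prop :=
  ∀ (κ : Type) [Fintype κ] [DecidableEq κ] (e : κ → Mt n), IsONB x e →
    ∀ X ∈ fm n, Ric x e X = c * gx x X X

end Pool.Agent.Helper58.EF.Mat
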