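import Pool.Agent.Helper58.EF.MatKaehler2

/-!
# The invariant inner products on `𝔪`
-/

set_option autoImplicit false

namespace Pool.Agent.Helper58.EF.Mat

open Matrix Finset Pool.Agent.Helper83.EIN

variable {s : ℕ} {n : Fin s → ℕ} {x : Fin s → Fin s → ℝ}

/-- `g` (restricted to `𝔪`) is an inner product which is invariant under the isotropy
representation, that is an invariant Riemannian metric on `G/K`. -/
structure IsInvInner (g : Mt n →ₗ[ℝ] Mt n →ₗ[ℝ] ℝ) : Prop where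
  symm : ∀ X ∈ fm n, ∀ Y ∈ fm n, g X Y = g Y X
  pos : ∀ X ∈ fm n, X ≠ 0 → 0 < g X X
  inv : ∀ Y ∈ fk n, ∀ X ∈ fm n, ∀ Z ∈ fm n, g ⁅Y, X⁆ Z + g X ⁅Y, Z⁆ = 0

theorem lie_TT_EA' (p q a b : Ix n) :
    ⁅TT p q, EA a b⁆ = (tau p q a - tau p q b) • ES a b := by
  ext c d
  rw [lie_TT, Matrix.smul_apply, EA_val, ES_val, Complex.real_smul]
  by_cases h1 : a = c ∧ b = d
  · obtain ⟨rfl, rfl⟩ := h1
    by_cases h2 : b = a
    · subst h2
      simp
    · rw [if_pos ⟨rfl, rfl⟩, if_neg (fun k ↦ h2 k.1)]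
      push_cast
      ring
  · by_cases h2 : b = c ∧ a = d
    · obtain ⟨rfl, rfl⟩ := h2
      rw [if_neg h1, if_pos ⟨rfl, rfl⟩]
      push_cast
      ring
    · rw [if_neg h1, if_neg h2]
      simp

theorem lie_TT_ES' (p q a b : Ix n) :
    ⁅TT p q, ES a b⁆ = (-(tau p q a - tau p q b)) • EA a b := by
  ext c d
  rw [lie_TT, Matrix.smul_apply, EA_val, ES_val, Complex.real_smul]
  have hI := Complex.I_sq
  by_cases h1 : a = c ∧ b = d
  · obtain ⟨rfl, rfl⟩ := h1
    by_cases h2 : b = a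
    · subst h2
      simp
    · rw [if_pos ⟨rfl, rfl⟩, if_neg (fun k ↦ h2 k.1)]
      push_cast
      linear_combination ((tau p q a : ℂ) - tau p q b) * hI
  · by_cases h2 : b = c ∧ a = d
    · obtain ⟨rfl, rfl⟩ := h2
      rw [if_neg h1, if_pos ⟨rfl, rfl⟩]
      push_cast
      linear_combination ((tau p q b : ℂ) - tau p q a) * hI
    · rw [if_neg h1, if_neg h2]
      simp

section

variable {g : Mt n →ₗ[ℝ] Mt n →ₗ[ℝ] ℝ}

theorem four (hg : IsInvInner g) (p q : Ix n) (hpq : p.1 ≠ q.1) (a b : Ix n) (hab : a.1 ≠ b.1) :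
    2 * g (ES p q) (EA a b) + (tau p q a - tau p q b) * g (EA p q) (ES a b) = 0 ∧
    2 * g (ES p q) (ES a b) - (tau p q a - tau p q b) * g (EA p q) (EA a b) = 0 ∧
    -2 * g (EA p q) (EA a b) + (tau p q a - tau p q b) * g (ES p q) (ES a b) = 0 ∧
    -2 * g (EA p q) (ES a b) - (tau p q a - tau p q b) * g (ES p q) (EA a b) = 0 := by
  have hne : p ≠ q := fun h ↦ hpq (by rw [h])
  have h1 := hg.inv _ (TT_mem p q) _ (EA_mem hpq) _ (EA_mem hab)
  have h2 := hg.inv _ (TT_mem p q) _ (EA_mem hpq) _ (ES_mem hab)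
  have h3 := hg.inv _ (TT_mem p q) _ (ES_mem hpq) _ (EA_mem hab)
  have h4 := hg.inv _ (TT_mem p q) _ (ES_mem hpq) _ (ES_mem hab)
  rw [lie_TT_EA hne, lie_TT_EA', map_smul, map_smul, LinearMap.smul_apply, smul_eq_mul,
    smul_eq_mul] at h1
  rw [lie_TT_EA hne, lie_TT_ES', map_smul, map_smul, LinearMap.smul_apply, smul_eq_mul,
    smul_eq_mul] at h2
  rw [lie_TT_ES hne, lie_TT_EA', map_smul, map_smul, LinearMap.smul_apply, smul_eq_mul,
    smul_eq_mul] at h3
  rw [lie_TT_ES hne, lie_TT_ES', map_smul, map_smul, LinearMap.smul_apply, smul_eq_mul,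
    smul_eq_mul] at h4
  refine ⟨h1, ?_, h3, ?_⟩
  · linear_combination h2
  · linear_combination h4

/-- Two different planes are orthogonal. -/
theorem g_off (hg : IsInvInner g) (p q : Ix n) (hpq : p.1 ≠ q.1) (a b : Ix n) (hab : a.1 ≠ b.1)
    (k1 : ¬ (p = a ∧ q = b)) (k2 : ¬ (q = a ∧ p = b)) :
    g (EA p q) (EA a b) = 0 ∧ g (EA p q) (ES a b) = 0 ∧ g (ES p q) (EA a b) = 0 ∧
      g (ES p q) (ES a b) = 0 := by
  have hne : p ≠ q := fun h ↦ hpq (by rw [h])
  obtain ⟨h1, h2, h3, h4⟩ := four hg p q hpq a b hab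
  have hw := tau_ne hne k1 k2
  set w := tau p q a - tau p q b with hwdef
  have hw' : (4 - w ^ 2) ≠ 0 := fun h ↦ hw (by linarith)
  have e1 : (4 - w ^ 2) * g (EA p q) (EA a b) = 0 := by linear_combination w * h2 - 2 * h3
  have e4 : (4 - w ^ 2) * g (ES p q) (ES a b) = 0 := by linear_combination 2 * h2 - w * h3
  have e2 : (4 - w ^ 2) * g (EA p q) (ES a b) = 0 := by linear_combination -2 * h4 - w * h1
  have e3 : (4 - w ^ 2) * g (ES p q) (EA a b) = 0 := by linear_combination 2 * h1 + w * h4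
  exact ⟨(mul_eq_zero.1 e1).resolve_left hw', (mul_eq_zero.1 e2).resolve_left hw',
    (mul_eq_zero.1 e3).resolve_left hw', (mul_eq_zero.1 e4).resolve_left hw'⟩

/-- The form on a plane. -/
theorem g_on (hg : IsInvInner g) (p q : Ix n) (hpq : p.1 ≠ q.1) :
    g (EA p q) (ES p q) = 0 ∧ g (ES p q) (EA p q) = 0 ∧
      g (ES p q) (ES p q) = g (EA p q) (EA p q) := by
  have hne : p ≠ q := fun h ↦ hpq (by rw [h])
  obtain ⟨h1, h2, -, -⟩ := four hg p q hpq p q hpq
  rw [tau_left hne, tau_right hne] at h1 h2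
  have h3 := hg.symm _ (EA_mem hpq) _ (ES_mem hpq)
  refine ⟨by linarith, by linarith, by linarith⟩

theorem EA_fk {p p' : Ix n} (h : p.1 = p'.1) : EA p p' ∈ fk n := by
  by_cases hne : p = p'
  · subst hne
    have : EA p p = 0 := by
      unfold EA
      rw [sub_self]
    rw [this]
    exact ⟨⟨by simp, by simp⟩, fun _ _ _ ↦ rfl⟩
  · refine ⟨⟨?_, ?_⟩, ?_⟩
    · unfold EA
      rw [Matrix.conjTranspose_sub, Matrix.conjTranspose_single, Matrix.conjTranspose_single]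
      simp
    · unfold EA
      rw [Matrix.trace_sub, Matrix.trace_single_eq_of_ne _ _ _ hne,
        Matrix.trace_single_eq_of_ne _ _ _ (Ne.symm hne), sub_zero]
    · intro a b hab
      rw [EA_val, if_neg, if_neg, sub_zero]
      · rintro ⟨rfl, rfl⟩
        exact hab h.symm
      · rintro ⟨rfl, rfl⟩
        exact hab h

theorem c_left (hg : IsInvInner g) {p p' q : Ix n} (h : p.1 = p'.1) (hpq : p.1 ≠ q.1) :
    g (EA p q) (EA p q) = g (EA p' q) (EA p' q) := by
  by_cases hne : p = p'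
  · rw [hne]
  have hpq' : p'.1 ≠ q.1 := h ▸ hpq
  have n1 : p ≠ q := fun k ↦ hpq (by rw [k])
  have n2 : p' ≠ q := fun k ↦ hpq' (by rw [k])
  have h1 := hg.inv _ (EA_fk h) _ (EA_mem hpq') _ (EA_mem hpq)
  have b1 : ⁅EA p p', EA p' q⁆ = EA p q := lie_EA_EA n1 hne n2
  have b2 : ⁅EA p p', EA p q⁆ = -EA p' q := by
    have h2 : ⁅EA p' p, EA p q⁆ = EA p' q := lie_EA_EA n2 (Ne.symm hne) n1
    rw [← h2, EA_symm p' p, Ring.lie_def, Ring.lie_def]
    noncomm_ring
  rw [b1, b2, map_neg] at h1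
  linarith

theorem c_symm (p q : Ix n) : g (EA p q) (EA p q) = g (EA q p) (EA q p) := by
  rw [EA_symm p q]
  simp

theorem c_block (hg : IsInvInner g) {p p' q q' : Ix n} (h : p.1 = p'.1) (h' : q.1 = q'.1)
    (hpq : p.1 ≠ q.1) : g (EA p q) (EA p q) = g (EA p' q') (EA p' q') := by
  rw [c_left hg h hpq, c_symm p' q, c_left hg h' (by rw [← h]; exact hpq.symm), c_symm q' p']

end

theorem Gc_symm (hs : ∀ i j, x i j = x j i) (Y Z : Mt n) : Gc x Y Z = Gc x Z Y := by
  unfold Gc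
  congr 1
  rw [Finset.sum_comm]
  refine Finset.sum_congr rfl fun p _ ↦ Finset.sum_congr rfl fun q _ ↦ ?_
  rw [hs]
  ring

/-- The form `gx` as a bilinear map. -/
noncomputable def gxL (n : Fin s → ℕ) (hx : IsMetric x) : Mt n →ₗ[ℝ] Mt n →ₗ[ℝ] ℝ :=
  LinearMap.mk₂ ℝ (gx x)
    (fun X Y Z ↦ by
      simp only [gx_eq hx.symm hx.diag, Gc_add, Complex.add_re])
    (fun r X Z ↦ by
      rw [gx_smul hx.symm hx.diag, smul_eq_mul])
    (fun X Y Z ↦ by
      simp only [gx_eq hx.symm hx.diag, Gc_symm hx.symm X, Gc_add, Complex.add_re])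
    (fun r X Z ↦ by
      simp only [gx_eq hx.symm hx.diag, Gc_symm hx.symm X, Gc_smul_real, Complex.re_ofReal_mul,
        smul_eq_mul])

theorem gxL_apply (hx : IsMetric x) (X Y : Mt n) : gxL n hx X Y = gx x X Y := rfl

theorem gx_pos (hx : IsMetric x) {X : Mt n} (hX : X ∈ fm n) (h0 : X ≠ 0) : 0 < gx x X X := by
  rw [mem_fm] at hX
  have hex : ∃ p q, X p q ≠ 0 := by
    by_contra h
    push Not at h
    exact h0 (by ext p q; exact h p q)
  obtain ⟨p, q, hpq⟩ := hex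
  have hN := NN_pos p
  have h1 : gx x X X = 2 * NN n * ∑ p : Ix n, ∑ q : Ix n, x p.1 q.1 * ‖X p q‖ ^ 2 := by
    rw [gx_eq hx.symm hx.diag]
    unfold Gc
    have h2 : ∀ p q : Ix n, (x p.1 q.1 : ℂ) * (X p q * X q p) =
        ((-(x p.1 q.1 * ‖X p q‖ ^ 2) : ℝ) : ℂ) := by
      intro p q
      have h3 := skew_apply hX.1 p q
      have h4 : X q p = -star (X p q) := by rw [h3, neg_neg]
      rw [h4]
      have h5 : X p q * star (X p q) = ((‖X p q‖ ^ 2 : ℝ) : ℂ) := by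
        rw [Complex.star_def, Complex.mul_conj, Complex.normSq_eq_norm_sq]
      push_cast at h5 ⊢
      linear_combination (-(x p.1 q.1 : ℂ)) * h5
    simp only [h2]
    rw [← Complex.ofReal_re (2 * NN n * ∑ p : Ix n, ∑ q : Ix n, x p.1 q.1 * ‖X p q‖ ^ 2)]
    congr 1
    push_cast
    simp only [Finset.sum_neg_distrib]
    ring
  rw [h1]
  apply mul_pos (by positivity)
  have hnn : ∀ i j, 0 ≤ x i j := by
    intro i j
    by_cases hij : i = j
    · rw [hij, hx.diag]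
    · exact (hx.pos i j hij).le
  have hne : p.1 ≠ q.1 := fun h ↦ hpq (hX.2 p q h)
  refine Finset.sum_pos' (fun p _ ↦ Finset.sum_nonneg fun q _ ↦ mul_nonneg (hnn _ _) (by positivity))
    ⟨p, Finset.mem_univ _, Finset.sum_pos' (fun q _ ↦ mul_nonneg (hnn _ _) (by positivity))
      ⟨q, Finset.mem_univ _, mul_pos (hx.pos _ _ hne) (by positivity)⟩⟩

theorem gx_inv (hx : IsMetric x) {Y : Mt n} (hY : Y ∈ fk n) (X Z : Mt n) :
    gx x ⁅Y, X⁆ Z + gx x X ⁅Y, Z⁆ = 0 := by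
  have key : Gc x ⁅Y, X⁆ Z + Gc x X ⁅Y, Z⁆ = 0 := by
    let W : Mt n := fun p q ↦ (x p.1 q.1 : ℂ) * X p q
    have hW : ∀ p q, W p q = (x p.1 q.1 : ℂ) * X p q := fun p q ↦ rfl
    have h1 : Gc x ⁅Y, X⁆ Z = -(2 * (NN n : ℂ)) * (⁅Y, W⁆ * Z).trace := by
      unfold Gc
      congr 1
      rw [trace_mul_eq]
      refine Finset.sum_congr rfl fun p _ ↦ Finset.sum_congr rfl fun q _ ↦ ?_
      rw [← mul_assoc]
      congr 1
      rw [lie_apply, lie_apply, Finset.mul_sum]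
      refine Finset.sum_congr rfl fun r _ ↦ ?_
      rw [hW, hW]
      have e1 : Y p r * ((x r.1 q.1 : ℂ) * X r q) = Y p r * ((x p.1 q.1 : ℂ) * X r q) := by
        by_cases hpr : p.1 = r.1
        · rw [hpr]
        · rw [hY.2 p r hpr, zero_mul, zero_mul]
      have e2 : ((x p.1 r.1 : ℂ) * X p r) * Y r q = ((x p.1 q.1 : ℂ) * X p r) * Y r q := by
        by_cases hrq : r.1 = q.1
        · rw [hrq]
        · rw [hY.2 r q hrq, mul_zero, mul_zero]
      rw [e1, e2]
      ring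
    have h2 : Gc x X ⁅Y, Z⁆ = -(2 * (NN n : ℂ)) * (W * ⁅Y, Z⁆).trace := by
      unfold Gc
      congr 1
      rw [trace_mul_eq]
      refine Finset.sum_congr rfl fun p _ ↦ Finset.sum_congr rfl fun q _ ↦ ?_
      rw [hW]
      ring
    rw [h1, h2, ← mul_add, ← Matrix.trace_add]
    have h3 : ⁅Y, W⁆ * Z + W * ⁅Y, Z⁆ = Y * (W * Z) - (W * Z) * Y := by
      rw [Ring.lie_def, Ring.lie_def]
      noncomm_ring
    rw [h3, Matrix.trace_sub, Matrix.trace_mul_comm Y, sub_self, mul_zero]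
  rw [gx_eq hx.symm hx.diag, gx_eq hx.symm hx.diag, ← Complex.add_re, key, Complex.zero_re]

theorem fm_lie {Y X : Mt n} (hY : Y ∈ fk n) (hX : X ∈ fm n) : ⁅Y, X⁆ ∈ fm n := by
  rw [mem_fm] at hX ⊢
  refine ⟨?_, ?_⟩
  · rw [Ring.lie_def, Matrix.conjTranspose_sub, Matrix.conjTranspose_mul,
      Matrix.conjTranspose_mul, hX.1, hY.1.1]
    noncomm_ring
  · intro p q hpq
    rw [lie_apply]
    refine Finset.sum_eq_zero fun r _ ↦ ?_
    by_cases hpr : p.1 = r.1
    · rw [hX.2 p r hpr, hX.2 r q (hpr.symm.trans hpq)]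
      ring
    · have hrq : ¬ r.1 = q.1 := fun h ↦ hpr (hpq.trans h.symm)
      rw [hY.2 p r hpr, hY.2 r q hrq]
      ring

/-- The invariant inner products on `𝔪` are the forms `gx x`. -/
theorem inv_iff (hn : ∀ i, 0 < n i) (g : Mt n →ₗ[ℝ] Mt n →ₗ[ℝ] ℝ) :
    IsInvInner g ↔ ∃ x : Fin s → Fin s → ℝ, IsMetric x ∧
      ∀ X ∈ fm n, ∀ Z ∈ fm n, g X Z = gx x X Z := by
  constructor
  · intro hg
    let R : Fin s → Ix n := fun i ↦ ⟨i, ⟨0, hn i⟩⟩
    have hR1 : ∀ i, (R i).1 = i := fun i ↦ rfl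
    let x : Fin s → Fin s → ℝ := fun i j ↦
      if i = j then 0 else g (EA (R i) (R j)) (EA (R i) (R j)) / (4 * NN n)
    have hxne : ∀ i j, i ≠ j → x i j = g (EA (R i) (R j)) (EA (R i) (R j)) / (4 * NN n) :=
      fun i j h ↦ if_neg h
    have hx : IsMetric x := by
      refine ⟨?_, ?_, ?_⟩
      · intro i j
        by_cases hij : i = j
        · rw [hij]
        · rw [hxne i j hij, hxne j i (Ne.symm hij), c_symm]
      · intro i
        exact if_pos rfl
      · intro i j hij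
        rw [hxne i j hij]
        have hN := NN_pos (R i)
        refine div_pos (hg.pos _ (EA_mem (p := R i) (q := R j) hij) ?_) (by positivity)
        intro h
        have h1 := congrFun (congrFun h (R i)) (R j)
        rw [EA_val, if_pos ⟨rfl, rfl⟩, if_neg] at h1
        · simp at h1
        · rintro ⟨h2, -⟩
          exact hij (congrArg Sigma.fst h2).symm
    have hc : ∀ p q : Ix n, p.1 ≠ q.1 → g (EA p q) (EA p q) = 4 * NN n * x p.1 q.1 := by
      intro p q hpq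
      have hN := NN_pos p
      rw [hxne _ _ hpq, c_block hg (p := p) (q := q) (p' := R p.1) (q' := R q.1) rfl rfl hpq]
      field_simp
    have horth : ∀ k l : Kp n, g (bas x k) (bas x l) = if k = l then 1 else 0 := by
      rintro ⟨⟨⟨p, q⟩, h⟩, b⟩ ⟨⟨⟨p', q'⟩, h'⟩, b'⟩
      simp only at h h'
      have hN := NN_pos p
      have hxp := hx.pos _ _ h.ne
      have hsq : Real.sqrt (4 * NN n * x p.1 q.1) ^ 2 = 4 * NN n * x p.1 q.1 :=
        Real.sq_sqrt (by positivity)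
      have hs0 : Real.sqrt (4 * NN n * x p.1 q.1) ≠ 0 :=
        (Real.sqrt_pos.2 (by positivity)).ne'
      unfold bas
      simp only [map_smul, LinearMap.smul_apply, smul_eq_mul]
      by_cases hc' : p = p' ∧ q = q'
      · obtain ⟨rfl, rfl⟩ := hc'
        have hon := g_on hg p q h.ne
        have hcc := hc p q h.ne
        have hval : (Real.sqrt (4 * NN n * x p.1 q.1))⁻¹ *
            ((Real.sqrt (4 * NN n * x p.1 q.1))⁻¹ * (4 * NN n * x p.1 q.1)) = 1 := by
          have : (Real.sqrt (4 * NN n * x p.1 q.1))⁻¹ *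
            ((Real.sqrt (4 * NN n * x p.1 q.1))⁻¹ * (4 * NN n * x p.1 q.1)) =
              (4 * NN n * x p.1 q.1) / Real.sqrt (4 * NN n * x p.1 q.1) ^ 2 := by
            field_simp
          rw [this, hsq]
          exact div_self (by positivity)
        cases b <;> cases b'
        · simp only [Bool.false_eq_true, if_false]
          rw [hcc, hval]
          simp
        · simp only [Bool.false_eq_true, if_false, if_true]
          rw [hon.1, mul_zero, mul_zero, if_neg]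
          intro h3
          have := congrArg Prod.snd h3
          simp at this
        · simp only [Bool.false_eq_true, if_false, if_true]
          rw [hon.2.1, mul_zero, mul_zero, if_neg]
          intro h3
          have := congrArg Prod.snd h3
          simp at this
        · simp only [if_true]
          rw [hon.2.2, hcc, hval]
      · have hoff' := g_off hg p q h.ne p' q' h'.ne hc' (by
          rintro ⟨rfl, rfl⟩
          exact absurd h h'.not_gt)
        have hkl : ¬ ((⟨⟨(p, q), h⟩, b⟩ : Kp n) = ⟨⟨(p', q'), h'⟩, b'⟩) := by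
          intro h3
          have h4 := congrArg (fun k : Kp n ↦ k.1.1) h3
          simp only [Prod.mk.injEq] at h4
          exact hc' h4
        rw [if_neg hkl]
        cases b <;> cases b' <;>
          simp only [Bool.false_eq_true, if_false, if_true, hoff'.1, hoff'.2.1, hoff'.2.2.1,
            hoff'.2.2.2, mul_zero]
    refine ⟨x, hx, fun X hX Z hZ ↦ ?_⟩
    have hb := bas_onb (n := n) hx
    have hspan := hb.span
    have hgl : ∀ k l : Kp n, g (bas x k) (bas x l) = gxL n hx (bas x k) (bas x l) := by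
      intro k l
      rw [horth, gxL_apply, hb.orth]
    have h1 : ∀ k : Kp n, ∀ Z ∈ Submodule.span ℝ (Set.range (bas x : Kp n → Mt n)),
        g (bas x k) Z = gxL n hx (bas x k) Z := by
      intro k Z hZ
      induction hZ using Submodule.span_induction with
      | mem Z hZ =>
        obtain ⟨l, rfl⟩ := hZ
        exact hgl k l
      | zero => rw [map_zero, map_zero]
      | add Z Z' _ _ h h' => rw [map_add, map_add, h, h']
      | smul r Z _ h => rw [map_smul, map_smul, h]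
    have h2 : ∀ X ∈ Submodule.span ℝ (Set.range (bas x : Kp n → Mt n)),
        ∀ Z ∈ Submodule.span ℝ (Set.range (bas x : Kp n → Mt n)), g X Z = gxL n hx X Z := by
      intro X hX Z hZ
      induction hX using Submodule.span_induction with
      | mem X hX =>
        obtain ⟨l, rfl⟩ := hX
        exact h1 l Z hZ
      | zero => rw [map_zero, map_zero, LinearMap.zero_apply]
      | add X X' _ _ h h' =>
        rw [map_add, map_add, LinearMap.add_apply, LinearMap.add_apply, h, h']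
      | smul r X _ h => rw [map_smul, map_smul, LinearMap.smul_apply, LinearMap.smul_apply, h]
    exact h2 X (hspan X hX) Z (hspan Z hZ)
  · rintro ⟨x, hx, hgx⟩
    refine ⟨?_, ?_, ?_⟩
    · intro X hX Y hY
      rw [hgx X hX Y hY, hgx Y hY X hX, gx_eq hx.symm hx.diag, gx_eq hx.symm hx.diag,
        Gc_symm hx.symm]
    · intro X hX h0
      rw [hgx X hX X hX]
      exact gx_pos hx hX h0
    · intro Y hY X hX Z hZ
      rw [hgx _ (fm_lie hY hX) Z hZ, hgx X hX _ (fm_lie hY hZ)]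
      exact gx_inv hx hY X Z

/-- The parameters are determined by the form. -/
theorem gx_unique (hn : ∀ i, 0 < n i) {x y : Fin s → Fin s → ℝ} (hx : IsMetric x)
    (hy : IsMetric y) (h : ∀ X ∈ fm n, ∀ Z ∈ fm n, gx x X Z = gx y X Z) : x = y := by
  funext i j
  by_cases hij : i = j
  · rw [hij, hx.diag, hy.diag]
  · let R : Fin s → Ix n := fun i ↦ ⟨i, ⟨0, hn i⟩⟩
    have hne : R i ≠ R j := fun k ↦ hij (congrArg Sigma.fst k)
    have h1 := h _ (ES_mem (p := R i) (q := R j) hij) _ (ES_mem (p := R j) (q := R i) (Ne.symm hij))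
    rw [gx_ES hx hne, gx_ES hy hne] at h1
    have hN := NN_pos (R i)
    exact mul_left_cancel₀ (by positivity : 4 * NN n ≠ 0) h1

theorem gxL_inv (hn : ∀ i, 0 < n i) (hx : IsMetric x) : IsInvInner (gxL n hx) :=
  (inv_iff hn _).2 ⟨x, hx, fun _ _ _ _ ↦ rfl⟩

theorem prm_mem {X Y : Mt n} (hX : X ∈ fm n) (hY : Y ∈ fm n) : prm ⁅X, Y⁆ ∈ fm n := by
  rw [mem_fm] at hX hY ⊢
  have h1 : (⁅X, Y⁆ : Mt n)ᴴ = -⁅X, Y⁆ := by
    rw [Ring.lie_def, Matrix.conjTranspose_sub, Matrix.conjTranspose_mul,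
      Matrix.conjTranspose_mul, hX.1, hY.1]
    noncomm_ring
  refine ⟨?_, ?_⟩
  · ext p q
    have h2 := congrFun (congrFun h1 p) q
    rw [Matrix.conjTranspose_apply, Matrix.neg_apply] at h2 ⊢
    unfold prm
    by_cases hpq : p.1 = q.1
    · rw [if_pos hpq, if_pos hpq.symm, star_zero, neg_zero]
    · rw [if_neg hpq, if_neg (fun h ↦ hpq h.symm), h2]
  · intro p q hpq
    unfold prm
    rw [if_pos hpq]

/-- The family `e` is an orthonormal basis of `𝔪` with the inner product `g`. -/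
structure IsONBG {κ : Type} [Fintype κ] [DecidableEq κ] (g : Mt n →ₗ[ℝ] Mt n →ₗ[ℝ] ℝ)
    (e : κ → Mt n) : Prop where
  mem : ∀ j, e j ∈ fm n
  orth : ∀ i j, g (e i) (e j) = if i = j then 1 else 0
  span : ∀ X ∈ fm n, X ∈ Submodule.span ℝ (Set.range e)

/-- The Ricci curvature `Ric(X, X)` of the invariant metric given by the inner product `g` on `𝔪`,
computed with the orthonormal basis `e` of `𝔪` (A. Besse, Einstein Manifolds, Corollary 7.38, `G`
unimodular): `Ric(X, X) = -1/2 ∑_j |[X, e_j]_𝔪|² - 1/2 Kill(X, X) + 1/4 ∑_{i,j} g([e_i, e_j]_𝔪, X)²`. -/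
noncomputable def RicG {κ : Type} [Fintype κ] (g : Mt n →ₗ[ℝ] Mt n →ₗ[ℝ] ℝ) (e : κ → Mt n)
    (X : Mt n) : ℝ :=
  -(1 / 2) * ∑ j, g (prm ⁅X, e j⁆) (prm ⁅X, e j⁆) + 1 / 2 * B X X +
    1 / 4 * ∑ i, ∑ j, g (prm ⁅e i, e j⁆) X ^ 2

/-- The invariant metric given by the inner product `g` on `𝔪` is Einstein with the constant `c`. -/
def EinsteinG (c : ℝ) (g : Mt n →ₗ[ℝ] Mt n →ₗ[ℝ] ℝ) : Prop :=
  ∀ (κ : Type) [Fintype κ] [DecidableEq κ] (e : κ → Mt n), IsONBG g e →
    ∀ X ∈ fm n, RicG g e X = c * g X X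

/-- The invariant metric given by the inner product `g` on `𝔪` is Kähler with respect to some
invariant complex structure. -/
def KaehlerG (g : Mt n →ₗ[ℝ] Mt n →ₗ[ℝ] ℝ) : Prop :=
  ∃ J : Mt n →ₗ[ℝ] Mt n, IsComplexStructure J ∧
    (∀ X ∈ fm n, ∀ Y ∈ fm n, g (J X) (J Y) = g X Y) ∧
    ∀ X ∈ fm n, ∀ Y ∈ fm n, ∀ Z ∈ fm n, g (J (prm ⁅X, Y⁆)) Z + g (J (prm ⁅Y, Z⁆)) X +
      g (J (prm ⁅Z, X⁆)) Y = 0

theorem einsteinG_iff {g : Mt n →ₗ[ℝ] Mt n →ₗ[ℝ] ℝ}
    (h : ∀ X ∈ fm n, ∀ Z ∈ fm n, g X Z = gx x X Z) (c : ℝ) : EinsteinG c g ↔ Einstein n c x := by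
  have h1 : ∀ (κ : Type) [Fintype κ] [DecidableEq κ] (e : κ → Mt n), IsONBG g e ↔ IsONB x e := by
    intro κ _ _ e
    constructor
    · intro he
      exact ⟨he.mem, fun i j ↦ by rw [← h _ (he.mem i) _ (he.mem j), he.orth], he.span⟩
    · intro he
      exact ⟨he.mem, fun i j ↦ by rw [h _ (he.mem i) _ (he.mem j), he.orth], he.span⟩
  have h2 : ∀ (κ : Type) [Fintype κ] [DecidableEq κ] (e : κ → Mt n), IsONBG g e →
      ∀ X ∈ fm n, RicG g e X = Ric x e X := by
    intro κ _ _ e he X hX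
    unfold RicG Ric
    congr 1
    · congr 2
      refine Finset.sum_congr rfl fun j _ ↦ ?_
      exact h _ (prm_mem hX (he.mem j)) _ (prm_mem hX (he.mem j))
    · congr 1
      refine Finset.sum_congr rfl fun i _ ↦ Finset.sum_congr rfl fun j _ ↦ ?_
      rw [h _ (prm_mem (he.mem i) (he.mem j)) _ hX]
  constructor
  · intro hE κ _ _ e he X hX
    have he' := (h1 κ e).2 he
    rw [← h2 κ e he' X hX, hE κ e he' X hX, h X hX X hX]
  · intro hE κ _ _ e he X hX
    rw [h2 κ e he X hX, hE κ e ((h1 κ e).1 he) X hX, h X hX X hX]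

theorem kaehlerG_iff {g : Mt n →ₗ[ℝ] Mt n →ₗ[ℝ] ℝ}
    (h : ∀ X ∈ fm n, ∀ Z ∈ fm n, g X Z = gx x X Z) : KaehlerG g ↔ Kaehler n x := by
  constructor
  · rintro ⟨J, hJ, h1, h2⟩
    refine ⟨J, hJ, fun X hX Y hY ↦ ?_, fun X hX Y hY Z hZ ↦ ?_⟩
    · rw [← h _ (hJ.mem X hX) _ (hJ.mem Y hY), h1 X hX Y hY, h X hX Y hY]
    · rw [← h _ (hJ.mem _ (prm_mem hX hY)) _ hZ, ← h _ (hJ.mem _ (prm_mem hY hZ)) _ hX,
        ← h _ (hJ.mem _ (prm_mem hZ hX)) _ hY]
      exact h2 X hX Y hY Z hZ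
  · rintro ⟨J, hJ, h1, h2⟩
    refine ⟨J, hJ, fun X hX Y hY ↦ ?_, fun X hX Y hY Z hZ ↦ ?_⟩
    · rw [h _ (hJ.mem X hX) _ (hJ.mem Y hY), h1 X hX Y hY, h X hX Y hY]
    · rw [h _ (hJ.mem _ (prm_mem hX hY)) _ hZ, h _ (hJ.mem _ (prm_mem hY hZ)) _ hX,
        h _ (hJ.mem _ (prm_mem hZ hX)) _ hY]
      exact h2 X hX Y hY Z hZ

/-- The invariant metrics, Einstein metrics and Kähler metrics in terms of the parameters: the
invariant inner products on `𝔪` are the forms given by the parameters `x`, the parameters are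
unique, and the form is Einstein (Kähler) if and only if the parameters are. -/
theorem dict (hn : ∀ i, 0 < n i) (g : Mt n →ₗ[ℝ] Mt n →ₗ[ℝ] ℝ) (hg : IsInvInner g) :
    ∃! x : Fin s → Fin s → ℝ, IsMetric x ∧ (∀ X ∈ fm n, ∀ Z ∈ fm n, g X Z = gx x X Z) ∧
      (∀ c, EinsteinG c g ↔ IsEinstein n c x) ∧ (KaehlerG g ↔ IsKaehler x) := by
  obtain ⟨x, hx, h⟩ := (inv_iff hn g).1 hg
  refine ⟨x, ⟨hx, h, fun c ↦ (einsteinG_iff h c).trans (einstein_iff hn hx c),
    (kaehlerG_iff h).trans (kaehler_iff hn hx)⟩, ?_⟩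
  rintro y ⟨hy, h', -, -⟩
  refine gx_unique hn hy hx fun X hX Z hZ ↦ ?_
  rw [← h X hX Z hZ, ← h' X hX Z hZ]

end Pool.Agent.Helper58.EF.Mat
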