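import Pool.Agent.Helper58.EF.MatBase

/-!
# The invariant metrics which are Kähler
-/

set_option autoImplicit false

namespace Pool.Agent.Helper58.EF.Mat

open Matrix Finset Pool.Agent.Helper83.EIN

variable {s : ℕ} {n : Fin s → ℕ} {x : Fin s → Fin s → ℝ}

/-- `J` (restricted to `𝔪`) is an invariant complex structure on `G/K`: it commutes with the
isotropy representation and it is integrable. -/
structure IsComplexStructure (J : Mt n →ₗ[ℝ] Mt n) : Prop where
  mem : ∀ X ∈ fm n, J X ∈ fm n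
  sq : ∀ X ∈ fm n, J (J X) = -X
  inv : ∀ Y ∈ fk n, ∀ X ∈ fm n, J ⁅Y, X⁆ = ⁅Y, J X⁆
  integrable : ∀ X ∈ fm n, ∀ Y ∈ fm n,
    prm ⁅J X, J Y⁆ - prm ⁅X, Y⁆ - J (prm ⁅X, J Y⁆) - J (prm ⁅J X, Y⁆) = 0

/-- The invariant metric given by `g` is Kähler with respect to some invariant complex structure
`J`: `g` is hermitian, and the form `ω(X, Y) = g(J X, Y)` is closed. -/
def Kaehler (n : Fin s → ℕ) (x : Fin s → Fin s → ℝ) : Prop :=
  ∃ J : Mt n →ₗ[ℝ] Mt n, IsComplexStructure J ∧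
    (∀ X ∈ fm n, ∀ Y ∈ fm n, gx x (J X) (J Y) = gx x X Y) ∧
    ∀ X ∈ fm n, ∀ Y ∈ fm n, ∀ Z ∈ fm n, gx x (J (prm ⁅X, Y⁆)) Z + gx x (J (prm ⁅Y, Z⁆)) X +
      gx x (J (prm ⁅Z, X⁆)) Y = 0

/-- The complex structure of an order. -/
noncomputable def JJ (σ : Fin s → Fin s → ℝ) : Mt n →ₗ[ℝ] Mt n where
  toFun X := fun p q ↦ Complex.I * (σ p.1 q.1 : ℂ) * X p q
  map_add' X Y := by
    ext p q
    show Complex.I * (σ p.1 q.1 : ℂ) * (X + Y) p q = Complex.I * (σ p.1 q.1 : ℂ) * X p q +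
      Complex.I * (σ p.1 q.1 : ℂ) * Y p q
    rw [Matrix.add_apply]
    ring
  map_smul' r X := by
    ext p q
    show Complex.I * (σ p.1 q.1 : ℂ) * (r • X p q) = r • (Complex.I * (σ p.1 q.1 : ℂ) * X p q)
    rw [Complex.real_smul, Complex.real_smul]
    ring

theorem JJ_apply (σ : Fin s → Fin s → ℝ) (X : Mt n) (p q : Ix n) :
    JJ σ X p q = Complex.I * (σ p.1 q.1 : ℂ) * X p q := rfl

theorem lie_apply (X Y : Mt n) (p q : Ix n) :
    ⁅X, Y⁆ p q = ∑ r, (X p r * Y r q - Y p r * X r q) := by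
  rw [Ring.lie_def, Matrix.sub_apply, Matrix.mul_apply, Matrix.mul_apply,
    ← Finset.sum_sub_distrib]

/-- The signs. -/
noncomputable def sg (h : Fin s → ℝ) (i j : Fin s) : ℝ :=
  if h j < h i then 1 else if h i < h j then -1 else 0

theorem sg_spec {h : Fin s → ℝ} {i j : Fin s} (hij : h i ≠ h j) :
    (h j < h i ∧ sg h i j = 1 ∧ sg h j i = -1) ∨ (h i < h j ∧ sg h i j = -1 ∧ sg h j i = 1) := by
  unfold sg
  rcases lt_or_gt_of_ne hij with h1 | h1
  · right
    exact ⟨h1, by rw [if_neg h1.not_gt, if_pos h1], by rw [if_pos h1]⟩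
  · left
    exact ⟨h1, by rw [if_pos h1], by rw [if_neg h1.not_gt, if_pos h1]⟩

theorem sg_self {h : Fin s → ℝ} (i : Fin s) : sg h i i = 0 := by
  unfold sg
  simp

theorem sg_anti (h : Fin s → ℝ) (i j : Fin s) : sg h j i = -sg h i j := by
  by_cases hij : h i = h j
  · unfold sg
    simp [hij]
  · rcases sg_spec hij with h1 | h1
    · rw [h1.2.1, h1.2.2]
    · rw [h1.2.1, h1.2.2, neg_neg]

theorem sg_abs (h : Fin s → ℝ) (i j : Fin s) : |h i - h j| * sg h i j = h i - h j := by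
  by_cases hij : h i = h j
  · rw [hij]
    simp
  · rcases sg_spec hij with h1 | h1
    · rw [h1.2.1, abs_of_pos (by linarith [h1.1]), mul_one]
    · rw [h1.2.1, abs_of_neg (by linarith [h1.1])]
      ring

theorem sg_trans (h : Fin s → ℝ) (i j k : Fin s) (hij : h i ≠ h j) (hik : h i ≠ h k)
    (hkj : h k ≠ h j) : (sg h i j - sg h i k) * (sg h i j - sg h k j) = 0 := by
  rcases sg_spec hij with h1 | h1 <;> rcases sg_spec hik with h2 | h2 <;>
    rcases sg_spec hkj with h3 | h3 <;> rw [h1.2.1, h2.2.1, h3.2.1] <;> norm_num <;>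
    linarith [h1.1, h2.1, h3.1]

theorem kaehler_of (hx : IsMetric x) (hk : IsKaehler x) : Kaehler n x := by
  obtain ⟨h, hh⟩ := hk
  have hinj : ∀ i j : Fin s, i ≠ j → h i ≠ h j := by
    intro i j hij he
    have h1 := hx.pos i j hij
    rw [hh, he, sub_self, abs_zero] at h1
    exact lt_irrefl _ h1
  have hsq : ∀ i j : Fin s, i ≠ j → sg h i j ^ 2 = 1 := by
    intro i j hij
    rcases sg_spec (hinj i j hij) with h1 | h1
    · rw [h1.2.1]; norm_num
    · rw [h1.2.1]; norm_num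
  refine ⟨JJ (sg h), ⟨?_, ?_, ?_, ?_⟩, ?_, ?_⟩
  · intro X hX
    rw [mem_fm] at hX ⊢
    refine ⟨?_, ?_⟩
    · ext p q
      rw [Matrix.conjTranspose_apply, Matrix.neg_apply, JJ_apply, JJ_apply, star_mul', star_mul',
        skew_apply hX.1, sg_anti h q.1 p.1]
      simp
    · intro p q hpq
      rw [JJ_apply, hX.2 p q hpq, mul_zero]
  · intro X hX
    rw [mem_fm] at hX
    ext p q
    rw [JJ_apply, JJ_apply, Matrix.neg_apply]
    by_cases hpq : p.1 = q.1
    · rw [hX.2 p q hpq]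
      simp
    · have h1 : ((sg h p.1 q.1 : ℝ) : ℂ) ^ 2 = 1 := by exact_mod_cast hsq _ _ hpq
      linear_combination (Complex.I ^ 2 * X p q) * h1 + X p q * Complex.I_sq
  · intro Y hY X hX
    rw [mem_fm] at hX
    ext p q
    rw [JJ_apply, lie_apply, lie_apply, Finset.mul_sum]
    refine Finset.sum_congr rfl fun r _ ↦ ?_
    rw [JJ_apply, JJ_apply]
    have e1 : Y p r * (Complex.I * (sg h r.1 q.1 : ℂ) * X r q) =
        Y p r * (Complex.I * (sg h p.1 q.1 : ℂ) * X r q) := by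
      by_cases hpr : p.1 = r.1
      · rw [hpr]
      · rw [hY.2 p r hpr, zero_mul, zero_mul]
    have e2 : (Complex.I * (sg h p.1 r.1 : ℂ) * X p r) * Y r q =
        (Complex.I * (sg h p.1 q.1 : ℂ) * X p r) * Y r q := by
      by_cases hrq : r.1 = q.1
      · rw [hrq]
      · rw [hY.2 r q hrq, mul_zero, mul_zero]
    rw [e1, e2]
    ring
  · intro X hX Y hY
    rw [mem_fm] at hX hY
    ext p q
    rw [Matrix.sub_apply, Matrix.sub_apply, Matrix.sub_apply, JJ_apply, JJ_apply,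
      Matrix.zero_apply]
    unfold prm
    by_cases hpq : p.1 = q.1
    · simp [hpq]
    simp only [if_neg hpq]
    rw [lie_apply, lie_apply, lie_apply, lie_apply, Finset.mul_sum, Finset.mul_sum,
      ← Finset.sum_sub_distrib, ← Finset.sum_sub_distrib, ← Finset.sum_sub_distrib]
    refine Finset.sum_eq_zero fun r _ ↦ ?_
    simp only [JJ_apply]
    by_cases hpr : p.1 = r.1
    · rw [hX.2 p r hpr, hY.2 p r hpr]
      ring
    by_cases hrq : r.1 = q.1
    · rw [hX.2 r q hrq, hY.2 r q hrq]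
      ring
    have h1 : (((sg h p.1 q.1 : ℝ) : ℂ) - (sg h p.1 r.1 : ℝ)) * (((sg h p.1 q.1 : ℝ) : ℂ) -
        (sg h r.1 q.1 : ℝ)) = 0 := by
      exact_mod_cast sg_trans h p.1 q.1 r.1 (hinj _ _ hpq) (hinj _ _ hpr) (hinj _ _ hrq)
    have h2 : ((sg h p.1 q.1 : ℝ) : ℂ) ^ 2 = 1 := by exact_mod_cast hsq _ _ hpq
    have h3 := Complex.I_sq
    linear_combination (-(X p r * Y r q - Y p r * X r q)) * h1 +
      (X p r * Y r q - Y p r * X r q) * h2 +
      ((X p r * Y r q - Y p r * X r q) * ((sg h p.1 r.1 : ℂ) * (sg h r.1 q.1 : ℂ) -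
        (sg h p.1 q.1 : ℂ) * ((sg h r.1 q.1 : ℂ) + (sg h p.1 r.1 : ℂ)))) * h3
  · intro X hX Y hY
    rw [mem_fm] at hX
    rw [gx_eq hx.symm hx.diag, gx_eq hx.symm hx.diag]
    congr 1
    unfold Gc
    congr 1
    refine Finset.sum_congr rfl fun p _ ↦ Finset.sum_congr rfl fun q _ ↦ ?_
    rw [JJ_apply, JJ_apply]
    by_cases hpq : p.1 = q.1
    · rw [hX.2 p q hpq]
      ring
    · have h2 : ((sg h p.1 q.1 : ℝ) : ℂ) ^ 2 = 1 := by exact_mod_cast hsq _ _ hpq
      have h3 := Complex.I_sq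
      rw [sg_anti h p.1 q.1]
      push_cast
      linear_combination (x p.1 q.1 * X p q * Y q p) * h2 -
        (x p.1 q.1 * X p q * Y q p * (sg h p.1 q.1 : ℂ) ^ 2) * h3
  · intro X _ Y _ Z _
    have key : ∀ W V : Mt n, Gc x (JJ (sg h) (prm W)) V = -(2 * (NN n : ℂ)) * Complex.I *
        (Matrix.diagonal (fun p : Ix n ↦ (h p.1 : ℂ)) * (W * V - V * W)).trace := by
      intro W V
      unfold Gc
      rw [mul_assoc (-(2 * (NN n : ℂ)))]
      congr 1
      have h1 : (Matrix.diagonal (fun p : Ix n ↦ (h p.1 : ℂ)) * (W * V - V * W)).trace =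
          ∑ p : Ix n, ∑ q : Ix n, ((h p.1 : ℂ) - h q.1) * (W p q * V q p) := by
        have h2 : (Matrix.diagonal (fun p : Ix n ↦ (h p.1 : ℂ)) * (W * V - V * W)).trace =
            ∑ p : Ix n, (h p.1 : ℂ) * (∑ q, W p q * V q p - ∑ q, V p q * W q p) := by
          rw [Matrix.trace]
          refine Finset.sum_congr rfl fun p _ ↦ ?_
          rw [Matrix.diag_apply, Matrix.diagonal_mul, Matrix.sub_apply, Matrix.mul_apply,
            Matrix.mul_apply]
        have h3 : ∑ p : Ix n, ∑ q : Ix n, (h q.1 : ℂ) * (W p q * V q p) =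
            ∑ p : Ix n, ∑ q : Ix n, (h p.1 : ℂ) * (V p q * W q p) := by
          rw [Finset.sum_comm]
          refine Finset.sum_congr rfl fun p _ ↦ Finset.sum_congr rfl fun q _ ↦ ?_
          ring
        rw [h2]
        simp only [mul_sub, Finset.mul_sum, sub_mul, Finset.sum_sub_distrib]
        rw [← h3]
      rw [h1, Finset.mul_sum]
      refine Finset.sum_congr rfl fun p _ ↦ ?_
      rw [Finset.mul_sum]
      refine Finset.sum_congr rfl fun q _ ↦ ?_
      rw [JJ_apply]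
      unfold prm
      by_cases hpq : p.1 = q.1
      · simp [hpq]
      · rw [if_neg hpq]
        have h4 : ((x p.1 q.1 : ℝ) : ℂ) * (sg h p.1 q.1 : ℝ) = (h p.1 : ℂ) - h q.1 := by
          have h5 := sg_abs h p.1 q.1
          rw [← hh] at h5
          exact_mod_cast h5
        linear_combination (Complex.I * (W p q * V q p)) * h4
    have hsum : Gc x (JJ (sg h) (prm ⁅X, Y⁆)) Z + Gc x (JJ (sg h) (prm ⁅Y, Z⁆)) X +
        Gc x (JJ (sg h) (prm ⁅Z, X⁆)) Y = 0 := by
      rw [key, key, key, ← mul_add, ← mul_add, ← Matrix.trace_add, ← Matrix.trace_add,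
        ← Matrix.mul_add, ← Matrix.mul_add]
      have h6 : (⁅X, Y⁆ * Z - Z * ⁅X, Y⁆) + (⁅Y, Z⁆ * X - X * ⁅Y, Z⁆) +
          (⁅Z, X⁆ * Y - Y * ⁅Z, X⁆) = 0 := by
        rw [Ring.lie_def, Ring.lie_def, Ring.lie_def]
        noncomm_ring
      rw [h6]
      simp
    rw [gx_eq hx.symm hx.diag, gx_eq hx.symm hx.diag, gx_eq hx.symm hx.diag, ← Complex.add_re,
      ← Complex.add_re, hsum, Complex.zero_re]

end Pool.Agent.Helper58.EF.Mat
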