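import Pool.Agent.Helper58.EF.MatKaehler

/-!
# The invariant metrics which are Kähler: the converse
-/

set_option autoImplicit false

namespace Pool.Agent.Helper58.EF.Mat

open Matrix Finset Pool.Agent.Helper83.EIN

variable {s : ℕ} {n : Fin s → ℕ} {x : Fin s → Fin s → ℝ}

/-- The weights of the torus element. -/
def tau (p q a : Ix n) : ℝ := (if a = p then 1 else 0) - (if a = q then 1 else 0)

/-- An element of the torus. -/
noncomputable def TT (p q : Ix n) : Mt n := Matrix.diagonal fun a ↦ Complex.I * (tau p q a : ℂ)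

theorem TT_mem (p q : Ix n) : TT p q ∈ fk n := by
  refine ⟨⟨?_, ?_⟩, ?_⟩
  · unfold TT
    rw [Matrix.diagonal_conjTranspose]
    ext a b
    rw [Matrix.neg_apply]
    by_cases hab : a = b
    · subst hab
      rw [Matrix.diagonal_apply_eq, Matrix.diagonal_apply_eq]
      simp
    · rw [Matrix.diagonal_apply_ne _ hab, Matrix.diagonal_apply_ne _ hab, neg_zero]
  · unfold TT
    rw [Matrix.trace_diagonal, ← Finset.mul_sum, ← Complex.ofReal_sum]
    have : ∑ a, tau p q a = 0 := by
      unfold tau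
      rw [Finset.sum_sub_distrib]
      simp
    rw [this]
    simp
  · intro a b hab
    exact Matrix.diagonal_apply_ne _ fun h ↦ hab (by rw [h])

theorem lie_TT (p q : Ix n) (X : Mt n) (a b : Ix n) :
    ⁅TT p q, X⁆ a b = Complex.I * ((tau p q a : ℂ) - tau p q b) * X a b := by
  unfold TT
  rw [Ring.lie_def, Matrix.sub_apply, Matrix.diagonal_mul, Matrix.mul_diagonal]
  ring

theorem EA_val (p q a b : Ix n) :
    EA p q a b = (if p = a ∧ q = b then 1 else 0) - (if q = a ∧ p = b then 1 else 0) := by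
  unfold EA
  rw [Matrix.sub_apply, Matrix.single_apply, Matrix.single_apply]

theorem ES_val (p q a b : Ix n) :
    ES p q a b = Complex.I * ((if p = a ∧ q = b then 1 else 0) +
      (if q = a ∧ p = b then 1 else 0)) := by
  unfold ES
  rw [Matrix.smul_apply, Matrix.add_apply, Matrix.single_apply, Matrix.single_apply, smul_eq_mul]

theorem tau_left {p q : Ix n} (h : p ≠ q) : tau p q p = 1 := by
  unfold tau
  rw [if_pos rfl, if_neg h, sub_zero]

theorem tau_right {p q : Ix n} (h : p ≠ q) : tau p q q = -1 := by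
  unfold tau
  rw [if_pos rfl, if_neg (Ne.symm h), zero_sub]

theorem tau_ne {p q a b : Ix n} (h : p ≠ q) (h1 : ¬ (p = a ∧ q = b)) (h2 : ¬ (q = a ∧ p = b)) :
    (tau p q a - tau p q b) ^ 2 ≠ 4 := by
  have hv : ∀ c, (c = p ∧ tau p q c = 1) ∨ (c = q ∧ tau p q c = -1) ∨ tau p q c = 0 := by
    intro c
    by_cases hc : c = p
    · left
      exact ⟨hc, by rw [hc]; exact tau_left h⟩
    · right
      by_cases hc' : c = q
      · left
        exact ⟨hc', by rw [hc']; exact tau_right h⟩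
      · right
        unfold tau
        rw [if_neg hc, if_neg hc', sub_zero]
  rcases hv a with ⟨ha, ea⟩ | ⟨ha, ea⟩ | ea <;> rcases hv b with ⟨hb, eb⟩ | ⟨hb, eb⟩ | eb <;>
    rw [ea, eb]
  · norm_num
  · exact absurd ⟨ha.symm, hb.symm⟩ h1
  · norm_num
  · exact absurd ⟨ha.symm, hb.symm⟩ h2
  all_goals norm_num

theorem lie_TT_EA {p q : Ix n} (h : p ≠ q) : ⁅TT p q, EA p q⁆ = (2 : ℝ) • ES p q := by
  ext a b
  rw [lie_TT, Matrix.smul_apply, EA_val, ES_val, Complex.real_smul]
  by_cases h1 : p = a ∧ q = b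
  · obtain ⟨rfl, rfl⟩ := h1
    rw [tau_left h, tau_right h, if_pos ⟨rfl, rfl⟩, if_neg (fun k ↦ h k.2)]
    push_cast
    ring
  · by_cases h2 : q = a ∧ p = b
    · obtain ⟨rfl, rfl⟩ := h2
      rw [tau_left h, tau_right h, if_neg h1, if_pos ⟨rfl, rfl⟩]
      push_cast
      ring
    · rw [if_neg h1, if_neg h2]
      simp

theorem lie_TT_ES {p q : Ix n} (h : p ≠ q) : ⁅TT p q, ES p q⁆ = (-2 : ℝ) • EA p q := by
  ext a b
  rw [lie_TT, Matrix.smul_apply, EA_val, ES_val, Complex.real_smul]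
  have hI := Complex.I_sq
  by_cases h1 : p = a ∧ q = b
  · obtain ⟨rfl, rfl⟩ := h1
    rw [tau_left h, tau_right h, if_pos ⟨rfl, rfl⟩, if_neg (fun k ↦ h k.2)]
    push_cast
    linear_combination 2 * hI
  · by_cases h2 : q = a ∧ p = b
    · obtain ⟨rfl, rfl⟩ := h2
      rw [tau_left h, tau_right h, if_neg h1, if_pos ⟨rfl, rfl⟩]
      push_cast
      linear_combination (-2) * hI
    · rw [if_neg h1, if_neg h2]
      simp

theorem J_EA {J : Mt n →ₗ[ℝ] Mt n} (hJ : IsComplexStructure J) {p q : Ix n} (hpq : p.1 ≠ q.1) :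
    ∃ σ : ℝ, σ ^ 2 = 1 ∧ J (EA p q) = σ • ES p q ∧ J (ES p q) = (-σ) • EA p q := by
  have hne : p ≠ q := fun h ↦ hpq (by rw [h])
  have hE := EA_mem hpq
  have hS := ES_mem hpq
  have h1 := hJ.inv _ (TT_mem p q) _ hE
  have h2 := hJ.inv _ (TT_mem p q) _ hS
  rw [lie_TT_EA hne, map_smul] at h1
  rw [lie_TT_ES hne, map_smul] at h2
  have h1' : ∀ a b, 2 * J (ES p q) a b =
      Complex.I * ((tau p q a : ℂ) - tau p q b) * J (EA p q) a b := by
    intro a b
    have := congrFun (congrFun h1 a) b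
    rw [lie_TT, Matrix.smul_apply, Complex.real_smul] at this
    rw [← this]
    push_cast
    ring
  have h2' : ∀ a b, -2 * J (EA p q) a b =
      Complex.I * ((tau p q a : ℂ) - tau p q b) * J (ES p q) a b := by
    intro a b
    have := congrFun (congrFun h2 a) b
    rw [lie_TT, Matrix.smul_apply, Complex.real_smul] at this
    rw [← this]
    push_cast
    ring
  have hI := Complex.I_sq
  have hz : ∀ a b, ¬ (p = a ∧ q = b) → ¬ (q = a ∧ p = b) → J (EA p q) a b = 0 := by
    intro a b k1 k2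
    have h3 : (((tau p q a : ℂ) - tau p q b) ^ 2 - 4) * J (EA p q) a b = 0 := by
      linear_combination 2 * h2' a b + Complex.I * ((tau p q a : ℂ) - tau p q b) * h1' a b +
        ((tau p q a : ℂ) - tau p q b) ^ 2 * J (EA p q) a b * hI
    refine (mul_eq_zero.1 h3).resolve_left ?_
    intro h4
    apply tau_ne hne k1 k2
    have h5 : ((tau p q a : ℂ) - tau p q b) ^ 2 = 4 := by linear_combination h4
    exact_mod_cast h5
  have hsk := skew_apply (mem_fm.1 (hJ.mem _ hE)).1
  have hdec : J (EA p q) = (J (EA p q) p q).re • EA p q + (J (EA p q) p q).im • ES p q := by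
    ext a b
    rw [Matrix.add_apply, Matrix.smul_apply, Matrix.smul_apply, EA_val, ES_val,
      Complex.real_smul, Complex.real_smul]
    by_cases k1 : p = a ∧ q = b
    · obtain ⟨rfl, rfl⟩ := k1
      rw [if_pos ⟨rfl, rfl⟩, if_neg (fun k ↦ hne k.2)]
      conv_lhs => rw [← Complex.re_add_im (J (EA p q) p q)]
      ring
    · by_cases k2 : q = a ∧ p = b
      · obtain ⟨rfl, rfl⟩ := k2
        rw [if_neg k1, if_pos ⟨rfl, rfl⟩]
        have h3 : J (EA p q) q p = -star (J (EA p q) p q) := by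
          rw [hsk p q, neg_neg]
        have h4 : star (J (EA p q) p q) =
            ((J (EA p q) p q).re : ℂ) - (J (EA p q) p q).im * Complex.I := by
          apply Complex.ext <;> simp
        rw [h3, h4]
        ring
      · rw [hz a b k1 k2, if_neg k1, if_neg k2]
        ring
  have hw : J (ES p q) p q = Complex.I * J (EA p q) p q := by
    have h3 := h1' p q
    rw [tau_left hne, tau_right hne] at h3
    push_cast at h3
    linear_combination (1 / 2) * h3
  have hsq : J (EA p q) p q ^ 2 = -1 := by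
    have h3 := hJ.sq _ hE
    have h4 : J (J (EA p q)) = (J (EA p q) p q).re • J (EA p q) +
        (J (EA p q) p q).im • J (ES p q) := by
      conv_lhs => rw [hdec]
      rw [map_add, map_smul, map_smul]
    have h5 := congrFun (congrFun (h4.symm.trans h3) p) q
    rw [Matrix.add_apply, Matrix.smul_apply, Matrix.smul_apply, Matrix.neg_apply, EA_val,
      if_pos ⟨rfl, rfl⟩, if_neg (fun k ↦ hne k.2), Complex.real_smul, Complex.real_smul, hw] at h5
    have h6 := Complex.re_add_im (J (EA p q) p q)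
    linear_combination h5 - J (EA p q) p q * h6
  have hre : (J (EA p q) p q).re = 0 ∧ (J (EA p q) p q).im ^ 2 = 1 := by
    have r1 := congrArg Complex.re hsq
    have r2 := congrArg Complex.im hsq
    rw [pow_two] at r1 r2
    simp only [Complex.mul_re, Complex.mul_im, Complex.neg_re, Complex.neg_im, Complex.one_re,
      Complex.one_im] at r1 r2
    have r3 : (J (EA p q) p q).re * (J (EA p q) p q).im = 0 := by linarith
    rcases mul_eq_zero.1 r3 with r4 | r4
    · refine ⟨r4, ?_⟩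
      rw [r4] at r1
      nlinarith
    · rw [r4] at r1
      nlinarith
  have hZ : J (EA p q) = (J (EA p q) p q).im • ES p q := by
    conv_lhs => rw [hdec]
    rw [hre.1, zero_smul, zero_add]
  refine ⟨(J (EA p q) p q).im, hre.2, hZ, ?_⟩
  have h6 : (2 : ℝ) • J (ES p q) = (2 : ℝ) • ((-(J (EA p q) p q).im) • EA p q) := by
    rw [h1]
    conv_lhs => rw [hZ]
    have h7 : ⁅TT p q, (J (EA p q) p q).im • ES p q⁆ =
        (J (EA p q) p q).im • ⁅TT p q, ES p q⁆ := by
      ext a b
      rw [lie_TT, Matrix.smul_apply, Matrix.smul_apply, lie_TT, Complex.real_smul,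
        Complex.real_smul]
      ring
    rw [h7, lie_TT_ES hne, smul_smul, smul_smul]
    congr 1
    ring
  exact smul_right_injective _ (by norm_num : (2 : ℝ) ≠ 0) h6

theorem gx_smul (hs : ∀ i j, x i j = x j i) (h0 : ∀ i, x i i = 0) (r : ℝ) (Y Z : Mt n) :
    gx x (r • Y) Z = r * gx x Y Z := by
  rw [gx_eq hs h0, gx_eq hs h0, Gc_smul_real, Complex.re_ofReal_mul]

theorem gx_ES (hx : IsMetric x) {p q : Ix n} (hne : p ≠ q) :
    gx x (ES p q) (ES q p) = 4 * NN n * x p.1 q.1 := by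
  rw [gx_eq hx.symm hx.diag, Gc_ES _ hx.symm, ES_val, ES_val, if_pos ⟨rfl, rfl⟩,
    if_neg (fun k ↦ hne k.1), if_neg (fun k ↦ hne k.1.symm), if_pos ⟨rfl, rfl⟩]
  have : -(2 * (NN n : ℂ)) * ((x p.1 q.1 : ℂ) * (Complex.I * (Complex.I * (1 + 0) +
      Complex.I * (0 + 1)))) = ((4 * NN n * x p.1 q.1 : ℝ) : ℂ) := by
    push_cast
    linear_combination (-4 * (NN n : ℂ) * x p.1 q.1) * Complex.I_sq
  rw [this, Complex.ofReal_re]

theorem gx_EA' (hx : IsMetric x) {p q : Ix n} (hne : p ≠ q) :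
    gx x (EA p q) (EA q p) = -(4 * NN n * x p.1 q.1) := by
  rw [gx_eq hx.symm hx.diag, Gc_EA _ hx.symm, EA_val, EA_val, if_pos ⟨rfl, rfl⟩,
    if_neg (fun k ↦ hne k.1), if_neg (fun k ↦ hne k.1.symm), if_pos ⟨rfl, rfl⟩]
  have : -(2 * (NN n : ℂ)) * ((x p.1 q.1 : ℂ) * (1 - 0 - (0 - 1))) =
      ((-(4 * NN n * x p.1 q.1) : ℝ) : ℂ) := by
    push_cast
    ring
  rw [this, Complex.ofReal_re]

theorem prm_of_mem {X : Mt n} (hX : X ∈ fm n) : prm X = X := by
  rw [mem_fm] at hX
  ext p q
  unfold prm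
  split_ifs with h
  · rw [hX.2 p q h]
  · rfl

theorem ss (a b c d : Ix n) : (Matrix.single a b 1 * Matrix.single c d 1 : Mt n) =
    if b = c then Matrix.single a d 1 else 0 := by
  by_cases h : b = c
  · subst h
    rw [if_pos rfl, Matrix.single_mul_single_same, mul_one]
  · rw [if_neg h]
    ext u v
    rw [Matrix.mul_apply]
    refine Finset.sum_eq_zero fun w _ ↦ ?_
    rw [Matrix.single_apply, Matrix.single_apply]
    by_cases hw : b = w
    · rw [if_neg (fun k : c = w ∧ d = v ↦ h (hw.trans k.1.symm)), mul_zero]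
    · rw [if_neg (fun k : a = u ∧ b = w ↦ hw k.2), zero_mul]

theorem lie_EA_EA {p q r : Ix n} (h1 : p ≠ q) (h2 : p ≠ r) (h3 : r ≠ q) :
    ⁅EA p r, EA r q⁆ = EA p q := by
  unfold EA
  rw [Ring.lie_def]
  simp only [mul_sub, sub_mul, ss, h1, h2, h3, h1.symm, h2.symm, h3.symm, if_true, if_false]
  abel

theorem lie_EA_ES {p q r : Ix n} (h1 : p ≠ q) (h2 : p ≠ r) (h3 : r ≠ q) :
    ⁅EA p r, ES r q⁆ = ES p q := by
  unfold EA ES
  rw [Ring.lie_def]
  simp only [Matrix.mul_smul, Matrix.smul_mul, mul_sub, sub_mul, mul_add, add_mul, ss, h1, h2, h3,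
    h1.symm, h2.symm, h3.symm, if_true, if_false, smul_add, smul_zero]
  abel

theorem lie_ES_EA {p q r : Ix n} (h1 : q ≠ p) (h2 : q ≠ r) (h3 : p ≠ r) :
    ⁅ES q p, EA p r⁆ = ES q r := by
  unfold EA ES
  rw [Ring.lie_def]
  simp only [Matrix.mul_smul, Matrix.smul_mul, mul_sub, sub_mul, mul_add, add_mul, ss, h1, h2, h3,
    h1.symm, h2.symm, h3.symm, if_true, if_false, smul_add, smul_sub, smul_zero]
  simp

theorem EA_symm (p q : Ix n) : EA q p = -EA p q := by
  unfold EA
  abel

theorem ES_symm (p q : Ix n) : ES q p = ES p q := by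
  unfold ES
  rw [add_comm]

theorem of_kaehler (hn : ∀ i, 0 < n i) (hx : IsMetric x) (hk : Kaehler n x) : IsKaehler x := by
  obtain ⟨J, hJ, -, hcl⟩ := hk
  let R : Fin s → Ix n := fun i ↦ ⟨i, ⟨0, hn i⟩⟩
  have hR : ∀ i j, i ≠ j → R i ≠ R j := fun i j h k ↦ h (congrArg Sigma.fst k)
  have hR1 : ∀ i, (R i).1 = i := fun i ↦ rfl
  have hex : ∀ i j : Fin s, ∃ σ : ℝ, i ≠ j → σ ^ 2 = 1 ∧ J (EA (R i) (R j)) = σ • ES (R i) (R j) ∧
      J (ES (R i) (R j)) = (-σ) • EA (R i) (R j) := by
    intro i j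
    by_cases h : i = j
    · exact ⟨0, fun k ↦ absurd h k⟩
    · obtain ⟨σ, hσ⟩ := J_EA hJ (p := R i) (q := R j) h
      exact ⟨σ, fun _ ↦ hσ⟩
  choose σ hσ using hex
  have hanti : ∀ i j, i ≠ j → σ j i = -σ i j := by
    intro i j hij
    have h1 := (hσ i j hij).2.1
    have h2 := (hσ j i (Ne.symm hij)).2.1
    rw [EA_symm (R i) (R j), map_neg, h1, ES_symm (R i) (R j)] at h2
    have h3 := congrFun (congrFun h2 (R i)) (R j)
    rw [Matrix.neg_apply, Matrix.smul_apply, Matrix.smul_apply, ES_val, if_pos ⟨rfl, rfl⟩,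
      if_neg (fun k ↦ hR i j hij k.2), add_zero, mul_one, Complex.real_smul,
      Complex.real_smul] at h3
    have h4 := congrArg Complex.im h3
    simp at h4
    linarith
  have hcoc : ∀ i j k, i ≠ j → i ≠ k → k ≠ j →
      x i j * σ i j + x k i * σ k i + x j k * σ j k = 0 := by
    intro i j k h1 h2 h3
    have g1 := hR i j h1
    have g2 := hR i k h2
    have g3 := hR k j h3
    have b1 : ⁅EA (R i) (R k), EA (R k) (R j)⁆ = EA (R i) (R j) := lie_EA_EA g1 g2 g3
    have b2 : ⁅EA (R k) (R j), ES (R j) (R i)⁆ = ES (R k) (R i) := lie_EA_ES g2.symm g3 g1.symm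
    have b3 : ⁅ES (R j) (R i), EA (R i) (R k)⁆ = ES (R j) (R k) := lie_ES_EA g1.symm g3.symm g2
    have h := hcl _ (EA_mem (p := R i) (q := R k) h2) _ (EA_mem (p := R k) (q := R j) h3) _
      (ES_mem (p := R j) (q := R i) h1.symm)
    rw [b1, b2, b3, prm_of_mem (EA_mem (p := R i) (q := R j) h1),
      prm_of_mem (ES_mem (p := R k) (q := R i) h2.symm),
      prm_of_mem (ES_mem (p := R j) (q := R k) h3.symm), (hσ i j h1).2.1, (hσ k i h2.symm).2.2,
      (hσ j k h3.symm).2.2, gx_smul hx.symm hx.diag, gx_smul hx.symm hx.diag,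
      gx_smul hx.symm hx.diag, gx_ES hx g1, gx_EA' hx g2.symm, gx_EA' hx g3.symm] at h
    simp only [hR1] at h
    have hN := NN_pos (R i)
    have h5 : 4 * NN n * (x i j * σ i j + x k i * σ k i + x j k * σ j k) = 0 := by
      linear_combination h
    exact (mul_eq_zero.1 h5).resolve_left (by positivity)
  rcases Nat.eq_zero_or_pos s with hs | hs
  · subst hs
    exact ⟨fun _ ↦ 0, fun i ↦ i.elim0⟩
  · let o : Fin s := ⟨0, hs⟩
    refine ⟨fun i ↦ x i o * σ i o, fun i j ↦ ?_⟩
    have hmain : x i o * σ i o - x j o * σ j o = x i j * σ i j := by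
      by_cases hij : i = j
      · rw [hij, hx.diag, zero_mul, sub_self]
      by_cases hi : i = o
      · rw [hi, hx.diag, zero_mul, zero_sub, hanti o j (fun k ↦ hij (hi.trans k)), hx.symm j o]
        ring
      by_cases hj : j = o
      · rw [hj, hx.diag, zero_mul, sub_zero]
      have h := hcoc i j o hij hi (Ne.symm hj)
      rw [hanti i o hi, hx.symm o i] at h
      linear_combination -h
    show x i j = |x i o * σ i o - x j o * σ j o|
    rw [hmain, abs_mul]
    by_cases hij : i = j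
    · rw [hij, hx.diag, abs_zero, zero_mul]
    · have h1 := (hσ i j hij).1
      have h2 : |σ i j| = 1 := by
        rw [← sq_abs] at h1
        nlinarith [abs_nonneg (σ i j)]
      rw [h2, mul_one, abs_of_pos (hx.pos i j hij)]

/-- The invariant metrics which are Kähler. -/
theorem kaehler_iff (hn : ∀ i, 0 < n i) (hx : IsMetric x) : Kaehler n x ↔ IsKaehler x :=
  ⟨of_kaehler hn hx, kaehler_of hx⟩

end Pool.Agent.Helper58.EF.Mat
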