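import Pool.Agent.Helper58.EF.MatBasic

/-!
# The Killing form of `𝔰𝔲(N)`
-/

set_option autoImplicit false

namespace Pool.Agent.Helper58.EF.Mat

open Matrix Finset

attribute [local instance 100] LieRing.ofAssociativeRing
attribute [local instance 100] LieAlgebra.ofAssociativeAlgebra

variable {s : ℕ}

/-- The real Lie algebra `𝔰𝔲(N)` of the skew hermitian matrices with trace `0`. -/
noncomputable def suL (n : Fin s → ℕ) : LieSubalgebra ℝ (Mt n) where
  carrier := fg n
  add_mem' := by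
    rintro X Y ⟨h1, h2⟩ ⟨h3, h4⟩
    refine ⟨?_, ?_⟩
    · rw [Matrix.conjTranspose_add, h1, h3, neg_add]
    · rw [Matrix.trace_add, h2, h4, add_zero]
  zero_mem' := ⟨by simp, by simp⟩
  smul_mem' := by
    rintro r X ⟨h1, h2⟩
    refine ⟨?_, ?_⟩
    · rw [Matrix.conjTranspose_smul, h1]
      simp
    · rw [Matrix.trace_smul, h2, smul_zero]
  lie_mem' := by
    rintro X Y ⟨h1, h2⟩ ⟨h3, h4⟩
    refine ⟨?_, ?_⟩
    · rw [Ring.lie_def, Matrix.conjTranspose_sub, Matrix.conjTranspose_mul,
        Matrix.conjTranspose_mul, h1, h3]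
      simp
    · rw [Ring.lie_def, Matrix.trace_sub, Matrix.trace_mul_comm, sub_self]

variable {n : Fin s → ℕ}

theorem card_Ix : (Fintype.card (Ix n) : ℂ) = (NN n : ℂ) := by
  unfold NN
  rw [Fintype.card_sigma]
  simp

/-- The frame. -/
noncomputable def fA (p q : Ix n) : suL n := ⟨Matrix.single p q 1 - Matrix.single q p 1, by
  refine ⟨?_, ?_⟩
  · rw [Matrix.conjTranspose_sub, Matrix.conjTranspose_single, Matrix.conjTranspose_single]
    simp
  · rw [Matrix.trace_sub]
    by_cases h : p = q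
    · rw [h, sub_self]
    · rw [Matrix.trace_single_eq_of_ne _ _ _ h, Matrix.trace_single_eq_of_ne _ _ _ (Ne.symm h),
        sub_zero]⟩

noncomputable def fS (p q : Ix n) : suL n :=
  ⟨Complex.I • (Matrix.single p q 1 + Matrix.single q p 1) -
    (if p = q then (2 * Complex.I / (NN n : ℂ)) else 0) • (1 : Mt n), by
  refine ⟨?_, ?_⟩
  · rw [Matrix.conjTranspose_sub, Matrix.conjTranspose_smul, Matrix.conjTranspose_add,
      Matrix.conjTranspose_single, Matrix.conjTranspose_single, Matrix.conjTranspose_smul,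
      Matrix.conjTranspose_one]
    have h1 : star (if p = q then (2 * Complex.I / (NN n : ℂ)) else 0) =
        -(if p = q then (2 * Complex.I / (NN n : ℂ)) else 0) := by
      split_ifs
      · simp [neg_div]
      · simp
    rw [h1]
    simp only [star_one, RCLike.star_def, Complex.conj_I]
    rw [neg_smul, neg_smul, neg_sub, add_comm (Matrix.single q p (1 : ℂ))]
    abel
  · rw [Matrix.trace_sub, Matrix.trace_smul, Matrix.trace_smul, Matrix.trace_one, card_Ix,
      Matrix.trace_add]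
    by_cases h : p = q
    · have hN : (NN n : ℂ) ≠ 0 := by exact_mod_cast (NN_pos p).ne'
      rw [h, if_pos rfl, Matrix.trace_single_eq_same, smul_eq_mul, smul_eq_mul,
        div_mul_cancel₀ _ hN]
      ring
    · rw [if_neg h, Matrix.trace_single_eq_of_ne _ _ _ h,
        Matrix.trace_single_eq_of_ne _ _ _ (Ne.symm h)]
      simp⟩

/-- The coefficients. -/
noncomputable def cR (p q : Ix n) : suL n →ₗ[ℝ] ℝ where
  toFun Y := 1 / 2 * ((Y : Mt n) p q).re
  map_add' X Y := by
    show 1 / 2 * (((X : Mt n) + (Y : Mt n)) p q).re = _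
    rw [Matrix.add_apply, Complex.add_re]
    ring
  map_smul' r X := by
    show 1 / 2 * ((r • (X : Mt n)) p q).re = _
    rw [Matrix.smul_apply, Complex.real_smul, Complex.re_ofReal_mul]
    simp only [RingHom.id_apply, smul_eq_mul]
    ring

noncomputable def cI (p q : Ix n) : suL n →ₗ[ℝ] ℝ where
  toFun Y := 1 / 2 * ((Y : Mt n) p q).im
  map_add' X Y := by
    show 1 / 2 * (((X : Mt n) + (Y : Mt n)) p q).im = _
    rw [Matrix.add_apply, Complex.add_im]
    ring
  map_smul' r X := by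
    show 1 / 2 * ((r • (X : Mt n)) p q).im = _
    rw [Matrix.smul_apply, Complex.real_smul, Complex.im_ofReal_mul]
    simp only [RingHom.id_apply, smul_eq_mul]
    ring

theorem frame (Y : suL n) : Y = ∑ p, ∑ q, (cR p q Y • fA p q + cI p q Y • fS p q) := by
  apply Subtype.ext
  have hY : (Y : Mt n) ∈ fg n := Y.2
  have hco : ((∑ p, ∑ q, (cR p q Y • fA p q + cI p q Y • fS p q) : suL n) : Mt n) =
      ∑ p, ∑ q, (cR p q Y • (fA p q : Mt n) + cI p q Y • (fS p q : Mt n)) := by
    push_cast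
    rfl
  rw [hco]
  ext a b
  have hsk := skew_apply hY.1 a b
  have e1 : ∀ p q : Ix n, (cR p q Y • (fA p q : Mt n) + cI p q Y • (fS p q : Mt n)) a b =
      (1 / 2 * ((Y : Mt n) p q).re : ℝ) * ((if p = a then (if q = b then (1 : ℂ) else 0) else 0) -
        (if q = a then (if p = b then (1 : ℂ) else 0) else 0)) +
      (1 / 2 * ((Y : Mt n) p q).im : ℝ) * (Complex.I * ((if p = a then (if q = b then (1 : ℂ) else 0)
        else 0) + (if q = a then (if p = b then (1 : ℂ) else 0) else 0))) -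
      (if p = q then (1 / 2 * ((Y : Mt n) p q).im : ℝ) * (2 * Complex.I / (NN n : ℂ) *
        (1 : Mt n) a b) else 0) := by
    intro p q
    have g1 : (fA p q : Mt n) a b = (if p = a then (if q = b then (1 : ℂ) else 0) else 0) -
        (if q = a then (if p = b then (1 : ℂ) else 0) else 0) := by
      show (Matrix.single p q 1 - Matrix.single q p 1 : Mt n) a b = _
      rw [Matrix.sub_apply, Matrix.single_apply, Matrix.single_apply]
      simp only [ite_and]
    have g2 : (fS p q : Mt n) a b = Complex.I * ((if p = a then (if q = b then (1 : ℂ) else 0)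
        else 0) + (if q = a then (if p = b then (1 : ℂ) else 0) else 0)) -
        (if p = q then 2 * Complex.I / (NN n : ℂ) * (1 : Mt n) a b else 0) := by
      show (Complex.I • (Matrix.single p q 1 + Matrix.single q p 1) -
        (if p = q then (2 * Complex.I / (NN n : ℂ)) else 0) • (1 : Mt n) : Mt n) a b = _
      rw [Matrix.sub_apply, Matrix.smul_apply, Matrix.smul_apply, Matrix.add_apply,
        Matrix.single_apply, Matrix.single_apply]
      simp only [ite_and, smul_eq_mul, ite_mul, zero_mul]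
    rw [Matrix.add_apply, Matrix.smul_apply, Matrix.smul_apply, g1, g2, Complex.real_smul,
      Complex.real_smul]
    have g3 : cR p q Y = 1 / 2 * ((Y : Mt n) p q).re := rfl
    have g4 : cI p q Y = 1 / 2 * ((Y : Mt n) p q).im := rfl
    rw [g3, g4]
    split_ifs <;> ring
  rw [Matrix.sum_apply]
  have e2 : ∀ p, (∑ q, (cR p q Y • (fA p q : Mt n) + cI p q Y • (fS p q : Mt n))) a b =
      ∑ q, (cR p q Y • (fA p q : Mt n) + cI p q Y • (fS p q : Mt n)) a b := fun p ↦
    Matrix.sum_apply _ _ _ _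
  simp only [e2, e1, Finset.sum_sub_distrib, Finset.sum_add_distrib, mul_sub, mul_add, mul_ite,
    mul_one, mul_zero, Finset.sum_ite_eq, Finset.sum_ite_eq', Finset.mem_univ, if_true]
  have e3 : ∑ p : Ix n, ((1 / 2 * ((Y : Mt n) p p).im : ℝ) : ℂ) *
      (2 * Complex.I / (NN n : ℂ) * (1 : Mt n) a b) = 0 := by
    rw [← Finset.sum_mul, ← Complex.ofReal_sum, ← Finset.mul_sum]
    have h4 := congrArg Complex.im hY.2
    rw [Matrix.trace, Complex.im_sum] at h4
    have h5 : ∑ p : Ix n, ((Y : Mt n) p p).im = 0 := h4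
    rw [h5]
    simp
  rw [e3]
  have e4 : ∀ (f : Ix n → Ix n → ℂ), ∑ p, (if p = b then f p a else 0) = f b a := by
    intro f
    rw [Finset.sum_ite_eq', if_pos (mem_univ b)]
  have hba : (Y : Mt n) b a = -star ((Y : Mt n) a b) := by rw [hsk, neg_neg]
  simp only [Finset.sum_ite_irrel, Finset.sum_const_zero, Finset.sum_ite_eq', Finset.mem_univ,
    if_true]
  rw [hba]
  apply Complex.ext <;> simp <;> ring

/-- The trace of an endomorphism. -/
theorem trace_eq (f : suL n →ₗ[ℝ] suL n) : LinearMap.trace ℝ (suL n) f =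
    ∑ p, ∑ q, (cR p q (f (fA p q)) + cI p q (f (fS p q))) := by
  have h1 : f = ∑ p, ∑ q, ((cR p q).smulRight (f (fA p q)) + (cI p q).smulRight (f (fS p q))) := by
    apply LinearMap.ext
    intro Y
    conv_lhs => rw [frame Y]
    simp only [map_sum, map_add, map_smul, LinearMap.sum_apply, LinearMap.add_apply,
      LinearMap.smulRight_apply]
  conv_lhs => rw [h1]
  simp only [map_sum, map_add, LinearMap.trace_smulRight]

/-- The double commutator. -/
noncomputable def dc (X Y Z : Mt n) : Mt n := X * (Y * Z - Z * Y) - (Y * Z - Z * Y) * X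

theorem dc_single (X Y : Mt n) (p q : Ix n) : dc X Y (Matrix.single p q 1) p q =
    (X * Y) p p - X p p * Y q q - Y p p * X q q + (Y * X) q q := by
  unfold dc
  have e : X * (Y * Matrix.single p q 1 - Matrix.single p q 1 * Y) -
      (Y * Matrix.single p q 1 - Matrix.single p q 1 * Y) * X =
      (X * Y) * Matrix.single p q 1 - X * (Matrix.single p q 1 * Y) -
      Y * (Matrix.single p q 1 * X) + Matrix.single p q 1 * (Y * X) := by
    noncomm_ring
  rw [e, Matrix.add_apply, Matrix.sub_apply, Matrix.sub_apply]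
  simp [Matrix.mul_apply, Matrix.single_apply, Finset.mul_sum, ite_and]

theorem dc_sub (X Y Z W : Mt n) : dc X Y (Z - W) = dc X Y Z - dc X Y W := by
  unfold dc
  noncomm_ring

theorem dc_add (X Y Z W : Mt n) : dc X Y (Z + W) = dc X Y Z + dc X Y W := by
  unfold dc
  noncomm_ring

theorem dc_smul (X Y Z : Mt n) (c : ℂ) : dc X Y (c • Z) = c • dc X Y Z := by
  unfold dc
  rw [Matrix.mul_smul, Matrix.smul_mul, ← smul_sub, Matrix.mul_smul, Matrix.smul_mul, ← smul_sub]

theorem dc_one (X Y : Mt n) : dc X Y 1 = 0 := by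
  unfold dc
  simp

/-- **The Killing form.** `B` is the negative of the Killing form of `𝔰𝔲(N)`. -/
theorem B_eq (X Y : suL n) : B (X : Mt n) (Y : Mt n) = -killingForm ℝ (suL n) X Y := by
  rw [killingForm_apply_apply, trace_eq]
  have h1 : ∀ Z : suL n, (((LieAlgebra.ad ℝ (suL n)) X ∘ₗ (LieAlgebra.ad ℝ (suL n)) Y) Z : Mt n) =
      dc (X : Mt n) (Y : Mt n) (Z : Mt n) := by
    intro Z
    show ((⁅X, ⁅Y, Z⁆⁆ : suL n) : Mt n) = _
    rw [LieSubalgebra.coe_bracket, LieSubalgebra.coe_bracket, Ring.lie_def, Ring.lie_def]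
    rfl
  have h2 : ∀ p q : Ix n, cR p q (((LieAlgebra.ad ℝ (suL n)) X ∘ₗ
      (LieAlgebra.ad ℝ (suL n)) Y) (fA p q)) + cI p q (((LieAlgebra.ad ℝ (suL n)) X ∘ₗ
      (LieAlgebra.ad ℝ (suL n)) Y) (fS p q)) =
      (dc (X : Mt n) (Y : Mt n) (Matrix.single p q 1) p q).re := by
    intro p q
    have e1 : cR p q (((LieAlgebra.ad ℝ (suL n)) X ∘ₗ (LieAlgebra.ad ℝ (suL n)) Y) (fA p q)) =
        1 / 2 * ((((LieAlgebra.ad ℝ (suL n)) X ∘ₗ (LieAlgebra.ad ℝ (suL n)) Y) (fA p q) : Mt n)
          p q).re := rfl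
    have e2 : cI p q (((LieAlgebra.ad ℝ (suL n)) X ∘ₗ (LieAlgebra.ad ℝ (suL n)) Y) (fS p q)) =
        1 / 2 * ((((LieAlgebra.ad ℝ (suL n)) X ∘ₗ (LieAlgebra.ad ℝ (suL n)) Y) (fS p q) : Mt n)
          p q).im := rfl
    have e3 : (fA p q : Mt n) = Matrix.single p q 1 - Matrix.single q p 1 := rfl
    have e4 : (fS p q : Mt n) = Complex.I • (Matrix.single p q 1 + Matrix.single q p 1) -
      (if p = q then (2 * Complex.I / (NN n : ℂ)) else 0) • (1 : Mt n) := rfl
    rw [e1, e2, h1, h1, e3, e4, dc_sub, dc_sub, dc_smul, dc_smul, dc_one, dc_add]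
    simp
    ring
  simp only [h2]
  have h3 : ∑ p : Ix n, ∑ q : Ix n, (dc (X : Mt n) (Y : Mt n) (Matrix.single p q 1) p q).re =
      (∑ p : Ix n, ∑ q : Ix n, dc (X : Mt n) (Y : Mt n) (Matrix.single p q 1) p q).re := by
    rw [Complex.re_sum]
    exact Finset.sum_congr rfl fun p _ ↦ (Complex.re_sum _ _).symm
  rw [h3]
  have hX : (X : Mt n).trace = 0 := X.2.2
  have hY : (Y : Mt n).trace = 0 := Y.2.2
  have h4 : ∑ p : Ix n, ∑ q : Ix n, dc (X : Mt n) (Y : Mt n) (Matrix.single p q 1) p q =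
      ((2 * NN n : ℝ) : ℂ) * ((X : Mt n) * (Y : Mt n)).trace := by
    simp only [dc_single, Finset.sum_add_distrib, Finset.sum_sub_distrib, Finset.sum_const,
      nsmul_eq_mul, ← Finset.mul_sum, ← Finset.sum_mul]
    have t1 : ∑ p : Ix n, (X : Mt n) p p = 0 := hX
    have t2 : ∑ p : Ix n, (Y : Mt n) p p = 0 := hY
    have t3 : ∑ p : Ix n, ((X : Mt n) * (Y : Mt n)) p p = ((X : Mt n) * (Y : Mt n)).trace := rfl
    have t4 : ∑ p : Ix n, ((Y : Mt n) * (X : Mt n)) p p = ((X : Mt n) * (Y : Mt n)).trace := by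
      rw [Matrix.trace_mul_comm]
      rfl
    rw [t1, t2, t3, t4, Finset.card_univ, card_Ix]
    push_cast
    ring
  rw [h4, Complex.re_ofReal_mul]
  unfold B NN
  ring

end Pool.Agent.Helper58.EF.Mat
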