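import Pool.Agent.Helper58.EF.MatRic

/-!
# The Ricci curvature of the invariant metrics: the formula
-/

set_option autoImplicit false

namespace Pool.Agent.Helper58.EF.Mat

open Matrix Finset Pool.Agent.Helper83.EIN

variable {s : ℕ} {n : Fin s → ℕ} {x : Fin s → Fin s → ℝ} {κ : Type} [Fintype κ] [DecidableEq κ]
  {e : κ → Mt n}

theorem lie_neg_sq (X Y : Mt n) (p q : Ix n) :
    ⁅X, Y⁆ p q * ⁅X, Y⁆ q p = ⁅Y, X⁆ p q * ⁅Y, X⁆ q p := by
  have h : ⁅X, Y⁆ = -⁅Y, X⁆ := by rw [Ring.lie_def, Ring.lie_def, neg_sub]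
  rw [h, Matrix.neg_apply, Matrix.neg_apply]
  ring

/-- The first sum. -/
theorem T1 (hx : IsMetric x) (he : IsONB x e) {X : Mt n} (hX : X ∈ fm n) :
    ((∑ j, gx x (prm ⁅X, e j⁆) (prm ⁅X, e j⁆) : ℝ) : ℂ) = -(4 * (NN n : ℂ)) *
      ∑ p, ∑ r, X p r * X r p * ∑ q, (x p.1 q.1 : ℂ) * kap x r q := by
  rw [mem_fm] at hX
  have h1 : ∀ j, ((gx x (prm ⁅X, e j⁆) (prm ⁅X, e j⁆) : ℝ) : ℂ) = -(2 * (NN n : ℂ)) *
      ∑ p, ∑ q, (x p.1 q.1 : ℂ) * (⁅X, e j⁆ p q * ⁅X, e j⁆ q p) := by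
    intro j
    have hs := lie_skew hX.1 (mem_fm.1 (he.mem j)).1
    rw [gx_eq hx.symm hx.diag, Gc_prm hx, Gc_prm' hx, Gc_real hx.symm hs hs]
    rfl
  rw [Complex.ofReal_sum, Finset.sum_congr rfl fun j _ ↦ h1 j, ← Finset.mul_sum,
    Lsum hx he (fun p ↦ hX.2 p p rfl) (fun p q ↦ x p.1 q.1) fun p q ↦ hx.symm _ _]
  ring

/-- The Killing form. -/
theorem T2 {X : Mt n} (hX : X ∈ fm n) :
    ((B X X : ℝ) : ℂ) = -(2 * (NN n : ℂ)) * ∑ p, ∑ r, X p r * X r p := by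
  rw [mem_fm] at hX
  have h : (((X * X).trace.re : ℝ) : ℂ) = (X * X).trace := by
    apply Complex.conj_eq_iff_re.1
    have h1 : (starRingEnd ℂ) (X * X).trace = (X * X)ᴴ.trace := by
      rw [Matrix.trace_conjTranspose]
      rfl
    rw [h1, Matrix.conjTranspose_mul, hX.1]
    simp
  have h2 : ((B X X : ℝ) : ℂ) = -(2 * (NN n : ℂ)) * (((X * X).trace.re : ℝ) : ℂ) := by
    unfold B NN
    push_cast
    ring
  rw [h2, h, trace_mul_eq]

/-- The third sum. -/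
theorem T3 (hx : IsMetric x) (he : IsONB x e) {X : Mt n} (hX : X ∈ fm n) :
    ((∑ i, ∑ j, gx x (prm ⁅e i, e j⁆) X ^ 2 : ℝ) : ℂ) = -(8 * (NN n : ℂ) ^ 2) *
      ∑ p, ∑ r, X p r * X r p * ((x p.1 r.1 : ℂ) ^ 2 * ∑ q, (kap x p q : ℂ) * kap x r q) := by
  rw [mem_fm] at hX
  have h1 : ∀ i j, ((gx x (prm ⁅e i, e j⁆) X ^ 2 : ℝ) : ℂ) =
      4 * (NN n : ℂ) ^ 2 * (e i * ⁅e j, til x X⁆).trace ^ 2 := by
    intro i j
    have hs := lie_skew (mem_fm.1 (he.mem i)).1 (mem_fm.1 (he.mem j)).1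
    rw [Complex.ofReal_pow, gx_eq hx.symm hx.diag, Gc_prm hx, Gc_real hx.symm hs hX.1,
      Gc_til hx]
    have h2 : (⁅e i, e j⁆ * til x X).trace = (e i * ⁅e j, til x X⁆).trace := by
      rw [Ring.lie_def, Ring.lie_def, Matrix.sub_mul, Matrix.mul_sub, Matrix.trace_sub,
        Matrix.trace_sub, Matrix.mul_assoc, ← Matrix.mul_assoc (e i) (til x X) (e j),
        Matrix.trace_mul_comm (e i * til x X) (e j), Matrix.mul_assoc]
    rw [h2]
    ring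
  have h3 : ((∑ i, ∑ j, gx x (prm ⁅e i, e j⁆) X ^ 2 : ℝ) : ℂ) =
      4 * (NN n : ℂ) ^ 2 * ∑ j, ∑ i, (e i * ⁅e j, til x X⁆).trace ^ 2 := by
    rw [Finset.sum_comm, Complex.ofReal_sum, Finset.mul_sum]
    refine Finset.sum_congr rfl fun j _ ↦ ?_
    rw [Complex.ofReal_sum, Finset.mul_sum]
    exact Finset.sum_congr rfl fun i _ ↦ h1 i j
  have htil : ∀ p, til x X p p = 0 := by
    intro p
    unfold til
    rw [hX.2 p p rfl, mul_zero]
  rw [h3]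
  have h4 : ∀ j, ∑ i, (e i * ⁅e j, til x X⁆).trace ^ 2 = -∑ p, ∑ q, (kap x p q : ℂ) *
      (⁅til x X, e j⁆ p q * ⁅til x X, e j⁆ q p) := by
    intro j
    rw [sq_sum hx he]
    congr 1
    refine Finset.sum_congr rfl fun p _ ↦ Finset.sum_congr rfl fun q _ ↦ ?_
    rw [lie_neg_sq]
  rw [Finset.sum_congr rfl fun j _ ↦ h4 j, Finset.sum_neg_distrib,
    Lsum hx he htil (kap x) (kap_symm hx)]
  have h5 : ∑ p, ∑ r, til x X p r * til x X r p * ∑ q, (kap x p q : ℂ) * kap x r q =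
      ∑ p, ∑ r, X p r * X r p * ((x p.1 r.1 : ℂ) ^ 2 * ∑ q, (kap x p q : ℂ) * kap x r q) := by
    refine Finset.sum_congr rfl fun p _ ↦ Finset.sum_congr rfl fun r _ ↦ ?_
    unfold til
    rw [hx.symm r.1 p.1]
    ring
  rw [h5]
  ring

theorem ric_symm (hx : IsMetric x) (i j : Fin s) : ric n x i j = ric n x j i := by
  unfold ric
  rw [hx.symm i j]
  congr 1
  rw [Finset.filter_congr (q := fun k ↦ k ≠ j ∧ k ≠ i) fun k _ ↦ and_comm]
  refine Finset.sum_congr rfl fun k _ ↦ ?_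
  rw [mul_comm (x i k) (x j k)]
  ring

/-- The weighted sum over the third index. -/
theorem block_sum (hx : IsMetric x) (p r : Ix n) (hpr : p.1 ≠ r.1) :
    NN n * ∑ q, (x p.1 q.1 * kap x r q + x r.1 q.1 * kap x p q) - NN n -
      2 * NN n ^ 2 * (x p.1 r.1 ^ 2 * ∑ q, kap x p q * kap x r q) =
      -(2 * NN n) * (ric n x p.1 r.1 * x p.1 r.1) := by
  have hN := NN_pos p
  have hxp := hx.pos _ _ hpr
  have e1 : ∀ f : Fin s → ℝ, ∑ q : Ix n, f q.1 = ∑ k, (n k : ℝ) * f k := by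
    intro f
    rw [Fintype.sum_sigma]
    refine Finset.sum_congr rfl fun k _ ↦ ?_
    simp
  have e2 := e1 fun k ↦ x p.1 k * (2 * NN n * x r.1 k)⁻¹ + x r.1 k * (2 * NN n * x p.1 k)⁻¹
  have e3 := e1 fun k ↦ (2 * NN n * x p.1 k)⁻¹ * (2 * NN n * x r.1 k)⁻¹
  have e2' : ∑ q : Ix n, (x p.1 q.1 * kap x r q + x r.1 q.1 * kap x p q) = ∑ k, (n k : ℝ) *
      (x p.1 k * (2 * NN n * x r.1 k)⁻¹ + x r.1 k * (2 * NN n * x p.1 k)⁻¹) := e2
  have e3' : ∑ q : Ix n, kap x p q * kap x r q = ∑ k, (n k : ℝ) *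
      ((2 * NN n * x p.1 k)⁻¹ * (2 * NN n * x r.1 k)⁻¹) := e3
  rw [e2', e3']
  unfold ric
  have hNN : ∑ l, (n l : ℝ) = NN n := rfl
  rw [hNN, Finset.sum_filter, add_mul, Finset.sum_mul, mul_add]
  have e4 : -(2 * NN n) * (1 / (2 * x p.1 r.1) * x p.1 r.1) = -NN n := by
    field_simp
  rw [e4, Finset.mul_sum, Finset.mul_sum, Finset.mul_sum, Finset.mul_sum]
  have e5 : ∀ k, NN n * ((n k : ℝ) *
      (x p.1 k * (2 * NN n * x r.1 k)⁻¹ + x r.1 k * (2 * NN n * x p.1 k)⁻¹)) -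
      2 * NN n ^ 2 * (x p.1 r.1 ^ 2 * ((n k : ℝ) *
        ((2 * NN n * x p.1 k)⁻¹ * (2 * NN n * x r.1 k)⁻¹))) =
      -(2 * NN n) * ((if k ≠ p.1 ∧ k ≠ r.1 then (n k : ℝ) / (4 * NN n) *
        (x p.1 r.1 / (x p.1 k * x r.1 k) - x p.1 k / (x p.1 r.1 * x r.1 k) -
          x r.1 k / (x p.1 r.1 * x p.1 k)) else 0) * x p.1 r.1) := by
    intro k
    by_cases h1 : k = p.1
    · rw [if_neg (fun h ↦ h.1 h1), h1, hx.diag]
      simp
    by_cases h2 : k = r.1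
    · rw [if_neg (fun h ↦ h.2 h2), h2, hx.diag]
      simp
    rw [if_pos ⟨h1, h2⟩]
    have h3 := hx.pos p.1 k (Ne.symm h1)
    have h4 := hx.pos r.1 k (Ne.symm h2)
    field_simp
    ring
  rw [← Finset.sum_congr rfl fun k _ ↦ e5 k, Finset.sum_sub_distrib]
  ring

/-- **The Ricci curvature of an invariant metric on `SU(N)/S(U(n₀) × ⋯ × U(n_{s-1}))`.** -/
theorem Ric_eq (hx : IsMetric x) (he : IsONB x e) {X : Mt n} (hX : X ∈ fm n) :
    Ric x e X = gx (fun i j ↦ ric n x i j * x i j) X X := by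
  have hX' := mem_fm.1 hX
  have hs : ∀ i j, ric n x i j * x i j = ric n x j i * x j i := fun i j ↦ by
    rw [ric_symm hx, hx.symm i j]
  have hd : ∀ i, ric n x i i * x i i = 0 := fun i ↦ by rw [hx.diag, mul_zero]
  have key : ((Ric x e X : ℝ) : ℂ) = ((gx (fun i j ↦ ric n x i j * x i j) X X : ℝ) : ℂ) := by
    rw [gx_eq hs hd, Gc_real hs hX'.1 hX'.1]
    unfold Ric
    push_cast
    have t1 := T1 hx he hX
    have t2 := T2 hX
    have t3 := T3 hx he hX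
    push_cast at t1 t3
    rw [t1, t2, t3]
    have hsym : ∑ p : Ix n, ∑ r, X p r * X r p * ∑ q, (x p.1 q.1 : ℂ) * kap x r q =
        ∑ p : Ix n, ∑ r, X p r * X r p * (1 / 2 *
          ∑ q, ((x p.1 q.1 : ℂ) * kap x r q + (x r.1 q.1 : ℂ) * kap x p q)) := by
      have h1 : ∑ p : Ix n, ∑ r, X p r * X r p * ∑ q, (x p.1 q.1 : ℂ) * kap x r q =
          ∑ p : Ix n, ∑ r, X p r * X r p * ∑ q, (x r.1 q.1 : ℂ) * kap x p q := by
        rw [Finset.sum_comm]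
        refine Finset.sum_congr rfl fun p _ ↦ Finset.sum_congr rfl fun r _ ↦ ?_
        ring
      have h2 : ∑ p : Ix n, ∑ r, X p r * X r p * (1 / 2 *
          ∑ q, ((x p.1 q.1 : ℂ) * kap x r q + (x r.1 q.1 : ℂ) * kap x p q)) =
          1 / 2 * (∑ p : Ix n, ∑ r, X p r * X r p * ∑ q, (x p.1 q.1 : ℂ) * kap x r q) +
          1 / 2 * ∑ p : Ix n, ∑ r, X p r * X r p * ∑ q, (x r.1 q.1 : ℂ) * kap x p q := by
        rw [Finset.mul_sum, Finset.mul_sum, ← Finset.sum_add_distrib]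
        refine Finset.sum_congr rfl fun p _ ↦ ?_
        rw [Finset.mul_sum, Finset.mul_sum, ← Finset.sum_add_distrib]
        refine Finset.sum_congr rfl fun r _ ↦ ?_
        rw [Finset.sum_add_distrib]
        ring
      rw [h2, ← h1]
      ring
    rw [hsym]
    have hlin : ∀ (c1 c2 c3 : ℂ) (f1 f2 f3 : Ix n → Ix n → ℂ),
        c1 * ∑ p, ∑ r, f1 p r + c2 * ∑ p, ∑ r, f2 p r + c3 * ∑ p, ∑ r, f3 p r =
          ∑ p, ∑ r, (c1 * f1 p r + c2 * f2 p r + c3 * f3 p r) := by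
      intro c1 c2 c3 f1 f2 f3
      simp only [Finset.mul_sum, Finset.sum_add_distrib]
    have hl := hlin (2 * NN n) (-(NN n)) (-(2 * NN n ^ 2))
      (fun p r ↦ X p r * X r p * (1 / 2 *
          ∑ q, ((x p.1 q.1 : ℂ) * kap x r q + (x r.1 q.1 : ℂ) * kap x p q)))
      (fun p r ↦ X p r * X r p)
      (fun p r ↦ X p r * X r p * ((x p.1 r.1 : ℂ) ^ 2 * ∑ q, (kap x p q : ℂ) * kap x r q))
    have hR : Gc (fun i j ↦ ric n x i j * x i j) X X = ∑ p, ∑ r,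
        X p r * X r p * (-(2 * NN n) * (ric n x p.1 r.1 * x p.1 r.1) : ℝ) := by
      unfold Gc
      rw [Finset.mul_sum]
      refine Finset.sum_congr rfl fun p _ ↦ ?_
      rw [Finset.mul_sum]
      refine Finset.sum_congr rfl fun r _ ↦ ?_
      push_cast
      ring
    rw [hR]
    refine Eq.trans ?_ (hl.trans ?_)
    · ring
    · refine Finset.sum_congr rfl fun p _ ↦ Finset.sum_congr rfl fun r _ ↦ ?_
      by_cases hpr : p.1 = r.1
      · rw [hX'.2 p r hpr]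
        ring
      · rw [← block_sum hx p r hpr]
        push_cast
        ring
  exact_mod_cast key

end Pool.Agent.Helper58.EF.Mat
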