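import Pool.Agent.Helper58.EF.MatCompl

/-!
# The Ricci curvature of the invariant metrics: the formula
-/

set_option autoImplicit false

namespace Pool.Agent.Helper58.EF.Mat

open Matrix Finset Pool.Agent.Helper83.EIN

variable {s : ℕ} {n : Fin s → ℕ} {x : Fin s → Fin s → ℝ} {κ : Type} [Fintype κ] [DecidableEq κ]
  {e : κ → Mt n}

theorem quad (hx : IsMetric x) (he : IsONB x e) {W : Mt n} (hW : ∀ p, W p p = 0) (p q : Ix n) :
    ∑ j, ⁅W, e j⁆ p q * ⁅W, e j⁆ q p =
      ∑ r, (W p r * W r p * kap x r q + W r q * W q r * kap x p r) := by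
  have h1 : ∀ j, ⁅W, e j⁆ p q * ⁅W, e j⁆ q p = ∑ r, ∑ t,
      (W p r * e j r q - e j p r * W r q) * (W q t * e j t p - e j q t * W t p) := by
    intro j
    rw [Ring.lie_def, Matrix.sub_apply, Matrix.sub_apply, Matrix.mul_apply, Matrix.mul_apply,
      Matrix.mul_apply, Matrix.mul_apply, ← Finset.sum_sub_distrib, ← Finset.sum_sub_distrib,
      Finset.sum_mul_sum]
  rw [Finset.sum_congr rfl fun j _ ↦ h1 j, Finset.sum_comm]
  refine Finset.sum_congr rfl fun r _ ↦ ?_
  rw [Finset.sum_comm]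
  have h2 : ∀ t, ∑ j, (W p r * e j r q - e j p r * W r q) * (W q t * e j t p - e j q t * W t p) =
      if r = t then W p r * W t p * kap x r q + W r q * W q t * kap x p r else 0 := by
    intro t
    have h3 : ∑ j, (W p r * e j r q - e j p r * W r q) * (W q t * e j t p - e j q t * W t p) =
        W p r * W q t * (∑ j, e j r q * e j t p) - W p r * W t p * (∑ j, e j r q * e j q t) -
        W r q * W q t * (∑ j, e j p r * e j t p) + W r q * W t p * (∑ j, e j p r * e j q t) := by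
      rw [Finset.mul_sum, Finset.mul_sum, Finset.mul_sum, Finset.mul_sum,
        ← Finset.sum_sub_distrib, ← Finset.sum_sub_distrib, ← Finset.sum_add_distrib]
      refine Finset.sum_congr rfl fun j _ ↦ ?_
      ring
    rw [h3, compl hx he, compl hx he, compl hx he, compl hx he]
    have e1 : W p r * W q t * (if r = p ∧ q = t then -(kap x r q : ℂ) else 0) = 0 := by
      split_ifs with h
      · rw [h.1, hW, zero_mul, zero_mul]
      · rw [mul_zero]
    have e4 : W r q * W t p * (if p = t ∧ r = q then -(kap x p r : ℂ) else 0) = 0 := by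
      split_ifs with h
      · rw [← h.1, hW, mul_zero, zero_mul]
      · rw [mul_zero]
    rw [e1, e4]
    by_cases h : r = t
    · simp only [h, and_self, true_and, if_true]
      ring
    · simp only [h, and_false, false_and, if_false]
      ring
  rw [Finset.sum_congr rfl fun t _ ↦ h2 t, Finset.sum_ite_eq, if_pos (mem_univ r)]

theorem Lsum (hx : IsMetric x) (he : IsONB x e) {W : Mt n} (hW : ∀ p, W p p = 0)
    (c : Ix n → Ix n → ℝ) (hc : ∀ p q, c p q = c q p) :
    ∑ j, ∑ p, ∑ q, (c p q : ℂ) * (⁅W, e j⁆ p q * ⁅W, e j⁆ q p) =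
      2 * ∑ p, ∑ r, W p r * W r p * ∑ q, (c p q : ℂ) * kap x r q := by
  have h1 : ∑ j, ∑ p, ∑ q, (c p q : ℂ) * (⁅W, e j⁆ p q * ⁅W, e j⁆ q p) =
      ∑ p, ∑ q, (c p q : ℂ) * ∑ r, (W p r * W r p * kap x r q + W r q * W q r * kap x p r) := by
    rw [Finset.sum_comm]
    refine Finset.sum_congr rfl fun p _ ↦ ?_
    rw [Finset.sum_comm]
    refine Finset.sum_congr rfl fun q _ ↦ ?_
    rw [← Finset.mul_sum, quad hx he hW]
  have h2 : ∑ p, ∑ q, (c p q : ℂ) * ∑ r, (W p r * W r p * kap x r q + W r q * W q r * kap x p r) =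
      ∑ p, ∑ q, (c p q : ℂ) * ∑ r, W p r * W r p * kap x r q +
        ∑ p, ∑ q, (c p q : ℂ) * ∑ r, W r q * W q r * kap x p r := by
    rw [← Finset.sum_add_distrib]
    refine Finset.sum_congr rfl fun p _ ↦ ?_
    rw [← Finset.sum_add_distrib]
    refine Finset.sum_congr rfl fun q _ ↦ ?_
    rw [← mul_add, ← Finset.sum_add_distrib]
  have h3 : ∑ p, ∑ q, (c p q : ℂ) * ∑ r, W p r * W r p * kap x r q =
      ∑ p, ∑ r, W p r * W r p * ∑ q, (c p q : ℂ) * kap x r q := by
    refine Finset.sum_congr rfl fun p _ ↦ ?_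
    have : ∀ q, (c p q : ℂ) * ∑ r, W p r * W r p * kap x r q =
        ∑ r, W p r * W r p * ((c p q : ℂ) * kap x r q) := by
      intro q
      rw [Finset.mul_sum]
      refine Finset.sum_congr rfl fun r _ ↦ ?_
      ring
    rw [Finset.sum_congr rfl fun q _ ↦ this q, Finset.sum_comm]
    refine Finset.sum_congr rfl fun r _ ↦ ?_
    rw [Finset.mul_sum]
  have h4 : ∑ p, ∑ q, (c p q : ℂ) * ∑ r, W r q * W q r * kap x p r =
      ∑ p, ∑ q, (c p q : ℂ) * ∑ r, W p r * W r p * kap x r q := by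
    rw [Finset.sum_comm]
    refine Finset.sum_congr rfl fun p _ ↦ Finset.sum_congr rfl fun q _ ↦ ?_
    rw [hc]
    congr 1
    refine Finset.sum_congr rfl fun r _ ↦ ?_
    rw [kap_symm hx]
    ring
  rw [h1, h2, h4, h3]
  ring

/-- The diagonal blocks do not matter. -/
theorem Gc_prm (hx : IsMetric x) (Y Z : Mt n) : Gc x (prm Y) Z = Gc x Y Z := by
  unfold Gc
  congr 1
  refine Finset.sum_congr rfl fun p _ ↦ Finset.sum_congr rfl fun q _ ↦ ?_
  unfold prm
  split_ifs with h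
  · rw [h, hx.diag]
    simp
  · rfl

theorem Gc_prm' (hx : IsMetric x) (Y Z : Mt n) : Gc x Y (prm Z) = Gc x Y Z := by
  unfold Gc
  congr 1
  refine Finset.sum_congr rfl fun p _ ↦ Finset.sum_congr rfl fun q _ ↦ ?_
  unfold prm
  split_ifs with h
  · rw [← h, hx.diag]
    simp
  · rfl

theorem lie_skew {X Y : Mt n} (hX : Xᴴ = -X) (hY : Yᴴ = -Y) : ⁅X, Y⁆ᴴ = -⁅X, Y⁆ := by
  rw [Ring.lie_def, Matrix.conjTranspose_sub, Matrix.conjTranspose_mul,
    Matrix.conjTranspose_mul, hX, hY]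
  simp

/-- The matrix `x_{pq} X_{pq}`. -/
noncomputable def til (x : Fin s → Fin s → ℝ) (X : Mt n) : Mt n := fun p q ↦ (x p.1 q.1 : ℂ) * X p q

theorem Gc_til (hx : IsMetric x) (Y X : Mt n) :
    Gc x Y X = -(2 * (NN n : ℂ)) * (Y * til x X).trace := by
  unfold Gc
  rw [trace_mul_eq]
  congr 1
  refine Finset.sum_congr rfl fun p _ ↦ Finset.sum_congr rfl fun q _ ↦ ?_
  unfold til
  rw [hx.symm p.1 q.1]
  ring

theorem sq_sum (hx : IsMetric x) (he : IsONB x e) (Z : Mt n) :
    ∑ i, (e i * Z).trace ^ 2 = -∑ p, ∑ q, (kap x p q : ℂ) * (Z p q * Z q p) := by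
  have h1 : ∀ i, (e i * Z).trace ^ 2 = ∑ p, ∑ r, ∑ q, ∑ t,
      (e i p q * e i r t) * (Z q p * Z t r) := by
    intro i
    rw [trace_mul_eq, sq, Finset.sum_mul_sum]
    refine Finset.sum_congr rfl fun p _ ↦ Finset.sum_congr rfl fun r _ ↦ ?_
    rw [Finset.sum_mul_sum]
    refine Finset.sum_congr rfl fun q _ ↦ Finset.sum_congr rfl fun t _ ↦ ?_
    ring
  rw [Finset.sum_congr rfl fun i _ ↦ h1 i, Finset.sum_comm, ← Finset.sum_neg_distrib]
  refine Finset.sum_congr rfl fun p _ ↦ ?_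
  have h2 : ∑ i, ∑ r, ∑ q, ∑ t, (e i p q * e i r t) * (Z q p * Z t r) =
      ∑ q, ∑ r, ∑ t, (∑ i, e i p q * e i r t) * (Z q p * Z t r) := by
    rw [Finset.sum_comm]
    have h3 : ∀ r, ∑ i, ∑ q, ∑ t, (e i p q * e i r t) * (Z q p * Z t r) =
        ∑ q, ∑ t, (∑ i, e i p q * e i r t) * (Z q p * Z t r) := by
      intro r
      rw [Finset.sum_comm]
      refine Finset.sum_congr rfl fun q _ ↦ ?_
      rw [Finset.sum_comm]
      refine Finset.sum_congr rfl fun t _ ↦ ?_
      rw [Finset.sum_mul]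
    rw [Finset.sum_congr rfl fun r _ ↦ h3 r, Finset.sum_comm]
  rw [h2, ← Finset.sum_neg_distrib]
  refine Finset.sum_congr rfl fun q _ ↦ ?_
  have h4 : ∀ r, ∑ t, (∑ i, e i p q * e i r t) * (Z q p * Z t r) =
      if q = r then -(kap x p q * (Z p q * Z q p) : ℂ) else 0 := by
    intro r
    have h5 : ∀ t, (∑ i, e i p q * e i r t) * (Z q p * Z t r) =
        if p = t then (if q = r then -(kap x p q * (Z p q * Z q p) : ℂ) else 0) else 0 := by
      intro t
      rw [compl hx he]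
      by_cases h6 : p = t
      · by_cases h7 : q = r
        · subst h6 h7
          simp only [and_self, if_true]
          ring
        · simp [h7]
      · simp [h6]
    rw [Finset.sum_congr rfl fun t _ ↦ h5 t, Finset.sum_ite_eq, if_pos (mem_univ p)]
  rw [Finset.sum_congr rfl fun r _ ↦ h4 r, Finset.sum_ite_eq, if_pos (mem_univ q)]

end Pool.Agent.Helper58.EF.Mat
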