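import Mathlib

/-!
# Invariant Einstein metrics with four blocks: the row identity
-/

set_option autoImplicit false

namespace Pool.Agent.Helper58.EF

/-- The number `1 - cos α`, where `α` is the angle opposite to the side `a` of the triangle with the sides
`a`, `b`, `c`. -/
noncomputable def bt (a b c : ℝ) : ℝ := (a ^ 2 - (b - c) ^ 2) / (2 * b * c)

theorem bt_mul {a b c : ℝ} (hb : 0 < b) (hc : 0 < c) : bt a b c * (2 * b * c) = a ^ 2 - (b - c) ^ 2 :=
  div_mul_cancel₀ _ (by positivity)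

theorem row_scalar (pa pb pc pe w u v ya yb yc : ℝ) (hw : 0 < w) (hu : 0 < u) (hv : 0 < v)
    (hya : 0 < ya) (hyb : 0 < yb) (hyc : 0 < yc)
    (e1 : w = pa + pb + pc * bt w u v + pe * bt w ya yb)
    (e2 : u = pa + pc + pb * bt u w v + pe * bt u ya yc)
    (e3 : v = pb + pc + pa * bt v w u + pe * bt v yb yc) :
    (pa + pb) * (ya * yb * yc * ((w - u - v) ^ 2 * (w - u + v) * (w - v + u))) +
      w * (pc * (2 * (w - u - v) * (w + u - v) * (w + v - u) * (ya * yb * yc)) +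
        pe * (2 * u * v * w * yc * (w ^ 2 - (ya - yb) ^ 2) + v * yb * (u ^ 2 + w ^ 2 - v ^ 2) *
    ((ya - yc) ^ 2 - u ^ 2) + u * ya * (v ^ 2 + w ^ 2 - u ^ 2) * ((yb - yc) ^ 2 - v ^ 2))) = 0 := by
  have f1 := bt_mul (a := w) hu hv
  have f2 := bt_mul (a := w) hya hyb
  have f3 := bt_mul (a := u) hw hv
  have f4 := bt_mul (a := u) hya hyc
  have f5 := bt_mul (a := v) hw hu
  have f6 := bt_mul (a := v) hyb hyc
  set b1 := bt w u v
  set b2 := bt w ya yb
  set b3 := bt u w v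
  set b4 := bt u ya yc
  set b5 := bt v w u
  set b6 := bt v yb yc
  have g1 : 4 * u * v * ya * yb * (w - (pa + pb)) - 2 * ya * yb * pc * (w ^ 2 - (u - v) ^ 2) -
      2 * u * v * pe * (w ^ 2 - (ya - yb) ^ 2) = 0 := by
    rw [← f1, ← f2]
    linear_combination (4 * u * v * ya * yb) * e1
  have g2 : 4 * w * v * ya * yc * (u - (pa + pc)) - 2 * ya * yc * pb * (u ^ 2 - (w - v) ^ 2) -
      2 * w * v * pe * (u ^ 2 - (ya - yc) ^ 2) = 0 := by
    rw [← f3, ← f4]
    linear_combination (4 * w * v * ya * yc) * e2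
  have g3 : 4 * w * u * yb * yc * (v - (pb + pc)) - 2 * yb * yc * pa * (v ^ 2 - (w - u) ^ 2) -
      2 * w * u * pe * (v ^ 2 - (yb - yc) ^ 2) = 0 := by
    rw [← f5, ← f6]
    linear_combination (4 * w * u * yb * yc) * e3
  linear_combination (-w ^ 2 * yc) * g1 + (yb * (u ^ 2 + w ^ 2 - v ^ 2) / 2) * g2 +
    (ya * (v ^ 2 + w ^ 2 - u ^ 2) / 2) * g3

end Pool.Agent.Helper58.EF
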