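import Pool.Agent.Helper58.EF.Ineq
import Pool.Agent.Helper58.EF.Row

/-!
# Invariant Einstein metrics with four blocks: the violation types

`x i j` are the coefficients of the metric, `p i > 0` the sizes of the blocks (up to a common factor).
-/

set_option autoImplicit false

namespace Pool.Agent.Helper58.EF

/-- Four different indices. -/
def Dist (a b c e : Fin 4) : Prop := a ≠ b ∧ a ≠ c ∧ a ≠ e ∧ b ≠ c ∧ b ≠ e ∧ c ≠ e

/-- The Einstein equations for four blocks. -/
structure Sol (p : Fin 4 → ℝ) (x : Fin 4 → Fin 4 → ℝ) : Prop where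
  hp : ∀ i, 0 < p i
  symm : ∀ i j, x i j = x j i
  pos : ∀ i j, i ≠ j → 0 < x i j
  eq : ∀ a b c e, Dist a b c e → x a b = p a + p b + p c * bt (x a b) (x a c) (x b c) +
    p e * bt (x a b) (x a e) (x b e)

theorem Dist.ba {a b c e : Fin 4} (h : Dist a b c e) : Dist b a c e :=
  ⟨h.1.symm, h.2.2.2.1, h.2.2.2.2.1, h.2.1, h.2.2.1, h.2.2.2.2.2⟩

theorem Dist.ec {a b c e : Fin 4} (h : Dist a b c e) : Dist a b e c :=
  ⟨h.1, h.2.2.1, h.2.1, h.2.2.2.2.1, h.2.2.2.1, h.2.2.2.2.2.symm⟩

theorem Dist.cb {a b c e : Fin 4} (h : Dist a b c e) : Dist a c b e :=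
  ⟨h.2.1, h.1, h.2.2.1, h.2.2.2.1.symm, h.2.2.2.2.2, h.2.2.2.2.1⟩

variable {p : Fin 4 → ℝ} {x : Fin 4 → Fin 4 → ℝ} {a b c e : Fin 4}

/-- The row of the face `abc`. -/
theorem Sol.row (h : Sol p x) (hd : Dist a b c e) :
    (p a + p b) * (x a e * x b e * x c e * ((x a b - x a c - x b c) ^ 2 *
      (x a b - x a c + x b c) * (x a b - x b c + x a c))) +
      x a b * (p c * M2 (x a b) (x a c) (x b c) (x a e) (x b e) (x c e) +
        p e * N2 (x a b) (x a c) (x b c) (x a e) (x b e) (x c e)) = 0 := by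
  obtain ⟨h1, h2, h3, h4, h5, h6⟩ := hd
  have hd : Dist a b c e := ⟨h1, h2, h3, h4, h5, h6⟩
  have e1 := h.eq a b c e hd
  have e2 := h.eq a c b e hd.cb
  have e3 := h.eq b c a e hd.ba.cb
  rw [h.symm c b] at e2
  rw [h.symm b a, h.symm c a] at e3
  exact row_scalar (p a) (p b) (p c) (p e) (x a b) (x a c) (x b c) (x a e) (x b e) (x c e)
    (h.pos _ _ h1) (h.pos _ _ h2) (h.pos _ _ h4) (h.pos _ _ h3) (h.pos _ _ h5) (h.pos _ _ h6)
    e1 e2 e3

/-- Consequence of the row for a violated face. -/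
theorem Sol.neg (h : Sol p x) (hd : Dist a b c e) (hV : x a c + x b c < x a b) :
    p c * M2 (x a b) (x a c) (x b c) (x a e) (x b e) (x c e) +
      p e * N2 (x a b) (x a c) (x b c) (x a e) (x b e) (x c e) < 0 := by
  have h0 := h.row hd
  obtain ⟨h1, h2, h3, h4, h5, h6⟩ := hd
  have hab := h.pos _ _ h1
  have hac := h.pos _ _ h2
  have hbc := h.pos _ _ h4
  have hae := h.pos _ _ h3
  have hbe := h.pos _ _ h5
  have hce := h.pos _ _ h6
  have hpa := h.hp a
  have hpb := h.hp b
  have g1 : 0 < (x a b - x a c - x b c) ^ 2 := by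
    have : 0 < x a b - x a c - x b c := by linarith
    positivity
  have g2 : 0 < x a b - x a c + x b c := by linarith
  have g3 : 0 < x a b - x b c + x a c := by linarith
  have g4 : 0 < (p a + p b) * (x a e * x b e * x c e * ((x a b - x a c - x b c) ^ 2 *
      (x a b - x a c + x b c) * (x a b - x b c + x a c))) := by positivity
  by_contra hc
  rw [not_lt] at hc
  have g5 := mul_nonneg hab.le hc
  linarith

theorem Sol.M2_pos (h : Sol p x) (hd : Dist a b c e) (hV : x a c + x b c < x a b) :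
    0 < M2 (x a b) (x a c) (x b c) (x a e) (x b e) (x c e) := by
  obtain ⟨h1, h2, h3, h4, h5, h6⟩ := hd
  have hab := h.pos _ _ h1
  have hac := h.pos _ _ h2
  have hbc := h.pos _ _ h4
  have hae := h.pos _ _ h3
  have hbe := h.pos _ _ h5
  have hce := h.pos _ _ h6
  have g1 : 0 < x a b - x a c - x b c := by linarith
  have g2 : 0 < x a b + x a c - x b c := by linarith
  have g3 : 0 < x a b + x b c - x a c := by linarith
  unfold M2
  positivity

/-- A single row. -/
theorem Sol.single (h : Sol p x) (hd : Dist a b c e) (hV : x a c + x b c < x a b)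
    (hN : 0 ≤ N2 (x a b) (x a c) (x b c) (x a e) (x b e) (x c e)) : False := by
  have h0 := h.neg hd hV
  have h1 := h.M2_pos hd hV
  have h2 := mul_pos (h.hp c) h1
  have h3 := mul_nonneg (h.hp e).le hN
  linarith

/-- Two rows. -/
theorem Sol.pair (h : Sol p x) (hd : Dist a b c e) (hV : x a c + x b c < x a b)
    (hV' : x a e + x b e < x a b)
    (hXY : N2 (x a b) (x a c) (x b c) (x a e) (x b e) (x c e) *
      N2 (x a b) (x a e) (x b e) (x a c) (x b c) (x c e) ≤
      M2 (x a b) (x a c) (x b c) (x a e) (x b e) (x c e) *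
      M2 (x a b) (x a e) (x b e) (x a c) (x b c) (x c e)) : False := by
  have h0 := h.neg hd hV
  have h0' := h.neg hd.ec hV'
  have h1 := h.M2_pos hd hV
  have h1' := h.M2_pos hd.ec hV'
  rw [h.symm e c] at h0' h1'
  have hpc := h.hp c
  have hpe := h.hp e
  set X := N2 (x a b) (x a c) (x b c) (x a e) (x b e) (x c e)
  set Y := N2 (x a b) (x a e) (x b e) (x a c) (x b c) (x c e)
  set Q := M2 (x a b) (x a c) (x b c) (x a e) (x b e) (x c e)
  set Q' := M2 (x a b) (x a e) (x b e) (x a c) (x b c) (x c e)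
  have g1 : p c * Q < p e * (-X) := by linarith
  have g2 : p e * Q' < p c * (-Y) := by linarith
  have g3 : (p c * Q) * (p e * Q') < (p e * (-X)) * (p c * (-Y)) :=
    mul_lt_mul'' g1 g2 (by positivity) (by positivity)
  have g4 : p c * p e * (Q * Q') < p c * p e * (X * Y) := by
    calc p c * p e * (Q * Q') = (p c * Q) * (p e * Q') := by ring
      _ < (p e * (-X)) * (p c * (-Y)) := g3
      _ = p c * p e * (X * Y) := by ring
  have g5 : Q * Q' < X * Y := lt_of_mul_lt_mul_left g4 (by positivity)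
  linarith

end Pool.Agent.Helper58.EF
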