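import Pool.Agent.Helper58.EF.Types

/-!
# Invariant Einstein metrics with four blocks: the triangle inequality
-/

set_option autoImplicit false

namespace Pool.Agent.Helper58.EF

variable {p : Fin 4 → ℝ} {x : Fin 4 → Fin 4 → ℝ} {a b c e : Fin 4}

theorem tri4 (u v w : ℝ) : (u ≤ v + w ∧ v ≤ u + w ∧ w ≤ u + v) ∨ v + w < u ∨ u + w < v ∨
    u + v < w := by
  rcases le_or_gt u (v + w) with h1 | h1
  · rcases le_or_gt v (u + w) with h2 | h2
    · rcases le_or_gt w (u + v) with h3 | h3
      · exact Or.inl ⟨h1, h2, h3⟩
      · exact Or.inr (Or.inr (Or.inr h3))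
    · exact Or.inr (Or.inr (Or.inl h2))
  · exact Or.inr (Or.inl h1)

/-- **The triangle inequality** for the coefficients of an invariant Einstein metric. -/
theorem Sol.tri (h : Sol p x) (hd : Dist a b c e) : x a b ≤ x a c + x b c := by
  by_contra hV
  rw [not_le] at hV
  obtain ⟨d01, d02, d03, d12, d13, d23⟩ := hd
  have q1 := h.pos _ _ d01
  have q2 := h.pos _ _ d02
  have q3 := h.pos _ _ d03
  have q4 := h.pos _ _ d12
  have q5 := h.pos _ _ d13
  have q6 := h.pos _ _ d23
  have s1 := h.symm b a
  have s2 := h.symm c a
  have s3 := h.symm e a
  have s4 := h.symm c b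
  have s5 := h.symm e b
  have s6 := h.symm e c
  rcases tri4 (x a b) (x a e) (x b e) with T1 | T1 | T1 | T1
  · obtain ⟨A1, B1, C1⟩ := T1
    rcases tri4 (x a c) (x a e) (x c e) with T2 | T2 | T2 | T2
    · obtain ⟨A2, B2, C2⟩ := T2
      rcases tri4 (x b c) (x b e) (x c e) with T3 | T3 | T3 | T3
      · obtain ⟨A3, B3, C3⟩ := T3
        exact h.n1 (a := a) (b := b) (c := c) (e := e)
            ⟨d01, d02, d03, d12, d13, d23⟩ (by linarith) (by linarith) (by linarith)
            (by linarith) (by linarith) (by linarith)
      · exfalso; linarith
      · exact h.n10 (a := b) (b := a) (c := c) (e := e)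
            ⟨d01.symm, d12, d13, d02, d03, d23⟩ (by linarith) (by linarith) (by linarith)
            (by linarith) (by linarith) (by linarith) (by linarith)
      · exact h.n12 (a := b) (b := a) (c := c) (e := e)
            ⟨d01.symm, d12, d13, d02, d03, d23⟩ (by linarith) (by linarith) (by linarith)
            (by linarith) (by linarith) (by linarith) (by linarith) (by linarith)
    · rcases tri4 (x b c) (x b e) (x c e) with T3 | T3 | T3 | T3
      · obtain ⟨A3, B3, C3⟩ := T3
        exfalso; linarith
      · exfalso; linarith
      · exact h.T (a := b) (b := e) (c := c) (e := a)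
            ⟨d13, d12, d01.symm, d23.symm, d03.symm, d02.symm⟩ (by linarith) (by linarith) (by linarith)
            (Or.inl (by linarith)) (Or.inr (by linarith))
      · exfalso; linarith
    · rcases tri4 (x b c) (x b e) (x c e) with T3 | T3 | T3 | T3
      · obtain ⟨A3, B3, C3⟩ := T3
        exact h.n10 (a := a) (b := b) (c := c) (e := e)
            ⟨d01, d02, d03, d12, d13, d23⟩ (by linarith) (by linarith) (by linarith)
            (by linarith) (by linarith) (by linarith) (by linarith)
      · exact h.T (a := a) (b := e) (c := c) (e := b)
            ⟨d03, d02, d01, d23.symm, d13.symm, d12.symm⟩ (by linarith) (by linarith) (by linarith)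
            (Or.inl (by linarith)) (Or.inr (by linarith))
      · exact h.T (a := a) (b := b) (c := c) (e := e)
            ⟨d01, d02, d03, d12, d13, d23⟩ (by linarith) (by linarith) (by linarith)
            (Or.inl (by linarith)) (Or.inl (by linarith))
      · exact h.T (a := a) (b := b) (c := c) (e := e)
            ⟨d01, d02, d03, d12, d13, d23⟩ (by linarith) (by linarith) (by linarith)
            (Or.inl (by linarith)) (Or.inr (by linarith))
    · rcases tri4 (x b c) (x b e) (x c e) with T3 | T3 | T3 | T3
      · obtain ⟨A3, B3, C3⟩ := T3
        exact h.n12 (a := a) (b := b) (c := c) (e := e)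
            ⟨d01, d02, d03, d12, d13, d23⟩ (by linarith) (by linarith) (by linarith)
            (by linarith) (by linarith) (by linarith) (by linarith) (by linarith)
      · exfalso; linarith
      · exact h.T (a := a) (b := b) (c := c) (e := e)
            ⟨d01, d02, d03, d12, d13, d23⟩ (by linarith) (by linarith) (by linarith)
            (Or.inr (by linarith)) (Or.inl (by linarith))
      · exact h.T (a := a) (b := b) (c := c) (e := e)
            ⟨d01, d02, d03, d12, d13, d23⟩ (by linarith) (by linarith) (by linarith)
            (Or.inr (by linarith)) (Or.inr (by linarith))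
  · rcases tri4 (x a c) (x a e) (x c e) with T2 | T2 | T2 | T2
    · obtain ⟨A2, B2, C2⟩ := T2
      rcases tri4 (x b c) (x b e) (x c e) with T3 | T3 | T3 | T3
      · obtain ⟨A3, B3, C3⟩ := T3
        exact h.n2 (a := a) (b := b) (c := c) (e := e)
            ⟨d01, d02, d03, d12, d13, d23⟩ (by linarith) (by linarith) (by linarith)
            (by linarith) (by linarith) (by linarith) (by linarith) (by linarith)
      · exact h.n3 (a := b) (b := a) (c := c) (e := e)
            ⟨d01.symm, d12, d13, d02, d03, d23⟩ (by linarith) (by linarith) (by linarith)
            (by linarith) (by linarith) (by linarith)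
      · exact h.n3 (a := b) (b := a) (c := e) (e := c)
            ⟨d01.symm, d13, d12, d03, d02, d23.symm⟩ (by linarith) (by linarith) (by linarith)
            (by linarith) (by linarith) (by linarith)
      · exact h.T (a := c) (b := e) (c := b) (e := a)
            ⟨d23, d12.symm, d02.symm, d13.symm, d03.symm, d01.symm⟩ (by linarith) (by linarith) (by linarith)
            (Or.inr (by linarith)) (Or.inr (by linarith))
    · rcases tri4 (x b c) (x b e) (x c e) with T3 | T3 | T3 | T3
      · obtain ⟨A3, B3, C3⟩ := T3
        exact h.n3 (a := a) (b := b) (c := c) (e := e)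
            ⟨d01, d02, d03, d12, d13, d23⟩ (by linarith) (by linarith) (by linarith)
            (by linarith) (by linarith) (by linarith)
      · exact h.T (a := a) (b := b) (c := e) (e := c)
            ⟨d01, d03, d02, d13, d12, d23.symm⟩ (by linarith) (by linarith) (by linarith)
            (Or.inl (by linarith)) (Or.inl (by linarith))
      · exact h.n5 (a := a) (b := b) (c := e) (e := c)
            ⟨d01, d03, d02, d13, d12, d23.symm⟩ (by linarith) (by linarith) (by linarith)
            (by linarith)
      · exact h.T (a := a) (b := b) (c := e) (e := c)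
            ⟨d01, d03, d02, d13, d12, d23.symm⟩ (by linarith) (by linarith) (by linarith)
            (Or.inl (by linarith)) (Or.inr (by linarith))
    · rcases tri4 (x b c) (x b e) (x c e) with T3 | T3 | T3 | T3
      · obtain ⟨A3, B3, C3⟩ := T3
        exact h.n3 (a := a) (b := b) (c := e) (e := c)
            ⟨d01, d03, d02, d13, d12, d23.symm⟩ (by linarith) (by linarith) (by linarith)
            (by linarith) (by linarith) (by linarith)
      · exact h.n5 (a := a) (b := b) (c := c) (e := e)
            ⟨d01, d02, d03, d12, d13, d23⟩ (by linarith) (by linarith) (by linarith)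
            (by linarith)
      · exact h.T (a := a) (b := b) (c := c) (e := e)
            ⟨d01, d02, d03, d12, d13, d23⟩ (by linarith) (by linarith) (by linarith)
            (Or.inl (by linarith)) (Or.inl (by linarith))
      · exact h.T (a := a) (b := b) (c := c) (e := e)
            ⟨d01, d02, d03, d12, d13, d23⟩ (by linarith) (by linarith) (by linarith)
            (Or.inl (by linarith)) (Or.inr (by linarith))
    · rcases tri4 (x b c) (x b e) (x c e) with T3 | T3 | T3 | T3
      · obtain ⟨A3, B3, C3⟩ := T3
        exact h.T (a := c) (b := e) (c := a) (e := b)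
            ⟨d23, d02.symm, d12.symm, d03.symm, d13.symm, d01⟩ (by linarith) (by linarith) (by linarith)
            (Or.inr (by linarith)) (Or.inr (by linarith))
      · exact h.T (a := a) (b := b) (c := e) (e := c)
            ⟨d01, d03, d02, d13, d12, d23.symm⟩ (by linarith) (by linarith) (by linarith)
            (Or.inr (by linarith)) (Or.inl (by linarith))
      · exact h.T (a := a) (b := b) (c := c) (e := e)
            ⟨d01, d02, d03, d12, d13, d23⟩ (by linarith) (by linarith) (by linarith)
            (Or.inr (by linarith)) (Or.inl (by linarith))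
      · exact h.T (a := a) (b := b) (c := c) (e := e)
            ⟨d01, d02, d03, d12, d13, d23⟩ (by linarith) (by linarith) (by linarith)
            (Or.inr (by linarith)) (Or.inr (by linarith))
  · rcases tri4 (x a c) (x a e) (x c e) with T2 | T2 | T2 | T2
    · obtain ⟨A2, B2, C2⟩ := T2
      rcases tri4 (x b c) (x b e) (x c e) with T3 | T3 | T3 | T3
      · obtain ⟨A3, B3, C3⟩ := T3
        exfalso; linarith
      · exfalso; linarith
      · exfalso; linarith
      · exact h.T (a := c) (b := e) (c := b) (e := a)
            ⟨d23, d12.symm, d02.symm, d13.symm, d03.symm, d01.symm⟩ (by linarith) (by linarith) (by linarith)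
            (Or.inr (by linarith)) (Or.inl (by linarith))
    · rcases tri4 (x b c) (x b e) (x c e) with T3 | T3 | T3 | T3
      · obtain ⟨A3, B3, C3⟩ := T3
        exfalso; linarith
      · exfalso; linarith
      · exfalso; linarith
      · exfalso; linarith
    · rcases tri4 (x b c) (x b e) (x c e) with T3 | T3 | T3 | T3
      · obtain ⟨A3, B3, C3⟩ := T3
        exact h.n3 (a := a) (b := e) (c := b) (e := c)
            ⟨d03, d01, d02, d13.symm, d23.symm, d12⟩ (by linarith) (by linarith) (by linarith)
            (by linarith) (by linarith) (by linarith)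
      · exact h.T (a := a) (b := e) (c := c) (e := b)
            ⟨d03, d02, d01, d23.symm, d13.symm, d12.symm⟩ (by linarith) (by linarith) (by linarith)
            (Or.inl (by linarith)) (Or.inr (by linarith))
      · exact h.T (a := a) (b := e) (c := c) (e := b)
            ⟨d03, d02, d01, d23.symm, d13.symm, d12.symm⟩ (by linarith) (by linarith) (by linarith)
            (Or.inl (by linarith)) (Or.inl (by linarith))
      · exact h.n5 (a := a) (b := e) (c := c) (e := b)
            ⟨d03, d02, d01, d23.symm, d13.symm, d12.symm⟩ (by linarith) (by linarith) (by linarith)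
            (by linarith)
    · rcases tri4 (x b c) (x b e) (x c e) with T3 | T3 | T3 | T3
      · obtain ⟨A3, B3, C3⟩ := T3
        exfalso; linarith
      · exfalso; linarith
      · exfalso; linarith
      · exact h.T (a := c) (b := e) (c := b) (e := a)
            ⟨d23, d12.symm, d02.symm, d13.symm, d03.symm, d01.symm⟩ (by linarith) (by linarith) (by linarith)
            (Or.inr (by linarith)) (Or.inl (by linarith))
  · rcases tri4 (x a c) (x a e) (x c e) with T2 | T2 | T2 | T2
    · obtain ⟨A2, B2, C2⟩ := T2
      rcases tri4 (x b c) (x b e) (x c e) with T3 | T3 | T3 | T3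
      · obtain ⟨A3, B3, C3⟩ := T3
        exfalso; linarith
      · exfalso; linarith
      · exact h.n3 (a := b) (b := e) (c := a) (e := c)
            ⟨d13, d01.symm, d12, d03.symm, d23.symm, d02⟩ (by linarith) (by linarith) (by linarith)
            (by linarith) (by linarith) (by linarith)
      · exfalso; linarith
    · rcases tri4 (x b c) (x b e) (x c e) with T3 | T3 | T3 | T3
      · obtain ⟨A3, B3, C3⟩ := T3
        exfalso; linarith
      · exfalso; linarith
      · exact h.T (a := b) (b := e) (c := c) (e := a)
            ⟨d13, d12, d01.symm, d23.symm, d03.symm, d02.symm⟩ (by linarith) (by linarith) (by linarith)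
            (Or.inl (by linarith)) (Or.inr (by linarith))
      · exfalso; linarith
    · rcases tri4 (x b c) (x b e) (x c e) with T3 | T3 | T3 | T3
      · obtain ⟨A3, B3, C3⟩ := T3
        exfalso; linarith
      · exfalso; linarith
      · exact h.T (a := b) (b := e) (c := c) (e := a)
            ⟨d13, d12, d01.symm, d23.symm, d03.symm, d02.symm⟩ (by linarith) (by linarith) (by linarith)
            (Or.inl (by linarith)) (Or.inl (by linarith))
      · exfalso; linarith
    · rcases tri4 (x b c) (x b e) (x c e) with T3 | T3 | T3 | T3
      · obtain ⟨A3, B3, C3⟩ := T3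
        exact h.T (a := c) (b := e) (c := a) (e := b)
            ⟨d23, d02.symm, d12.symm, d03.symm, d13.symm, d01⟩ (by linarith) (by linarith) (by linarith)
            (Or.inr (by linarith)) (Or.inl (by linarith))
      · exfalso; linarith
      · exact h.n5 (a := b) (b := e) (c := c) (e := a)
            ⟨d13, d12, d01.symm, d23.symm, d03.symm, d02.symm⟩ (by linarith) (by linarith) (by linarith)
            (by linarith)
      · exact h.T (a := c) (b := e) (c := a) (e := b)
            ⟨d23, d02.symm, d12.symm, d03.symm, d13.symm, d01⟩ (by linarith) (by linarith) (by linarith)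
            (Or.inr (by linarith)) (Or.inl (by linarith))

end Pool.Agent.Helper58.EF
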