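import Pool.Agent.Helper58.EF.Sol
import Pool.Agent.Helper58.EF.Line1
import Pool.Agent.Helper58.EF.Line2

/-!
# Invariant Einstein metrics with four blocks: every violation type is impossible
-/

set_option autoImplicit false

namespace Pool.Agent.Helper58.EF

variable {p : Fin 4 → ℝ} {x : Fin 4 → Fin 4 → ℝ} {a b c e : Fin 4}

/-- All three terms of `N2` are nonnegative. -/
theorem N2_nonneg {w u v ya yb yc : ℝ} (hw : 0 < w) (hu : 0 < u) (hv : 0 < v) (hya : 0 < ya)
    (hyb : 0 < yb) (hyc : 0 < yc) (hV : u + v < w) (h1 : ya - yb ≤ w) (h2 : yb - ya ≤ w)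
    (h3 : u + yc < ya ∨ u + ya < yc) (h4 : v + yc < yb ∨ v + yb < yc) :
    0 ≤ N2 w u v ya yb yc := by
  have g1 : 0 ≤ w ^ 2 - (ya - yb) ^ 2 := by nlinarith
  have g2 : 0 ≤ (ya - yc) ^ 2 - u ^ 2 := by
    rcases h3 with h3 | h3
    · nlinarith
    · nlinarith
  have g3 : 0 ≤ (yb - yc) ^ 2 - v ^ 2 := by
    rcases h4 with h4 | h4
    · nlinarith
    · nlinarith
  have g4 : 0 ≤ u ^ 2 + w ^ 2 - v ^ 2 := by nlinarith
  have g5 : 0 ≤ v ^ 2 + w ^ 2 - u ^ 2 := by nlinarith
  unfold N2
  positivity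

theorem Sol.T (h : Sol p x) (hd : Dist a b c e) (hV : x a c + x b c < x a b)
    (h1 : x a e - x b e ≤ x a b) (h2 : x b e - x a e ≤ x a b)
    (h3 : x a c + x c e < x a e ∨ x a c + x a e < x c e)
    (h4 : x b c + x c e < x b e ∨ x b c + x b e < x c e) : False := by
  refine h.single hd hV ?_
  obtain ⟨d1, d2, d3, d4, d5, d6⟩ := hd
  exact N2_nonneg (h.pos _ _ d1) (h.pos _ _ d2) (h.pos _ _ d4) (h.pos _ _ d3) (h.pos _ _ d5)
    (h.pos _ _ d6) hV h1 h2 h3 h4

theorem Sol.n1 (h : Sol p x) (hd : Dist a b c e) (hV : x a c + x b c < x a b)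
    (h1 : x a b ≤ x a e + x b e) (h2 : x c e ≤ x a c + x a e) (h3 : x a e ≤ x a c + x c e)
    (h4 : x b e ≤ x b c + x c e) (h5 : x c e ≤ x b c + x b e) : False :=
  h.single hd hV (P1 _ _ _ _ _ _ (by linarith) (by linarith) (by linarith) (by linarith)
    (by linarith) (by linarith))

theorem Sol.n2 (h : Sol p x) (hd : Dist a b c e) (hV : x a c + x b c < x a b)
    (hV' : x a e + x b e < x a b) (h2 : x c e ≤ x a c + x a e) (h3 : x a e ≤ x a c + x c e)
    (h4 : x a c ≤ x a e + x c e)
    (h5 : x b e ≤ x b c + x c e) (h6 : x c e ≤ x b c + x b e) (h7 : x b c ≤ x b e + x c e) :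
    False := by
  have key : 0 ≤ N2 (x a b) (x a c) (x b c) (x a e) (x b e) (x c e) +
      N2 (x a b) (x a e) (x b e) (x a c) (x b c) (x c e) := by
    rcases le_total (x a e + x b e) (x a c + x b c) with hle | hle
    · exact P2 _ _ _ _ _ _ (by linarith) (by linarith) (by linarith) (by linarith) (by linarith)
        (by linarith)
    · rw [add_comm]
      exact P2 _ _ _ _ _ _ (by linarith) (by linarith) (by linarith) (by linarith) (by linarith)
        (by linarith)
  rcases le_or_gt 0 (N2 (x a b) (x a c) (x b c) (x a e) (x b e) (x c e)) with hN | hN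
  · exact h.single hd hV hN
  · refine h.single hd.ec hV' ?_
    rw [h.symm e c]
    linarith

theorem Sol.n3 (h : Sol p x) (hd : Dist a b c e) (hV : x a c + x b c < x a b)
    (hV' : x a e + x b e < x a b) (hV'' : x a e + x c e < x a c)
    (h5 : x b e ≤ x b c + x c e) (h6 : x c e ≤ x b c + x b e) (h7 : x b c ≤ x b e + x c e) :
    False := by
  have hd' := hd
  obtain ⟨d1, d2, d3, d4, d5, d6⟩ := hd'
  have hae := h.pos _ _ d3
  have hac := h.pos _ _ d2
  have key := P3 (x a b) (x a c) (x b c) (x a e) (x b e) (x c e) (by linarith) (by linarith)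
    (by linarith) (by linarith) (by linarith) (by linarith)
  have s1 : N2 (x a b) (x a c) (x b c) (x a e) (x b e) (x c e) < 0 := by
    by_contra hc
    exact h.single hd hV (not_lt.1 hc)
  have s2 : N2 (x a b) (x a e) (x b e) (x a c) (x b c) (x c e) < 0 := by
    by_contra hc
    refine h.single hd.ec hV' ?_
    rw [h.symm e c]
    exact not_lt.1 hc
  have s3 : N2 (x a c) (x a e) (x c e) (x a b) (x b c) (x b e) < 0 := by
    by_contra hc
    refine h.single (a := a) (b := c) (c := e) (e := b) hd.cb.ec hV'' ?_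
    rw [h.symm c b, h.symm e b]
    exact not_lt.1 hc
  have t1 := mul_neg_of_pos_of_neg hae s1
  have t2 := mul_neg_of_pos_of_neg hac s2
  have t3 := mul_neg_of_pos_of_neg hac s3
  linarith

theorem Sol.n10 (h : Sol p x) (hd : Dist a b c e) (hV : x a c + x b c < x a b)
    (hV' : x a c + x c e < x a e) (h1 : x a b ≤ x a e + x b e) (h1' : x a e ≤ x a b + x b e)
    (h5 : x b e ≤ x b c + x c e) (h6 : x c e ≤ x b c + x b e) (h7 : x b c ≤ x b e + x c e) :
    False := by
  have hd' := hd
  obtain ⟨d1, d2, d3, d4, d5, d6⟩ := hd'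
  have hab := h.pos _ _ d1
  have hac := h.pos _ _ d2
  have hae := h.pos _ _ d3
  have hbc := h.pos _ _ d4
  have hce := h.pos _ _ d6
  have s1 : N2 (x a b) (x a c) (x b c) (x a e) (x b e) (x c e) < 0 := by
    by_contra hc
    exact h.single hd hV (not_lt.1 hc)
  have s2 : N2 (x a e) (x a c) (x c e) (x a b) (x b e) (x b c) < 0 := by
    by_contra hc
    refine h.single (a := a) (b := e) (c := c) (e := b) hd.ec.cb.ec (by rw [h.symm e c]; exact hV')
      ?_
    rw [h.symm e c, h.symm e b, h.symm c b]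
    exact not_lt.1 hc
  rcases le_total (x a e - x c e) (x a b - x b c) with hle | hle
  · have key := P10 (x a b) (x a c) (x b c) (x a e) (x b e) (x c e) (by linarith) (by linarith)
      (by linarith) (by linarith) (by linarith) (by linarith)
    have t1 := mul_neg_of_pos_of_neg (mul_pos hce hae) s1
    have t2 := mul_neg_of_pos_of_neg (mul_pos hbc hab) s2
    linarith
  · have key := P10 (x a e) (x a c) (x c e) (x a b) (x b e) (x b c) (by linarith) (by linarith)
      (by linarith) (by linarith) (by linarith) (by linarith)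
    have t1 := mul_neg_of_pos_of_neg (mul_pos hce hae) s1
    have t2 := mul_neg_of_pos_of_neg (mul_pos hbc hab) s2
    linarith

theorem Sol.n12 (h : Sol p x) (hd : Dist a b c e) (hV : x a c + x b c < x a b)
    (hV' : x a c + x a e < x c e) (h1 : x a b ≤ x a e + x b e) (h1' : x a e ≤ x a b + x b e)
    (h1'' : x b e ≤ x a b + x a e)
    (h5 : x b e ≤ x b c + x c e) (h6 : x c e ≤ x b c + x b e) (h7 : x b c ≤ x b e + x c e) :
    False := by
  have hd' := hd
  obtain ⟨d1, d2, d3, d4, d5, d6⟩ := hd'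
  have hac := h.pos _ _ d2
  rcases le_total (x c e - x a e) (x a b - x b c) with hle | hle
  · exact h.single hd hV (P12 _ _ _ _ _ _ (by linarith) (by linarith) (by linarith) (by linarith)
      (by linarith) (by linarith))
  · refine h.single (a := c) (b := e) (c := a) (e := b) hd.ba.cb.ec.ba.cb.ba.ec.ba ?_ ?_
    · rw [h.symm c a, h.symm e a]
      exact hV'
    · rw [h.symm c a, h.symm e a, h.symm c b, h.symm e b]
      exact P12 _ _ _ _ _ _ (by linarith) (by linarith) (by linarith) (by linarith)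
        (by linarith) (by linarith)

theorem line_real {A B X Y Q1 Q2 v ya : ℝ} (hA : 0 ≤ A) (hB : 0 ≤ B) (hAB : 0 < A + B)
    (hX : 0 < X) (hY : 0 < Y) (hv : 0 < v) (hya : 0 < ya)
    (h1 : v * (A * X + B * Y) ≤ (A + B) * ya * Q2) (h2 : ya * (B * X + A * Y) ≤ (A + B) * v * Q1) :
    X * Y ≤ Q1 * Q2 := by
  have g1 : (v * (A * X + B * Y)) * (ya * (B * X + A * Y)) ≤
      ((A + B) * ya * Q2) * ((A + B) * v * Q1) :=
    mul_le_mul h1 h2 (by positivity) (le_trans (by positivity) h1)
  have g2 : v * ya * ((A + B) ^ 2 * (X * Y)) ≤ (v * (A * X + B * Y)) * (ya * (B * X + A * Y)) := by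
    have g3 : 0 ≤ v * ya * (A * B * (X - Y) ^ 2) := by positivity
    linarith [g3, show (v * (A * X + B * Y)) * (ya * (B * X + A * Y)) -
      v * ya * ((A + B) ^ 2 * (X * Y)) = v * ya * (A * B * (X - Y) ^ 2) by ring]
  have g4 : v * ya * (A + B) ^ 2 * (X * Y) ≤ v * ya * (A + B) ^ 2 * (Q1 * Q2) := by
    calc v * ya * (A + B) ^ 2 * (X * Y) = v * ya * ((A + B) ^ 2 * (X * Y)) := by ring
      _ ≤ (v * (A * X + B * Y)) * (ya * (B * X + A * Y)) := g2
      _ ≤ _ := g1
      _ = v * ya * (A + B) ^ 2 * (Q1 * Q2) := by ring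
  exact le_of_mul_le_mul_left g4 (by positivity)

theorem drop3 {S a b c P Q R : ℝ} (h : 0 ≤ S + a * P + b * Q + c * R) (ha : 0 ≤ a) (hb : 0 ≤ b)
    (hc : 0 ≤ c) (hP : P ≤ 0) (hQ : Q ≤ 0) (hR : R ≤ 0) : 0 ≤ S := by
  have h1 := mul_nonpos_of_nonneg_of_nonpos ha hP
  have h2 := mul_nonpos_of_nonneg_of_nonpos hb hQ
  have h3 := mul_nonpos_of_nonneg_of_nonpos hc hR
  linarith

theorem drop4 {S a b c d P Q R T : ℝ} (h : 0 ≤ S + a * P + b * Q + c * R + d * T) (ha : 0 ≤ a)
    (hb : 0 ≤ b) (hc : 0 ≤ c) (hd : 0 ≤ d) (hP : P ≤ 0) (hQ : Q ≤ 0) (hR : R ≤ 0) (hT : T ≤ 0) :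
    0 ≤ S := by
  have h1 := mul_nonpos_of_nonneg_of_nonpos ha hP
  have h2 := mul_nonpos_of_nonneg_of_nonpos hb hQ
  have h3 := mul_nonpos_of_nonneg_of_nonpos hc hR
  have h4 := mul_nonpos_of_nonneg_of_nonpos hd hT
  linarith

/-- The line, with the larger excess at `a`. -/
theorem Sol.n5' (h : Sol p x) (hd : Dist a b c e) (hV : x a c + x b c < x a b)
    (hV2 : x a e + x b e < x a b) (hV3 : x a c + x c e < x a e) (hV4 : x c e + x b e < x b c)
    (hk : x b c - x c e - x b e ≤ x a e - x a c - x c e) : False := by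
  have hd' := hd
  obtain ⟨d1, d2, d3, d4, d5, d6⟩ := hd'
  have hab := h.pos _ _ d1
  have hac := h.pos _ _ d2
  have hae := h.pos _ _ d3
  have hbc := h.pos _ _ d4
  have hbe := h.pos _ _ d5
  have hce := h.pos _ _ d6
  have s1 : N2 (x a b) (x a c) (x b c) (x a e) (x b e) (x c e) < 0 := by
    by_contra hc
    exact h.single hd hV (not_lt.1 hc)
  have s2 : N2 (x a b) (x a e) (x b e) (x a c) (x b c) (x c e) < 0 := by
    by_contra hc
    refine h.single hd.ec hV2 ?_
    rw [h.symm e c]
    exact not_lt.1 hc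
  have s3 : N2 (x a e) (x a c) (x c e) (x a b) (x b e) (x b c) < 0 := by
    by_contra hc
    refine h.single (a := a) (b := e) (c := c) (e := b) hd.ec.cb.ec (by rw [h.symm e c]; exact hV3)
      ?_
    rw [h.symm e c, h.symm e b, h.symm c b]
    exact not_lt.1 hc
  have s4 : N2 (x b c) (x c e) (x b e) (x a c) (x a b) (x a e) < 0 := by
    by_contra hc
    refine h.single (a := c) (b := b) (c := e) (e := a) hd.cb.ba.cb.ec
      (by rw [h.symm c b]; exact hV4) ?_
    rw [h.symm c b, h.symm c a, h.symm b a, h.symm e a]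
    exact not_lt.1 hc
  obtain ⟨D, hD⟩ : ∃ D, D = x b c - x c e - x b e := ⟨_, rfl⟩
  obtain ⟨k, hk'⟩ : ∃ k, k = (x a e - x a c - x c e) - D := ⟨_, rfl⟩
  obtain ⟨m, hm⟩ : ∃ m, m = x a b + x c e - x a e - x b c := ⟨_, rfl⟩
  have hD0 : 0 ≤ D := by linarith
  have hk0 : 0 ≤ k := by linarith
  rcases le_total m 0 with hm0 | hm0
  · have key := P5a (x a b) (x a c) (x b c) (x a e) (x b e) (x c e) (by linarith) (by linarith)
      (by linarith) (by linarith) (by linarith) (by linarith)
    linarith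
  · have ev : x c e + x b e + D = x b c := by linarith
    have eya : x a c + x c e + D + k = x a e := by linarith
    have ew : x a c + x c e + x b e + 2 * D + k + m = x a b := by linarith
    have i1 := I1_t (x a c) (x c e) (x b e) D k m hac.le hce.le hbe.le hD0 hk0 hm0
    have i2 := I2_t (x a c) (x c e) (x b e) D k m hac.le hce.le hbe.le hD0 hk0 hm0
    rw [ev, eya, ew] at i1 i2
    have j1 := drop3 i1 (by positivity) (by positivity) (by positivity) s1.le s3.le s4.le
    have j2 := drop4 i2 (by positivity) (by positivity) (by positivity) (by positivity) s1.le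
      s2.le s3.le s4.le
    have j2' := nonneg_of_mul_nonneg_right j2 (by positivity : 0 < 2 * x a c + x c e)
    refine h.pair hd hV hV2 ?_
    have g := line_real (A := 2 * x c e + D) (B := D)
      (X := -N2 (x a b) (x a c) (x b c) (x a e) (x b e) (x c e))
      (Y := -N2 (x a b) (x a e) (x b e) (x a c) (x b c) (x c e))
      (Q1 := M2 (x a b) (x a c) (x b c) (x a e) (x b e) (x c e))
      (Q2 := M2 (x a b) (x a e) (x b e) (x a c) (x b c) (x c e)) (by positivity) hD0
      (by positivity) (by linarith) (by linarith) hbc hae (by linarith) (by linarith)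
    linarith

theorem Sol.n5 (h : Sol p x) (hd : Dist a b c e) (hV : x a c + x b c < x a b)
    (hV2 : x a e + x b e < x a b) (hV3 : x a c + x c e < x a e) (hV4 : x c e + x b e < x b c) :
    False := by
  have s1 := h.symm b a
  have s2 := h.symm c a
  have s3 := h.symm e a
  have s4 := h.symm c b
  have s5 := h.symm e b
  have s6 := h.symm e c
  rcases le_total (x b c - x c e - x b e) (x a e - x a c - x c e) with hk | hk
  · exact h.n5' hd hV hV2 hV3 hV4 hk
  · exact h.n5' (a := b) (b := a) (c := e) (e := c) hd.ba.ec (by linarith) (by linarith)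
      (by linarith) (by linarith) (by linarith)

end Pool.Agent.Helper58.EF
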